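import Pool.Agent.Run7.h293.Dig

set_option autoImplicit false

/-! # The coefficient vectors of the digits in base `b` -/

namespace Run7.h293.Dg

open Finset

/-- the integers below `b ^ K` with exactly `r` nonzero digits, as values of coefficient vectors -/
lemma bij_digits (b : ℕ) (hb : 2 ≤ b) (K r : ℕ) :
    Set.BijOn (fun c : Fin K → ℤ => vl b c) (VV (Icc 1 ((b : ℤ) - 1)) K r : Set (Fin K → ℤ))
      {n : ℤ | ∃ m : ℕ, n = m ∧ m < b ^ K ∧ ((range K).filter (fun i => m / b ^ i % b ≠ 0)).card = r} := by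
  classical
  have : NeZero b := ⟨by omega⟩
  -- vectors as functions into `Fin b`
  have key : ∀ c ∈ VV (Icc 1 ((b : ℤ) - 1)) K r, ∃ f : Fin K → Fin b, ∀ i, c i = ((f i : ℕ) : ℤ) := by
    intro c hc
    rw [mem_VV] at hc
    have h1 : ∀ i, 0 ≤ c i ∧ c i < b := by
      intro i
      rcases hc.1 i with h | h
      · rw [h]
        omega
      · rw [mem_Icc] at h
        omega
    refine ⟨fun i => ⟨(c i).toNat, ?_⟩, fun i => ?_⟩
    · have := h1 i
      omega
    · have := h1 i
      simp only
      omega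
  have hval : ∀ (c : Fin K → ℤ) (f : Fin K → Fin b), (∀ i, c i = ((f i : ℕ) : ℤ)) →
      vl b c = ((finFunctionFinEquiv f : ℕ) : ℤ) := by
    intro c f h
    rw [finFunctionFinEquiv_apply]
    unfold vl
    push_cast
    exact sum_congr rfl fun i _ => by rw [h i]
  have hdig : ∀ (f : Fin K → Fin b) (i : Fin K),
      ((finFunctionFinEquiv f : Fin (b ^ K)) : ℕ) / b ^ (i : ℕ) % b = f i := by
    intro f i
    have h := congrFun (finFunctionFinEquiv.symm_apply_apply f) i
    have h2 := congrArg (fun z : Fin b => (z : ℕ)) h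
    simp only [finFunctionFinEquiv_symm_apply_val] at h2
    exact h2
  have hcnt : ∀ (m : ℕ), ((range K).filter (fun i => m / b ^ i % b ≠ 0)).card =
      (univ.filter (fun i : Fin K => m / b ^ (i : ℕ) % b ≠ 0)).card := by
    intro m
    rw [← card_image_of_injective (univ.filter (fun i : Fin K => m / b ^ (i : ℕ) % b ≠ 0)) Fin.val_injective]
    congr 1
    ext i
    rw [mem_filter, mem_range, mem_image]
    constructor
    · rintro ⟨h1, h2⟩
      exact ⟨⟨i, h1⟩, by rw [mem_filter]; exact ⟨mem_univ _, h2⟩, rfl⟩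
    · rintro ⟨j, hj, rfl⟩
      rw [mem_filter] at hj
      exact ⟨j.isLt, hj.2⟩
  refine ⟨?_, ?_, ?_⟩
  · intro c hc
    rw [mem_coe] at hc
    obtain ⟨f, hf⟩ := key c hc
    refine ⟨(finFunctionFinEquiv f : Fin (b ^ K)), hval c f hf, (finFunctionFinEquiv f).isLt, ?_⟩
    rw [hcnt]
    rw [mem_VV] at hc
    rw [← hc.2]
    congr 1
    ext i
    rw [mem_filter, mem_filter, hdig, hf i]
    simp
  · intro c hc c' hc' h
    rw [mem_coe] at hc hc'
    obtain ⟨f, hf⟩ := key c hc
    obtain ⟨f', hf'⟩ := key c' hc'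
    simp only at h
    rw [hval c f hf, hval c' f' hf'] at h
    have h1 : finFunctionFinEquiv f = finFunctionFinEquiv f' := by
      apply Fin.ext
      exact_mod_cast h
    have h2 := finFunctionFinEquiv.injective h1
    funext i
    rw [hf i, hf' i, h2]
  · rintro n ⟨m, rfl, hm, hr⟩
    obtain ⟨f, hf⟩ : ∃ f : Fin K → Fin b, finFunctionFinEquiv f = ⟨m, hm⟩ := finFunctionFinEquiv.surjective _
    have hfm : ((finFunctionFinEquiv f : Fin (b ^ K)) : ℕ) = m := by rw [hf]
    refine ⟨fun i => ((f i : ℕ) : ℤ), ?_, ?_⟩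
    · rw [mem_coe, mem_VV]
      refine ⟨fun i => ?_, ?_⟩
      · have := (f i).isLt
        by_cases h : (f i : ℕ) = 0
        · left
          simp [h]
        · right
          rw [mem_Icc]
          omega
      · rw [hcnt] at hr
        rw [← hr]
        congr 1
        ext i
        rw [mem_filter, mem_filter, ← hfm, hdig]
        simp
    · have := hval (fun i => ((f i : ℕ) : ℤ)) f (fun i => rfl)
      rw [hfm] at this
      exact this

end Run7.h293.Dg
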