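import Pool.Agent.Run7.h293.Fin

set_option autoImplicit false

/-! # Exceptional members of a family: from one `x` to all `x` -/

namespace Run7.h293

open Finset Filter Pool.Agent.H730R2.AA Pool.Agent.H730R2.AA.Grid Pool.Agent.R459.Eq Pool.Agent.R318.PR

/-- all `x`, for any family -/
theorem all_abs (M : ℕ) (f : ℕ → ℤ → ℝ) (δ : ℝ)
    (N : ℤ → ℕ → ℕ) (hN : ∀ v, Monotone (N v)) (K₀ : ℝ)
    (hK₀ : ∀ n x, |(N n x : ℝ) - ∑ p ∈ GP M x, f p n| ≤ K₀)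
    (B : ℕ) (ε : ℝ) (hε : 0 < ε) : ∃ ε₀ : ℝ, 0 < ε₀ ∧ ∀ (C : ℝ) (X1 : ℕ), 0 < C → ∃ (C' : ℝ) (X₀ : ℕ),
      0 < C' ∧ 4 ≤ X₀ ∧ ∀ (ι : Type) (W : Finset ι) (n : ι → ℤ) (K : ℕ),
      (∀ x : ℕ, X1 ≤ x → x ^ 5 ≤ 1024 * K → ∀ E : Finset ι, E ⊆ W →
        (∀ i ∈ E, ε₀ * (Nat.primeCounting x : ℝ) < |∑ p ∈ GP M x, f p (n i) - δ * Nat.primeCounting x|) →
        (E.card : ℝ) ≤ C * (W.card / Real.log x ^ (B + 2))) →
      ∀ X : ℕ, X₀ ≤ X → ∀ E : Finset ι, E ⊆ W →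
      (∀ i ∈ E, ∃ x : ℕ, X ≤ x ∧ x ^ 5 ≤ K ∧ ε * (Nat.primeCounting x : ℝ) <
        |(N (n i) x : ℝ) - δ * Nat.primeCounting x|) →
      (E.card : ℝ) ≤ C' * (W.card / Real.log X ^ B) := by
  classical
  have hd := abs_nonneg δ
  obtain ⟨ε₁, hε₁def⟩ : ∃ ε₁ : ℝ, ε₁ = min 1 (ε / (|δ| + 3)) := ⟨_, rfl⟩
  have hε₁ : 0 < ε₁ := by rw [hε₁def]; exact lt_min one_pos (by positivity)
  have hε₁1 : ε₁ ≤ 1 := by rw [hε₁def]; exact min_le_left _ _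
  have hεε : (|δ| + 3) * ε₁ ≤ ε := by
    have : ε₁ ≤ ε / (|δ| + 3) := by rw [hε₁def]; exact min_le_right _ _
    rw [le_div_iff₀ (by positivity)] at this
    linarith
  refine ⟨ε₁ / 2, by positivity, fun C X1 hC => ?_⟩
  obtain ⟨ρ, hρ, hρ2, X2, hX2, hpi⟩ := pi_ratio ε₁ hε₁
  obtain ⟨X3, hX34, hX3⟩ := small_ev K₀ (ε₁ / 2) (by positivity)
  have hρ0 : 0 < ρ := by linarith
  have hρρ : 0 < ρ ^ 2 - ρ := by nlinarith
  have hlρ : 0 < Real.log ρ := Real.log_pos hρ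
  obtain ⟨X, hX⟩ : ∃ X, X = max (max X1 X2) X3 := ⟨_, rfl⟩
  have hXX1 : X1 ≤ X := by rw [hX]; exact (le_max_left _ _).trans (le_max_left _ _)
  have hXX2 : X2 ≤ X := by rw [hX]; exact (le_max_right _ _).trans (le_max_left _ _)
  have hXX3 : X3 ≤ X := by rw [hX]; exact le_max_right _ _
  obtain ⟨S, hS, hgrid⟩ := grid_log ρ hρ B
  obtain ⟨R, hR'⟩ := exists_nat_ge (1 / (ρ ^ 2 - ρ))
  refine ⟨C * (S * (2 * Real.log ρ) ^ B), 2 * (X + R) + 4, by positivity, by omega, ?_⟩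
  intro ι W n K h1 Y hY E hE hbad
  have hY4 : 4 ≤ Y := by omega
  have hY1 : (1 : ℝ) ≤ Y := by exact_mod_cast (by omega : 1 ≤ Y)
  have hY0 : (0 : ℝ) < Y := by linarith
  obtain ⟨J0, hJ1, hJ2⟩ := exists_nat_pow_near hY1 hρ
  have hlogY : 1 ≤ Real.log Y := log_one_le hY4
  have hJ01 : 1 ≤ J0 := by
    by_contra hcon
    have : J0 = 0 := by omega
    rw [this] at hJ2
    have h4 : (4 : ℝ) ≤ Y := by exact_mod_cast hY4
    simp only [zero_add, pow_one] at hJ2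
    linarith
  have hhalf : (Y : ℝ) / 2 ≤ ρ ^ J0 := by
    rw [pow_succ] at hJ2
    have h2 : ρ ^ J0 * ρ ≤ ρ ^ J0 * 2 := mul_le_mul_of_nonneg_left hρ2 (by positivity)
    linarith
  have hYr : 2 * ((X : ℝ) + R) + 4 ≤ Y := by exact_mod_cast hY
  have hXQ : (X : ℝ) + R ≤ g ρ J0 := by
    have := g_ge (ρ := ρ) J0
    linarith
  have hgJ0X : X ≤ g ρ J0 := by
    have h2 : (X : ℝ) ≤ g ρ J0 := by
      have : (0 : ℝ) ≤ R := Nat.cast_nonneg _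
      linarith
    exact_mod_cast h2
  have hgJ01 : 1 ≤ (ρ ^ 2 - ρ) * g ρ J0 := by
    have h2 : 1 / (ρ ^ 2 - ρ) ≤ g ρ J0 := by
      have : (0 : ℝ) ≤ X := Nat.cast_nonneg _
      linarith
    rw [div_le_iff₀ hρρ] at h2
    linarith
  have hgY : g ρ J0 ≤ Y := Nat.ceil_le.2 hJ1
  obtain ⟨L, hL⟩ := pow_unbounded_of_one_lt ((1024 * K : ℕ) : ℝ) hρ
  obtain ⟨I, hI⟩ : ∃ I : Finset ℕ, I = (range L).filter (fun j => J0 ≤ j ∧ (g ρ j) ^ 5 ≤ 1024 * K) := ⟨_, rfl⟩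
  obtain ⟨EE, hEE⟩ : ∃ EE : ℕ → Finset ι, EE = fun j => E.filter (fun k =>
    ε₁ * (Nat.primeCounting (g ρ j) : ℝ) <
      |(N (n k) (g ρ j) : ℝ) - δ * Nat.primeCounting (g ρ j)|) := ⟨_, rfl⟩
  have hcover : E ⊆ I.biUnion EE := by
    intro i hi
    obtain ⟨x, hx1, hx2, hx3⟩ := hbad i hi
    obtain ⟨j, hj1, hj2, hj3⟩ := coreG (N (n i)) (hN _) δ hε₁ hε₁1 hεε hρ hρ2
      (fun x y hx => hpi x y (hXX2.trans hx)) hgJ0X hgJ01 x (hgY.trans hx1) hx3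
    rw [mem_biUnion]
    have hgW : (g ρ j) ^ 5 ≤ 1024 * K := by
      calc (g ρ j) ^ 5 ≤ (4 * x) ^ 5 := Nat.pow_le_pow_left hj2 _
        _ = 1024 * x ^ 5 := by rw [mul_pow]; norm_num
        _ ≤ 1024 * K := Nat.mul_le_mul_left _ hx2
    refine ⟨j, ?_, ?_⟩
    · rw [hI, mem_filter, mem_range]
      refine ⟨?_, hj1, hgW⟩
      by_contra hcon
      push Not at hcon
      have h2 : ρ ^ L ≤ ρ ^ j := pow_le_pow_right₀ hρ.le hcon
      have h3 := g_ge (ρ := ρ) j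
      have h4 : g ρ j ≤ (g ρ j) ^ 5 := Nat.le_self_pow (by omega) _
      have h5 : (g ρ j : ℝ) ≤ ((1024 * K : ℕ) : ℝ) := by exact_mod_cast h4.trans hgW
      linarith
    · rw [hEE, mem_filter]
      exact ⟨hi, hj3⟩
  have h2 : (E.card : ℝ) ≤ ∑ j ∈ I, ((EE j).card : ℝ) := by
    exact_mod_cast (card_le_card hcover).trans card_biUnion_le
  have h3 : ∀ j ∈ I, ((EE j).card : ℝ) ≤ (C * W.card) * (1 / Real.log (g ρ j) ^ (B + 2)) := by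
    intro j hj
    rw [hI, mem_filter] at hj
    have hgX : X ≤ g ρ j := hgJ0X.trans (g_mono hρ hj.2.1)
    have hgj : X1 ≤ g ρ j := hXX1.trans hgX
    have h4 := h1 (g ρ j) hgj hj.2.2 (EE j) (by
      rw [hEE]
      exact (filter_subset _ _).trans hE) (by
      intro i hi
      rw [hEE, mem_filter] at hi
      have h4 := hi.2
      have h5 := hK₀ (n i) (g ρ j)
      have h6 := hX3 (g ρ j) (hXX3.trans hgX)
      have h7 : 0 ≤ Real.log (g ρ j) := Real.log_nonneg (g_one_le hρ j)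
      have h8 := abs_sub_le (N (n i) (g ρ j) : ℝ) (∑ p ∈ GP M (g ρ j), f p (n i))
        (δ * Nat.primeCounting (g ρ j))
      linarith)
    refine h4.trans (le_of_eq ?_)
    ring
  refine h2.trans ((sum_le_sum h3).trans ?_)
  rw [← mul_sum]
  have h4 := hgrid J0 hJ01 I (fun j hj => by rw [hI, mem_filter] at hj; exact hj.2.1)
  have hKr : (0 : ℝ) ≤ W.card := Nat.cast_nonneg _
  have hJ0r : (1 : ℝ) ≤ J0 := by exact_mod_cast hJ01
  have h5 : Real.log Y ≤ 2 * Real.log ρ * J0 := by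
    have h6 : Real.log Y ≤ (J0 + 1 : ℕ) * Real.log ρ := by
      rw [← Real.log_pow]
      exact Real.log_le_log hY0 hJ2.le
    push_cast at h6
    nlinarith
  have h6 : 1 / (J0 : ℝ) ^ B ≤ (2 * Real.log ρ) ^ B * (1 / Real.log Y ^ B) := by
    have h7 : Real.log Y ^ B ≤ (2 * Real.log ρ * J0) ^ B := pow_le_pow_left₀ (by linarith) h5 B
    rw [mul_pow] at h7
    rw [mul_one_div, div_le_div_iff₀ (by positivity) (by positivity)]
    linarith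
  calc C * W.card * ∑ j ∈ I, 1 / Real.log (g ρ j) ^ (B + 2) ≤ C * W.card * (S * (1 / (J0 : ℝ) ^ B)) :=
        mul_le_mul_of_nonneg_left h4 (by positivity)
    _ ≤ C * W.card * (S * ((2 * Real.log ρ) ^ B * (1 / Real.log Y ^ B))) := by gcongr
    _ = _ := by ring

end Run7.h293
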