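import Pool.Agent.Run7.h293.Rank
import Pool.Agent.R318.PR.FinB

set_option autoImplicit false

/-! # Primitive roots among the terms of a binary recurrence -/

namespace Run7.h293

open Finset Filter Pool.Agent.H730R2.AA Pool.Agent.R459.Eq Pool.Agent.R318.PR
open Pool.Agent.H730R2.AA.Grid
open Pool.Agent.H386R2.Artin (artinC)

lemma tau_one {p : ℕ} (hp : p.Prime) : (1 : ℝ) ≤ ((p - 1).divisors.card : ℝ) := by
  have h3 : 0 < (p - 1).divisors.card := by
    rw [card_pos, Nat.nonempty_divisors]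
    have := hp.two_le
    omega
  exact_mod_cast h3

/-- `D n ^ 2` is a primitive root -/
lemma EX_ind (p : ℕ) (hpp : p.Prime) (hp : p ≠ 2) (D : ℤ) (hD : ¬ (p : ℤ) ∣ D) :
    EX p (ind D p) (cc D p) ((p - 1).divisors.card : ℝ) := by
  classical
  have : Fact p.Prime := ⟨hpp⟩
  obtain ⟨β, h1, h2, _⟩ := expand p hp D hD
  have hcc := cc_mem D p
  refine ⟨ind_mem D p, hcc.1, hcc.2, β, ?_, ?_⟩
  · refine le_trans ?_ h2
    apply sum_le_sum_of_subset_of_nonneg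
    · intro χ _
      exact mem_univ _
    · intro χ _ _
      exact norm_nonneg _
  · intro n hn
    obtain ⟨m, hm⟩ := natres p hpp.pos n
    rw [ind_per D p n m hm]
    have e1 : ((n : ℤ) : ZMod p) = ((m : ℕ) : ZMod p) := by
      have := (ZMod.intCast_eq_intCast_iff_dvd_sub (m : ℤ) n p).2 hm
      rw [← this]
      simp
    have hm' : ¬ p ∣ m := by
      intro h
      apply hn
      have := dvd_add hm (Int.natCast_dvd_natCast.2 h)
      rwa [sub_add_cancel] at this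
    have h3 := h1 m
    rw [if_neg hm'] at h3
    rw [e1]
    unfold cc
    rw [← h3]
    unfold ind
    split_ifs <;> simp

open Pool.Agent.H730R2.AA.Exp in
/-- `n` is a primitive root -/
lemma EX_pri (p : ℕ) (hpp : p.Prime) : EX p (pri p) (rho p) ((p - 1).divisors.card : ℝ) := by
  classical
  have : Fact p.Prime := ⟨hpp⟩
  refine ⟨pri_mem p, ox_rho0 p, (ox_rho1 p).trans (by norm_num), fun χ => fc gen χ, ?_, ?_⟩
  · refine le_trans ?_ fc_gen_sum
    apply sum_le_sum_of_subset_of_nonneg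
    · intro χ _
      exact mem_univ _
    · intro χ _ _
      exact norm_nonneg _
  · intro n hn
    have hu : IsUnit ((n : ℤ) : ZMod p) := by
      rw [isUnit_iff_ne_zero, Ne, ZMod.intCast_zmod_eq_zero_iff_dvd]
      exact hn
    obtain ⟨a, ha⟩ := hu
    have h1 := fc_inv gen a
    rw [← add_sum_erase univ _ (mem_univ (1 : DirichletCharacter ℂ p)), fc_gen_one,
      MulChar.one_apply_coe, mul_one] at h1
    have h2 : (univ : Finset (DirichletCharacter ℂ p)).erase 1 = NT p := by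
      unfold NT
      ext χ
      simp
    rw [h2] at h1
    rw [← ha, h1]
    unfold pri gen
    rw [← ha, orderOf_units]
    split_ifs <;> simp

open Pool.Agent.H730R2.AA.Exp in
/-- `D n` is a square -/
lemma EX_qu (p : ℕ) (hpp : p.Prime) (hp : p ≠ 2) (D : ℤ) (hD : ¬ (p : ℤ) ∣ D) :
    EX p (qu D p) (1 / 2) ((p - 1).divisors.card : ℝ) := by
  classical
  have : Fact p.Prime := ⟨hpp⟩
  have hdiv := tau_one hpp
  have hq : qc p ∈ NT p := by
    simp only [NT, mem_filter]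
    exact ⟨mem_univ _, qc_ne hp⟩
  refine ⟨qu_mem D p, by norm_num, by norm_num,
    fun χ => if χ = qc p then qc p ((D : ℤ) : ZMod p) / 2 else 0, ?_, ?_⟩
  · refine le_trans ?_ hdiv
    rw [sum_eq_single (qc p)]
    · beta_reduce
      rw [if_pos rfl, norm_div]
      have := DirichletCharacter.norm_le_one (qc p) ((D : ℤ) : ZMod p)
      rw [Complex.norm_ofNat]
      linarith
    · intro χ _ h
      beta_reduce
      rw [if_neg h, norm_zero]
    · intro h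
      exact absurd hq h
  · intro n hn
    rw [sum_eq_single (qc p)]
    · beta_reduce
      rw [if_pos rfl]
      have e1 : qc p ((D : ℤ) : ZMod p) / 2 * qc p ((n : ℤ) : ZMod p) =
          qc p (((D * n : ℤ)) : ZMod p) / 2 := by
        push_cast
        rw [map_mul]
        ring
      rw [e1]
      have hDn : (((D * n : ℤ)) : ZMod p) ≠ 0 := by
        rw [Ne, ZMod.intCast_zmod_eq_zero_iff_dvd]
        intro h
        rcases (Nat.prime_iff_prime_int.1 hpp).dvd_or_dvd h with h | h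
        · exact hD h
        · exact hn h
      have e2 : qc p (((D * n : ℤ)) : ZMod p) =
          ((quadraticChar (ZMod p) (((D * n : ℤ)) : ZMod p) : ℤ) : ℂ) := by
        unfold qc
        rw [MulChar.ringHomComp_apply]
        rfl
      rw [e2]
      unfold qu
      split_ifs with hsq
      · rw [(quadraticChar_one_iff_isSquare hDn).2 hsq]
        push_cast
        norm_num
      · have : quadraticChar (ZMod p) (((D * n : ℤ)) : ZMod p) = -1 :=
          quadraticChar_neg_one_iff_not_isSquare.2 hsq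
        rw [this]
        push_cast
        norm_num
    · intro χ _ h
      beta_reduce
      rw [if_neg h, zero_mul]
    · intro h
      exact absurd hq h

/-- the bad primes divide a fixed integer -/
def MM (P Q : ℤ) (v : ℤ × ℤ) (D : ℤ) : ℕ :=
  2 * Q.natAbs * (P ^ 2 - 4 * Q).natAbs * (nf P Q v).natAbs * D.natAbs

lemma MM_ne {P Q : ℤ} (h : ND0 P Q) {v : ℤ × ℤ} (hv : nf P Q v ≠ 0) {D : ℤ} (hD : D ≠ 0) :
    MM P Q v D ≠ 0 := by
  unfold MM
  have h1 : P ^ 2 - 4 * Q ≠ 0 := sub_ne_zero.2 h.h4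
  exact mul_ne_zero (mul_ne_zero (mul_ne_zero (mul_ne_zero two_ne_zero (Int.natAbs_ne_zero.2 h.q))
    (Int.natAbs_ne_zero.2 h1)) (Int.natAbs_ne_zero.2 hv)) (Int.natAbs_ne_zero.2 hD)

lemma MM_Gd {P Q : ℤ} {v : ℤ × ℤ} {D : ℤ} {p : ℕ} (hp : p.Prime) (h : ¬ p ∣ MM P Q v D) : Gd P Q v p := by
  unfold MM at h
  refine ⟨hp, ?_, ?_, ?_, ?_⟩
  · rintro rfl
    exact h (Dvd.dvd.mul_right (Dvd.dvd.mul_right (Dvd.dvd.mul_right (Dvd.dvd.mul_right dvd_rfl _) _) _) _)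
  · intro h1
    exact h (Dvd.dvd.mul_right (Dvd.dvd.mul_right (Dvd.dvd.mul_right
      (Dvd.dvd.mul_left (Int.natCast_dvd.1 h1) _) _) _) _)
  · intro h1
    exact h (Dvd.dvd.mul_right (Dvd.dvd.mul_right (Dvd.dvd.mul_left (Int.natCast_dvd.1 h1) _) _) _)
  · intro h1
    exact h (Dvd.dvd.mul_right (Dvd.dvd.mul_left (Int.natCast_dvd.1 h1) _) _)

lemma MM_D {P Q : ℤ} {v : ℤ × ℤ} {D : ℤ} {p : ℕ} (h : ¬ p ∣ MM P Q v D) : ¬ (p : ℤ) ∣ D := by
  unfold MM at h
  intro h1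
  exact h (Dvd.dvd.mul_left (Int.natCast_dvd.1 h1) _)

lemma MM_2 {P Q : ℤ} {v : ℤ × ℤ} {D : ℤ} : 2 ∣ MM P Q v D := by
  unfold MM
  exact Dvd.dvd.mul_right (Dvd.dvd.mul_right (Dvd.dvd.mul_right (Dvd.dvd.mul_right dvd_rfl _) _) _) _

lemma MM_D' {P Q : ℤ} {v : ℤ × ℤ} {D : ℤ} : D.natAbs ∣ MM P Q v D := by
  unfold MM
  exact dvd_mul_left _ _

/-- the bases `D u_k ^ 2` -/
theorem artin_sq {P Q : ℤ} (h : ND0 P Q) (v : ℤ × ℤ) (hv : nf P Q v ≠ 0) (D : ℤ) (hD : Squarefree D)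
    (hD1 : D % 4 = 1) (hD2 : D ≠ 1) (B : ℕ) (ε : ℝ) (hε : 0 < ε) :
    ∃ (C : ℝ) (X₀ : ℕ), 0 < C ∧ 4 ≤ X₀ ∧ ∀ X K : ℕ, X₀ ≤ X → ∀ E : Finset ℕ, E ⊆ range K →
      (∀ k ∈ E, ∃ x : ℕ, X ≤ x ∧ x ^ 5 ≤ K ∧ ε * (Nat.primeCounting x : ℝ) <
        |(cnt (D * lv P Q v k ^ 2) x : ℝ) - dens D * Nat.primeCounting x|) →
      (E.card : ℝ) ≤ C * (K / Real.log X ^ B) := by
  have hD0 : D ≠ 0 := by rintro rfl; norm_num at hD1
  have hM0 := MM_ne h hv hD0
  refine all_x P Q v (MM P Q v D) (fun p hp hpM => MM_Gd hp hpM)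
    (rankLarge h v _ (fun p hp hpM => MM_Gd hp hpM)) (fun p n => ind D p n) (cc D) ?_ (dens D)
    (avg_cc D hD hD1 hD2 _ hM0 MM_2 MM_D') (fun n x => cnt (D * n ^ 2) x)
    (fun n x y hxy => cnt_mono _ hxy) ((MM P Q v D).primeFactors.card : ℝ) ?_ B ε hε
  · intro p hp hpM
    apply EX_ind p hp _ D (MM_D hpM)
    rintro rfl
    exact hpM MM_2
  · intro n x
    have := cnt_pri (MM P Q v D) hM0 (D * n ^ 2) x
    simp only [ind_eq]
    exact this

/-- the bases `u_k`, with Artin's constant -/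
theorem artin_one {P Q : ℤ} (h : ND0 P Q) (v : ℤ × ℤ) (hv : nf P Q v ≠ 0) (B : ℕ) (ε : ℝ) (hε : 0 < ε) :
    ∃ (C : ℝ) (X₀ : ℕ), 0 < C ∧ 4 ≤ X₀ ∧ ∀ X K : ℕ, X₀ ≤ X → ∀ E : Finset ℕ, E ⊆ range K →
      (∀ k ∈ E, ∃ x : ℕ, X ≤ x ∧ x ^ 5 ≤ K ∧ ε * (Nat.primeCounting x : ℝ) <
        |(cnt (lv P Q v k) x : ℝ) - artinC * Nat.primeCounting x|) →
      (E.card : ℝ) ≤ C * (K / Real.log X ^ B) := by
  have hM0 := MM_ne h hv one_ne_zero
  exact all_x P Q v (MM P Q v 1) (fun p hp hpM => MM_Gd hp hpM)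
    (rankLarge h v _ (fun p hp hpM => MM_Gd hp hpM)) (fun p n => pri p n) rho
    (fun p hp _ => EX_pri p hp) artinC
    (avg_rho _ hM0) (fun n x => cnt n x)
    (fun n x y hxy => cnt_mono _ hxy) ((MM P Q v 1).primeFactors.card : ℝ)
    (fun n x => cnt_pri _ hM0 n x) B ε hε

/-- few terms are squares up to the factor `D` -/
theorem few_sq {P Q : ℤ} (h : ND0 P Q) (v : ℤ × ℤ) (hv : nf P Q v ≠ 0) (D : ℤ) (hD : D ≠ 0) (B : ℕ) :
    ∃ (C : ℝ) (X₀ : ℕ), 0 < C ∧ 4 ≤ X₀ ∧ ∀ X K : ℕ, X₀ ≤ X → X ^ 5 ≤ 1024 * K → ∀ E : Finset ℕ,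
      E ⊆ range K → (∀ k ∈ E, IsSquare (D * lv P Q v k)) → (E.card : ℝ) ≤ C * (K / Real.log X ^ B) := by
  have hM0 := MM_ne h hv hD
  obtain ⟨M, hM⟩ : ∃ M, M = MM P Q v D := ⟨_, rfl⟩
  obtain ⟨C, X₀, hC, hX₀, hmain⟩ := one_x P Q v M (fun p hp hpM => MM_Gd hp (by rw [← hM]; exact hpM))
    (rankLarge h v _ (fun p hp hpM => MM_Gd hp (by rw [← hM]; exact hpM))) (fun p n => qu D p n) (fun _ => 1 / 2)
    (by
      intro p hp hpM
      rw [hM] at hpM
      apply EX_qu p hp _ D (MM_D hpM)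
      rintro rfl
      exact hpM MM_2) (1 / 2) (avg_half M (by rw [hM]; exact hM0)) B (1 / 4) (by norm_num)
  obtain ⟨X1, hX14, hX1⟩ := small_ev (M.primeFactors.card : ℝ) (1 / 8) (by norm_num)
  refine ⟨C, max X₀ X1, hC, hX₀.trans (le_max_left _ _), fun X K hX hXK E hE hsq => ?_⟩
  refine hmain X K ((le_max_left _ _).trans hX) hXK E hE fun k hk => ?_
  have hX1' : X1 ≤ X := (le_max_right _ _).trans hX
  have hX4 : 4 ≤ X := by omega
  have hpos := (pi_lower' X hX4).1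
  have h2 : ∑ p ∈ GP M X, qu D p (lv P Q v k) = ((GP M X).card : ℝ) := by
    have e : ∀ p ∈ GP M X, qu D p (lv P Q v k) = 1 := by
      intro p _
      unfold qu
      rw [if_pos]
      exact (hsq k hk).map (Int.castRingHom (ZMod p))
    rw [sum_congr rfl e, sum_const, nsmul_eq_mul, mul_one]
  have h3 := hX1 X hX1'
  have h8 : 0 ≤ Real.log X := Real.log_nonneg (by exact_mod_cast (by omega : 1 ≤ X))
  have h4 := GP_card_ge M (by rw [hM]; exact hM0) X
  rw [h2]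
  refine lt_of_lt_of_le ?_ (le_abs_self _)
  linarith

/-- the bases `u_k`, with the density that depends on the squarefree part -/
theorem artin_sf {P Q : ℤ} (h : ND0 P Q) (v : ℤ × ℤ) (hv : nf P Q v ≠ 0) (B : ℕ) (ε : ℝ) (hε : 0 < ε) :
    ∃ (C : ℝ) (X₀ : ℕ), 0 < C ∧ 4 ≤ X₀ ∧ ∀ X K : ℕ, X₀ ≤ X → ∀ E : Finset ℕ, E ⊆ range K →
      (∀ k ∈ E, ∃ x : ℕ, X ≤ x ∧ x ^ 5 ≤ K ∧ ∃ D s : ℤ, Squarefree D ∧ lv P Q v k = D * s ^ 2 ∧
        ε * (Nat.primeCounting x : ℝ) < |(cnt (lv P Q v k) x : ℝ) -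
          (if D % 4 = 1 then dens D else artinC) * Nat.primeCounting x|) →
      (E.card : ℝ) ≤ C * (K / Real.log X ^ B) := by
  classical
  obtain ⟨C₁, X₁, hC₁, hX₁, J₁⟩ := artin_one h v hv B (ε / 2) (by positivity)
  obtain ⟨N, hN⟩ := exists_nat_ge (2 / ε : ℝ)
  have h2 : ∀ D : ℤ, ∃ (C : ℝ) (X₀ : ℕ), 0 < C ∧ 4 ≤ X₀ ∧ (D ≠ 0 → ∀ X K : ℕ, X₀ ≤ X → X ^ 5 ≤ 1024 * K →
      ∀ E : Finset ℕ, E ⊆ range K → (∀ k ∈ E, IsSquare (D * lv P Q v k)) →
      (E.card : ℝ) ≤ C * (K / Real.log X ^ B)) := by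
    intro D
    by_cases hD : D = 0
    · exact ⟨1, 4, one_pos, le_rfl, fun h => absurd hD h⟩
    · obtain ⟨C, X₀, hC, hX₀, hJ⟩ := few_sq h v hv D hD B
      exact ⟨C, X₀, hC, hX₀, fun _ => hJ⟩
  choose C₂ X₂ hC₂ hX₂ J₂ using h2
  obtain ⟨R, hR⟩ : ∃ R : Finset ℤ, R = (Icc (-(N : ℤ)) N).filter (fun D => D ≠ 0) := ⟨_, rfl⟩
  refine ⟨C₁ + ∑ D ∈ R, C₂ D, X₁ + ∑ D ∈ R, X₂ D, ?_, by omega, ?_⟩
  · have : 0 ≤ ∑ D ∈ R, C₂ D := sum_nonneg fun D _ => (hC₂ D).le
    linarith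
  intro X K hX E hE hbad
  have hX4 : 4 ≤ X := by omega
  have hlog := log_one_le hX4
  have hKB : 0 ≤ (K : ℝ) / Real.log X ^ B := by positivity
  rcases E.eq_empty_or_nonempty with hemp | ⟨i₀, hi₀⟩
  · rw [hemp, card_empty, Nat.cast_zero]
    have h3 : 0 ≤ ∑ D ∈ R, C₂ D := sum_nonneg fun D _ => (hC₂ D).le
    exact mul_nonneg (by linarith) hKB
  have hXK : X ^ 5 ≤ 1024 * K := by
    obtain ⟨x, hx1, hx2, _⟩ := hbad i₀ hi₀
    calc X ^ 5 ≤ x ^ 5 := Nat.pow_le_pow_left hx1 _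
      _ ≤ K := hx2
      _ ≤ 1024 * K := by omega
  obtain ⟨EE, hEE⟩ : ∃ EE : ℤ → Finset ℕ, EE = fun D => E.filter (fun k => IsSquare (D * lv P Q v k)) := ⟨_, rfl⟩
  obtain ⟨E₁, hE₁⟩ : ∃ E₁ : Finset ℕ, E₁ = E.filter (fun k => ∃ x : ℕ, X ≤ x ∧ x ^ 5 ≤ K ∧
    ε / 2 * (Nat.primeCounting x : ℝ) < |(cnt (lv P Q v k) x : ℝ) - artinC * (Nat.primeCounting x : ℝ)|) :=
    ⟨_, rfl⟩
  have hcover : E ⊆ E₁ ∪ R.biUnion EE := by
    intro i hi
    obtain ⟨x, hx1, hx2, D, s, hDsf, hDs, hx3⟩ := hbad i hi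
    rw [mem_union]
    by_cases hsm : D.natAbs ≤ N
    · right
      rw [mem_biUnion]
      refine ⟨D, ?_, ?_⟩
      · rw [hR, mem_filter, mem_Icc]
        exact ⟨by omega, hDsf.ne_zero⟩
      · rw [hEE, mem_filter]
        refine ⟨hi, D * s, ?_⟩
        rw [hDs]
        ring
    · left
      rw [hE₁, mem_filter]
      refine ⟨hi, x, hx1, hx2, ?_⟩
      have hclose : |(if D % 4 = 1 then dens D else artinC) - artinC| ≤ ε / 2 := by
        split_ifs with h4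
        · refine (dens_close D hDsf h4).trans ?_
          have h5 : (2 / ε : ℝ) ≤ (D.natAbs : ℝ) := by
            refine hN.trans ?_
            exact_mod_cast (by omega : N ≤ D.natAbs)
          have h6 : (0 : ℝ) < 2 / ε := by positivity
          calc 1 / (D.natAbs : ℝ) ≤ 1 / (2 / ε) := one_div_le_one_div_of_le h6 h5
            _ = ε / 2 := by field_simp
        · rw [sub_self, abs_zero]
          positivity
      have h7 := abs_sub_le (cnt (lv P Q v i) x : ℝ) (artinC * (Nat.primeCounting x : ℝ))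
        ((if D % 4 = 1 then dens D else artinC) * (Nat.primeCounting x : ℝ))
      have h8 : |artinC * (Nat.primeCounting x : ℝ) -
          (if D % 4 = 1 then dens D else artinC) * (Nat.primeCounting x : ℝ)| ≤
          ε / 2 * (Nat.primeCounting x : ℝ) := by
        rw [abs_sub_comm, ← sub_mul, abs_mul, Nat.abs_cast]
        exact mul_le_mul_of_nonneg_right hclose (Nat.cast_nonneg _)
      linarith
  have h3 : (E.card : ℝ) ≤ (E₁.card : ℝ) + ∑ D ∈ R, ((EE D).card : ℝ) := by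
    have h4 := (card_le_card hcover).trans ((card_union_le _ _).trans (Nat.add_le_add_left card_biUnion_le _))
    exact_mod_cast h4
  have h4 : (E₁.card : ℝ) ≤ C₁ * (K / Real.log X ^ B) := by
    apply J₁ X K (by omega) E₁
    · rw [hE₁]
      exact (filter_subset _ _).trans hE
    · intro i hi
      rw [hE₁, mem_filter] at hi
      exact hi.2
  have h5 : ∑ D ∈ R, ((EE D).card : ℝ) ≤ ∑ D ∈ R, C₂ D * (K / Real.log X ^ B) := by
    apply sum_le_sum
    intro D hD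
    have hD0 : D ≠ 0 := by
      rw [hR, mem_filter] at hD
      exact hD.2
    have hXD : X₂ D ≤ X := by
      have := single_le_sum (f := X₂) (fun _ _ => Nat.zero_le _) hD
      omega
    apply J₂ D hD0 X K hXD hXK (EE D)
    · rw [hEE]
      exact (filter_subset _ _).trans hE
    · intro i hi
      rw [hEE, mem_filter] at hi
      exact hi.2
  rw [← sum_mul] at h5
  rw [add_mul]
  linarith

end Run7.h293
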