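import Pool.Agent.Run7.h293.Wt
import Pool.Agent.R318.PR.Mean

set_option autoImplicit false

/-! # Few shifted primes have a divisor near their square root -/

namespace Run7.h293.Bd

open Finset Filter
open Pool.Agent.Erdos456 (GG)
open Pool.Agent.H730R2.AA Pool.Agent.R459.Eq

lemma ev_u (c : ℝ) : ∀ᶠ u : ℝ in atTop, c * u ^ 3 ≤ Real.exp (u / 21) := by
  have h1 := Real.tendsto_pow_mul_exp_neg_atTop_nhds_zero 3
  have h2 : Tendsto (fun u : ℝ => u / 21) atTop atTop := tendsto_id.atTop_div_const (by norm_num)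
  have h3 := (h1.comp h2).eventually (gt_mem_nhds (show (0 : ℝ) < 1 / (9261 * (|c| + 1)) by positivity))
  filter_upwards [h3, eventually_ge_atTop 0] with u hu hu0
  simp only [Function.comp_apply] at hu
  rw [Real.exp_neg, ← div_eq_mul_inv, div_lt_div_iff₀ (Real.exp_pos _) (by positivity)] at hu
  have h4 : c * u ^ 3 ≤ (|c| + 1) * u ^ 3 := by
    apply mul_le_mul_of_nonneg_right _ (by positivity)
    linarith [le_abs_self c]
  have h5 : (u / 21) ^ 3 * (9261 * (|c| + 1)) = (|c| + 1) * u ^ 3 := by ring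
  linarith

lemma ev_lin (c : ℝ) : ∀ᶠ u : ℝ in atTop, c * u ≤ Real.exp u := by
  have h1 := Real.tendsto_pow_mul_exp_neg_atTop_nhds_zero 1
  have h3 := h1.eventually (gt_mem_nhds (show (0 : ℝ) < 1 / (|c| + 1) by positivity))
  filter_upwards [h3, eventually_ge_atTop 0] with u hu hu0
  rw [Real.exp_neg, ← div_eq_mul_inv, div_lt_div_iff₀ (Real.exp_pos _) (by positivity), pow_one] at hu
  have h4 : c * u ≤ (|c| + 1) * u := by
    apply mul_le_mul_of_nonneg_right _ hu0
    linarith [le_abs_self c]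
  linarith

lemma n1 {L u : ℝ} (hL : 0 ≤ L) (hu : 1 ≤ u) : L ≤ L * (6 * u) := by nlinarith

lemma n2 {L ε : ℝ} (hL : 1 ≤ L) (hε : 0 ≤ ε) : L * ε ≤ L ^ 2 * ε := by
  apply mul_le_mul_of_nonneg_right _ hε
  nlinarith

lemma n3 {s t : ℝ} (hs : 0 ≤ s) (ht : 1 ≤ t * t) : s ≤ s * t * t := by
  rw [mul_assoc]
  nlinarith

lemma n4 {L x : ℝ} (hL : 2 ≤ L) (hx : 0 ≤ x) : 2 * x ≤ L * x := mul_le_mul_of_nonneg_right hL hx

lemma n5 {x : ℝ} (hx : 10 ≤ x) : x + 1 ≤ x ^ 2 := by nlinarith

lemma n6 {u l w : ℝ} (hu : 0 ≤ u) (hl : 2 / 7 ≤ l) (hw : w ≤ u + 1) :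
    4 / 3 * w - 4 / 3 * l * u ≤ 4 / 3 + 20 / 21 * u := by nlinarith

lemma n7 {u l w v : ℝ} (hu : 0 ≤ u) (hl : l ≤ 0.6931471808) (hw : w ≤ u + 1) (hv : u - 2 * l ≤ v) :
    4 / 3 * l * u + 1 / 2 * w - 1 / 2 * v ≤ 4 / 3 + 20 / 21 * u := by nlinarith

lemma n8 {W s t : ℝ} (hW : 0 ≤ W) (h : s + 1 ≤ t) : W * s + W ≤ W * t := by nlinarith

theorem main_bad (C₀ : ℝ) (hC₀ : 0 < C₀) (A : ℕ) (ε : ℝ) (hε : 0 < ε) : ∃ X : ℕ, ∀ x : ℕ, X ≤ x →
    ∀ R : ℕ → Prop, (∀ m N : ℕ, 1 ≤ m → 2 ≤ N → ∀ S : Finset ℕ,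
      (∀ q ∈ S, q.Prime ∧ q ≤ N ∧ R (m * q)) → (S.card : ℝ) ≤ C₀ * GG m ^ 2 * N / Real.log N ^ 2) →
    ∀ T : Finset ℕ, (∀ n ∈ T, (1 ≤ n ∧ n ≤ x + 1) ∧ R n ∧ ∃ d, d ∣ n ∧
      Real.sqrt x / Real.log x ≤ (d : ℝ) ∧ (d : ℝ) ≤ Real.sqrt x * Real.log x ^ A) →
    (T.card : ℝ) ≤ ε * Nat.primeCounting x := by
  classical
  obtain ⟨Cs, hCs, hsm⟩ := Sm.smooth
  obtain ⟨Ct, hCt, htot⟩ := Wt.total
  obtain ⟨K3, hK3⟩ : ∃ K3 : ℝ, K3 = 16 / ε * (C₀ * 288 * Ct * Real.exp (4 / 3) * (2 * A + 6)) := ⟨_, rfl⟩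
  have hll : Tendsto (fun x : ℕ => Real.log (Real.log (x : ℝ))) atTop atTop :=
    Real.tendsto_log_atTop.comp (Real.tendsto_log_atTop.comp tendsto_natCast_atTop_atTop)
  have hev := hll.eventually ((ev_u K3).and ((ev_lin 48).and ((ev_lin (4 * (A + 2))).and
    ((ev_lin (32 / ε)).and ((ev_lin (64 * Cs / ε)).and (eventually_ge_atTop 3))))))
  obtain ⟨X, hX⟩ := eventually_atTop.1 hev
  refine ⟨X + 10, fun x hx R hR T hT => ?_⟩
  obtain ⟨h1, h2, h3, h4, h5, h6⟩ := hX x (by omega)
  have hx10 : 10 ≤ x := by omega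
  have hxr : (10 : ℝ) ≤ x := by exact_mod_cast hx10
  have hx0 : (0 : ℝ) < x := by linarith
  obtain ⟨L, hL⟩ : ∃ L, L = Real.log (x : ℝ) := ⟨_, rfl⟩
  rw [← hL] at h1 h2 h3 h4 h5 h6 hT
  obtain ⟨u, hu⟩ : ∃ u, u = Real.log L := ⟨_, rfl⟩
  rw [← hu] at h1 h2 h3 h4 h5 h6
  have hL0 : 0 < L := by
    rw [hL]
    exact Real.log_pos (by linarith)
  have hLu : Real.exp u = L := by rw [hu, Real.exp_log hL0]
  rw [hLu] at h2 h3 h4 h5
  have hu0 : 0 < u := by linarith
  have hL144 : 144 ≤ L := by linarith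
  have hpi := ox_cheb x (by omega)
  rw [← hL] at hpi
  have hpi' : x / L ≤ 4 * (Nat.primeCounting x : ℝ) := by
    rw [div_le_iff₀ hL0]
    linarith
  -- the smoothness parameter
  obtain ⟨z, hz⟩ : ∃ z : ℕ, z = ⌊Real.exp (L / (6 * u))⌋₊ := ⟨_, rfl⟩
  have hexp1 : 8 ≤ L / (6 * u) := by
    rw [le_div_iff₀ (by positivity)]
    linarith
  have hz1 : (z : ℝ) ≤ Real.exp (L / (6 * u)) := by
    rw [hz]
    exact Nat.floor_le (Real.exp_pos _).le
  have hz2 : Real.exp (L / (6 * u)) < z + 1 := by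
    rw [hz]
    exact Nat.lt_floor_add_one _
  have hexp2 : 8 ≤ Real.exp (L / (6 * u)) := by
    have := Real.add_one_le_exp (L / (6 * u))
    linarith
  have hz7 : (7 : ℝ) < z := by linarith
  have hz0 : (0 : ℝ) < z := by linarith
  have hlz1 : Real.log z ≤ L / (6 * u) := by
    have := Real.log_le_log hz0 hz1
    rwa [Real.log_exp] at this
  have hlz2 : L / (12 * u) ≤ Real.log z := by
    have h7 : Real.exp (L / (6 * u)) ≤ 2 * z := by linarith
    have h8 := Real.log_le_log (Real.exp_pos _) h7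
    rw [Real.log_exp, Real.log_mul (by norm_num) hz0.ne'] at h8
    have h9 : L / (6 * u) = L / (12 * u) + L / (12 * u) := by
      field_simp
      norm_num
    have h10 : 1 ≤ L / (12 * u) := by
      rw [le_div_iff₀ (by positivity)]
      linarith
    have := Real.log_two_lt_d9
    linarith
  have hlz4 : 4 ≤ Real.log z := by
    refine le_trans ?_ hlz2
    rw [le_div_iff₀ (by positivity)]
    linarith
  have hlz0 : 0 < Real.log z := by linarith
  have hs0 : 0 < Real.sqrt x := Real.sqrt_pos.2 hx0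
  have hss : Real.sqrt x * Real.sqrt x = x := Real.mul_self_sqrt hx0.le
  have hL1 : 1 ≤ L := by linarith
  -- splitting
  obtain ⟨T1, hT1⟩ : ∃ T1, T1 = T.filter (fun n : ℕ => (n : ℝ) ≤ x / L ^ 2) := ⟨_, rfl⟩
  obtain ⟨T2, hT2⟩ : ∃ T2, T2 = T.filter (fun n : ℕ => ∀ p : ℕ, p.Prime → p ∣ n → p ≤ z) := ⟨_, rfl⟩
  obtain ⟨T3, hT3⟩ : ∃ T3, T3 = T.filter (fun n : ℕ => (x : ℝ) / L ^ 2 < n ∧ ∃ p : ℕ, p.Prime ∧ p ∣ n ∧ z < p) :=
    ⟨_, rfl⟩
  have hcov : T ⊆ T1 ∪ (T2 ∪ T3) := by
    intro n hn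
    rw [mem_union, mem_union, hT1, hT2, hT3, mem_filter, mem_filter, mem_filter]
    rcases le_or_gt (n : ℝ) (x / L ^ 2) with h7 | h7
    · exact Or.inl ⟨hn, h7⟩
    · by_cases h8 : ∀ p : ℕ, p.Prime → p ∣ n → p ≤ z
      · exact Or.inr (Or.inl ⟨hn, h8⟩)
      · push Not at h8
        exact Or.inr (Or.inr ⟨hn, h7, h8⟩)
  have hc1 : (T1.card : ℝ) ≤ ε / 4 * Nat.primeCounting x := by
    have h7 : T1 ⊆ Icc 1 ⌊(x : ℝ) / L ^ 2⌋₊ := by
      intro n hn
      rw [hT1, mem_filter] at hn
      rw [mem_Icc]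
      exact ⟨(hT n hn.1).1.1, Nat.le_floor hn.2⟩
    have h8 := card_le_card h7
    rw [Nat.card_Icc, Nat.add_sub_cancel] at h8
    have h9 : (T1.card : ℝ) ≤ x / L ^ 2 := by
      calc (T1.card : ℝ) ≤ (⌊(x : ℝ) / L ^ 2⌋₊ : ℝ) := by exact_mod_cast h8
        _ ≤ _ := Nat.floor_le (by positivity)
    have h10 : x / L ^ 2 ≤ ε / 16 * (x / L) := by
      have h11 : 16 / ε ≤ L := by
        refine le_trans ?_ h4
        have h12 : 32 / ε * 1 ≤ 32 / ε * u := mul_le_mul_of_nonneg_left (by linarith) (by positivity)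
        have h13 : 16 / ε ≤ 32 / ε := div_le_div_of_nonneg_right (by norm_num) hε.le
        linarith
      rw [div_le_iff₀ hε] at h11
      have h12 : x / L ^ 2 = (x / L) * (1 / L) := by
        field_simp
      rw [h12, mul_comm]
      apply mul_le_mul_of_nonneg_right _ (by positivity)
      rw [div_le_div_iff₀ hL0 (by norm_num)]
      linarith
    have h11 : ε / 16 * (x / L) ≤ ε / 16 * (4 * (Nat.primeCounting x : ℝ)) :=
      mul_le_mul_of_nonneg_left hpi' (by positivity)
    linarith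
  have hc2 : (T2.card : ℝ) ≤ ε / 4 * Nat.primeCounting x := by
    have h7 := hsm z (x + 1) hlz4 (by omega) T2 (by
      intro n hn
      rw [hT2, mem_filter] at hn
      exact ⟨(hT n hn.1).1, hn.2⟩)
    refine h7.trans ?_
    have h8 : Real.exp (-(Real.log ((x + 1 : ℕ) : ℝ) / Real.log z)) ≤ 1 / L ^ 6 := by
      have h9 : 6 * u ≤ Real.log ((x + 1 : ℕ) : ℝ) / Real.log z := by
        rw [le_div_iff₀ hlz0]
        have h10 : L ≤ Real.log ((x + 1 : ℕ) : ℝ) := by
          rw [hL]
          apply Real.log_le_log hx0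
          push_cast
          linarith
        refine le_trans ?_ h10
        calc 6 * u * Real.log z ≤ 6 * u * (L / (6 * u)) := mul_le_mul_of_nonneg_left hlz1 (by positivity)
          _ = L := by field_simp
      have h10 : Real.exp (-(Real.log ((x + 1 : ℕ) : ℝ) / Real.log z)) ≤ Real.exp (-(6 * u)) :=
        Real.exp_le_exp.2 (by linarith)
      refine h10.trans (le_of_eq ?_)
      rw [Real.exp_neg, ← hLu, ← Real.exp_nat_mul]
      push_cast
      rw [one_div]
    have h9 : Real.log z ≤ L := by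
      refine hlz1.trans ?_
      rw [div_le_iff₀ (by positivity)]
      exact n1 hL0.le (by linarith)
    have h10 : Real.log z ^ 3 ≤ L ^ 3 := pow_le_pow_left₀ hlz0.le h9 3
    have h11 : (((x + 1 : ℕ) : ℝ)) ≤ 2 * x := by
      push_cast
      linarith
    calc Cs * ((x + 1 : ℕ) : ℝ) * Real.exp (-(Real.log ((x + 1 : ℕ) : ℝ) / Real.log z)) * Real.log z ^ 3 ≤
          Cs * (2 * x) * (1 / L ^ 6) * L ^ 3 := by gcongr
      _ = (2 * Cs / L ^ 2) * (x / L) := by
          field_simp
      _ ≤ (ε / 16) * (x / L) := by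
          apply mul_le_mul_of_nonneg_right _ (by positivity)
          rw [div_le_iff₀ (by positivity)]
          have h12 : 64 * Cs / ε ≤ L := by
            refine le_trans ?_ h5
            have : 64 * Cs / ε * 1 ≤ 64 * Cs / ε * u := mul_le_mul_of_nonneg_left (by linarith) (by positivity)
            linarith
          rw [div_le_iff₀ hε] at h12
          have h13 : L * ε ≤ L ^ 2 * ε := n2 hL1 hε.le
          linarith
      _ ≤ (ε / 16) * (4 * (Nat.primeCounting x : ℝ)) := mul_le_mul_of_nonneg_left hpi' (by positivity)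
      _ = _ := by ring
  have hc3 : (T3.card : ℝ) ≤ ε / 4 * Nat.primeCounting x := by
    obtain ⟨a, ha⟩ : ∃ a : ℝ, a = Real.sqrt x / L ^ (A + 2) := ⟨_, rfl⟩
    obtain ⟨b, hb⟩ : ∃ b : ℝ, b = Real.sqrt x * L ^ (A + 2) := ⟨_, rfl⟩
    have hLA : 0 < L ^ (A + 2) := by positivity
    have hLA1 : 1 ≤ L ^ (A + 2) := one_le_pow₀ hL1
    have ha0 : 0 < a := by rw [ha]; positivity
    have hb0 : 0 < b := by rw [hb]; positivity
    have hlogL : Real.log (L ^ (A + 2)) = (A + 2) * u := by
      rw [Real.log_pow, ← hu]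
      push_cast
      ring
    have hloga : Real.log a = L / 2 - (A + 2) * u := by
      rw [ha, Real.log_div hs0.ne' hLA.ne', Real.log_sqrt hx0.le, ← hL, hlogL]
    have hlogb : Real.log b = L / 2 + (A + 2) * u := by
      rw [hb, Real.log_mul hs0.ne' hLA.ne', Real.log_sqrt hx0.le, ← hL, hlogL]
    have hloga4 : L / 4 ≤ Real.log a := by
      rw [hloga]
      linarith
    have ha3 : 3 ≤ a := by
      have h7 : (3 : ℝ) ≤ Real.log a := by linarith
      have h8 := Real.log_le_sub_one_of_pos ha0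
      linarith
    have hab : a ≤ b := by
      rw [ha, hb, div_le_iff₀ hLA]
      have : 1 ≤ L ^ (A + 2) * L ^ (A + 2) := one_le_mul_of_one_le_of_one_le hLA1 hLA1
      exact n3 hs0.le this
    obtain ⟨M, hM⟩ : ∃ M : Finset ℕ, M = (Icc (1 : ℕ) (x + 1)).filter (fun m : ℕ =>
      (∃ d, d ∣ m ∧ a ≤ (d : ℝ) ∧ (d : ℝ) ≤ b) ∧ z < (x + 1) / m) := ⟨_, rfl⟩
    obtain ⟨S, hS⟩ : ∃ S : ℕ → Finset ℕ, S = fun m => (Icc 1 ((x + 1) / m)).filter
      (fun q => q.Prime ∧ R (m * q)) := ⟨_, rfl⟩
    have hcov3 : T3 ⊆ M.biUnion (fun m => (S m).image (fun q => m * q)) := by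
      intro n hn
      rw [hT3, mem_filter] at hn
      obtain ⟨hnT, hnbig, q, hq, hqn, hzq⟩ := hn
      obtain ⟨⟨hn1, hn2⟩, hRn, d, hdn, hd1, hd2⟩ := hT n hnT
      obtain ⟨m, hm⟩ := hqn
      have hm1 : 1 ≤ m := by
        rcases Nat.eq_zero_or_pos m with h | h
        · rw [h, mul_zero] at hm
          omega
        · exact h
      have hmn : m ≤ n := by
        rw [hm]
        exact Nat.le_mul_of_pos_left _ hq.pos
      have hqle : q ≤ (x + 1) / m := by
        rw [Nat.le_div_iff_mul_le hm1, ← hm]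
        exact hn2
      rw [mem_biUnion]
      refine ⟨m, ?_, ?_⟩
      · rw [hM, mem_filter, mem_Icc]
        refine ⟨⟨hm1, by omega⟩, ?_, by omega⟩
        by_cases hqd : q ∣ d
        · -- use the complementary divisor
          obtain ⟨e, he⟩ := hdn
          obtain ⟨d', hd'⟩ := hqd
          have hem : e ∣ m := by
            refine ⟨d', ?_⟩
            apply Nat.eq_of_mul_eq_mul_left hq.pos
            rw [← hm, he, hd']
            ring
          have hd0 : (0 : ℝ) < d := lt_of_lt_of_le (by positivity) hd1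
          have hne : (n : ℝ) = d * e := by exact_mod_cast he
          refine ⟨e, hem, ?_, ?_⟩
          · have h7 : (e : ℝ) = n / d := by
              rw [hne]
              field_simp
            rw [h7, ha, div_le_div_iff₀ hLA hd0]
            have h8 : x ≤ L ^ 2 * n := by
              rw [div_lt_iff₀ (by positivity)] at hnbig
              linarith
            calc Real.sqrt x * d ≤ Real.sqrt x * (Real.sqrt x * L ^ A) :=
                  mul_le_mul_of_nonneg_left hd2 hs0.le
              _ = x * L ^ A := by rw [← mul_assoc, hss]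
              _ ≤ (L ^ 2 * n) * L ^ A := mul_le_mul_of_nonneg_right h8 (by positivity)
              _ = _ := by ring
          · have h7 : (e : ℝ) = n / d := by
              rw [hne]
              field_simp
            rw [h7, hb, div_le_iff₀ hd0]
            have h8 : (n : ℝ) ≤ 2 * x := by
              have : (n : ℝ) ≤ x + 1 := by exact_mod_cast hn2
              linarith
            have h9 : (Real.sqrt x * L ^ 2) * (Real.sqrt x / L) = (Real.sqrt x * Real.sqrt x) * L := by
              field_simp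
            calc (n : ℝ) ≤ 2 * x := h8
              _ ≤ L * x := n4 (by linarith) hx0.le
              _ = (Real.sqrt x * L ^ 2) * (Real.sqrt x / L) := by
                  rw [h9, hss, mul_comm]
              _ ≤ (Real.sqrt x * L ^ (A + 2)) * (Real.sqrt x / L) := by
                  apply mul_le_mul_of_nonneg_right _ (by positivity)
                  apply mul_le_mul_of_nonneg_left _ hs0.le
                  exact pow_le_pow_right₀ hL1 (by omega)
              _ ≤ (Real.sqrt x * L ^ (A + 2)) * d := mul_le_mul_of_nonneg_left hd1 (by positivity)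
        · have hdm : d ∣ m := by
            have hcop : Nat.Coprime d q := (Nat.Coprime.symm ((Nat.Prime.coprime_iff_not_dvd hq).2 hqd))
            rw [hm] at hdn
            exact hcop.dvd_of_dvd_mul_left hdn
          refine ⟨d, hdm, ?_, ?_⟩
          · refine le_trans ?_ hd1
            rw [ha]
            apply div_le_div_of_nonneg_left hs0.le hL0
            calc L = L ^ 1 := (pow_one L).symm
              _ ≤ L ^ (A + 2) := pow_le_pow_right₀ hL1 (by omega)
          · refine hd2.trans ?_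
            rw [hb]
            apply mul_le_mul_of_nonneg_left _ hs0.le
            exact pow_le_pow_right₀ hL1 (by omega)
      · rw [mem_image]
        refine ⟨q, ?_, by rw [hm, mul_comm]⟩
        rw [hS, mem_filter, mem_Icc]
        refine ⟨⟨hq.one_lt.le, hqle⟩, hq, ?_⟩
        rw [mul_comm, ← hm]
        exact hRn
    have hcardS : ∀ m ∈ M, ((S m).card : ℝ) ≤ (C₀ * (2 * x) / Real.log z ^ 2) * (GG m ^ 2 / m) := by
      intro m hm
      rw [hM, mem_filter, mem_Icc] at hm
      obtain ⟨⟨hm1, hm2⟩, _, hzm⟩ := hm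
      have hm0 : (0 : ℝ) < m := by exact_mod_cast hm1
      have hN2 : 2 ≤ (x + 1) / m := by
        have : (7 : ℕ) < z := by exact_mod_cast hz7
        omega
      have h7 := hR m ((x + 1) / m) hm1 hN2 (S m) (by
        intro q hq
        rw [hS, mem_filter, mem_Icc] at hq
        exact ⟨hq.2.1, hq.1.2, hq.2.2⟩)
      refine h7.trans ?_
      have h8 : Real.log z ≤ Real.log (((x + 1) / m : ℕ) : ℝ) := by
        apply Real.log_le_log hz0
        exact_mod_cast hzm.le
      have h9 : (((x + 1) / m : ℕ) : ℝ) ≤ 2 * x / m := by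
        have h10 := Nat.cast_div_le (α := ℝ) (m := x + 1) (n := m)
        push_cast at h10
        refine h10.trans ?_
        apply div_le_div_of_nonneg_right _ hm0.le
        linarith
      calc C₀ * GG m ^ 2 * (((x + 1) / m : ℕ) : ℝ) / Real.log (((x + 1) / m : ℕ) : ℝ) ^ 2 ≤
            C₀ * GG m ^ 2 * (2 * x / m) / Real.log z ^ 2 := by gcongr
        _ = _ := by ring
    have h7 : (T3.card : ℝ) ≤ (C₀ * (2 * x) / Real.log z ^ 2) * ∑ m ∈ M, GG m ^ 2 / m := by
      calc (T3.card : ℝ) ≤ ∑ m ∈ M, ((S m).card : ℝ) := by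
            have h8 := (card_le_card hcov3).trans card_biUnion_le
            have h9 : ∑ m ∈ M, ((S m).image (fun q => m * q)).card ≤ ∑ m ∈ M, (S m).card :=
              sum_le_sum fun m _ => card_image_le
            exact_mod_cast h8.trans h9
        _ ≤ _ := by
            rw [mul_sum]
            exact sum_le_sum hcardS
    have h8 := htot (x + 1) a b (by omega) ha3 hab M (by
      intro m hm
      rw [hM, mem_filter, mem_Icc] at hm
      exact ⟨hm.1, hm.2.1⟩) u
    have hloglog : Real.log (Real.log ((x + 1 : ℕ) : ℝ)) ≤ u + 1 := by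
      have h9 : Real.log ((x + 1 : ℕ) : ℝ) ≤ 2 * L := by
        have h10 : (((x + 1 : ℕ) : ℝ)) ≤ (x : ℝ) ^ 2 := by
          push_cast
          exact n5 hxr
        have h11 := Real.log_le_log (by positivity) h10
        rw [Real.log_pow, ← hL] at h11
        push_cast at h11 ⊢
        exact h11
      have h10 : 0 < Real.log ((x + 1 : ℕ) : ℝ) := by
        apply Real.log_pos
        push_cast
        linarith
      have h11 := Real.log_le_log h10 h9
      rw [Real.log_mul (by norm_num) hL0.ne', ← hu] at h11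
      have := Real.log_two_lt_d9
      linarith
    have hlla : u - 2 * Real.log 2 ≤ Real.log (Real.log a) := by
      have h9 := Real.log_le_log (by positivity) hloga4
      rw [Real.log_div hL0.ne' (by norm_num), ← hu] at h9
      have h10 : Real.log 4 = 2 * Real.log 2 := by
        rw [show (4 : ℝ) = 2 ^ 2 by norm_num, Real.log_pow]
        push_cast
        ring
      rw [h10] at h9
      exact h9
    obtain ⟨W, hW⟩ : ∃ W, W = Real.exp (4 / 3 + 20 / 21 * u) := ⟨_, rfl⟩
    have hE1 : Real.exp (4 / 3 * Real.log (Real.log ((x + 1 : ℕ) : ℝ)) - 4 / 3 * Real.log (4 / 3) * u) ≤ W := by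
      rw [hW]
      apply Real.exp_le_exp.2
      have h9 : (2 / 7 : ℝ) ≤ Real.log (4 / 3) := by
        have := Real.le_log_one_add_of_nonneg (x := 1 / 3) (by norm_num)
        norm_num at this ⊢
        exact this
      exact n6 hu0.le h9 hloglog
    have hE2 : Real.exp (4 / 3 * Real.log 2 * u + 1 / 2 * Real.log (Real.log ((x + 1 : ℕ) : ℝ)) -
          1 / 2 * Real.log (Real.log a)) ≤ W := by
      rw [hW]
      apply Real.exp_le_exp.2
      exact n7 hu0.le Real.log_two_lt_d9.le hloglog hlla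
    have hba : Real.log b - Real.log a + 1 = (2 * A + 4) * u + 1 := by
      rw [hloga, hlogb]
      ring
    rw [hba] at h8
    have hA0 : (0 : ℝ) ≤ A := Nat.cast_nonneg A
    have hW0 : 0 < W := by rw [hW]; positivity
    have h9 : ∑ m ∈ M, GG m ^ 2 / (m : ℝ) ≤ Ct * (W * ((2 * A + 6) * u)) := by
      refine h8.trans ?_
      apply mul_le_mul_of_nonneg_left _ hCt.le
      have h10 : 0 ≤ (2 * (A : ℝ) + 4) * u + 1 := by positivity
      have h11 := mul_le_mul_of_nonneg_right hE2 h10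
      have h12 : W * ((2 * (A : ℝ) + 4) * u + 1) + W ≤ W * ((2 * A + 6) * u) := by
        have : (2 * (A : ℝ) + 4) * u + 1 + 1 ≤ (2 * A + 6) * u := by linarith
        exact n8 hW0.le this
      linarith
    have h10 : 1 / Real.log z ^ 2 ≤ 144 * u ^ 2 / L ^ 2 := by
      have h11 : (L / (12 * u)) ^ 2 ≤ Real.log z ^ 2 := pow_le_pow_left₀ (by positivity) hlz2 2
      calc 1 / Real.log z ^ 2 ≤ 1 / (L / (12 * u)) ^ 2 := one_div_le_one_div_of_le (by positivity) h11
        _ = _ := by
            field_simp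
            norm_num
    have hWe : W = Real.exp (4 / 3) * (L * Real.exp (-(u / 21))) := by
      rw [hW, ← hLu, ← Real.exp_add, ← Real.exp_add]
      congr 1
      ring
    calc (T3.card : ℝ) ≤ (C₀ * (2 * x) / Real.log z ^ 2) * ∑ m ∈ M, GG m ^ 2 / m := h7
      _ = (C₀ * (2 * x)) * (1 / Real.log z ^ 2) * ∑ m ∈ M, GG m ^ 2 / m := by ring
      _ ≤ (C₀ * (2 * x)) * (144 * u ^ 2 / L ^ 2) * (Ct * (W * ((2 * A + 6) * u))) := by gcongr
      _ = (C₀ * 288 * Ct * Real.exp (4 / 3) * (2 * A + 6)) * u ^ 3 * Real.exp (-(u / 21)) * (x / L) := by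
          rw [hWe]
          field_simp
          ring
      _ ≤ (ε / 16) * (x / L) := by
          apply mul_le_mul_of_nonneg_right _ (by positivity)
          have h12 : (C₀ * 288 * Ct * Real.exp (4 / 3) * (2 * A + 6)) * u ^ 3 ≤ ε / 16 * Real.exp (u / 21) := by
            have h13 := mul_le_mul_of_nonneg_left h1 (by positivity : (0 : ℝ) ≤ ε / 16)
            refine le_trans (le_of_eq ?_) h13
            rw [hK3]
            field_simp
          calc _ ≤ ε / 16 * Real.exp (u / 21) * Real.exp (-(u / 21)) :=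
                mul_le_mul_of_nonneg_right h12 (Real.exp_pos _).le
            _ = ε / 16 := by rw [mul_assoc, ← Real.exp_add, add_neg_cancel, Real.exp_zero, mul_one]
      _ ≤ (ε / 16) * (4 * (Nat.primeCounting x : ℝ)) := mul_le_mul_of_nonneg_left hpi' (by positivity)
      _ = _ := by ring
  have h7 := (card_le_card hcov).trans ((card_union_le _ _).trans (Nat.add_le_add_left (card_union_le _ _) _))
  have h8 : (T.card : ℝ) ≤ (T1.card : ℝ) + ((T2.card : ℝ) + (T3.card : ℝ)) := by exact_mod_cast h7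
  have h9 : 0 ≤ ε * (Nat.primeCounting x : ℝ) := by positivity
  linarith

end Run7.h293.Bd
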