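import Pool.Agent.Run7.h293.Joint
import Pool.Agent.R318.PR.Mean

set_option autoImplicit false

/-! # Covariances of functions of the terms of a binary recurrence modulo two primes -/

namespace Run7.h293

open Finset Pool.Agent.H730R2.AA Pool.Agent.R459.Eq Pool.Agent.R318.PR

/-- a function modulo `p` with a short expansion into nontrivial characters -/
def EX (p : ℕ) (f : ℤ → ℝ) (c T : ℝ) : Prop :=
  (∀ n, 0 ≤ f n ∧ f n ≤ 1) ∧ 0 ≤ c ∧ c ≤ 2 ∧ ∃ β : DirichletCharacter ℂ p → ℂ,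
    ∑ χ ∈ NT p, ‖β χ‖ ≤ T ∧ ∀ n : ℤ, ¬ (p : ℤ) ∣ n →
      (f n : ℂ) = (c : ℂ) + ∑ χ ∈ NT p, β χ * χ ((n : ℤ) : ZMod p)

/-- the good primes of the recurrence -/
structure Gd (P Q : ℤ) (v : ℤ × ℤ) (p : ℕ) : Prop where
  pr : p.Prime
  two : p ≠ 2
  q : ¬ (p : ℤ) ∣ Q
  d : ¬ (p : ℤ) ∣ P ^ 2 - 4 * Q
  w : ¬ (p : ℤ) ∣ nf P Q v

/-- the rank of apparition of `p` in the Lucas sequence -/
noncomputable def rk (P Q : ℤ) (p : ℕ) : ℕ := sInf {t | 1 ≤ t ∧ (p : ℤ) ∣ lv P Q (0, 1) t}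

lemma cast_lv (p : ℕ) (P Q : ℤ) (v : ℤ × ℤ) (k : ℕ) :
    ((lv P Q v k : ℤ) : ZMod p) = lv (P : ZMod p) (Q : ZMod p) ((v.1 : ZMod p), (v.2 : ZMod p)) k :=
  lv_map P Q (Int.castRingHom (ZMod p)) v k

lemma cast_U (p : ℕ) (P Q : ℤ) (k : ℕ) :
    (p : ℤ) ∣ lv P Q (0, 1) k ↔ lv (P : ZMod p) (Q : ZMod p) (0, 1) k = 0 := by
  have h := cast_lv p P Q (0, 1) k
  rw [← ZMod.intCast_zmod_eq_zero_iff_dvd, h]
  simp

lemma cast_nf (p : ℕ) (P Q : ℤ) (v : ℤ × ℤ) :
    ((nf P Q v : ℤ) : ZMod p) = nf (P : ZMod p) (Q : ZMod p) ((v.1 : ZMod p), (v.2 : ZMod p)) := by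
  unfold nf
  push_cast
  ring

lemma Gd.q' {P Q : ℤ} {v : ℤ × ℤ} {p : ℕ} (h : Gd P Q v p) : (Q : ZMod p) ≠ 0 := by
  rw [Ne, ZMod.intCast_zmod_eq_zero_iff_dvd]
  exact h.q

lemma Gd.d' {P Q : ℤ} {v : ℤ × ℤ} {p : ℕ} (h : Gd P Q v p) : (P : ZMod p) ^ 2 - 4 * (Q : ZMod p) ≠ 0 := by
  have h1 : (((P ^ 2 - 4 * Q : ℤ)) : ZMod p) ≠ 0 := by
    rw [Ne, ZMod.intCast_zmod_eq_zero_iff_dvd]
    exact h.d
  push_cast at h1
  exact h1

lemma Gd.w' {P Q : ℤ} {v : ℤ × ℤ} {p : ℕ} (h : Gd P Q v p) :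
    nf (P : ZMod p) (Q : ZMod p) ((v.1 : ZMod p), (v.2 : ZMod p)) ≠ 0 := by
  rw [← cast_nf, Ne, ZMod.intCast_zmod_eq_zero_iff_dvd]
  exact h.w

/-- the properties of the rank of apparition -/
lemma rk_spec {P Q : ℤ} {v : ℤ × ℤ} {p : ℕ} (h : Gd P Q v p) :
    1 ≤ rk P Q p ∧ (∀ t, lv (P : ZMod p) (Q : ZMod p) (0, 1) t = 0 ↔ rk P Q p ∣ t) ∧
      (rk P Q p ∣ p - 1 ∨ rk P Q p ∣ p + 1) := by
  have : Fact p.Prime := ⟨h.pr⟩
  have hpm := lucas_pm p h.two (P : ZMod p) (Q : ZMod p) h.q' h.d'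
  have hp2 := h.pr.two_le
  have hex : ∃ t, 1 ≤ t ∧ lv (P : ZMod p) (Q : ZMod p) (0, 1) t = 0 := by
    rcases hpm with h1 | h1
    · exact ⟨p - 1, by omega, h1⟩
    · exact ⟨p + 1, by omega, h1⟩
  obtain ⟨T, hT1, hT⟩ := lucas_iff (P : ZMod p) (Q : ZMod p) h.q' hex
  have hrk : rk P Q p = T := by
    unfold rk
    apply le_antisymm
    · apply Nat.sInf_le
      refine ⟨hT1, ?_⟩
      rw [cast_U, hT]
    · have hne : {t | 1 ≤ t ∧ (p : ℤ) ∣ lv P Q (0, 1) t}.Nonempty := by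
        refine ⟨T, hT1, ?_⟩
        rw [cast_U, hT]
      have h2 := Nat.sInf_mem hne
      obtain ⟨h3, h4⟩ := h2
      rw [cast_U, hT] at h4
      exact Nat.le_of_dvd h3 h4
  rw [hrk]
  refine ⟨hT1, hT, ?_⟩
  rw [← hT, ← hT]
  exact hpm

/-- few zeros -/
lemma zeros_le {P Q : ℤ} {v : ℤ × ℤ} {p : ℕ} (h : Gd P Q v p) (K : ℕ) :
    (((range K).filter (fun k => (p : ℤ) ∣ lv P Q v k)).card : ℝ) ≤ K / rk P Q p + 1 := by
  classical
  have : Fact p.Prime := ⟨h.pr⟩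
  obtain ⟨hT1, hT, _⟩ := rk_spec h
  obtain ⟨T, hTd⟩ : ∃ T, T = rk P Q p := ⟨_, rfl⟩
  rw [← hTd] at hT1 hT ⊢
  obtain ⟨S, hS⟩ : ∃ S, S = (range K).filter (fun k => (p : ℤ) ∣ lv P Q v k) := ⟨_, rfl⟩
  rw [← hS]
  have hinj : Set.InjOn (fun k => k / T) (S : Set ℕ) := by
    have key : ∀ k ∈ S, ∀ l ∈ S, k ≤ l → k / T = l / T → k = l := by
      intro k hk l hl hkl he
      rw [hS, mem_filter] at hk hl
      obtain ⟨t, rfl⟩ := Nat.exists_eq_add_of_le hkl
      have h1 : lv (P : ZMod p) (Q : ZMod p) ((v.1 : ZMod p), (v.2 : ZMod p)) k = 0 := by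
        rw [← cast_lv, ZMod.intCast_zmod_eq_zero_iff_dvd]; exact hk.2
      have h2 : lv (P : ZMod p) (Q : ZMod p) ((v.1 : ZMod p), (v.2 : ZMod p)) (k + t) = 0 := by
        rw [← cast_lv, ZMod.intCast_zmod_eq_zero_iff_dvd]; exact hl.2
      obtain ⟨m, rfl⟩ := zero_class (P : ZMod p) (Q : ZMod p) h.q' T hT _ h.w' k t h1 h2
      rw [Nat.add_mul_div_left _ _ hT1] at he
      have : m = 0 := by omega
      rw [this]
      ring
    intro k hk l hl he
    rcases le_total k l with h3 | h3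
    · exact key k hk l hl h3 he
    · exact (key l hl k hk h3 he.symm).symm
  have hmaps : Set.MapsTo (fun k => k / T) (S : Set ℕ) (range (K / T + 1) : Set ℕ) := by
    intro k hk
    rw [mem_coe, hS, mem_filter, mem_range] at hk
    rw [mem_coe, mem_range]
    exact Nat.lt_succ_of_le (Nat.div_le_div_right hk.1.le)
  have hc := card_le_card_of_injOn _ hmaps hinj
  rw [card_range] at hc
  calc (S.card : ℝ) ≤ ((K / T + 1 : ℕ) : ℝ) := by exact_mod_cast hc
    _ ≤ K / T + 1 := by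
      push_cast
      have := Nat.cast_div_le (α := ℝ) (m := K) (n := T)
      linarith

/-- sums of periodic sequences -/
lemma sum_split {M : Type*} [AddCommGroup M] (g : ℕ → M) (L : ℕ) (hg : ∀ k, g (k + L) = g k) (a b : ℕ) :
    ∑ k ∈ range (a * L + b), g k = a • ∑ k ∈ range L, g k + ∑ k ∈ range b, g k := by
  induction a with
  | zero => simp
  | succ a ih =>
    have e : (a + 1) * L + b = L + (a * L + b) := by ring
    rw [e, sum_range_add]
    have h1 : ∀ k ∈ range (a * L + b), g (L + k) = g k := by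
      intro k _
      rw [add_comm, hg]
    rw [sum_congr rfl h1, ih, succ_nsmul]
    abel

/-- the covariance -/
theorem cov_le {P Q : ℤ} {v : ℤ × ℤ} {p q : ℕ} (hp : Gd P Q v p) (hq : Gd P Q v q)
    {f g : ℤ → ℝ} {c d T T' : ℝ} (hf : EX p f c T) (hg : EX q g d T') (hT'0 : 0 ≤ T') (K : ℕ) :
    |∑ k ∈ range K, (f (lv P Q v k) - c) * (g (lv P Q v k) - d)| ≤
      K * (T * T' * Real.sqrt ((p : ℝ) * q) / (Nat.lcm (rk P Q p) (rk P Q q) : ℝ)) +
      4 * (K / rk P Q p + K / rk P Q q) + 8 + 4 * ((p : ℝ) ^ 2 * (q : ℝ) ^ 2) := by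
  classical
  have : Fact p.Prime := ⟨hp.pr⟩
  have : Fact q.Prime := ⟨hq.pr⟩
  obtain ⟨hf1, hc0, hc2, β, hβ, hfe⟩ := hf
  obtain ⟨hg1, hd0, hd2, γ, hγ, hge⟩ := hg
  have hT0 : 0 ≤ T := (sum_nonneg fun χ _ => norm_nonneg _).trans hβ
  obtain ⟨hr1, hr2, _⟩ := rk_spec hp
  obtain ⟨hs1, hs2, _⟩ := rk_spec hq
  obtain ⟨L, hLd⟩ : ∃ L, L = (p ^ 2 - 1) * (q ^ 2 - 1) := ⟨_, rfl⟩
  have hp2 := hp.pr.two_le
  have hq2 := hq.pr.two_le
  have hL0 : 0 < L := by
    rw [hLd]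
    apply Nat.mul_pos
    · have : 2 ^ 2 ≤ p ^ 2 := Nat.pow_le_pow_left hp2 2
      omega
    · have : 2 ^ 2 ≤ q ^ 2 := Nat.pow_le_pow_left hq2 2
      omega
  have hL1 : ∀ w, (sg (P : ZMod p) (Q : ZMod p))^[L] w = w := by
    intro w
    rw [hLd, Function.iterate_mul]
    have : (sg (P : ZMod p) (Q : ZMod p))^[p ^ 2 - 1] = id := by
      funext w
      exact sg_period p hp.two _ _ hp.q' hp.d' w
    rw [this, Function.iterate_id]
    rfl
  have hL2 : ∀ w, (sg (P : ZMod q) (Q : ZMod q))^[L] w = w := by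
    intro w
    rw [hLd, mul_comm, Function.iterate_mul]
    have : (sg (P : ZMod q) (Q : ZMod q))^[q ^ 2 - 1] = id := by
      funext w
      exact sg_period q hq.two _ _ hq.q' hq.d' w
    rw [this, Function.iterate_id]
    rfl
  -- the sequences modulo the primes
  obtain ⟨a, ha⟩ : ∃ a : ℕ → ZMod p, a = fun k => ((lv P Q v k : ℤ) : ZMod p) := ⟨_, rfl⟩
  obtain ⟨b, hb⟩ : ∃ b : ℕ → ZMod q, b = fun k => ((lv P Q v k : ℤ) : ZMod q) := ⟨_, rfl⟩
  have haL : ∀ k, a (k + L) = a k := by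
    intro k
    rw [ha]
    simp only
    rw [cast_lv, cast_lv, add_comm k L, lv_add, hL1]
  have hbL : ∀ k, b (k + L) = b k := by
    intro k
    rw [hb]
    simp only
    rw [cast_lv, cast_lv, add_comm k L, lv_add, hL2]
  obtain ⟨A, hA⟩ : ∃ A : ℕ → ℂ, A = fun k => ∑ χ ∈ NT p, β χ * χ (a k) := ⟨_, rfl⟩
  obtain ⟨B, hB⟩ : ∃ B : ℕ → ℂ, B = fun k => ∑ χ ∈ NT q, γ χ * χ (b k) := ⟨_, rfl⟩
  have hAL : ∀ k, A (k + L) = A k := by
    intro k
    rw [hA]
    simp only [haL]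
  have hBL : ∀ k, B (k + L) = B k := by
    intro k
    rw [hB]
    simp only [hbL]
  have hA0 : ∀ k, (p : ℤ) ∣ lv P Q v k → A k = 0 := by
    intro k hk
    rw [hA]
    apply sum_eq_zero
    intro χ _
    have : a k = 0 := by
      rw [ha]
      simp only
      rw [ZMod.intCast_zmod_eq_zero_iff_dvd]
      exact hk
    rw [this, MulChar.map_zero, mul_zero]
  have hB0 : ∀ k, (q : ℤ) ∣ lv P Q v k → B k = 0 := by
    intro k hk
    rw [hB]
    apply sum_eq_zero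
    intro χ _
    have : b k = 0 := by
      rw [hb]
      simp only
      rw [ZMod.intCast_zmod_eq_zero_iff_dvd]
      exact hk
    rw [this, MulChar.map_zero, mul_zero]
  have hA1 : ∀ k, ¬ (p : ℤ) ∣ lv P Q v k → A k = ((f (lv P Q v k) - c : ℝ) : ℂ) := by
    intro k hk
    have := hfe (lv P Q v k) hk
    rw [hA, Complex.ofReal_sub, this, ha]
    ring
  have hB1 : ∀ k, ¬ (q : ℤ) ∣ lv P Q v k → B k = ((g (lv P Q v k) - d : ℝ) : ℂ) := by
    intro k hk
    have := hge (lv P Q v k) hk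
    rw [hB, Complex.ofReal_sub, this, hb]
    ring
  have hfc : ∀ n, |f n - c| ≤ 2 := by
    intro n
    have := hf1 n
    rw [abs_le]
    constructor <;> linarith [this.1, this.2]
  have hgd : ∀ n, |g n - d| ≤ 2 := by
    intro n
    have := hg1 n
    rw [abs_le]
    constructor <;> linarith [this.1, this.2]
  have hAn : ∀ k, ‖A k‖ ≤ 2 := by
    intro k
    by_cases hk : (p : ℤ) ∣ lv P Q v k
    · rw [hA0 k hk, norm_zero]
      norm_num
    · rw [hA1 k hk, Complex.norm_real, Real.norm_eq_abs]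
      exact hfc _
  have hBn : ∀ k, ‖B k‖ ≤ 2 := by
    intro k
    by_cases hk : (q : ℤ) ∣ lv P Q v k
    · rw [hB0 k hk, norm_zero]
      norm_num
    · rw [hB1 k hk, Complex.norm_real, Real.norm_eq_abs]
      exact hgd _
  -- the full period
  have hper : ‖∑ k ∈ range L, A k * B k‖ * (Nat.lcm (rk P Q p) (rk P Q q) : ℝ) ≤
      T * T' * (L * Real.sqrt ((p : ℝ) * q)) := by
    have h1 : ∑ k ∈ range L, A k * B k =
        ∑ χ ∈ NT p, ∑ ρ ∈ NT q, (β χ * γ ρ) * ∑ k ∈ range L, χ (a k) * ρ (b k) := by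
      have h2 : ∀ k ∈ range L, A k * B k = ∑ χ ∈ NT p, ∑ ρ ∈ NT q, (β χ * γ ρ) * (χ (a k) * ρ (b k)) := by
        intro k _
        rw [hA, hB]
        simp only
        rw [sum_mul_sum]
        apply sum_congr rfl
        intro χ _
        apply sum_congr rfl
        intro ρ _
        ring
      rw [sum_congr rfl h2, sum_comm]
      apply sum_congr rfl
      intro χ _
      rw [sum_comm]
      apply sum_congr rfl
      intro ρ _
      rw [mul_sum]
    rw [h1]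
    have h3 : ∀ χ ∈ NT p, ∀ ρ ∈ NT q, ‖(β χ * γ ρ) * ∑ k ∈ range L, χ (a k) * ρ (b k)‖ *
        (Nat.lcm (rk P Q p) (rk P Q q) : ℝ) ≤ ‖β χ‖ * ‖γ ρ‖ * (L * Real.sqrt ((p : ℝ) * q)) := by
      intro χ hχ ρ hρ
      have hχ1 : χ ≠ 1 := by
        simp only [NT, mem_filter] at hχ
        exact hχ.2
      have hρ1 : ρ ≠ 1 := by
        simp only [NT, mem_filter] at hρ
        exact hρ.2
      have h4 := joint (P : ZMod p) (Q : ZMod p) (P : ZMod q) (Q : ZMod q) hp.q' hq.q' χ hχ1 ρ hρ1 L hL0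
        hL1 hL2 (rk P Q p) (rk P Q q) hr1 hs1 hr2 hs2 _ hp.w' _ hq.w'
      have h5 : ∑ k ∈ range L, χ (a k) * ρ (b k) =
        ∑ k ∈ range L, χ (lv (P : ZMod p) (Q : ZMod p) ((v.1 : ZMod p), (v.2 : ZMod p)) k) *
          ρ (lv (P : ZMod q) (Q : ZMod q) ((v.1 : ZMod q), (v.2 : ZMod q)) k) := by
        apply sum_congr rfl
        intro k _
        rw [ha, hb]
        simp only
        rw [cast_lv, cast_lv]
      rw [h5, norm_mul, norm_mul, mul_assoc]
      exact mul_le_mul_of_nonneg_left h4 (mul_nonneg (norm_nonneg _) (norm_nonneg _))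
    have h0 : (0 : ℝ) ≤ (Nat.lcm (rk P Q p) (rk P Q q) : ℝ) := Nat.cast_nonneg _
    calc _ ≤ (∑ χ ∈ NT p, ∑ ρ ∈ NT q, ‖(β χ * γ ρ) * ∑ k ∈ range L, χ (a k) * ρ (b k)‖) *
          (Nat.lcm (rk P Q p) (rk P Q q) : ℝ) := by
          apply mul_le_mul_of_nonneg_right _ h0
          refine (norm_sum_le _ _).trans (sum_le_sum fun χ _ => norm_sum_le _ _)
      _ ≤ ∑ χ ∈ NT p, ∑ ρ ∈ NT q, ‖β χ‖ * ‖γ ρ‖ * (L * Real.sqrt ((p : ℝ) * q)) := by
          rw [sum_mul]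
          apply sum_le_sum
          intro χ hχ
          rw [sum_mul]
          apply sum_le_sum
          intro ρ hρ
          exact h3 χ hχ ρ hρ
      _ = (∑ χ ∈ NT p, ‖β χ‖) * (∑ ρ ∈ NT q, ‖γ ρ‖) * (L * Real.sqrt ((p : ℝ) * q)) := by
          rw [sum_mul_sum, sum_mul]
          apply sum_congr rfl
          intro χ _
          rw [sum_mul]
      _ ≤ T * T' * (L * Real.sqrt ((p : ℝ) * q)) := by
          apply mul_le_mul_of_nonneg_right _ (by positivity)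
          exact mul_le_mul hβ hγ (sum_nonneg fun _ _ => norm_nonneg _) hT0
  -- all windows
  have hΛ : (0 : ℝ) < (Nat.lcm (rk P Q p) (rk P Q q) : ℝ) := by
    exact_mod_cast Nat.lcm_pos hr1 hs1
  have hLr : (0 : ℝ) < L := by exact_mod_cast hL0
  have hwin : ‖∑ k ∈ range K, A k * B k‖ ≤
      K * (T * T' * Real.sqrt ((p : ℝ) * q) / (Nat.lcm (rk P Q p) (rk P Q q) : ℝ)) +
      4 * ((p : ℝ) ^ 2 * (q : ℝ) ^ 2) := by
    have h1 := sum_split (fun k => A k * B k) L (fun k => by rw [hAL, hBL]) (K / L) (K % L)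
    rw [Nat.div_add_mod'] at h1
    rw [h1]
    refine (norm_add_le _ _).trans (add_le_add ?_ ?_)
    · rw [nsmul_eq_mul, norm_mul, Complex.norm_natCast]
      have h2 : ‖∑ k ∈ range L, A k * B k‖ ≤
          L * (T * T' * Real.sqrt ((p : ℝ) * q) / (Nat.lcm (rk P Q p) (rk P Q q) : ℝ)) := by
        rw [← mul_div_assoc, le_div_iff₀ hΛ]
        refine hper.trans (le_of_eq ?_)
        ring
      have h3 : ((K / L : ℕ) : ℝ) * L ≤ K := by
        exact_mod_cast Nat.div_mul_le_self K L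
      calc _ ≤ ((K / L : ℕ) : ℝ) *
            (L * (T * T' * Real.sqrt ((p : ℝ) * q) / (Nat.lcm (rk P Q p) (rk P Q q) : ℝ))) :=
            mul_le_mul_of_nonneg_left h2 (Nat.cast_nonneg _)
        _ = (((K / L : ℕ) : ℝ) * L) *
            (T * T' * Real.sqrt ((p : ℝ) * q) / (Nat.lcm (rk P Q p) (rk P Q q) : ℝ)) := by ring
        _ ≤ _ := mul_le_mul_of_nonneg_right h3 (by positivity)
    · refine (norm_sum_le _ _).trans ?_
      calc ∑ k ∈ range (K % L), ‖A k * B k‖ ≤ ∑ k ∈ range (K % L), (4 : ℝ) := by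
            apply sum_le_sum
            intro k _
            rw [norm_mul]
            have := mul_le_mul (hAn k) (hBn k) (norm_nonneg _) (by norm_num)
            linarith
        _ = (K % L : ℕ) * 4 := by rw [sum_const, card_range, nsmul_eq_mul]
        _ ≤ _ := by
            have h2 : K % L ≤ p ^ 2 * q ^ 2 := by
              refine (Nat.mod_lt K hL0).le.trans ?_
              rw [hLd]
              exact Nat.mul_le_mul (Nat.sub_le _ _) (Nat.sub_le _ _)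
            have h3 : ((K % L : ℕ) : ℝ) ≤ (p : ℝ) ^ 2 * (q : ℝ) ^ 2 := by exact_mod_cast h2
            linarith
  -- the zeros
  have hdiff : ‖((∑ k ∈ range K, (f (lv P Q v k) - c) * (g (lv P Q v k) - d) : ℝ) : ℂ) -
      ∑ k ∈ range K, A k * B k‖ ≤ 4 * (K / rk P Q p + K / rk P Q q) + 8 := by
    rw [Complex.ofReal_sum, ← sum_sub_distrib]
    refine (norm_sum_le _ _).trans ?_
    have h1 : ∀ k ∈ range K, ‖(((f (lv P Q v k) - c) * (g (lv P Q v k) - d) : ℝ) : ℂ) - A k * B k‖ ≤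
        (if (p : ℤ) ∣ lv P Q v k then 4 else 0) + (if (q : ℤ) ∣ lv P Q v k then 4 else 0) := by
      intro k _
      have h4 : |(f (lv P Q v k) - c) * (g (lv P Q v k) - d)| ≤ 4 := by
        rw [abs_mul]
        have := mul_le_mul (hfc (lv P Q v k)) (hgd (lv P Q v k)) (abs_nonneg _) (by norm_num)
        linarith
      by_cases hk : (p : ℤ) ∣ lv P Q v k
      · rw [hA0 k hk, zero_mul, sub_zero, Complex.norm_real, Real.norm_eq_abs, if_pos hk]
        split_ifs <;> linarith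
      · by_cases hk' : (q : ℤ) ∣ lv P Q v k
        · rw [hB0 k hk', mul_zero, sub_zero, Complex.norm_real, Real.norm_eq_abs, if_pos hk', if_neg hk]
          linarith
        · rw [hA1 k hk, hB1 k hk', if_neg hk, if_neg hk', Complex.ofReal_mul, sub_self, norm_zero, add_zero]
    refine (sum_le_sum h1).trans ?_
    rw [sum_add_distrib, ← sum_filter, ← sum_filter, sum_const, sum_const, nsmul_eq_mul, nsmul_eq_mul]
    have h2 := zeros_le hp K
    have h3 := zeros_le hq K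
    linarith
  have hfin : |∑ k ∈ range K, (f (lv P Q v k) - c) * (g (lv P Q v k) - d)| =
      ‖((∑ k ∈ range K, (f (lv P Q v k) - c) * (g (lv P Q v k) - d) : ℝ) : ℂ)‖ := by
    rw [Complex.norm_real, Real.norm_eq_abs]
  rw [hfin]
  have h9 := norm_sub_norm_le ((∑ k ∈ range K, (f (lv P Q v k) - c) * (g (lv P Q v k) - d) : ℝ) : ℂ)
    (∑ k ∈ range K, A k * B k)
  linarith

end Run7.h293
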