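import Mathlib

set_option autoImplicit false

/-! # Coefficient vectors with a given number of nonzero entries: double counting -/

namespace Run7.h293.Dg

open Finset

/-- the vectors of length `K` with entries in `Δ ∪ {0}`, exactly `r` of them nonzero -/
def VV (Δ : Finset ℤ) (K r : ℕ) : Finset (Fin K → ℤ) :=
  (Fintype.piFinset (fun _ : Fin K => insert 0 Δ)).filter (fun c => (univ.filter (fun i => c i ≠ 0)).card = r)

/-- the value of the polynomial with the given coefficients -/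
def vl (a : ℤ) {K : ℕ} (c : Fin K → ℤ) : ℤ := ∑ i : Fin K, c i * a ^ (i : ℕ)

lemma mem_VV {Δ : Finset ℤ} {K r : ℕ} {c : Fin K → ℤ} :
    c ∈ VV Δ K r ↔ (∀ i, c i = 0 ∨ c i ∈ Δ) ∧ (univ.filter (fun i => c i ≠ 0)).card = r := by
  unfold VV
  rw [mem_filter, Fintype.mem_piFinset]
  simp only [mem_insert]

lemma vl_update (a : ℤ) {K : ℕ} (c : Fin K → ℤ) (k : Fin K) (d : ℤ) (h : c k = 0) :
    vl a (Function.update c k d) = vl a c + d * a ^ (k : ℕ) := by
  classical
  unfold vl
  rw [← add_sum_erase univ _ (mem_univ k), ← add_sum_erase univ (fun i => c i * a ^ (i : ℕ)) (mem_univ k)]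
  rw [Function.update_self, h, zero_mul, zero_add, add_comm]
  congr 1
  apply sum_congr rfl
  intro i hi
  rw [Function.update_of_ne (ne_of_mem_erase hi)]

lemma supp_update {K : ℕ} (c : Fin K → ℤ) (k : Fin K) (d : ℤ) (h : c k = 0) (hd : d ≠ 0) :
    (univ.filter (fun i => Function.update c k d i ≠ 0)).card = (univ.filter (fun i => c i ≠ 0)).card + 1 := by
  classical
  have : univ.filter (fun i => Function.update c k d i ≠ 0) = insert k (univ.filter (fun i => c i ≠ 0)) := by
    ext i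
    rw [mem_insert, mem_filter, mem_filter]
    by_cases hi : i = k
    · subst hi
      simp [hd]
    · rw [Function.update_of_ne hi]
      simp [hi]
  rw [this, card_insert_of_notMem]
  rw [mem_filter]
  rintro ⟨_, h2⟩
  exact h2 h

lemma supp_zero {K : ℕ} (c : Fin K → ℤ) (k : Fin K) (h : c k ≠ 0) :
    (univ.filter (fun i => Function.update c k 0 i ≠ 0)).card + 1 = (univ.filter (fun i => c i ≠ 0)).card := by
  classical
  have h1 := supp_update (Function.update c k 0) k (c k) (Function.update_self k 0 c) h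
  rw [Function.update_idem, Function.update_eq_self] at h1
  exact h1.symm

lemma up_mem {Δ : Finset ℤ} (h0 : (0 : ℤ) ∉ Δ) {K r : ℕ} {c : Fin K → ℤ} (hc : c ∈ VV Δ K r) (k : Fin K) (d : ℤ)
    (hd : d ∈ Δ) (h : c k = 0) : Function.update c k d ∈ VV Δ K (r + 1) := by
  classical
  rw [mem_VV] at hc ⊢
  have hd0 : d ≠ 0 := fun h => h0 (h ▸ hd)
  refine ⟨fun i => ?_, ?_⟩
  · by_cases hi : i = k
    · subst hi
      rw [Function.update_self]
      exact Or.inr hd
    · rw [Function.update_of_ne hi]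
      exact hc.1 i
  · rw [supp_update c k d h hd0, hc.2]

lemma down_mem {Δ : Finset ℤ} {K r : ℕ} {c : Fin K → ℤ} (hc : c ∈ VV Δ K (r + 1)) (k : Fin K)
    (h : c k ≠ 0) : Function.update c k 0 ∈ VV Δ K r := by
  classical
  rw [mem_VV] at hc ⊢
  refine ⟨fun i => ?_, ?_⟩
  · by_cases hi : i = k
    · subst hi
      rw [Function.update_self]
      exact Or.inl rfl
    · rw [Function.update_of_ne hi]
      exact hc.1 i
  · have := supp_zero c k h
    omega

/-- the double count -/
lemma dc0 (Δ : Finset ℤ) (h0 : (0 : ℤ) ∉ Δ) (K r : ℕ) (E : Finset (Fin K → ℤ)) (hE : E ⊆ VV Δ K (r + 1)) :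
    (r + 1) * E.card = ∑ c ∈ VV Δ K r, ∑ d ∈ Δ,
      (univ.filter (fun k : Fin K => c k = 0 ∧ Function.update c k d ∈ E)).card := by
  classical
  have h1 : (r + 1) * E.card = ((E ×ˢ (univ : Finset (Fin K))).filter (fun z => z.1 z.2 ≠ 0)).card := by
    rw [card_filter, sum_product]
    have : ∀ e ∈ E, (∑ k : Fin K, if (e, k).1 (e, k).2 ≠ 0 then 1 else 0) = r + 1 := by
      intro e he
      have h2 := (mem_VV.1 (hE he)).2
      rw [card_filter] at h2
      exact h2
    rw [sum_congr rfl this, sum_const, smul_eq_mul, mul_comm]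
  have h2 : ∑ c ∈ VV Δ K r, ∑ d ∈ Δ,
      (univ.filter (fun k : Fin K => c k = 0 ∧ Function.update c k d ∈ E)).card =
      ((VV Δ K r ×ˢ (Δ ×ˢ (univ : Finset (Fin K)))).filter
        (fun z => z.1 z.2.2 = 0 ∧ Function.update z.1 z.2.2 z.2.1 ∈ E)).card := by
    rw [card_filter, sum_product]
    apply sum_congr rfl
    intro c _
    rw [sum_product]
    apply sum_congr rfl
    intro d _
    rw [card_filter]
  rw [h1, h2]
  apply card_bij' (fun z _ => (Function.update z.1 z.2 0, (z.1 z.2, z.2)))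
    (fun z _ => (Function.update z.1 z.2.2 z.2.1, z.2.2))
  · rintro ⟨e, k⟩ hz
    simp
  · rintro ⟨c, d, k⟩ hz
    rw [mem_filter] at hz
    obtain ⟨_, hk, _⟩ := hz
    simp only at hk
    ext i
    · by_cases hi : i = k
      · subst hi
        simp [hk]
      · simp
        rw [Function.update_of_ne hi]
    · simp
    · simp
  · rintro ⟨e, k⟩ hz
    rw [mem_filter, mem_product] at hz
    obtain ⟨⟨he, _⟩, hk⟩ := hz
    simp only at he hk
    rw [mem_filter, mem_product, mem_product]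
    refine ⟨⟨down_mem (hE he) k hk, ?_, mem_univ _⟩, ?_, ?_⟩
    · rcases (mem_VV.1 (hE he)).1 k with h | h
      · exact absurd h hk
      · exact h
    · simp
    · simpa using he
  · rintro ⟨c, d, k⟩ hz
    rw [mem_filter, mem_product, mem_product] at hz
    obtain ⟨⟨hc, hd, _⟩, hk, hE'⟩ := hz
    simp only at hc hd hk hE'
    rw [mem_filter, mem_product]
    refine ⟨⟨hE', mem_univ _⟩, ?_⟩
    simp only [Function.update_self]
    exact fun h => h0 (h ▸ hd)

lemma card_VV (Δ : Finset ℤ) (h0 : (0 : ℤ) ∉ Δ) (K r : ℕ) :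
    (r + 1) * (VV Δ K (r + 1)).card = (VV Δ K r).card * (Δ.card * (K - r)) := by
  classical
  rw [dc0 Δ h0 K r _ (Subset.refl _)]
  have : ∀ c ∈ VV Δ K r, ∑ d ∈ Δ,
      (univ.filter (fun k : Fin K => c k = 0 ∧ Function.update c k d ∈ VV Δ K (r + 1))).card =
      Δ.card * (K - r) := by
    intro c hc
    have h1 : ∀ d ∈ Δ, (univ.filter (fun k : Fin K => c k = 0 ∧ Function.update c k d ∈ VV Δ K (r + 1))).card =
        K - r := by
      intro d hd
      have h2 : univ.filter (fun k : Fin K => c k = 0 ∧ Function.update c k d ∈ VV Δ K (r + 1)) =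
          univ.filter (fun k : Fin K => c k = 0) := by
        apply filter_congr
        intro k _
        constructor
        · exact fun h => h.1
        · exact fun h => ⟨h, up_mem h0 hc k d hd h⟩
      rw [h2]
      have h3 := (mem_VV.1 hc).2
      have h4 := card_filter_add_card_filter_not (s := (univ : Finset (Fin K))) (fun k => c k = 0)
      rw [card_univ, Fintype.card_fin] at h4
      have h5 : (univ.filter (fun i => ¬ c i = 0)).card = r := h3
      omega
    rw [sum_congr rfl h1, sum_const, smul_eq_mul]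
  rw [sum_congr rfl this, sum_const, smul_eq_mul]

lemma VV_pos (Δ : Finset ℤ) (hΔ : Δ.Nonempty) (h0 : (0 : ℤ) ∉ Δ) (K r : ℕ) (hr : r ≤ K) :
    0 < (VV Δ K r).card := by
  induction r with
  | zero =>
    rw [card_pos]
    refine ⟨0, ?_⟩
    rw [mem_VV]
    simp
  | succ r ih =>
    have h1 := card_VV Δ h0 K r
    have h2 := ih (by omega)
    have h3 : 0 < (VV Δ K r).card * (Δ.card * (K - r)) :=
      Nat.mul_pos h2 (Nat.mul_pos (card_pos.2 hΔ) (by omega))
    rw [← h1] at h3
    exact Nat.pos_of_mul_pos_left h3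

/-- counting a subset by its sections -/
lemma dc (Δ : Finset ℤ) (hΔ : Δ.Nonempty) (h0 : (0 : ℤ) ∉ Δ) (K r : ℕ) (hK : 2 * (r + 1) ≤ K + 2)
    (E : Finset (Fin K → ℤ)) (hE : E ⊆ VV Δ K (r + 1)) (g : (Fin K → ℤ) → ℝ)
    (hg : ∀ c ∈ VV Δ K r, ∀ d ∈ Δ,
      ((univ.filter (fun k : Fin K => c k = 0 ∧ Function.update c k d ∈ E)).card : ℝ) ≤ g c) :
    (E.card : ℝ) * (K * (VV Δ K r).card) ≤ 2 * (VV Δ K (r + 1)).card * ∑ c ∈ VV Δ K r, g c := by
  classical
  have h1 := dc0 Δ h0 K r E hE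
  have h2 := card_VV Δ h0 K r
  have hΔ0 : (0 : ℝ) < Δ.card := by exact_mod_cast card_pos.2 hΔ
  have h3 : ((r : ℝ) + 1) * E.card ≤ Δ.card * ∑ c ∈ VV Δ K r, g c := by
    have e1 : ((r : ℝ) + 1) * E.card = ∑ c ∈ VV Δ K r, ∑ d ∈ Δ,
      ((univ.filter (fun k : Fin K => c k = 0 ∧ Function.update c k d ∈ E)).card : ℝ) := by exact_mod_cast h1
    rw [e1, mul_sum]
    apply sum_le_sum
    intro c hc
    refine (sum_le_sum (hg c hc)).trans ?_
    rw [sum_const, nsmul_eq_mul]
  have h4 : (K : ℝ) * ((VV Δ K r).card * Δ.card) ≤ 2 * (((r : ℝ) + 1) * (VV Δ K (r + 1)).card) := by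
    have e1 : ((r : ℝ) + 1) * (VV Δ K (r + 1)).card = (VV Δ K r).card * (Δ.card * ((K - r : ℕ) : ℝ)) := by
      exact_mod_cast h2
    have e2 : (K : ℝ) ≤ 2 * ((K - r : ℕ) : ℝ) := by
      have : K ≤ 2 * (K - r) := by omega
      exact_mod_cast this
    rw [e1]
    calc (K : ℝ) * ((VV Δ K r).card * Δ.card) ≤ (2 * ((K - r : ℕ) : ℝ)) * ((VV Δ K r).card * Δ.card) :=
          mul_le_mul_of_nonneg_right e2 (by positivity)
      _ = _ := by ring
  have hr0 : (0 : ℝ) < (r : ℝ) + 1 := by positivity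
  have h5 : (((r : ℝ) + 1) * E.card) * ((K : ℝ) * ((VV Δ K r).card * Δ.card)) ≤
      (Δ.card * ∑ c ∈ VV Δ K r, g c) * (2 * (((r : ℝ) + 1) * (VV Δ K (r + 1)).card)) := by
    apply mul_le_mul h3 h4 (by positivity)
    exact (by positivity : (0 : ℝ) ≤ ((r : ℝ) + 1) * E.card).trans h3
  have h6 : 0 < ((r : ℝ) + 1) * Δ.card := by positivity
  refine le_of_mul_le_mul_left ?_ h6
  calc _ = (((r : ℝ) + 1) * E.card) * ((K : ℝ) * ((VV Δ K r).card * Δ.card)) := by ring
    _ ≤ _ := h5
    _ = _ := by ring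

end Run7.h293.Dg
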