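import Pool.Agent.R318.PR.Red

set_option autoImplicit false

/-! # Character sums over the values of a polynomial at the elements of a coset of a subgroup -/

namespace Run7.h293.EP

open Polynomial Finset Pool.Agent.R318.PR

/-- the integral identities behind a simple nonzero root -/
lemma integral_factor0 (F : ℤ[X]) (z : ℂ) (h0 : aeval z F = 0) (h1 : aeval z (derivative F) ≠ 0) :
    ∃ (N : ℤ) (G H A B : ℤ[X]), N ≠ 0 ∧ 0 < G.natDegree ∧ C N * F = G * H ∧
      A * G + B * derivative F = C N ∧ (z ≠ 0 → G.coeff 0 ≠ 0) := by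
  have hF0 : F ≠ 0 := by
    rintro rfl
    simp at h1
  set FQ : ℚ[X] := F.map (Int.castRingHom ℚ) with hFQ
  have hinj : Function.Injective (Int.castRingHom ℚ) := RingHom.injective_int _
  have hFQ0 : FQ ≠ 0 := by
    rw [hFQ]
    exact (Polynomial.map_ne_zero_iff hinj).2 hF0
  have e1 : aeval z FQ = 0 := by
    rw [hFQ, ← h0, aeval_def, aeval_def, eval₂_map]
    congr 1
  have hzint : IsIntegral ℚ z := by
    have : IsAlgebraic ℚ z := ⟨FQ, hFQ0, e1⟩
    exact this.isIntegral
  set g : ℚ[X] := minpoly ℚ z with hg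
  have hgirr : Irreducible g := minpoly.irreducible hzint
  have hgF : g ∣ FQ := minpoly.dvd ℚ z e1
  have hgF' : ¬ g ∣ derivative FQ := by
    intro h
    apply h1
    obtain ⟨r, hr⟩ := h
    have e2 : aeval z (derivative FQ) = 0 := by
      rw [hr, map_mul, hg, minpoly.aeval, zero_mul]
    rw [← e2, hFQ, derivative_map, aeval_def, aeval_def, eval₂_map]
    congr 1
  have hcop : IsCoprime g (derivative FQ) := by
    rw [hgirr.coprime_iff_not_dvd]
    exact hgF'
  obtain ⟨h, hh⟩ := hgF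
  obtain ⟨u, v, huv⟩ := hcop
  obtain ⟨n1, G, hn1, hG⟩ := clear g
  obtain ⟨n2, H, hn2, hH⟩ := clear h
  obtain ⟨n3, U, hn3, hU⟩ := clear u
  obtain ⟨n4, V, hn4, hV⟩ := clear v
  have hmapinj : Function.Injective (Polynomial.map (Int.castRingHom ℚ)) :=
    Polynomial.map_injective _ hinj
  refine ⟨n1 * n2 * n3 * n4, G, C (n3 * n4) * H, C (n2 * n4) * U, C (n1 * n2 * n3) * V,
    mul_ne_zero (mul_ne_zero (mul_ne_zero hn1 hn2) hn3) hn4, ?_, ?_, ?_, ?_⟩
  · have : (G.map (Int.castRingHom ℚ)).natDegree = G.natDegree :=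
      natDegree_map_eq_of_injective hinj G
    rw [← this, hG, natDegree_C_mul (by exact_mod_cast hn1)]
    exact hgirr.natDegree_pos
  · apply hmapinj
    simp only [Polynomial.map_mul, map_C, hG, hH, ← hFQ, hh]
    simp only [eq_intCast, Int.cast_mul, map_mul]
    ring
  · apply hmapinj
    simp only [Polynomial.map_mul, Polynomial.map_add, map_C, hG, hU, hV, ← derivative_map, ← hFQ]
    simp only [eq_intCast, Int.cast_mul, map_mul]
    linear_combination (C (n1 : ℚ) * C (n2 : ℚ) * C (n3 : ℚ) * C (n4 : ℚ)) * huv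
  · intro hz hG0
    have h2 := congrArg (fun q : ℚ[X] => q.coeff 0) hG
    simp only [coeff_map, hG0, map_zero, coeff_C_mul] at h2
    rcases mul_eq_zero.1 h2.symm with h3 | h3
    · exact hn1 (by exact_mod_cast h3)
    · exact minpoly.coeff_zero_ne_zero hzint hz h3

/-- the good primes for a polynomial -/
def GdF (d : ℕ) (p : ℕ) [Fact p.Prime] (f : (ZMod p)[X]) : Prop :=
  f ≠ 0 ∧ f.natDegree ≤ d ∧ ∃ (N : ZMod p) (G H A B : (ZMod p)[X]), N ≠ 0 ∧ 0 < G.natDegree ∧ C N * f = G * H ∧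
    A * G + B * derivative f = C N ∧ G.coeff 0 ≠ 0

/-- an irreducible factor of multiplicity one after the substitution of `c X ^ s` -/
lemma irr_factor {d p : ℕ} [Fact p.Prime] {f : (ZMod p)[X]} (h : GdF d p f) (c : ZMod p) (hc : c ≠ 0) (s : ℕ)
    (hs : (s : ZMod p) ≠ 0) : ∃ Q : (ZMod p)[X], Irreducible Q ∧
      Q ∣ f.comp (C c * X ^ s) ∧ ¬ Q ^ 2 ∣ f.comp (C c * X ^ s) := by
  obtain ⟨hf0, _, N, G, H, A, B, hN, hG, h1, h2, hG0⟩ := h
  have hs0 : s ≠ 0 := by
    rintro rfl
    simp at hs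
  set σ : (ZMod p)[X] := C c * X ^ s with hσ
  have hσd : σ.natDegree = s := by
    rw [hσ, natDegree_C_mul_X_pow _ _ hc]
  have hGσd : (G.comp σ).natDegree = G.natDegree * s := by
    rw [natDegree_comp, hσd]
  obtain ⟨Q, hQ, hQG⟩ : ∃ Q : (ZMod p)[X], Irreducible Q ∧ Q ∣ G.comp σ := by
    apply WfDvdMonoid.exists_irreducible_factor
    · intro hu
      have := natDegree_eq_zero_of_isUnit hu
      rw [hGσd] at this
      have : 0 < G.natDegree * s := Nat.mul_pos hG (Nat.pos_of_ne_zero hs0)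
      omega
    · intro h
      rw [h, natDegree_zero] at hGσd
      have : 0 < G.natDegree * s := Nat.mul_pos hG (Nat.pos_of_ne_zero hs0)
      omega
  have hNu : IsUnit (C N) := by
    rw [isUnit_C]
    exact isUnit_iff_ne_zero.2 hN
  have e1 : C N * f.comp σ = G.comp σ * H.comp σ := by
    have := congrArg (fun q : (ZMod p)[X] => q.comp σ) h1
    simp only [mul_comp, C_comp] at this
    exact this
  have e2 : A.comp σ * G.comp σ + B.comp σ * (derivative f).comp σ = C N := by
    have := congrArg (fun q : (ZMod p)[X] => q.comp σ) h2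
    simp only [mul_comp, C_comp, add_comp] at this
    exact this
  refine ⟨Q, hQ, ?_, ?_⟩
  · have h3 : Q ∣ C N * f.comp σ := by
      rw [e1]
      exact hQG.mul_right _
    exact (hNu.dvd_mul_left).1 h3
  · intro h3
    have h4 : Q ∣ derivative (f.comp σ) := by
      obtain ⟨R, hR⟩ := h3
      rw [hR]
      refine ⟨(2 : (ZMod p)[X]) * derivative Q * R + Q * derivative R, ?_⟩
      rw [derivative_mul, derivative_pow]
      push_cast
      simp only [Nat.cast_ofNat, map_ofNat]
      ring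
    rw [derivative_comp] at h4
    have hQp : Prime Q := hQ.prime
    rcases hQp.dvd_or_dvd h4 with h5 | h5
    · -- the derivative of the monomial
      have h6 : derivative σ = C (c * s) * X ^ (s - 1) := by
        rw [hσ, derivative_C_mul, derivative_X_pow]
        rw [C_mul, mul_assoc]
      rw [h6] at h5
      rcases hQp.dvd_or_dvd h5 with h7 | h7
      · exact hQ.not_isUnit (isUnit_of_dvd_unit h7 (by
          rw [isUnit_C]
          exact isUnit_iff_ne_zero.2 (mul_ne_zero hc hs)))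
      · have h8 : Q ∣ X := hQp.dvd_of_dvd_pow h7
        have h9 : Associated Q X := hQ.associated_of_dvd irreducible_X h8
        have h10 : (X : (ZMod p)[X]) ∣ G.comp σ := h9.symm.dvd.trans hQG
        rw [X_dvd_iff, coeff_zero_eq_eval_zero, eval_comp] at h10
        have h11 : σ.eval 0 = 0 := by
          rw [hσ]
          simp [hs0]
        rw [h11, ← coeff_zero_eq_eval_zero] at h10
        exact hG0 h10
    · have h6 : Q ∣ C N := by
        rw [← e2]
        exact dvd_add (hQG.mul_left _) (h5.mul_left _)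
      exact hQ.not_isUnit (isUnit_of_dvd_unit h6 hNu)

/-- Weil's bound without the monic hypothesis -/
lemma weilG {p : ℕ} [Fact p.Prime] (f Q : (ZMod p)[X]) (hf : f ≠ 0) (hQ : Irreducible Q) (hQF : Q ∣ f)
    (hQ2 : ¬ Q ^ 2 ∣ f) (χ : DirichletCharacter ℂ p) (hχ : χ ≠ 1) :
    ‖∑ a : ZMod p, χ (f.eval a)‖ ≤ f.natDegree * Real.sqrt p := by
  set ℓ := f.leadingCoeff with hℓ
  have hℓ0 : ℓ ≠ 0 := leadingCoeff_ne_zero.2 hf
  set P : (ZMod p)[X] := C ℓ⁻¹ * f with hP
  have hPm : P.Monic := by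
    rw [hP, Monic, leadingCoeff_mul, leadingCoeff_C, ← hℓ, inv_mul_cancel₀ hℓ0]
  have hFP : f = C ℓ * P := by
    rw [hP, ← mul_assoc, ← C_mul, mul_inv_cancel₀ hℓ0, C_1, one_mul]
  have hu : IsUnit (C ℓ⁻¹) := by
    rw [isUnit_C]
    exact isUnit_iff_ne_zero.2 (inv_ne_zero hℓ0)
  have hQP : Q ∣ P := hQF.mul_left _
  have hQP2 : ¬ Q ^ 2 ∣ P := by
    intro h2
    exact hQ2 ((hu.dvd_mul_left).1 h2)
  have hPd : P.natDegree = f.natDegree := by
    rw [hP, natDegree_C_mul (inv_ne_zero hℓ0)]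
  have e1 : ∑ a : ZMod p, χ (f.eval a) = χ ℓ * ∑ a : ZMod p, χ (P.eval a) := by
    rw [Finset.mul_sum]
    apply Finset.sum_congr rfl
    intro a _
    have : f.eval a = ℓ * P.eval a := by
      conv_lhs => rw [hFP, eval_mul, eval_C]
    rw [this, map_mul]
  have hord : orderOf χ ∣ Fintype.card (ZMod p) - 1 := MulChar.orderOf_dvd_card_sub_one (ZMod p) χ
  have hord0 : orderOf χ ≠ 1 := fun h2 => hχ (orderOf_eq_one_iff.1 h2)
  have hord1 : 0 < orderOf χ := orderOf_pos χ
  have hw := weil2 (orderOf χ) (by omega) hord χ hχ (pow_orderOf_eq_one χ) P Q hPm hQ hQP hQP2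
  rw [e1, norm_mul]
  have h3 : ‖χ ℓ‖ ≤ 1 := DirichletCharacter.norm_le_one χ _
  rw [hPd, ZMod.card] at hw
  calc ‖χ ℓ‖ * ‖∑ a : ZMod p, χ (P.eval a)‖ ≤ 1 * (f.natDegree * Real.sqrt p) :=
        mul_le_mul h3 hw (norm_nonneg _) zero_le_one
    _ = _ := one_mul _

end Run7.h293.EP
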