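import Pool.Agent.Run7.h293.EP1

set_option autoImplicit false

/-! # Character sums over the values of a polynomial at a geometric progression -/

namespace Run7.h293.EP

open Polynomial Finset Pool.Agent.R318.PR

/-- sums over the cyclic subgroup generated by an element, as sums over the `s`-th powers -/
lemma sum_pow_eq {G : Type*} [CommGroup G] [Fintype G] [IsCyclic G] (b : G) (s : ℕ)
    (hs : s * orderOf b = Fintype.card G) (φ : G → ℂ) :
    ∑ x : G, φ (x ^ s) = s * ∑ j ∈ range (orderOf b), φ (b ^ j) := by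
  classical
  obtain ⟨τ, hτ⟩ : ∃ τ, τ = orderOf b := ⟨_, rfl⟩
  have hcard : 0 < Fintype.card G := Fintype.card_pos
  have hs0 : 0 < s := by
    rcases Nat.eq_zero_or_pos s with h | h
    · rw [h, zero_mul] at hs
      omega
    · exact h
  have hτ0 : 0 < τ := by rw [hτ]; exact orderOf_pos b
  rw [← hτ] at hs ⊢
  -- the elements killed by `τ`
  obtain ⟨Y, hY⟩ : ∃ Y : Finset G, Y = univ.filter (fun y => y ^ τ = 1) := ⟨_, rfl⟩
  have hYc : Y.card ≤ τ := by
    rw [hY]
    exact IsCyclic.card_pow_eq_one_le hτ0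
  have hbinj : Set.InjOn (fun j : ℕ => b ^ j) (range τ : Set ℕ) := by
    intro i hi j hj h
    rw [mem_coe, mem_range] at hi hj
    exact pow_injOn_Iio_orderOf (by rw [← hτ]; exact hi) (by rw [← hτ]; exact hj) h
  have hbY : (range τ).image (fun j => b ^ j) = Y := by
    apply eq_of_subset_of_card_le
    · intro y hy
      rw [mem_image] at hy
      obtain ⟨j, _, rfl⟩ := hy
      rw [hY, mem_filter]
      refine ⟨mem_univ _, ?_⟩
      rw [← pow_mul, mul_comm, pow_mul, hτ, pow_orderOf_eq_one, one_pow]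
    · rw [card_image_of_injOn hbinj, card_range]
      exact hYc
  have hYc' : Y.card = τ := by
    rw [← hbY, card_image_of_injOn hbinj, card_range]
  have hmap : ∀ x : G, x ^ s ∈ Y := by
    intro x
    rw [hY, mem_filter]
    refine ⟨mem_univ _, ?_⟩
    rw [← pow_mul, hs, pow_card_eq_one]
  have hfib : ∀ y : G, (univ.filter (fun x : G => x ^ s = y)).card ≤ s := by
    intro y
    rcases (univ.filter (fun x : G => x ^ s = y)).eq_empty_or_nonempty with h | ⟨x₀, hx₀⟩
    · rw [h, card_empty]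
      exact Nat.zero_le _
    · rw [mem_filter] at hx₀
      calc (univ.filter (fun x : G => x ^ s = y)).card ≤ (univ.filter (fun x : G => x ^ s = 1)).card := by
            apply card_le_card_of_injOn (fun x => x * x₀⁻¹)
            · intro x hx
              rw [mem_coe, mem_filter] at hx ⊢
              refine ⟨mem_univ _, ?_⟩
              rw [mul_pow, inv_pow, hx.2, hx₀.2, mul_inv_cancel]
            · intro x _ x' _ h
              exact mul_right_cancel h
        _ ≤ s := IsCyclic.card_pow_eq_one_le hs0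
  have hsum : ∑ y ∈ Y, (univ.filter (fun x : G => x ^ s = y)).card = Fintype.card G := by
    rw [← card_univ]
    exact (card_eq_sum_card_fiberwise (fun x _ => hmap x)).symm
  have hfib' : ∀ y ∈ Y, (univ.filter (fun x : G => x ^ s = y)).card = s := by
    by_contra hcon
    push Not at hcon
    obtain ⟨y₀, hy₀, hne⟩ := hcon
    have hlt : ∑ y ∈ Y, (univ.filter (fun x : G => x ^ s = y)).card < ∑ y ∈ Y, s :=
      sum_lt_sum (fun y _ => hfib y) ⟨y₀, hy₀, lt_of_le_of_ne (hfib y₀) hne⟩
    rw [hsum, sum_const, smul_eq_mul, hYc', mul_comm τ s, hs] at hlt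
    exact lt_irrefl _ hlt
  have h1 : ∑ x : G, φ (x ^ s) = ∑ y ∈ Y, ∑ x ∈ univ.filter (fun x : G => x ^ s = y), φ (x ^ s) :=
    (sum_fiberwise_of_maps_to (fun x _ => hmap x) _).symm
  have h2 : ∀ y ∈ Y, ∑ x ∈ univ.filter (fun x : G => x ^ s = y), φ (x ^ s) = s * φ y := by
    intro y hy
    have e : ∀ x ∈ univ.filter (fun x : G => x ^ s = y), φ (x ^ s) = φ y := by
      intro x hx
      rw [mem_filter] at hx
      rw [hx.2]
    rw [sum_congr rfl e, sum_const, hfib' y hy, nsmul_eq_mul]
  rw [h1, sum_congr rfl h2, ← mul_sum, ← hbY, sum_image hbinj]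

/-- the sum over a geometric progression -/
theorem sum_geom {d p : ℕ} [Fact p.Prime] (hd : 1 ≤ d) {f : (ZMod p)[X]} (h : GdF d p f) (χ : DirichletCharacter ℂ p)
    (hχ : χ ≠ 1) (c : ZMod p) (hc : c ≠ 0) (b : (ZMod p)ˣ) :
    ‖∑ j ∈ range (orderOf b), χ (f.eval (c * (b : ZMod p) ^ j))‖ ≤ 2 * d * Real.sqrt p := by
  classical
  have hp := Fact.out (p := p.Prime)
  have hp2 := hp.two_le
  have hcard : Fintype.card (ZMod p)ˣ = p - 1 := ZMod.card_units p
  obtain ⟨s, hs⟩ : ∃ s, Fintype.card (ZMod p)ˣ = orderOf b * s := orderOf_dvd_card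
  have hs' : s * orderOf b = Fintype.card (ZMod p)ˣ := by rw [hs, mul_comm]
  have hs0 : 0 < s := by
    rcases Nat.eq_zero_or_pos s with h | h
    · rw [h, mul_zero, hcard] at hs
      omega
    · exact h
  have hsp : s < p := by
    have h1 : s ∣ p - 1 := by rw [← hcard, ← hs']; exact dvd_mul_right _ _
    have := Nat.le_of_dvd (by omega) h1
    omega
  have hsz : (s : ZMod p) ≠ 0 := by
    intro h
    rw [ZMod.natCast_eq_zero_iff] at h
    have := Nat.le_of_dvd hs0 h
    omega
  have h1 := sum_pow_eq b s hs' (fun x => χ (f.eval (c * (x : ZMod p))))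
  obtain ⟨Q, hQ, hQ1, hQ2⟩ := irr_factor h c hc s hsz
  have hσd : (C c * X ^ s : (ZMod p)[X]).natDegree = s := natDegree_C_mul_X_pow _ _ hc
  have hcomp0 : f.comp (C c * X ^ s) ≠ 0 := by
    intro h0
    rw [h0] at hQ2
    exact hQ2 (dvd_zero _)
  have hw := weilG (f.comp (C c * X ^ s)) Q hcomp0 hQ hQ1 hQ2 χ hχ
  rw [natDegree_comp, hσd] at hw
  have hev : ∀ x : ZMod p, (f.comp (C c * X ^ s)).eval x = f.eval (c * x ^ s) := by
    intro x
    rw [eval_comp]
    simp
  simp only [hev] at hw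
  have h2 : ∑ x : ZMod p, χ (f.eval (c * x ^ s)) =
      χ (f.eval 0) + ∑ x : (ZMod p)ˣ, χ (f.eval (c * ((x ^ s : (ZMod p)ˣ) : ZMod p))) := by
    rw [← add_sum_erase univ _ (mem_univ (0 : ZMod p))]
    congr 1
    · rw [zero_pow (by omega), mul_zero]
    · symm
      apply sum_bij (fun (x : (ZMod p)ˣ) _ => (x : ZMod p))
      · intro x _
        rw [mem_erase]
        exact ⟨x.ne_zero, mem_univ _⟩
      · intro x _ y _ hxy
        exact Units.ext hxy
      · intro y hy
        rw [mem_erase] at hy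
        exact ⟨Units.mk0 y hy.1, mem_univ _, rfl⟩
      · intro x _
        rw [Units.val_pow_eq_pow_val]
  have h3 : ‖(s : ℂ) * ∑ j ∈ range (orderOf b), χ (f.eval (c * ((b ^ j : (ZMod p)ˣ) : ZMod p)))‖ ≤
      (f.natDegree * s : ℕ) * Real.sqrt p + 1 := by
    rw [← h1]
    have h4 : ∑ x : (ZMod p)ˣ, χ (f.eval (c * ((x ^ s : (ZMod p)ˣ) : ZMod p))) =
        ∑ x : ZMod p, χ (f.eval (c * x ^ s)) - χ (f.eval 0) := by
      rw [h2]
      ring
    rw [h4]
    refine (norm_sub_le _ _).trans (add_le_add hw ?_)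
    exact DirichletCharacter.norm_le_one χ _
  rw [norm_mul, Complex.norm_natCast] at h3
  have hsr : (1 : ℝ) ≤ s := by exact_mod_cast hs0
  have hs1 : 1 ≤ Real.sqrt p := by
    rw [Real.one_le_sqrt]
    exact_mod_cast hp.one_le
  have hdf : (f.natDegree : ℝ) ≤ d := by exact_mod_cast h.2.1
  have hdr : (1 : ℝ) ≤ d := by exact_mod_cast hd
  have h5 : (s : ℝ) * ‖∑ j ∈ range (orderOf b), χ (f.eval (c * ((b ^ j : (ZMod p)ˣ) : ZMod p)))‖ ≤
      s * (2 * d * Real.sqrt p) := by
    refine h3.trans ?_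
    push_cast
    have e1 : (f.natDegree : ℝ) * s * Real.sqrt p ≤ d * s * Real.sqrt p := by gcongr
    have e2 : (1 : ℝ) ≤ d * s * Real.sqrt p := by
      have : (1 : ℝ) ≤ d * s := one_le_mul_of_one_le_of_one_le hdr hsr
      exact one_le_mul_of_one_le_of_one_le this hs1
    linarith
  have h6 := le_of_mul_le_mul_left h5 (by linarith)
  simpa only [Units.val_pow_eq_pow_val] using h6

/-- few zeros in a period -/
lemma zeros_geom {d p : ℕ} [Fact p.Prime] {f : (ZMod p)[X]} (hf : f ≠ 0) (hfd : f.natDegree ≤ d)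
    (c : ZMod p) (hc : c ≠ 0) (b : (ZMod p)ˣ) (T : ℕ) (hT : T ≤ orderOf b) (r : ℕ) :
    ((range T).filter (fun j => f.eval (c * (b : ZMod p) ^ (r + j)) = 0)).card ≤ d := by
  classical
  have h1 : ((range T).filter (fun j => f.eval (c * (b : ZMod p) ^ (r + j)) = 0)).card ≤ f.roots.toFinset.card := by
    apply card_le_card_of_injOn (fun j => c * (b : ZMod p) ^ (r + j))
    · intro j hj
      rw [mem_coe, mem_filter] at hj
      rw [mem_coe, Multiset.mem_toFinset, mem_roots hf, IsRoot.def]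
      exact hj.2
    · intro i hi j hj h
      rw [mem_coe, mem_filter, mem_range] at hi hj
      simp only at h
      have h2 := mul_left_cancel₀ hc h
      rw [pow_add, pow_add] at h2
      have h3 := mul_left_cancel₀ (pow_ne_zero r b.ne_zero) h2
      have h4 : b ^ i = b ^ j := by
        apply Units.ext
        rw [Units.val_pow_eq_pow_val, Units.val_pow_eq_pow_val]
        exact h3
      exact pow_injOn_Iio_orderOf (lt_of_lt_of_le hi.1 hT) (lt_of_lt_of_le hj.1 hT) h4
  exact h1.trans ((Multiset.toFinset_card_le _).trans ((card_roots' _).trans hfd))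

end Run7.h293.EP
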