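import Mathlib

set_option autoImplicit false

/-! # Sums of products of two periodic functions -/

namespace Run7.h293.EP

open Finset

/-- coprime periods -/
lemma prod_coprime (α β : ℕ → ℂ) (m n : ℕ) (hm : 0 < m) (hn : 0 < n) (hmn : Nat.Coprime m n)
    (hα : ∀ k, α (k % m) = α k) (hβ : ∀ k, β (k % n) = β k) :
    ∑ k ∈ range (m * n), α k * β k = (∑ k ∈ range m, α k) * ∑ k ∈ range n, β k := by
  classical
  rw [sum_mul_sum, ← sum_product']
  apply sum_nbij' (fun k => (k % m, k % n)) (fun z => (Nat.chineseRemainder hmn z.1 z.2 : ℕ))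
  · intro k _
    rw [mem_product, mem_range, mem_range]
    exact ⟨Nat.mod_lt _ hm, Nat.mod_lt _ hn⟩
  · intro z _
    rw [mem_range]
    exact Nat.chineseRemainder_lt_mul hmn _ _ hm.ne' hn.ne'
  · intro k hk
    rw [mem_range] at hk
    simp only
    have h1 := (Nat.chineseRemainder hmn (k % m) (k % n)).2
    have h2 : (Nat.chineseRemainder hmn (k % m) (k % n) : ℕ) ≡ k [MOD m * n] := by
      rw [← Nat.modEq_and_modEq_iff_modEq_mul hmn]
      exact ⟨h1.1.trans (Nat.mod_modEq _ _), h1.2.trans (Nat.mod_modEq _ _)⟩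
    have h3 := Nat.chineseRemainder_lt_mul hmn (k % m) (k % n) hm.ne' hn.ne'
    exact Nat.ModEq.eq_of_lt_of_lt h2 h3 hk
  · rintro ⟨a, b⟩ hz
    rw [mem_product, mem_range, mem_range] at hz
    simp only at hz
    have h1 := (Nat.chineseRemainder hmn a b).2
    ext
    · simp only
      have := h1.1
      unfold Nat.ModEq at this
      rw [this, Nat.mod_eq_of_lt hz.1]
    · simp only
      have := h1.2
      unfold Nat.ModEq at this
      rw [this, Nat.mod_eq_of_lt hz.2]
  · intro k _
    simp only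
    rw [hα, hβ]

lemma per_mod {α : ℕ → ℂ} {m : ℕ} (h : ∀ k, α (k + m) = α k) (k : ℕ) : α (k % m) = α k := by
  have key : ∀ (j r : ℕ), α (r + j * m) = α r := by
    intro j
    induction j with
    | zero => intro r; simp
    | succ j ih =>
      intro r
      rw [Nat.succ_mul, ← add_assoc, h, ih]
  have h1 := key (k / m) (k % m)
  rw [mul_comm, Nat.mod_add_div] at h1
  exact h1.symm

/-- splitting a range into residue classes -/
lemma sum_classes (φ : ℕ → ℂ) (g n : ℕ) (hg : 0 < g) :
    ∑ k ∈ range (g * n), φ k = ∑ r ∈ range g, ∑ j ∈ range n, φ (r + g * j) := by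
  classical
  rw [← sum_product']
  apply sum_nbij' (fun k => (k % g, k / g)) (fun z => z.1 + g * z.2)
  · intro k hk
    rw [mem_range] at hk
    rw [mem_product, mem_range, mem_range]
    exact ⟨Nat.mod_lt _ hg, Nat.div_lt_of_lt_mul hk⟩
  · rintro ⟨r, j⟩ hz
    rw [mem_product, mem_range, mem_range] at hz
    rw [mem_range]
    simp only at hz ⊢
    calc r + g * j < g + g * j := by omega
      _ = g * (j + 1) := by ring
      _ ≤ g * n := Nat.mul_le_mul_left _ hz.2
  · intro k _
    simp only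
    exact Nat.mod_add_div k g
  · rintro ⟨r, j⟩ hz
    rw [mem_product, mem_range, mem_range] at hz
    simp only at hz ⊢
    ext
    · simp only
      rw [Nat.add_mul_mod_self_left, Nat.mod_eq_of_lt hz.1]
    · simp only
      rw [Nat.add_mul_div_left _ _ hg, Nat.div_eq_of_lt hz.1, zero_add]
  · intro k _
    simp only
    rw [Nat.mod_add_div]

/-- the joint sum over a common period -/
theorem joint_per (α β : ℕ → ℂ) (T T' : ℕ) (hT : 0 < T) (hT' : 0 < T') (hα : ∀ k, α (k + T) = α k)
    (hβ : ∀ k, β (k + T') = β k) (S S' : ℝ) (hS0 : 0 ≤ S)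
    (hS : ∀ g r, g ∣ T → ‖∑ j ∈ range (T / g), α (r + g * j)‖ ≤ S)
    (hS' : ∀ g r, g ∣ T' → ‖∑ j ∈ range (T' / g), β (r + g * j)‖ ≤ S') :
    ‖∑ k ∈ range (Nat.lcm T T'), α k * β k‖ ≤ (Nat.gcd T T' : ℝ) * (S * S') := by
  classical
  obtain ⟨g, hg⟩ : ∃ g, g = Nat.gcd T T' := ⟨_, rfl⟩
  have hg0 : 0 < g := by rw [hg]; exact Nat.gcd_pos_of_pos_left _ hT
  have hgT : g ∣ T := by rw [hg]; exact Nat.gcd_dvd_left _ _
  have hgT' : g ∣ T' := by rw [hg]; exact Nat.gcd_dvd_right _ _
  obtain ⟨m, hm⟩ := hgT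
  obtain ⟨n, hn⟩ := hgT'
  have hmd : T / g = m := by rw [hm, Nat.mul_div_cancel_left _ hg0]
  have hnd : T' / g = n := by rw [hn, Nat.mul_div_cancel_left _ hg0]
  have hm0 : 0 < m := by
    rcases Nat.eq_zero_or_pos m with h | h
    · rw [h, mul_zero] at hm; omega
    · exact h
  have hn0 : 0 < n := by
    rcases Nat.eq_zero_or_pos n with h | h
    · rw [h, mul_zero] at hn; omega
    · exact h
  have hcop : Nat.Coprime m n := by
    have := Nat.coprime_div_gcd_div_gcd (m := T) (n := T') (by rw [← hg]; exact hg0)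
    rw [← hg, hmd, hnd] at this
    exact this
  have hL : Nat.lcm T T' = g * (m * n) := by
    have h1 := Nat.gcd_mul_lcm T T'
    rw [← hg] at h1
    have h2 : g * Nat.lcm T T' = g * (g * (m * n)) := by
      rw [h1, hm, hn]
      ring
    exact Nat.eq_of_mul_eq_mul_left hg0 h2
  rw [hL, sum_classes _ g (m * n) hg0, ← hg]
  have h1 : ∀ r ∈ range g, ‖∑ j ∈ range (m * n), α (r + g * j) * β (r + g * j)‖ ≤ S * S' := by
    intro r _
    have h2 := prod_coprime (fun j => α (r + g * j)) (fun j => β (r + g * j)) m n hm0 hn0 hcop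
      (fun k => per_mod (α := fun j => α (r + g * j)) (m := m) (by
        intro k
        have : r + g * (k + m) = (r + g * k) + T := by rw [hm]; ring
        rw [this, hα]) k)
      (fun k => per_mod (α := fun j => β (r + g * j)) (m := n) (by
        intro k
        have : r + g * (k + n) = (r + g * k) + T' := by rw [hn]; ring
        rw [this, hβ]) k)
    rw [h2, norm_mul]
    have h3 := hS g r ⟨m, hm⟩
    have h4 := hS' g r ⟨n, hn⟩
    rw [hmd] at h3
    rw [hnd] at h4
    exact mul_le_mul h3 h4 (norm_nonneg _) hS0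
  refine (norm_sum_le _ _).trans ((sum_le_sum h1).trans (le_of_eq ?_))
  rw [sum_const, card_range, nsmul_eq_mul]

end Run7.h293.EP
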