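import Pool.Agent.Run7.h293.Fam
import Pool.Agent.Run7.h293.Dig

set_option autoImplicit false

/-! # Integers with few nonzero digits: one `x` -/

namespace Run7.h293

open Finset Filter Pool.Agent.H730R2.AA Pool.Agent.R459.Eq Pool.Agent.R318.PR
open Run7.h293.Dg

/-- one `x`, one recurrence, all but few primes -/
theorem one_G (B : ℕ) (ε : ℝ) (hε : 0 < ε) : ∃ X₀ : ℕ, 4 ≤ X₀ ∧ ∀ (P Q : ℤ) (v : ℤ × ℤ) (M : ℕ)
      (f : ℕ → ℤ → ℝ) (c : ℕ → ℝ) (δ : ℝ) (x K : ℕ), X₀ ≤ x → x ^ 5 ≤ 1024 * K →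
      (∀ p ∈ GP M x, EX p (f p) (c p) ((p - 1).divisors.card : ℝ)) →
      |∑ p ∈ GP M x, c p - δ * Nat.primeCounting x| ≤ ε / 4 * Nat.primeCounting x →
      ∀ G H : Finset ℕ, G ∪ H = GP M x → Disjoint G H →
      (∀ p ∈ G, Gd P Q v p ∧ Real.sqrt x * Real.log x ^ (B + 3) ≤ rk P Q p) →
      (H.card : ℝ) ≤ ε / 8 * Nat.primeCounting x →
      ∀ E : Finset ℕ, E ⊆ range K →
      (∀ k ∈ E, ε * (Nat.primeCounting x : ℝ) <
        |∑ p ∈ GP M x, f p (lv P Q v k) - δ * Nat.primeCounting x|) →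
      (E.card : ℝ) ≤ 6400 / ε ^ 2 * (K / Real.log x ^ B) := by
  classical
  obtain ⟨X₁, hX₁, h1⟩ := second B
  refine ⟨X₁, hX₁, fun P Q v M f c δ x K hx hK hf hcδ G H hGH hdis hG hHc E hE hbig => ?_⟩
  have hx4 : 4 ≤ x := by omega
  obtain ⟨hpi, _, _⟩ := pi_lower' x hx4
  have hL1 := log_one_le hx4
  have hGM : ∀ p ∈ G, p ∈ GP M x := fun p hp => by rw [← hGH]; exact mem_union_left _ hp
  have hHM : ∀ p ∈ H, p ∈ GP M x := fun p hp => by rw [← hGH]; exact mem_union_right _ hp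
  have hsec := h1 P Q v x K (by omega) hK G (by
    intro p hp
    obtain ⟨a1, a2⟩ := hG p hp
    exact ⟨((mem_GP M x p).1 (hGM p hp)).1, a1, a2⟩) f c (fun p hp => hf p (hGM p hp))
  have hS : ∀ k ∈ E, (ε / 2 * (Nat.primeCounting x : ℝ)) ^ 2 ≤
      (∑ p ∈ G, (f p (lv P Q v k) - c p)) ^ 2 := by
    intro k hk
    rw [← sq_abs (∑ p ∈ G, (f p (lv P Q v k) - c p))]
    apply pow_le_pow_left₀ (by positivity)
    have h4 := hbig k hk
    have h5 : ∑ p ∈ GP M x, f p (lv P Q v k) - δ * Nat.primeCounting x =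
        ∑ p ∈ G, (f p (lv P Q v k) - c p) + ∑ p ∈ H, (f p (lv P Q v k) - c p) +
          (∑ p ∈ GP M x, c p - δ * Nat.primeCounting x) := by
      have e1 : ∑ p ∈ GP M x, (f p (lv P Q v k) - c p) =
          ∑ p ∈ G, (f p (lv P Q v k) - c p) + ∑ p ∈ H, (f p (lv P Q v k) - c p) := by
        rw [← hGH, sum_union hdis]
      have e2 : ∑ p ∈ GP M x, (f p (lv P Q v k) - c p) = ∑ p ∈ GP M x, f p (lv P Q v k) - ∑ p ∈ GP M x, c p :=
        sum_sub_distrib _ _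
      linarith
    have h6 : |∑ p ∈ H, (f p (lv P Q v k) - c p)| ≤ ε / 4 * Nat.primeCounting x := by
      refine (abs_sum_le_sum_abs _ _).trans ?_
      calc ∑ p ∈ H, |f p (lv P Q v k) - c p| ≤ ∑ p ∈ H, (2 : ℝ) := by
            apply sum_le_sum
            intro p hp
            obtain ⟨b1, b2, b3, _⟩ := hf p (hHM p hp)
            have := b1 (lv P Q v k)
            rw [abs_le]
            constructor <;> linarith [this.1, this.2]
        _ = H.card * 2 := by rw [sum_const, nsmul_eq_mul]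
        _ ≤ _ := by linarith
    rw [h5] at h4
    have h7 := abs_add_le (∑ p ∈ G, (f p (lv P Q v k) - c p) + ∑ p ∈ H, (f p (lv P Q v k) - c p))
      (∑ p ∈ GP M x, c p - δ * Nat.primeCounting x)
    have h8 := abs_add_le (∑ p ∈ G, (f p (lv P Q v k) - c p)) (∑ p ∈ H, (f p (lv P Q v k) - c p))
    linarith
  have hcheb : (E.card : ℝ) * (ε / 2 * (Nat.primeCounting x : ℝ)) ^ 2 ≤
      1600 * K * ((Nat.primeCounting x : ℝ) ^ 2 / Real.log x ^ B) := by
    refine le_trans ?_ hsec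
    rw [← nsmul_eq_mul, ← sum_const]
    refine (sum_le_sum hS).trans ?_
    apply sum_le_sum_of_subset_of_nonneg hE
    intro k _ _
    exact sq_nonneg _
  have hpos : 0 < (ε / 2 * (Nat.primeCounting x : ℝ)) ^ 2 := by positivity
  have hLB : 0 < Real.log x ^ B := by positivity
  calc (E.card : ℝ) ≤ 1600 * K * ((Nat.primeCounting x : ℝ) ^ 2 / Real.log x ^ B) /
        (ε / 2 * (Nat.primeCounting x : ℝ)) ^ 2 := (le_div_iff₀ hpos).2 hcheb
    _ = _ := by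
        field_simp
        ring

/-- the initial terms of `m + d a ^ k` -/
def vmd (a m d : ℤ) : ℤ × ℤ := (m + d, m + d * a)

lemma lv_md (a m d : ℤ) (k : ℕ) : lv (a + 1) a (vmd a m d) k = m + d * a ^ k := by
  have h := lv_unique (a + 1) a (fun k => m + d * a ^ k) (by intro k; ring) k
  simp only [pow_zero, pow_one, mul_one] at h
  rw [h]
  rfl

lemma nf_md (a m d : ℤ) : nf (a + 1) a (vmd a m d) = -(m * d * (a - 1) ^ 2) := by
  unfold nf vmd
  ring

lemma ND0_md {a : ℤ} (ha : 2 ≤ |a|) : ND0 (a + 1) a := by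
  have h1 : a ≠ 0 := by rintro rfl; norm_num at ha
  have h2 : a ≠ 1 := by rintro rfl; norm_num at ha
  have h3 : a ≠ -1 := by rintro rfl; norm_num at ha
  refine ⟨h1, ?_, ?_, ?_, ?_, ?_⟩
  · intro h
    apply h3
    linarith
  · intro h
    nlinarith [sq_nonneg a, sq_nonneg (2 * a + 1)]
  · intro h
    nlinarith [sq_nonneg a]
  · intro h
    nlinarith [sq_nonneg (2 * a - 1)]
  · intro h
    have : (a - 1) ^ 2 = 0 := by linarith
    have := pow_eq_zero_iff (two_ne_zero) |>.1 this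
    apply h2
    linarith

/-- the bad primes for the digits -/
def Mda (a : ℤ) (Δ : Finset ℤ) : ℕ := 2 * a.natAbs * (a - 1).natAbs * ∏ d ∈ Δ, d.natAbs

lemma Mda_ne {a : ℤ} (ha : 2 ≤ |a|) {Δ : Finset ℤ} (h0 : (0 : ℤ) ∉ Δ) : Mda a Δ ≠ 0 := by
  have h1 : a ≠ 0 := by rintro rfl; norm_num at ha
  have h2 : a - 1 ≠ 0 := by
    intro h
    have : a = 1 := by linarith
    subst this
    norm_num at ha
  unfold Mda
  refine mul_ne_zero (mul_ne_zero (mul_ne_zero two_ne_zero (Int.natAbs_ne_zero.2 h1))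
    (Int.natAbs_ne_zero.2 h2)) (prod_ne_zero_iff.2 ?_)
  intro d hd
  exact Int.natAbs_ne_zero.2 (fun h => h0 (h ▸ hd))

lemma Gd_md {a : ℤ} {Δ : Finset ℤ} {p : ℕ} (hp : p.Prime) (h : ¬ p ∣ Mda a Δ) {m d : ℤ}
    (hm : ¬ (p : ℤ) ∣ m) (hd : ¬ (p : ℤ) ∣ d) : Gd (a + 1) a (vmd a m d) p := by
  unfold Mda at h
  have ha1 : ¬ (p : ℤ) ∣ a - 1 := by
    intro h1
    exact h (Dvd.dvd.mul_right (Dvd.dvd.mul_left (Int.natCast_dvd.1 h1) _) _)
  have hpr := Nat.prime_iff_prime_int.1 hp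
  refine ⟨hp, ?_, ?_, ?_, ?_⟩
  · rintro rfl
    exact h (Dvd.dvd.mul_right (Dvd.dvd.mul_right (Dvd.dvd.mul_right dvd_rfl _) _) _)
  · intro h1
    exact h (Dvd.dvd.mul_right (Dvd.dvd.mul_right (Dvd.dvd.mul_left (Int.natCast_dvd.1 h1) _) _) _)
  · intro h1
    have e : (a + 1) ^ 2 - 4 * a = (a - 1) ^ 2 := by ring
    rw [e] at h1
    exact ha1 (hpr.dvd_of_dvd_pow h1)
  · intro h1
    rw [nf_md, dvd_neg] at h1
    rcases hpr.dvd_or_dvd h1 with h2 | h2
    · rcases hpr.dvd_or_dvd h2 with h3 | h3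
      · exact hm h3
      · exact hd h3
    · exact ha1 (hpr.dvd_of_dvd_pow h2)

lemma Mda_d {a : ℤ} {Δ : Finset ℤ} {p : ℕ} (h : ¬ p ∣ Mda a Δ) {d : ℤ} (hd : d ∈ Δ) :
    ¬ (p : ℤ) ∣ d := by
  unfold Mda at h
  intro h1
  exact h (Dvd.dvd.mul_left ((Int.natCast_dvd.1 h1).trans (dvd_prod_of_mem (fun d : ℤ => d.natAbs) hd)) _)

lemma Mda_a {a : ℤ} {Δ : Finset ℤ} {p : ℕ} (h : ¬ p ∣ Mda a Δ) : ¬ (p : ℤ) ∣ a := by
  unfold Mda at h
  intro h1
  exact h (Dvd.dvd.mul_right (Dvd.dvd.mul_right (Dvd.dvd.mul_left (Int.natCast_dvd.1 h1) _) _) _)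

/-- few zeros of `m + d a ^ k` -/
lemma zeros_md {a : ℤ} {Δ : Finset ℤ} {p : ℕ} (hp : p.Prime) (h : ¬ p ∣ Mda a Δ) (m d : ℤ) (hd : d ∈ Δ) (K : ℕ) :
    (((range K).filter (fun k => (p : ℤ) ∣ m + d * a ^ k)).card : ℝ) ≤ K / rk (a + 1) a p + 1 := by
  classical
  have hd' := Mda_d h hd
  by_cases hm : (p : ℤ) ∣ m
  · have : (range K).filter (fun k => (p : ℤ) ∣ m + d * a ^ k) = ∅ := by
      rw [filter_eq_empty_iff]
      intro k _ h1
      have h2 : (p : ℤ) ∣ d * a ^ k := (dvd_add_right hm).1 h1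
      have hpr := Nat.prime_iff_prime_int.1 hp
      rcases hpr.dvd_or_dvd h2 with h3 | h3
      · exact hd' h3
      · exact Mda_a h (hpr.dvd_of_dvd_pow h3)
    rw [this, card_empty, Nat.cast_zero]
    positivity
  · have h1 := zeros_le (Gd_md hp h hm hd') K
    simp only [lv_md] at h1
    exact h1

lemma rk_md {a : ℤ} {Δ : Finset ℤ} {p : ℕ} (hp : p.Prime) (h : ¬ p ∣ Mda a Δ) : 1 ≤ rk (a + 1) a p := by
  have h1 : ¬ (p : ℤ) ∣ 1 := by
    intro h2
    have := Int.natCast_dvd.1 h2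
    simp only [Int.natAbs_one] at this
    exact hp.one_lt.ne' (Nat.dvd_one.1 this)
  exact (rk_spec (Gd_md hp h h1 h1)).1

/-- counting in `Fin K` and in `range K` -/
lemma card_fin_range (K : ℕ) (q : Fin K → Prop) [DecidablePred q] :
    ∃ E : Finset ℕ, E ⊆ range K ∧ E.card = (univ.filter q).card ∧ ∀ k ∈ E, ∃ i : Fin K, (i : ℕ) = k ∧ q i := by
  classical
  refine ⟨(univ.filter q).image (fun i : Fin K => (i : ℕ)), ?_, ?_, ?_⟩
  · intro k hk
    rw [mem_image] at hk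
    obtain ⟨i, _, rfl⟩ := hk
    exact mem_range.2 i.isLt
  · exact card_image_of_injective _ Fin.val_injective
  · intro k hk
    rw [mem_image] at hk
    obtain ⟨i, hi, rfl⟩ := hk
    rw [mem_filter] at hi
    exact ⟨i, rfl, hi.2⟩

/-- few vectors have a value divisible by a prime of large rank -/
lemma few_div {a : ℤ} {Δ : Finset ℤ} (hΔ : Δ.Nonempty) (h0 : (0 : ℤ) ∉ Δ) {p : ℕ} (hp : p.Prime)
    (h : ¬ p ∣ Mda a Δ) (K r : ℕ) (hr : 1 ≤ r) (hK : 2 * r ≤ K) :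
    (((VV Δ K r).filter (fun c => (p : ℤ) ∣ vl a c)).card : ℝ) ≤
      2 * (VV Δ K r).card * (1 / rk (a + 1) a p + 1 / K) := by
  classical
  obtain ⟨s, rfl⟩ : ∃ s, r = s + 1 := ⟨r - 1, by omega⟩
  have hK0 : 0 < K := by omega
  have hKr : (0 : ℝ) < K := by exact_mod_cast hK0
  have hVr : (0 : ℝ) < (VV Δ K s).card := by exact_mod_cast VV_pos Δ hΔ h0 K s (by omega)
  have h1 := dc Δ hΔ h0 K s (by omega) ((VV Δ K (s + 1)).filter (fun c => (p : ℤ) ∣ vl a c))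
    (filter_subset _ _) (fun _ => K / rk (a + 1) a p + 1) (by
      intro c hc d hd
      obtain ⟨E, hE1, hE2, hE3⟩ := card_fin_range K
        (fun k => c k = 0 ∧ Function.update c k d ∈ (VV Δ K (s + 1)).filter (fun c => (p : ℤ) ∣ vl a c))
      rw [← hE2]
      refine le_trans ?_ (zeros_md hp h (vl a c) d hd K)
      have : E ⊆ (range K).filter (fun k => (p : ℤ) ∣ vl a c + d * a ^ k) := by
        intro k hk
        obtain ⟨i, rfl, hi1, hi2⟩ := hE3 k hk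
        rw [mem_filter] at hi2 ⊢
        refine ⟨hE1 hk, ?_⟩
        rw [← vl_update a c i d hi1]
        exact hi2.2
      exact_mod_cast card_le_card this)
  rw [sum_const, nsmul_eq_mul] at h1
  have h2 : 0 < (K : ℝ) * (VV Δ K s).card := by positivity
  refine le_of_mul_le_mul_right ?_ h2
  refine h1.trans (le_of_eq ?_)
  field_simp

end Run7.h293
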