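import Pool.Agent.Run7.h293.EP3
import Pool.Agent.Run7.h293.Few

set_option autoImplicit false

/-! # Covariances and the second moment for periodic sequences with small character sums over residue classes -/

namespace Run7.h293.EP

open Finset Filter Pool.Agent.H730R2.AA Pool.Agent.R459.Eq Pool.Agent.R318.PR Run7.h293

/-- `w` has the period `T` modulo `p`, and its character sums over residue classes are small -/
structure SQ (w : ℕ → ℤ) (d p T : ℕ) : Prop where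
  pr : p.Prime
  pos : 0 < T
  dv : T ∣ p - 1
  per : ∀ k, (p : ℤ) ∣ w (k + T) - w k
  sm : ∀ χ : DirichletCharacter ℂ p, χ ≠ 1 → ∀ g r, g ∣ T →
    ‖∑ j ∈ range (T / g), χ ((w (r + g * j) : ℤ) : ZMod p)‖ ≤ 2 * d * Real.sqrt p
  zr : ∀ K : ℕ, (((range K).filter (fun k => (p : ℤ) ∣ w k)).card : ℝ) ≤ d * (K / T + 1)

/-- the covariance -/
theorem cov_g {w : ℕ → ℤ} {dd p q T₁ T₂ : ℕ} (hp : SQ w dd p T₁) (hq : SQ w dd q T₂)
    {f g : ℤ → ℝ} {c d T T' : ℝ} (hf : EX p f c T) (hg : EX q g d T') (K : ℕ) :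
    |∑ k ∈ range K, (f (w k) - c) * (g (w k) - d)| ≤
      K * (T * T' * (4 * (dd : ℝ) ^ 2 * Real.sqrt ((p : ℝ) * q)) *
        ((Nat.gcd T₁ T₂ : ℝ) / (Nat.lcm T₁ T₂ : ℝ))) +
      4 * (dd * (K / T₁ + 1) + dd * (K / T₂ + 1)) + 4 * (Nat.lcm T₁ T₂ : ℝ) := by
  classical
  have : Fact p.Prime := ⟨hp.pr⟩
  have : Fact q.Prime := ⟨hq.pr⟩
  obtain ⟨hf1, hc0, hc2, β, hβ, hfe⟩ := hf
  obtain ⟨hg1, hd0, hd2, γ, hγ, hge⟩ := hg
  have hT0 : 0 ≤ T := (sum_nonneg fun χ _ => norm_nonneg _).trans hβ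
  obtain ⟨L, hLd⟩ : ∃ L, L = Nat.lcm T₁ T₂ := ⟨_, rfl⟩
  have hL0 : 0 < L := by rw [hLd]; exact Nat.lcm_pos hp.pos hq.pos
  have hT1L : T₁ ∣ L := by rw [hLd]; exact Nat.dvd_lcm_left _ _
  have hT2L : T₂ ∣ L := by rw [hLd]; exact Nat.dvd_lcm_right _ _
  -- the sequences modulo the primes
  obtain ⟨a, ha⟩ : ∃ a : ℕ → ZMod p, a = fun k => ((w k : ℤ) : ZMod p) := ⟨_, rfl⟩
  obtain ⟨b, hb⟩ : ∃ b : ℕ → ZMod q, b = fun k => ((w k : ℤ) : ZMod q) := ⟨_, rfl⟩
  have haT : ∀ k, a (k + T₁) = a k := by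
    intro k
    rw [ha]
    simp only
    have := hp.per k
    rw [← ZMod.intCast_zmod_eq_zero_iff_dvd, Int.cast_sub, sub_eq_zero] at this
    exact this
  have hbT : ∀ k, b (k + T₂) = b k := by
    intro k
    rw [hb]
    simp only
    have := hq.per k
    rw [← ZMod.intCast_zmod_eq_zero_iff_dvd, Int.cast_sub, sub_eq_zero] at this
    exact this
  have hmulper : ∀ {R : Type} (s : ℕ → R) (t : ℕ), (∀ k, s (k + t) = s k) → ∀ j k, s (k + t * j) = s k := by
    intro R s t h j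
    induction j with
    | zero => intro k; simp
    | succ j ih =>
      intro k
      rw [Nat.mul_succ, ← add_assoc, h, ih]
  have haL : ∀ k, a (k + L) = a k := by
    obtain ⟨m, hm⟩ := hT1L
    intro k
    rw [hm]
    exact hmulper a T₁ haT m k
  have hbL : ∀ k, b (k + L) = b k := by
    obtain ⟨m, hm⟩ := hT2L
    intro k
    rw [hm]
    exact hmulper b T₂ hbT m k
  obtain ⟨A, hA⟩ : ∃ A : ℕ → ℂ, A = fun k => ∑ χ ∈ NT p, β χ * χ (a k) := ⟨_, rfl⟩
  obtain ⟨B, hB⟩ : ∃ B : ℕ → ℂ, B = fun k => ∑ χ ∈ NT q, γ χ * χ (b k) := ⟨_, rfl⟩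
  have hAL : ∀ k, A (k + L) = A k := by
    intro k
    rw [hA]
    simp only [haL]
  have hBL : ∀ k, B (k + L) = B k := by
    intro k
    rw [hB]
    simp only [hbL]
  have hA0 : ∀ k, (p : ℤ) ∣ w k → A k = 0 := by
    intro k hk
    rw [hA]
    apply sum_eq_zero
    intro χ _
    have : a k = 0 := by
      rw [ha]
      simp only
      rw [ZMod.intCast_zmod_eq_zero_iff_dvd]
      exact hk
    rw [this, MulChar.map_zero, mul_zero]
  have hB0 : ∀ k, (q : ℤ) ∣ w k → B k = 0 := by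
    intro k hk
    rw [hB]
    apply sum_eq_zero
    intro χ _
    have : b k = 0 := by
      rw [hb]
      simp only
      rw [ZMod.intCast_zmod_eq_zero_iff_dvd]
      exact hk
    rw [this, MulChar.map_zero, mul_zero]
  have hA1 : ∀ k, ¬ (p : ℤ) ∣ w k → A k = ((f (w k) - c : ℝ) : ℂ) := by
    intro k hk
    have := hfe (w k) hk
    rw [hA, Complex.ofReal_sub, this, ha]
    ring
  have hB1 : ∀ k, ¬ (q : ℤ) ∣ w k → B k = ((g (w k) - d : ℝ) : ℂ) := by
    intro k hk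
    have := hge (w k) hk
    rw [hB, Complex.ofReal_sub, this, hb]
    ring
  have hfc : ∀ n, |f n - c| ≤ 2 := by
    intro n
    have := hf1 n
    rw [abs_le]
    constructor <;> linarith [this.1, this.2]
  have hgd : ∀ n, |g n - d| ≤ 2 := by
    intro n
    have := hg1 n
    rw [abs_le]
    constructor <;> linarith [this.1, this.2]
  have hAn : ∀ k, ‖A k‖ ≤ 2 := by
    intro k
    by_cases hk : (p : ℤ) ∣ w k
    · rw [hA0 k hk, norm_zero]
      norm_num
    · rw [hA1 k hk, Complex.norm_real, Real.norm_eq_abs]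
      exact hfc _
  have hBn : ∀ k, ‖B k‖ ≤ 2 := by
    intro k
    by_cases hk : (q : ℤ) ∣ w k
    · rw [hB0 k hk, norm_zero]
      norm_num
    · rw [hB1 k hk, Complex.norm_real, Real.norm_eq_abs]
      exact hgd _
  obtain ⟨gg, hgg⟩ : ∃ gg, gg = Nat.gcd T₁ T₂ := ⟨_, rfl⟩
  -- the full period
  have hsq : Real.sqrt p * Real.sqrt q = Real.sqrt ((p : ℝ) * q) :=
    (Real.sqrt_mul (Nat.cast_nonneg _) _).symm
  have hper : ‖∑ k ∈ range L, A k * B k‖ ≤ T * T' * (gg * (4 * (dd : ℝ) ^ 2 * Real.sqrt ((p : ℝ) * q))) := by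
    have h1 : ∑ k ∈ range L, A k * B k =
        ∑ χ ∈ NT p, ∑ ρ ∈ NT q, (β χ * γ ρ) * ∑ k ∈ range L, χ (a k) * ρ (b k) := by
      have h2 : ∀ k ∈ range L, A k * B k = ∑ χ ∈ NT p, ∑ ρ ∈ NT q, (β χ * γ ρ) * (χ (a k) * ρ (b k)) := by
        intro k _
        rw [hA, hB]
        simp only
        rw [sum_mul_sum]
        apply sum_congr rfl
        intro χ _
        apply sum_congr rfl
        intro ρ _
        ring
      rw [sum_congr rfl h2, sum_comm]
      apply sum_congr rfl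
      intro χ _
      rw [sum_comm]
      apply sum_congr rfl
      intro ρ _
      rw [mul_sum]
    rw [h1]
    have h3 : ∀ χ ∈ NT p, ∀ ρ ∈ NT q, ‖(β χ * γ ρ) * ∑ k ∈ range L, χ (a k) * ρ (b k)‖ ≤
        ‖β χ‖ * ‖γ ρ‖ * (gg * (4 * (dd : ℝ) ^ 2 * Real.sqrt ((p : ℝ) * q))) := by
      intro χ hχ ρ hρ
      have hχ1 : χ ≠ 1 := by
        simp only [NT, mem_filter] at hχ
        exact hχ.2
      have hρ1 : ρ ≠ 1 := by
        simp only [NT, mem_filter] at hρ
        exact hρ.2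
      have h4 := joint_per (fun k => χ (a k)) (fun k => ρ (b k)) T₁ T₂ hp.pos hq.pos
        (fun k => by simp only [haT]) (fun k => by simp only [hbT]) (2 * dd * Real.sqrt p)
        (2 * dd * Real.sqrt q) (by positivity)
        (fun g' r hg' => by rw [ha]; exact hp.sm χ hχ1 g' r hg')
        (fun g' r hg' => by rw [hb]; exact hq.sm ρ hρ1 g' r hg')
      rw [← hLd, ← hgg] at h4
      rw [norm_mul, norm_mul]
      refine mul_le_mul_of_nonneg_left (h4.trans (le_of_eq ?_)) (mul_nonneg (norm_nonneg _) (norm_nonneg _))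
      rw [← hsq]
      ring
    calc _ ≤ ∑ χ ∈ NT p, ∑ ρ ∈ NT q, ‖(β χ * γ ρ) * ∑ k ∈ range L, χ (a k) * ρ (b k)‖ := by
          refine (norm_sum_le _ _).trans (sum_le_sum fun χ _ => norm_sum_le _ _)
      _ ≤ ∑ χ ∈ NT p, ∑ ρ ∈ NT q, ‖β χ‖ * ‖γ ρ‖ * (gg * (4 * (dd : ℝ) ^ 2 * Real.sqrt ((p : ℝ) * q))) :=
          sum_le_sum fun χ hχ => sum_le_sum fun ρ hρ => h3 χ hχ ρ hρ
      _ = (∑ χ ∈ NT p, ‖β χ‖) * (∑ ρ ∈ NT q, ‖γ ρ‖) * (gg * (4 * (dd : ℝ) ^ 2 * Real.sqrt ((p : ℝ) * q))) := by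
          rw [sum_mul_sum, sum_mul]
          apply sum_congr rfl
          intro χ _
          rw [sum_mul]
      _ ≤ T * T' * (gg * (4 * (dd : ℝ) ^ 2 * Real.sqrt ((p : ℝ) * q))) := by
          apply mul_le_mul_of_nonneg_right _ (by positivity)
          exact mul_le_mul hβ hγ (sum_nonneg fun _ _ => norm_nonneg _) hT0
  -- all windows
  have hLr : (0 : ℝ) < L := by exact_mod_cast hL0
  have hwin : ‖∑ k ∈ range K, A k * B k‖ ≤
      K * (T * T' * (4 * (dd : ℝ) ^ 2 * Real.sqrt ((p : ℝ) * q)) * ((gg : ℝ) / L)) + 4 * L := by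
    have h1 := sum_split (fun k => A k * B k) L (fun k => by rw [hAL, hBL]) (K / L) (K % L)
    rw [Nat.div_add_mod'] at h1
    rw [h1]
    refine (norm_add_le _ _).trans (add_le_add ?_ ?_)
    · rw [nsmul_eq_mul, norm_mul, Complex.norm_natCast]
      have h3 : ((K / L : ℕ) : ℝ) ≤ K / L := Nat.cast_div_le
      calc _ ≤ ((K : ℝ) / L) * (T * T' * (gg * (4 * (dd : ℝ) ^ 2 * Real.sqrt ((p : ℝ) * q)))) :=
            mul_le_mul h3 hper (norm_nonneg _) (by positivity)
        _ = _ := by ring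
    · refine (norm_sum_le _ _).trans ?_
      calc ∑ k ∈ range (K % L), ‖A k * B k‖ ≤ ∑ k ∈ range (K % L), (4 : ℝ) := by
            apply sum_le_sum
            intro k _
            rw [norm_mul]
            have := mul_le_mul (hAn k) (hBn k) (norm_nonneg _) (by norm_num)
            linarith
        _ = (K % L : ℕ) * 4 := by rw [sum_const, card_range, nsmul_eq_mul]
        _ ≤ _ := by
            have h2 : ((K % L : ℕ) : ℝ) ≤ L := by exact_mod_cast (Nat.mod_lt K hL0).le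
            linarith
  -- the zeros
  have hdiff : ‖((∑ k ∈ range K, (f (w k) - c) * (g (w k) - d) : ℝ) : ℂ) -
      ∑ k ∈ range K, A k * B k‖ ≤ 4 * (dd * (K / T₁ + 1) + dd * (K / T₂ + 1)) := by
    rw [Complex.ofReal_sum, ← sum_sub_distrib]
    refine (norm_sum_le _ _).trans ?_
    have h1 : ∀ k ∈ range K, ‖(((f (w k) - c) * (g (w k) - d) : ℝ) : ℂ) - A k * B k‖ ≤
        (if (p : ℤ) ∣ w k then 4 else 0) + (if (q : ℤ) ∣ w k then 4 else 0) := by
      intro k _
      have h4 : |(f (w k) - c) * (g (w k) - d)| ≤ 4 := by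
        rw [abs_mul]
        have := mul_le_mul (hfc (w k)) (hgd (w k)) (abs_nonneg _) (by norm_num)
        linarith
      by_cases hk : (p : ℤ) ∣ w k
      · rw [hA0 k hk, zero_mul, sub_zero, Complex.norm_real, Real.norm_eq_abs, if_pos hk]
        split_ifs <;> linarith
      · by_cases hk' : (q : ℤ) ∣ w k
        · rw [hB0 k hk', mul_zero, sub_zero, Complex.norm_real, Real.norm_eq_abs, if_pos hk', if_neg hk]
          linarith
        · rw [hA1 k hk, hB1 k hk', if_neg hk, if_neg hk', Complex.ofReal_mul, sub_self, norm_zero, add_zero]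
    refine (sum_le_sum h1).trans ?_
    rw [sum_add_distrib, ← sum_filter, ← sum_filter, sum_const, sum_const, nsmul_eq_mul, nsmul_eq_mul]
    have h2 := hp.zr K
    have h3 := hq.zr K
    linarith
  have hfin : |∑ k ∈ range K, (f (w k) - c) * (g (w k) - d)| =
      ‖((∑ k ∈ range K, (f (w k) - c) * (g (w k) - d) : ℝ) : ℂ)‖ := by
    rw [Complex.norm_real, Real.norm_eq_abs]
  rw [hfin, ← hgg, ← hLd]
  have h9 := norm_sub_norm_le ((∑ k ∈ range K, (f (w k) - c) * (g (w k) - d) : ℝ) : ℂ)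
    (∑ k ∈ range K, A k * B k)
  linarith

end Run7.h293.EP
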