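import Pool.Agent.Run7.h293.EP4

set_option autoImplicit false

/-! # The second moment for periodic sequences with small character sums over residue classes -/

namespace Run7.h293.EP

open Finset Filter Pool.Agent.H730R2.AA Pool.Agent.R459.Eq Pool.Agent.R318.PR Run7.h293

/-- a pair of primes whose periods have a small common divisor -/
lemma pair_le {w : ℕ → ℤ} {dd p q T₁ T₂ : ℕ} (hd : 1 ≤ dd) (hp : SQ w dd p T₁) (hq : SQ w dd q T₂)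
    {f g : ℤ → ℝ} {c d T T' : ℝ} (hf : EX p f c T) (hg : EX q g d T') (hT : 0 ≤ T) (hT' : 0 ≤ T') (K x g₀ : ℕ)
    (hpx : p ≤ x) (hqx : q ≤ x) (hx : 1 ≤ x) (hg₀ : 1 ≤ g₀) (hgcd : Nat.gcd T₁ T₂ ≤ g₀) (Y : ℝ) (hY : 0 < Y)
    (h1 : Y ≤ T₁) (h2 : Y ≤ T₂) :
    |∑ k ∈ range K, (f (w k) - c) * (g (w k) - d)| ≤
      K * (T * T' * (4 * (dd : ℝ) ^ 2 * (x * ((g₀ : ℝ) ^ 2 / Y ^ 2)))) +
        (8 * dd * K / Y + 12 * dd * (x : ℝ) ^ 2) := by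
  have h3 := cov_g hp hq hf hg K
  refine h3.trans ?_
  have hxr : (0 : ℝ) ≤ x := Nat.cast_nonneg _
  have hx1 : (1 : ℝ) ≤ x := by exact_mod_cast hx
  have a1r : (p : ℝ) ≤ x := by exact_mod_cast hpx
  have b1r : (q : ℝ) ≤ x := by exact_mod_cast hqx
  have hdr : (1 : ℝ) ≤ dd := by exact_mod_cast hd
  have hsq : Real.sqrt ((p : ℝ) * q) ≤ x := by
    rw [Real.sqrt_le_left hxr, sq]
    exact mul_le_mul a1r b1r (Nat.cast_nonneg _) hxr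
  have hl0 : (0 : ℝ) < (Nat.lcm T₁ T₂ : ℝ) := by exact_mod_cast Nat.lcm_pos hp.pos hq.pos
  have hg0 : (0 : ℝ) < g₀ := by exact_mod_cast hg₀
  have hgc : (Nat.gcd T₁ T₂ : ℝ) ≤ g₀ := by exact_mod_cast hgcd
  have e2 : (Nat.gcd T₁ T₂ : ℝ) * (Nat.lcm T₁ T₂ : ℝ) = (T₁ : ℝ) * (T₂ : ℝ) := by
    exact_mod_cast Nat.gcd_mul_lcm T₁ T₂
  have hprod : Y ^ 2 ≤ (T₁ : ℝ) * (T₂ : ℝ) := by
    rw [sq]
    exact mul_le_mul h1 h2 hY.le (Nat.cast_nonneg _)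
  have hratio : (Nat.gcd T₁ T₂ : ℝ) / (Nat.lcm T₁ T₂ : ℝ) ≤ (g₀ : ℝ) ^ 2 / Y ^ 2 := by
    rw [div_le_div_iff₀ hl0 (by positivity)]
    calc (Nat.gcd T₁ T₂ : ℝ) * Y ^ 2 ≤ (Nat.gcd T₁ T₂ : ℝ) * ((Nat.gcd T₁ T₂ : ℝ) * (Nat.lcm T₁ T₂ : ℝ)) := by
          rw [e2]
          exact mul_le_mul_of_nonneg_left hprod (Nat.cast_nonneg _)
      _ = (Nat.gcd T₁ T₂ : ℝ) ^ 2 * (Nat.lcm T₁ T₂ : ℝ) := by ring
      _ ≤ _ := by gcongr
  have hlcm : (Nat.lcm T₁ T₂ : ℝ) ≤ x ^ 2 := by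
    have h4 : Nat.lcm T₁ T₂ ≤ T₁ * T₂ := Nat.le_of_dvd (Nat.mul_pos hp.pos hq.pos) (Nat.lcm_dvd_mul _ _)
    have h5 : T₁ ≤ x := by
      have := Nat.le_of_dvd (by have := hp.pr.two_le; omega) hp.dv
      omega
    have h6 : T₂ ≤ x := by
      have := Nat.le_of_dvd (by have := hq.pr.two_le; omega) hq.dv
      omega
    have h7 : Nat.lcm T₁ T₂ ≤ x ^ 2 := by
      rw [sq]
      exact h4.trans (Nat.mul_le_mul h5 h6)
    exact_mod_cast h7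
  have hKr : (0 : ℝ) ≤ K := Nat.cast_nonneg _
  have h6 : (K : ℝ) / T₁ ≤ K / Y := div_le_div_of_nonneg_left hKr hY h1
  have h7 : (K : ℝ) / T₂ ≤ K / Y := div_le_div_of_nonneg_left hKr hY h2
  have t1 : K * (T * T' * (4 * (dd : ℝ) ^ 2 * Real.sqrt ((p : ℝ) * q)) *
        ((Nat.gcd T₁ T₂ : ℝ) / (Nat.lcm T₁ T₂ : ℝ))) ≤
      K * (T * T' * (4 * (dd : ℝ) ^ 2 * (x * ((g₀ : ℝ) ^ 2 / Y ^ 2)))) := by
    apply mul_le_mul_of_nonneg_left _ hKr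
    calc T * T' * (4 * (dd : ℝ) ^ 2 * Real.sqrt ((p : ℝ) * q)) * ((Nat.gcd T₁ T₂ : ℝ) / (Nat.lcm T₁ T₂ : ℝ)) ≤
          T * T' * (4 * (dd : ℝ) ^ 2 * x) * ((g₀ : ℝ) ^ 2 / Y ^ 2) := by gcongr
      _ = _ := by ring
  have t2 : 4 * ((dd : ℝ) * (K / T₁ + 1) + dd * (K / T₂ + 1)) ≤ 8 * dd * K / Y + 8 * dd := by
    have e1 : (dd : ℝ) * (K / T₁ + 1) ≤ dd * (K / Y + 1) := by gcongr
    have e3 : (dd : ℝ) * (K / T₂ + 1) ≤ dd * (K / Y + 1) := by gcongr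
    have e4 : 8 * (dd : ℝ) * K / Y + 8 * dd = 4 * (dd * (K / Y + 1) + dd * (K / Y + 1)) := by ring
    rw [e4]
    linarith
  have t3 : 8 * (dd : ℝ) + 4 * (Nat.lcm T₁ T₂ : ℝ) ≤ 12 * dd * (x : ℝ) ^ 2 := by
    have e1 : (1 : ℝ) ≤ (x : ℝ) ^ 2 := one_le_pow₀ hx1
    have e3 : (dd : ℝ) ≤ dd * (x : ℝ) ^ 2 := le_mul_of_one_le_right (by linarith) e1
    have e4 : (x : ℝ) ^ 2 ≤ dd * (x : ℝ) ^ 2 := le_mul_of_one_le_left (by positivity) hdr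
    linarith
  linarith

/-- the second moment, before the choice of the parameters -/
theorem second0_g (w : ℕ → ℤ) (dd : ℕ) (hd : 1 ≤ dd) (x K g : ℕ) (hg : 1 ≤ g) (hK : x ^ 5 ≤ 1024 * K) (Y : ℝ)
    (hY : 0 < Y) (G : Finset ℕ) (r : ℕ → ℕ) (hG : ∀ p ∈ G, p ≤ x ∧ 3 ≤ p ∧ SQ w dd p (r p) ∧ Y ≤ r p)
    (f : ℕ → ℤ → ℝ) (c : ℕ → ℝ) (hf : ∀ p ∈ G, EX p (f p) (c p) ((p - 1).divisors.card : ℝ)) :
    ∑ k ∈ range K, (∑ p ∈ G, (f p (w k) - c p)) ^ 2 ≤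
      K * (16 * ((x : ℝ) + 1) ^ 2 / g + (x * (1 + Real.log x)) ^ 2 * (4 * (dd : ℝ) ^ 2 * (x * ((g : ℝ) ^ 2 / Y ^ 2))) +
        8 * dd * (x : ℝ) ^ 2 / Y + 12288 * dd * x) := by
  classical
  have hG3 : ∀ p ∈ G, 3 ≤ p ∧ p ≤ x := by
    intro p hp
    obtain ⟨h1, h2, _⟩ := hG p hp
    exact ⟨h2, h1⟩
  have hr : ∀ p ∈ G, 1 ≤ r p ∧ (r p ∣ p - 1 ∨ r p ∣ p + 1) := by
    intro p hp
    obtain ⟨_, _, h3, _⟩ := hG p hp
    exact ⟨h3.pos, Or.inl h3.dv⟩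
  have hfc : ∀ p ∈ G, ∀ n, |f p n - c p| ≤ 2 := by
    intro p hp n
    obtain ⟨h1, h2, h3, _⟩ := hf p hp
    have := h1 n
    rw [abs_le]
    constructor <;> linarith [this.1, this.2]
  have hcard : (G.card : ℝ) ≤ x := by
    have : G ⊆ Icc 1 x := by
      intro p hp
      have := hG3 p hp
      rw [mem_Icc]
      omega
    have := card_le_card this
    rw [Nat.card_Icc, Nat.add_sub_cancel] at this
    exact_mod_cast this
  have h1 : ∑ k ∈ range K, (∑ p ∈ G, (f p (w k) - c p)) ^ 2 =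
      ∑ z ∈ G ×ˢ G, ∑ k ∈ range K, (f z.1 (w k) - c z.1) * (f z.2 (w k) - c z.2) := by
    rw [sum_comm]
    apply sum_congr rfl
    intro k _
    rw [sq, sum_mul_sum, sum_product]
  rw [h1, ← sum_filter_add_sum_filter_not (G ×ˢ G) (fun z => g < Nat.gcd (r z.1) (r z.2))]
  have hKr : (0 : ℝ) ≤ K := Nat.cast_nonneg _
  have hA : ∑ z ∈ (G ×ˢ G).filter (fun z => g < Nat.gcd (r z.1) (r z.2)),
      ∑ k ∈ range K, (f z.1 (w k) - c z.1) * (f z.2 (w k) - c z.2) ≤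
      K * (16 * ((x : ℝ) + 1) ^ 2 / g) := by
    have h2 : ∀ z ∈ (G ×ˢ G).filter (fun z => g < Nat.gcd (r z.1) (r z.2)),
      ∑ k ∈ range K, (f z.1 (w k) - c z.1) * (f z.2 (w k) - c z.2) ≤ K * 4 := by
      intro z hz
      rw [mem_filter, mem_product] at hz
      calc _ ≤ ∑ k ∈ range K, (4 : ℝ) := by
            apply sum_le_sum
            intro k _
            refine (le_abs_self _).trans ?_
            rw [abs_mul]
            have := mul_le_mul (hfc z.1 hz.1.1 (w k)) (hfc z.2 hz.1.2 (w k)) (abs_nonneg _)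
              (by norm_num)
            linarith
        _ = _ := by rw [sum_const, card_range, nsmul_eq_mul]
    refine (sum_le_sum h2).trans ?_
    rw [sum_const, nsmul_eq_mul]
    have h3 := pairs_gcd x g hg G r hG3 hr
    calc _ ≤ (4 * ((x : ℝ) + 1) ^ 2 / g) * (K * 4) := mul_le_mul_of_nonneg_right h3 (by positivity)
      _ = _ := by ring
  have hB : ∑ z ∈ (G ×ˢ G).filter (fun z => ¬ g < Nat.gcd (r z.1) (r z.2)),
      ∑ k ∈ range K, (f z.1 (w k) - c z.1) * (f z.2 (w k) - c z.2) ≤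
      K * ((x * (1 + Real.log x)) ^ 2 * (4 * (dd : ℝ) ^ 2 * (x * ((g : ℝ) ^ 2 / Y ^ 2))) +
        8 * dd * (x : ℝ) ^ 2 / Y + 12288 * dd * x) := by
    have hxr : (0 : ℝ) ≤ x := Nat.cast_nonneg _
    have h2 : ∀ z ∈ (G ×ˢ G).filter (fun z => ¬ g < Nat.gcd (r z.1) (r z.2)),
      ∑ k ∈ range K, (f z.1 (w k) - c z.1) * (f z.2 (w k) - c z.2) ≤
      K * (((z.1 - 1).divisors.card : ℝ) * ((z.2 - 1).divisors.card : ℝ) *
        (4 * (dd : ℝ) ^ 2 * (x * ((g : ℝ) ^ 2 / Y ^ 2)))) + (8 * dd * K / Y + 12 * dd * (x : ℝ) ^ 2) := by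
      intro z hz
      rw [mem_filter, mem_product] at hz
      obtain ⟨⟨hz1, hz2⟩, hz3⟩ := hz
      push Not at hz3
      obtain ⟨a1, a2, a3, a4⟩ := hG z.1 hz1
      obtain ⟨b1, b2, b3, b4⟩ := hG z.2 hz2
      exact (le_abs_self _).trans (pair_le hd a3 b3 (hf z.1 hz1) (hf z.2 hz2) (Nat.cast_nonneg _)
        (Nat.cast_nonneg _) K x g a1 b1 (by omega) hg hz3 Y hY a4 b4)
    refine (sum_le_sum h2).trans ?_
    have hterm0 : ∀ z : ℕ × ℕ, 0 ≤ (K : ℝ) * (((z.1 - 1).divisors.card : ℝ) * ((z.2 - 1).divisors.card : ℝ) *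
        (4 * (dd : ℝ) ^ 2 * (x * ((g : ℝ) ^ 2 / Y ^ 2)))) + (8 * dd * K / Y + 12 * dd * (x : ℝ) ^ 2) := by
      intro z
      positivity
    refine (sum_le_sum_of_subset_of_nonneg (filter_subset _ _) (fun z _ _ => hterm0 z)).trans ?_
    rw [sum_add_distrib, sum_const, card_product, nsmul_eq_mul, ← mul_sum, ← sum_mul, sum_product]
    have h3 : ∑ p ∈ G, ∑ q ∈ G, ((p - 1).divisors.card : ℝ) * ((q - 1).divisors.card : ℝ) =
        (∑ p ∈ G, ((p - 1).divisors.card : ℝ)) ^ 2 := by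
      rw [sq, sum_mul_sum]
    simp only
    rw [h3]
    have h4 := sum_tau' x G hG3
    have h5 : (∑ p ∈ G, ((p - 1).divisors.card : ℝ)) ^ 2 ≤ (x * (1 + Real.log x)) ^ 2 :=
      pow_le_pow_left₀ (sum_nonneg fun _ _ => Nat.cast_nonneg _) h4 2
    have h6 : (K : ℝ) * ((∑ p ∈ G, ((p - 1).divisors.card : ℝ)) ^ 2 *
        (4 * (dd : ℝ) ^ 2 * (x * ((g : ℝ) ^ 2 / Y ^ 2)))) ≤
        K * ((x * (1 + Real.log x)) ^ 2 * (4 * (dd : ℝ) ^ 2 * (x * ((g : ℝ) ^ 2 / Y ^ 2)))) := by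
      apply mul_le_mul_of_nonneg_left _ hKr
      exact mul_le_mul_of_nonneg_right h5 (by positivity)
    have h7 : ((G.card * G.card : ℕ) : ℝ) * (8 * dd * K / Y + 12 * dd * (x : ℝ) ^ 2) ≤
        K * (8 * dd * (x : ℝ) ^ 2 / Y + 12288 * dd * x) := by
      have h8 : ((G.card * G.card : ℕ) : ℝ) ≤ (x : ℝ) ^ 2 := by
        push_cast
        rw [sq]
        exact mul_le_mul hcard hcard (Nat.cast_nonneg _) hxr
      have h9 : (x : ℝ) ^ 5 ≤ 1024 * K := by exact_mod_cast hK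
      rcases Nat.eq_zero_or_pos x with hx0 | hx0
      · subst hx0
        have h10 : ((G.card * G.card : ℕ) : ℝ) ≤ 0 := by simpa using h8
        have h11 : ((G.card * G.card : ℕ) : ℝ) = 0 := le_antisymm h10 (Nat.cast_nonneg _)
        rw [h11]
        simp
      · have hx1 : (1 : ℝ) ≤ x := by exact_mod_cast hx0
        have h10 : (x : ℝ) ^ 4 ≤ x ^ 5 * x := by
          have : (1 : ℝ) ≤ x * x := one_le_mul_of_one_le_of_one_le hx1 hx1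
          calc (x : ℝ) ^ 4 = x ^ 4 * 1 := (mul_one _).symm
            _ ≤ x ^ 4 * (x * x) := mul_le_mul_of_nonneg_left this (by positivity)
            _ = _ := by ring
        calc ((G.card * G.card : ℕ) : ℝ) * (8 * dd * K / Y + 12 * dd * (x : ℝ) ^ 2) ≤
            (x : ℝ) ^ 2 * (8 * dd * K / Y + 12 * dd * (x : ℝ) ^ 2) :=
            mul_le_mul_of_nonneg_right h8 (by positivity)
        _ = K * (8 * dd * (x : ℝ) ^ 2 / Y) + 12 * dd * (x : ℝ) ^ 4 := by ring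
        _ ≤ K * (8 * dd * (x : ℝ) ^ 2 / Y) + 12 * dd * ((x : ℝ) ^ 5 * x) := by gcongr
        _ ≤ K * (8 * dd * (x : ℝ) ^ 2 / Y) + 12 * dd * ((1024 * K) * x) := by gcongr
        _ = _ := by ring
    linarith
  calc _ ≤ K * (16 * ((x : ℝ) + 1) ^ 2 / g) +
        K * ((x * (1 + Real.log x)) ^ 2 * (4 * (dd : ℝ) ^ 2 * (x * ((g : ℝ) ^ 2 / Y ^ 2))) +
          8 * dd * (x : ℝ) ^ 2 / Y + 12288 * dd * x) := add_le_add hA hB
    _ = _ := by ring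

/-- the second moment -/
theorem second_g (B : ℕ) : ∃ X₀ : ℕ, 4 ≤ X₀ ∧ ∀ (w : ℕ → ℤ) (dd : ℕ), 1 ≤ dd → ∀ (r : ℕ → ℕ) (x K : ℕ), X₀ ≤ x →
    x ^ 5 ≤ 1024 * K → ∀ G : Finset ℕ,
    (∀ p ∈ G, p ≤ x ∧ 3 ≤ p ∧ SQ w dd p (r p) ∧ Real.sqrt x * Real.log x ^ (2 * B + 5) ≤ r p) →
    ∀ (f : ℕ → ℤ → ℝ) (c : ℕ → ℝ), (∀ p ∈ G, EX p (f p) (c p) ((p - 1).divisors.card : ℝ)) →
    ∑ k ∈ range K, (∑ p ∈ G, (f p (w k) - c p)) ^ 2 ≤
      2400 * (dd : ℝ) ^ 2 * K * ((Nat.primeCounting x : ℝ) ^ 2 / Real.log x ^ B) := by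
  obtain ⟨X₁, hX₁, h1⟩ := log_pow_le (B + 2) (1 / 12288) (by norm_num)
  refine ⟨X₁, hX₁, fun w dd hd r x K hx hK G hG f c hf => ?_⟩
  have hx4 : 4 ≤ x := hX₁.trans hx
  have hL1 := log_one_le hx4
  obtain ⟨L, hL⟩ : ∃ L, L = Real.log x := ⟨_, rfl⟩
  have hx4' : (4 : ℝ) ≤ x := by exact_mod_cast hx4
  have hx0 : (0 : ℝ) < x := by linarith
  have hdr : (1 : ℝ) ≤ dd := by exact_mod_cast hd
  have h2 := h1 x hx
  rw [← hL] at hL1 h2 hG ⊢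
  have hL0 : 0 < L := by linarith
  have hLB : 1 ≤ L ^ (B + 2) := one_le_pow₀ hL1
  have hLB0 : 0 < L ^ (B + 2) := by positivity
  obtain ⟨g, hg⟩ : ∃ g : ℕ, g = ⌈L ^ (B + 2)⌉₊ := ⟨_, rfl⟩
  have hg1 : L ^ (B + 2) ≤ g := by rw [hg]; exact Nat.le_ceil _
  have hg2 : (g : ℝ) ≤ 2 * L ^ (B + 2) := by
    have : (g : ℝ) < L ^ (B + 2) + 1 := by rw [hg]; exact Nat.ceil_lt_add_one (by positivity)
    linarith
  have hg0 : (0 : ℝ) < g := by linarith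
  have hgn : 1 ≤ g := by
    have : (1 : ℝ) ≤ g := by linarith
    exact_mod_cast this
  have hs0 : 0 < Real.sqrt x := Real.sqrt_pos.2 hx0
  have hss : Real.sqrt x * Real.sqrt x = x := Real.mul_self_sqrt hx0.le
  have hs1 : 1 ≤ Real.sqrt x := by rw [Real.one_le_sqrt]; linarith
  have hY : 0 < Real.sqrt x * L ^ (2 * B + 5) := by positivity
  have h3 := second0_g w dd hd x K g hgn hK _ hY G r hG f c hf
  refine h3.trans ?_
  have hcheb := ox_cheb x hx4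
  rw [← hL] at hcheb
  have hpi0 : (0 : ℝ) ≤ Nat.primeCounting x := Nat.cast_nonneg _
  -- the four terms
  have t1 : 16 * ((x : ℝ) + 1) ^ 2 / g ≤ 64 * (x ^ 2 / L ^ (B + 2)) := by
    rw [← mul_div_assoc, div_le_div_iff₀ hg0 hLB0]
    have e1 : ((x : ℝ) + 1) ^ 2 ≤ 4 * x ^ 2 := by nlinarith
    calc 16 * ((x : ℝ) + 1) ^ 2 * L ^ (B + 2) ≤ 16 * (4 * x ^ 2) * g := by gcongr
      _ = _ := by ring
  have t2 : (x * (1 + L)) ^ 2 * (4 * (dd : ℝ) ^ 2 * (x * ((g : ℝ) ^ 2 / (Real.sqrt x * L ^ (2 * B + 5)) ^ 2))) ≤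
      64 * (dd : ℝ) ^ 2 * (x ^ 2 / L ^ (B + 2)) := by
    have e1 : (Real.sqrt x * L ^ (2 * B + 5)) ^ 2 = x * (L ^ (B + 2) * L ^ (B + 2) * L ^ (B + 2) * L ^ (B + 4)) := by
      rw [mul_pow, sq (Real.sqrt x), hss]
      ring
    rw [e1]
    have e2 : x * ((g : ℝ) ^ 2 / (x * (L ^ (B + 2) * L ^ (B + 2) * L ^ (B + 2) * L ^ (B + 4)))) =
        (g : ℝ) ^ 2 / (L ^ (B + 2) * L ^ (B + 2) * L ^ (B + 2) * L ^ (B + 4)) := by
      field_simp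
    rw [e2]
    have e3 : L ^ (B + 2) * L ^ (B + 2) * L ^ (B + 2) * L ^ 2 ≤
        L ^ (B + 2) * L ^ (B + 2) * L ^ (B + 2) * L ^ (B + 4) := by
      apply mul_le_mul_of_nonneg_left _ (by positivity)
      exact pow_le_pow_right₀ hL1 (by omega)
    calc (x * (1 + L)) ^ 2 * (4 * (dd : ℝ) ^ 2 * ((g : ℝ) ^ 2 / (L ^ (B + 2) * L ^ (B + 2) * L ^ (B + 2) * L ^ (B + 4)))) ≤
          (x * (2 * L)) ^ 2 * (4 * (dd : ℝ) ^ 2 * ((2 * L ^ (B + 2)) ^ 2 /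
            (L ^ (B + 2) * L ^ (B + 2) * L ^ (B + 2) * L ^ 2))) := by
          gcongr
          linarith
      _ = _ := by
          field_simp
          ring
  have t3 : 8 * (dd : ℝ) * (x : ℝ) ^ 2 / (Real.sqrt x * L ^ (2 * B + 5)) ≤ 8 * (dd : ℝ) ^ 2 * (x ^ 2 / L ^ (B + 2)) := by
    have e0 : (dd : ℝ) ≤ (dd : ℝ) ^ 2 := by nlinarith
    calc 8 * (dd : ℝ) * (x : ℝ) ^ 2 / (Real.sqrt x * L ^ (2 * B + 5)) ≤
          8 * (dd : ℝ) ^ 2 * (x : ℝ) ^ 2 / (L ^ (B + 2)) := by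
          apply div_le_div₀ (by positivity) (by gcongr) hLB0
          calc L ^ (B + 2) = 1 * L ^ (B + 2) := (one_mul _).symm
            _ ≤ Real.sqrt x * L ^ (2 * B + 5) := by
                apply mul_le_mul hs1 _ (by positivity) (by positivity)
                exact pow_le_pow_right₀ hL1 (by omega)
      _ = _ := by ring
  have t4 : 12288 * (dd : ℝ) * (x : ℝ) ≤ (dd : ℝ) ^ 2 * (x ^ 2 / L ^ (B + 2)) := by
    have e0 : (dd : ℝ) ≤ (dd : ℝ) ^ 2 := by nlinarith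
    have e2 : 12288 * (x : ℝ) ≤ x ^ 2 / L ^ (B + 2) := by
      rw [le_div_iff₀ hLB0]
      have e1 : L ^ (B + 2) ≤ 1 / 12288 * x := by
        refine h2.trans ?_
        have : Real.sqrt x ≤ x := by nlinarith
        linarith
      nlinarith
    have e3 : 0 ≤ (x : ℝ) ^ 2 / L ^ (B + 2) := by positivity
    calc 12288 * (dd : ℝ) * (x : ℝ) = dd * (12288 * x) := by ring
      _ ≤ dd * (x ^ 2 / L ^ (B + 2)) := by gcongr
      _ ≤ _ := mul_le_mul_of_nonneg_right e0 e3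
  have hpi : (x : ℝ) ^ 2 ≤ 16 * ((Nat.primeCounting x : ℝ) ^ 2 * L ^ 2) := by
    have e1 : (x : ℝ) ≤ 4 * ((Nat.primeCounting x : ℝ) * L) := by linarith
    calc (x : ℝ) ^ 2 ≤ (4 * ((Nat.primeCounting x : ℝ) * L)) ^ 2 := pow_le_pow_left₀ hx0.le e1 2
      _ = _ := by ring
  have e0 : (1 : ℝ) ≤ (dd : ℝ) ^ 2 := one_le_pow₀ hdr
  have hq0 : 0 ≤ (x : ℝ) ^ 2 / L ^ (B + 2) := by positivity
  have hfin : 137 * (dd : ℝ) ^ 2 * (x ^ 2 / L ^ (B + 2)) ≤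
      2400 * (dd : ℝ) ^ 2 * ((Nat.primeCounting x : ℝ) ^ 2 / L ^ B) := by
    have e1 : x ^ 2 / L ^ (B + 2) ≤ 16 * ((Nat.primeCounting x : ℝ) ^ 2 * L ^ 2) / L ^ (B + 2) :=
      div_le_div_of_nonneg_right hpi hLB0.le
    have e2 : 16 * ((Nat.primeCounting x : ℝ) ^ 2 * L ^ 2) / L ^ (B + 2) =
        16 * ((Nat.primeCounting x : ℝ) ^ 2 / L ^ B) := by
      field_simp
      ring
    rw [e2] at e1
    have e3 : 0 ≤ (dd : ℝ) ^ 2 * ((Nat.primeCounting x : ℝ) ^ 2 / L ^ B) := by positivity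
    calc 137 * (dd : ℝ) ^ 2 * (x ^ 2 / L ^ (B + 2)) ≤
          137 * (dd : ℝ) ^ 2 * (16 * ((Nat.primeCounting x : ℝ) ^ 2 / L ^ B)) := by gcongr
      _ = 2192 * ((dd : ℝ) ^ 2 * ((Nat.primeCounting x : ℝ) ^ 2 / L ^ B)) := by ring
      _ ≤ 2400 * ((dd : ℝ) ^ 2 * ((Nat.primeCounting x : ℝ) ^ 2 / L ^ B)) := by linarith
      _ = _ := by ring
  have hKr : (0 : ℝ) ≤ K := Nat.cast_nonneg _
  have hsplit : 2400 * (dd : ℝ) ^ 2 * K * ((Nat.primeCounting x : ℝ) ^ 2 / L ^ B) =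
      K * (2400 * (dd : ℝ) ^ 2 * ((Nat.primeCounting x : ℝ) ^ 2 / L ^ B)) := by ring
  rw [hsplit]
  apply mul_le_mul_of_nonneg_left _ hKr
  rw [← hL]
  have t5 : 64 * ((x : ℝ) ^ 2 / L ^ (B + 2)) ≤ 64 * (dd : ℝ) ^ 2 * (x ^ 2 / L ^ (B + 2)) := by
    have := mul_le_mul_of_nonneg_right e0 hq0
    linarith
  linarith

end Run7.h293.EP
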