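import Pool.Agent.Run7.h293.Few

set_option autoImplicit false

/-! # Integers with few nonzero digits: the family -/

namespace Run7.h293

open Finset Filter Pool.Agent.H730R2.AA Pool.Agent.R459.Eq Pool.Agent.R318.PR
open Run7.h293.Dg

/-- the family of the coefficient vectors with exactly `r` nonzero entries, `2 ≤ r ≤ K / 2` -/
inductive FD (a : ℤ) (Δ : Finset ℤ) : ℕ → (ι : Type) → Finset ι → (ι → ℤ) → Prop
  | mk (K r : ℕ) (h1 : 2 ≤ r) (h2 : 2 * r ≤ K) : FD a Δ K (Fin K → ℤ) (VV Δ K r) (vl a)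

/-- the primes of small rank -/
noncomputable def HS (a : ℤ) (M A x : ℕ) : Finset ℕ := by
  classical
  exact (GP M x).filter (fun p => (rk (a + 1) a p : ℝ) < Real.sqrt x * Real.log x ^ A)

lemma rank_md {a : ℤ} (ha : 2 ≤ |a|) (M : ℕ) (hM : Mda a ∅ ∣ M) : RankLarge (a + 1) a M := by
  refine rankLarge (ND0_md ha) (vmd a 1 1) M fun p hp hpM => ?_
  have h1 : ¬ (p : ℤ) ∣ 1 := by
    intro h2
    have := Int.natCast_dvd.1 h2
    simp only [Int.natAbs_one] at this
    exact hp.one_lt.ne' (Nat.dvd_one.1 this)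
  exact Gd_md (Δ := ∅) hp (fun h => hpM (h.trans hM)) h1 h1

lemma Mda_empty {a : ℤ} {Δ : Finset ℤ} : Mda a ∅ ∣ Mda a Δ := by
  unfold Mda
  rw [prod_empty, mul_one]
  exact dvd_mul_right _ _

/-- few vectors have a value with many prime divisors of large rank -/
lemma few_bad {a : ℤ} {Δ : Finset ℤ} (hΔ : Δ.Nonempty) (h0 : (0 : ℤ) ∉ Δ) (M : ℕ) (hM : Mda a Δ ∣ M)
    (A : ℕ) (x K r : ℕ) (hx : 1024 ≤ x) (hxK : x ^ 5 ≤ 1024 * K) (hr : 1 ≤ r) (hK : 2 * r ≤ K)
    (η : ℝ) (hη : 0 < η) (G : Finset ℕ)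
    (hG : ∀ p ∈ G, p ∈ GP M x ∧ Real.sqrt x * Real.log x ^ A ≤ rk (a + 1) a p)
    (Bad : Finset (Fin K → ℤ)) (hB : Bad ⊆ VV Δ K r)
    (hbad : ∀ c ∈ Bad, η * (Nat.primeCounting x : ℝ) ≤ ((G.filter (fun p : ℕ => (p : ℤ) ∣ vl a c)).card : ℝ)) :
    (Bad.card : ℝ) ≤ 4 / (η * Real.sqrt x) * (VV Δ K r).card := by
  classical
  have hx4 : 4 ≤ x := by omega
  obtain ⟨hpi, _, _⟩ := pi_lower' x hx4
  have hx0 : (0 : ℝ) < x := by
    have : 0 < x := by omega
    exact_mod_cast this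
  have hs0 : 0 < Real.sqrt x := Real.sqrt_pos.2 hx0
  have hss : Real.sqrt x * Real.sqrt x = x := Real.mul_self_sqrt hx0.le
  have hL1 := log_one_le hx4
  have hK0 : 0 < K := by omega
  have hKr : (0 : ℝ) < K := by exact_mod_cast hK0
  have h1 : ∑ c ∈ Bad, η * (Nat.primeCounting x : ℝ) ≤
      ∑ p ∈ G, (((VV Δ K r).filter (fun c => (p : ℤ) ∣ vl a c)).card : ℝ) := by
    calc ∑ c ∈ Bad, η * (Nat.primeCounting x : ℝ) ≤
          ∑ c ∈ Bad, ((G.filter (fun p : ℕ => (p : ℤ) ∣ vl a c)).card : ℝ) := sum_le_sum hbad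
      _ ≤ ∑ c ∈ VV Δ K r, ((G.filter (fun p : ℕ => (p : ℤ) ∣ vl a c)).card : ℝ) :=
          sum_le_sum_of_subset_of_nonneg hB (fun _ _ _ => Nat.cast_nonneg _)
      _ = _ := by
          simp only [card_filter]
          push_cast
          rw [sum_comm]
  have h2 : ∀ p ∈ G, (((VV Δ K r).filter (fun c => (p : ℤ) ∣ vl a c)).card : ℝ) ≤
      4 / Real.sqrt x * (VV Δ K r).card := by
    intro p hp
    obtain ⟨h3, h4⟩ := hG p hp
    rw [mem_GP] at h3
    have h5 := few_div hΔ h0 h3.2.1 (fun h => h3.2.2 (h.trans hM)) K r hr hK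
    have h6 : Real.sqrt x ≤ rk (a + 1) a p := by
      refine le_trans ?_ h4
      have : 1 ≤ Real.log x ^ A := one_le_pow₀ hL1
      nlinarith
    have h7 : 1 / (rk (a + 1) a p : ℝ) ≤ 1 / Real.sqrt x := one_div_le_one_div_of_le hs0 h6
    have h8 : 1 / (K : ℝ) ≤ 1 / Real.sqrt x := by
      apply one_div_le_one_div_of_le hs0
      have e1 : Real.sqrt x ≤ x := by
        have : 1 ≤ Real.sqrt x := by
          rw [Real.one_le_sqrt]
          exact_mod_cast (by omega : 1 ≤ x)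
        nlinarith
      have e2 : x ≤ K := by
        have e3 : 1024 * x ≤ 1024 * K := by
          calc 1024 * x ≤ x * x := Nat.mul_le_mul_right _ hx
            _ = x ^ 2 := by ring
            _ ≤ x ^ 5 := Nat.pow_le_pow_right (by omega) (by norm_num)
            _ ≤ _ := hxK
        omega
      have e3 : (x : ℝ) ≤ K := by exact_mod_cast e2
      linarith
    have hV : (0 : ℝ) ≤ (VV Δ K r).card := Nat.cast_nonneg _
    calc _ ≤ 2 * ((VV Δ K r).card : ℝ) * (1 / (rk (a + 1) a p : ℝ) + 1 / (K : ℝ)) := h5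
      _ ≤ 2 * (VV Δ K r).card * (1 / Real.sqrt x + 1 / Real.sqrt x) := by gcongr
      _ = _ := by ring
  have h3 : (G.card : ℝ) ≤ Nat.primeCounting x := by
    have : G ⊆ (range (x + 1)).filter Nat.Prime := by
      intro p hp
      have := (mem_GP M x p).1 (hG p hp).1
      rw [mem_filter, mem_range]
      exact ⟨by omega, this.2.1⟩
    have h4 := card_le_card this
    have h5 : ((range (x + 1)).filter Nat.Prime).card = Nat.primeCounting x := by
      rw [Nat.primeCounting, Nat.primeCounting', Nat.count_eq_card_filter_range]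
    rw [h5] at h4
    exact_mod_cast h4
  rw [sum_const, nsmul_eq_mul] at h1
  have h4 := h1.trans (sum_le_sum h2)
  rw [sum_const, nsmul_eq_mul] at h4
  have h5 : (Bad.card : ℝ) * (η * (Nat.primeCounting x : ℝ)) ≤
      Nat.primeCounting x * (4 / Real.sqrt x * (VV Δ K r).card) :=
    h4.trans (mul_le_mul_of_nonneg_right h3 (by positivity))
  have h6 : 0 < η * (Nat.primeCounting x : ℝ) := by positivity
  refine le_of_mul_le_mul_right ?_ h6
  refine h5.trans (le_of_eq ?_)
  field_simp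

/-- one `x` for the integers with few nonzero digits -/
theorem oneX_FD {a : ℤ} (ha : 2 ≤ |a|) {Δ : Finset ℤ} (hΔ : Δ.Nonempty) (h0 : (0 : ℤ) ∉ Δ) :
    OneX (Mda a Δ) (FD a Δ) := by
  classical
  intro M hM hM0 f c δ hf hδ B ε hε
  obtain ⟨X₁, hX₁, h1⟩ := one_G B ε hε
  obtain ⟨X₂, h2⟩ := rank_md ha M (Mda_empty.trans hM) (B + 3) (ε / 16) (by positivity)
  obtain ⟨X₃, h3⟩ := hδ (ε / 4) (by positivity)
  obtain ⟨X₄, hX₄, h4⟩ := log_pow_le B 1 one_pos
  refine ⟨2 * (6400 / ε ^ 2 + 64 / ε), X₁ + X₂ + X₃ + X₄ + 1024, by positivity, by omega, ?_⟩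
  intro K ι W n hΦ x hx hxK E hE hbig
  obtain ⟨r, hr, hK⟩ := hΦ
  obtain ⟨s, rfl⟩ : ∃ s, r = s + 1 := ⟨r - 1, by omega⟩
  have hx4 : 4 ≤ x := by omega
  obtain ⟨hpi, _, _⟩ := pi_lower' x hx4
  have hx0 : (0 : ℝ) < x := by
    have : 0 < x := by omega
    exact_mod_cast this
  have hs0 : 0 < Real.sqrt x := Real.sqrt_pos.2 hx0
  have hL1 := log_one_le hx4
  have hLB : 0 < Real.log x ^ B := by positivity
  have hKr : (0 : ℝ) < K := by exact_mod_cast (by omega : 0 < K)
  have hcδ := h3 x (by omega)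
  have hHc := h2 x (by omega)
  obtain ⟨H, hH⟩ : ∃ H, H = (GP M x).filter (fun p => (rk (a + 1) a p : ℝ) <
      Real.sqrt x * Real.log x ^ (B + 3)) := ⟨_, rfl⟩
  obtain ⟨G, hG⟩ : ∃ G, G = (GP M x).filter (fun p => ¬ (rk (a + 1) a p : ℝ) <
      Real.sqrt x * Real.log x ^ (B + 3)) := ⟨_, rfl⟩
  obtain ⟨Bad, hBad⟩ : ∃ Bad, Bad = (VV Δ K s).filter (fun c => ε / 16 * (Nat.primeCounting x : ℝ) ≤
      ((G.filter (fun p : ℕ => (p : ℤ) ∣ vl a c)).card : ℝ)) := ⟨_, rfl⟩
  have hbad := few_bad hΔ h0 M hM (B + 3) x K s (by omega) hxK (by omega) (by omega) (ε / 16) (by positivity) G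
    (by
      intro p hp
      rw [hG, mem_filter] at hp
      exact ⟨hp.1, not_lt.1 hp.2⟩) Bad (by rw [hBad]; exact filter_subset _ _) (by
      intro c hc
      rw [hBad, mem_filter] at hc
      exact hc.2)
  have hVs : (0 : ℝ) < (VV Δ K s).card := by exact_mod_cast VV_pos Δ hΔ h0 K s (by omega)
  have hC0 : 0 ≤ 6400 / ε ^ 2 * ((K : ℝ) / Real.log x ^ B) := by positivity
  have hsec : ∀ m ∈ VV Δ K s, ∀ d ∈ Δ,
      ((univ.filter (fun k : Fin K => m k = 0 ∧ Function.update m k d ∈ E)).card : ℝ) ≤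
      6400 / ε ^ 2 * (K / Real.log x ^ B) + (if m ∈ Bad then (K : ℝ) else 0) := by
    intro m hm d hd
    by_cases hmb : m ∈ Bad
    · rw [if_pos hmb]
      have h5 : (univ.filter (fun k : Fin K => m k = 0 ∧ Function.update m k d ∈ E)).card ≤ K := by
        refine (card_le_univ _).trans ?_
        rw [Fintype.card_fin]
      have h6 : ((univ.filter (fun k : Fin K => m k = 0 ∧ Function.update m k d ∈ E)).card : ℝ) ≤ K := by
        exact_mod_cast h5
      linarith
    · rw [if_neg hmb, add_zero]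
      obtain ⟨E', hE1, hE2, hE3⟩ := card_fin_range K (fun k => m k = 0 ∧ Function.update m k d ∈ E)
      rw [← hE2]
      have hfew : ((G.filter (fun p : ℕ => (p : ℤ) ∣ vl a m)).card : ℝ) < ε / 16 * (Nat.primeCounting x : ℝ) := by
        by_contra hcon
        push Not at hcon
        apply hmb
        rw [hBad, mem_filter]
        exact ⟨hm, hcon⟩
      apply h1 (a + 1) a (vmd a (vl a m) d) M f c δ x K (by omega) hxK (fun p hp => by
        rw [mem_GP] at hp
        exact hf p hp.2.1 hp.2.2) hcδ (G.filter (fun p => ¬ (p : ℤ) ∣ vl a m))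
        (G.filter (fun p : ℕ => (p : ℤ) ∣ vl a m) ∪ H)
      · ext p
        rw [mem_union, mem_union, mem_filter, mem_filter, hG, hH, mem_filter, mem_filter]
        tauto
      · rw [disjoint_left]
        intro p hp1 hp2
        rw [mem_filter, hG, mem_filter] at hp1
        rw [mem_union, mem_filter, hH, mem_filter] at hp2
        tauto
      · intro p hp
        rw [mem_filter, hG, mem_filter, mem_GP] at hp
        obtain ⟨⟨⟨_, h5, h6⟩, h7⟩, h8⟩ := hp
        exact ⟨Gd_md h5 (fun h => h6 (h.trans hM)) h8 (Mda_d (fun h => h6 (h.trans hM)) hd), not_lt.1 h7⟩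
      · have h5 := card_union_le (G.filter (fun p : ℕ => (p : ℤ) ∣ vl a m)) H
        have h6 : ((G.filter (fun p : ℕ => (p : ℤ) ∣ vl a m) ∪ H).card : ℝ) ≤
            ((G.filter (fun p : ℕ => (p : ℤ) ∣ vl a m)).card : ℝ) + H.card := by exact_mod_cast h5
        rw [← hH] at hHc
        linarith
      · exact hE1
      · intro k hk
        obtain ⟨i, rfl, hi1, hi2⟩ := hE3 k hk
        have h5 := hbig _ hi2
        rw [vl_update a m i d hi1] at h5
        rw [lv_md]
        exact h5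
  have h5 := dc Δ hΔ h0 K s (by omega) E hE _ hsec
  rw [sum_add_distrib, sum_const, nsmul_eq_mul, ← sum_filter, sum_const, nsmul_eq_mul] at h5
  have h6 : (((VV Δ K s).filter (fun m => m ∈ Bad)).card : ℝ) ≤ 64 / ε * (1 / Real.log x ^ B) * (VV Δ K s).card := by
    have e1 : ((VV Δ K s).filter (fun m => m ∈ Bad)).card ≤ Bad.card := card_le_card (by
      intro m hm
      exact (mem_filter.1 hm).2)
    have e2 : (((VV Δ K s).filter (fun m => m ∈ Bad)).card : ℝ) ≤ Bad.card := by exact_mod_cast e1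
    refine e2.trans (hbad.trans ?_)
    apply mul_le_mul_of_nonneg_right _ hVs.le
    have e3 := h4 x (by omega)
    rw [one_mul] at e3
    have e4 : 1 / Real.sqrt x ≤ 1 / Real.log x ^ B := one_div_le_one_div_of_le hLB e3
    calc 4 / (ε / 16 * Real.sqrt x) = 64 / ε * (1 / Real.sqrt x) := by
          field_simp
          norm_num
      _ ≤ _ := mul_le_mul_of_nonneg_left e4 (by positivity)
  have h7 : (E.card : ℝ) * (K * (VV Δ K s).card) ≤
      2 * (VV Δ K (s + 1)).card * ((VV Δ K s).card * (6400 / ε ^ 2 * (K / Real.log x ^ B)) +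
        (64 / ε * (1 / Real.log x ^ B) * (VV Δ K s).card) * K) := by
    refine h5.trans ?_
    apply mul_le_mul_of_nonneg_left _ (by positivity)
    have := mul_le_mul_of_nonneg_right h6 hKr.le
    linarith
  have h8 : 0 < (K : ℝ) * (VV Δ K s).card := by positivity
  refine le_of_mul_le_mul_right ?_ h8
  refine h7.trans (le_of_eq ?_)
  field_simp

end Run7.h293
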