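import Pool.Agent.Run7.h293.EP5
import Pool.Agent.Run7.h293.EP2
import Pool.Agent.Run7.h293.Few2

set_option autoImplicit false

/-! # The values of a polynomial at a geometric progression -/

namespace Run7.h293.EP

open Finset Filter Pool.Agent.H730R2.AA Pool.Agent.R459.Eq Pool.Agent.R318.PR Run7.h293

/-- the polynomial is good modulo almost all primes -/
lemma gdF_of (F : Polynomial ℤ) (z : ℂ) (h0 : Polynomial.aeval z F = 0)
    (h1 : Polynomial.aeval z (Polynomial.derivative F) ≠ 0) (hz : z ≠ 0) :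
    ∃ M : ℕ, M ≠ 0 ∧ ∀ (p : ℕ) [Fact p.Prime], ¬ p ∣ M → GdF F.natDegree p (F.map (Int.castRingHom (ZMod p))) := by
  have hF0 : F ≠ 0 := by
    rintro rfl
    simp at h1
  obtain ⟨N, G, H, A, B, hN, hG, hNF, hAB, hGz⟩ := integral_factor0 F z h0 h1
  have hG0 : G ≠ 0 := by
    rintro rfl
    simp at hG
  refine ⟨(N * G.leadingCoeff * F.leadingCoeff * G.coeff 0).natAbs, ?_, ?_⟩
  · rw [Int.natAbs_ne_zero]
    exact mul_ne_zero (mul_ne_zero (mul_ne_zero hN (Polynomial.leadingCoeff_ne_zero.2 hG0))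
      (Polynomial.leadingCoeff_ne_zero.2 hF0)) (hGz hz)
  · intro p hp hpM
    have hnd : ∀ a : ℤ, a ∣ N * G.leadingCoeff * F.leadingCoeff * G.coeff 0 → ((a : ℤ) : ZMod p) ≠ 0 := by
      intro a ha h
      apply hpM
      rw [ZMod.intCast_zmod_eq_zero_iff_dvd] at h
      exact Int.natCast_dvd.1 (h.trans ha)
    have hN' : ((N : ℤ) : ZMod p) ≠ 0 := hnd N ⟨G.leadingCoeff * F.leadingCoeff * G.coeff 0, by ring⟩
    have hG' : ((G.leadingCoeff : ℤ) : ZMod p) ≠ 0 := hnd _ ⟨N * F.leadingCoeff * G.coeff 0, by ring⟩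
    have hF' : ((F.leadingCoeff : ℤ) : ZMod p) ≠ 0 := hnd _ ⟨N * G.leadingCoeff * G.coeff 0, by ring⟩
    have hG'' : ((G.coeff 0 : ℤ) : ZMod p) ≠ 0 := hnd _ ⟨N * G.leadingCoeff * F.leadingCoeff, by ring⟩
    set φ := Int.castRingHom (ZMod p) with hφ
    have hlc' : φ F.leadingCoeff ≠ 0 := by simpa [hφ] using hF'
    refine ⟨?_, Polynomial.natDegree_map_le, (N : ZMod p), G.map φ, H.map φ, A.map φ, B.map φ, hN', ?_, ?_, ?_, ?_⟩
    · intro h2
      have := Polynomial.leadingCoeff_map_of_leadingCoeff_ne_zero φ hlc'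
      rw [h2, Polynomial.leadingCoeff_zero] at this
      exact hlc' this.symm
    · rw [Polynomial.natDegree_map_of_leadingCoeff_ne_zero]
      · exact hG
      · simpa [hφ] using hG'
    · have := congrArg (Polynomial.map φ) hNF
      rw [Polynomial.map_mul, Polynomial.map_mul, Polynomial.map_C] at this
      exact this
    · have := congrArg (Polynomial.map φ) hAB
      rw [Polynomial.map_add, Polynomial.map_mul, Polynomial.map_mul, Polynomial.map_C,
        ← Polynomial.derivative_map] at this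
      exact this
    · rw [Polynomial.coeff_map]
      simpa [hφ] using hG''

lemma lucas_geom {R : Type*} [CommRing R] (a : R) (k : ℕ) : (a - 1) * lv (a + 1) a (0, 1) k = a ^ k - 1 := by
  have h1 := lv_unique (a + 1) a (fun k => a ^ k - 1) (by intro k; ring) k
  have h2 := lv_unique (a + 1) a (fun k => (a - 1) * lv (a + 1) a (0, 1) k) (by
    intro k
    rw [lv_rec]
    ring) k
  simp only [pow_zero, pow_one, sub_self] at h1
  simp only [lv_zero, lv_one, mul_zero, mul_one] at h2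
  rw [h1, h2]

/-- the rank is the order -/
lemma rk_order {a : ℤ} {Δ : Finset ℤ} {p : ℕ} [Fact p.Prime] (h : ¬ p ∣ Mda a Δ) (u : (ZMod p)ˣ)
    (hu : (u : ZMod p) = (a : ZMod p)) : orderOf u = rk (a + 1) a p := by
  have hp := Fact.out (p := p.Prime)
  have h1 : ¬ (p : ℤ) ∣ 1 := by
    intro h2
    have := Int.natCast_dvd.1 h2
    simp only [Int.natAbs_one] at this
    exact hp.one_lt.ne' (Nat.dvd_one.1 this)
  obtain ⟨_, h2, _⟩ := rk_spec (Gd_md hp h h1 h1)
  have ha1 : ((a : ZMod p) - 1) ≠ 0 := by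
    intro h3
    have h4 : (((a - 1 : ℤ)) : ZMod p) = 0 := by
      push_cast
      exact h3
    rw [ZMod.intCast_zmod_eq_zero_iff_dvd] at h4
    unfold Mda at h
    exact h (Dvd.dvd.mul_right (Dvd.dvd.mul_left (Int.natCast_dvd.1 h4) _) _)
  have key : ∀ t, u ^ t = 1 ↔ rk (a + 1) a p ∣ t := by
    intro t
    rw [← h2 t]
    have h3 := lucas_geom (a : ZMod p) t
    have e : (((a + 1 : ℤ)) : ZMod p) = (a : ZMod p) + 1 := by push_cast; rfl
    rw [e]
    constructor
    · intro h4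
      have h5 : (a : ZMod p) ^ t = 1 := by
        rw [← hu, ← Units.val_pow_eq_pow_val, h4, Units.val_one]
      rw [h5, sub_self] at h3
      exact (mul_eq_zero.1 h3).resolve_left ha1
    · intro h4
      rw [h4, mul_zero] at h3
      apply Units.ext
      rw [Units.val_pow_eq_pow_val, hu, Units.val_one]
      exact (sub_eq_zero.1 h3.symm)
  apply Nat.dvd_antisymm
  · rw [orderOf_dvd_iff_pow_eq_one, key]
  · rw [← key]
    exact pow_orderOf_eq_one u

/-- the sequence of the values -/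
theorem sq_of {F : Polynomial ℤ} {d : ℕ} (hd : 1 ≤ d) {a : ℤ} {Δ : Finset ℤ} {p : ℕ} [Fact p.Prime]
    (hF : GdF d p (F.map (Int.castRingHom (ZMod p)))) (h : ¬ p ∣ Mda a Δ) (c : ℤ) (hc : ¬ (p : ℤ) ∣ c) :
    SQ (fun k => F.eval (c * a ^ k)) d p (rk (a + 1) a p) := by
  classical
  have hp := Fact.out (p := p.Prime)
  have ha := Mda_a h
  have ha0 : (a : ZMod p) ≠ 0 := by
    rw [Ne, ZMod.intCast_zmod_eq_zero_iff_dvd]
    exact ha
  have hc0 : (c : ZMod p) ≠ 0 := by
    rw [Ne, ZMod.intCast_zmod_eq_zero_iff_dvd]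
    exact hc
  obtain ⟨u, hu⟩ : ∃ u : (ZMod p)ˣ, (u : ZMod p) = (a : ZMod p) := ⟨Units.mk0 _ ha0, rfl⟩
  have hT := rk_order h u hu
  obtain ⟨T, hTd⟩ : ∃ T, T = orderOf u := ⟨_, rfl⟩
  rw [← hT, ← hTd]
  have hT0 : 0 < T := by rw [hTd]; exact orderOf_pos u
  obtain ⟨f, hf⟩ : ∃ f, f = F.map (Int.castRingHom (ZMod p)) := ⟨_, rfl⟩
  rw [← hf] at hF
  have hev : ∀ t : ℤ, ((F.eval t : ℤ) : ZMod p) = f.eval ((t : ℤ) : ZMod p) := by
    intro t
    rw [hf, Polynomial.eval_intCast_map]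
    rfl
  have hw : ∀ k : ℕ, ((F.eval (c * a ^ k) : ℤ) : ZMod p) = f.eval ((c : ZMod p) * (u : ZMod p) ^ k) := by
    intro k
    rw [hev, hu]
    push_cast
    rfl
  refine ⟨hp, hT0, ?_, ?_, ?_, ?_⟩
  · rw [hTd, ← ZMod.card_units p]
    exact orderOf_dvd_card
  · intro k
    rw [← ZMod.intCast_zmod_eq_zero_iff_dvd, Int.cast_sub, sub_eq_zero]
    simp only [hw]
    congr 2
    rw [pow_add, ← Units.val_pow_eq_pow_val (n := T), hTd, pow_orderOf_eq_one, Units.val_one, mul_one]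
  · intro χ hχ g r hg
    have hg0 : g ≠ 0 := by
      rintro rfl
      rw [zero_dvd_iff] at hg
      omega
    have h1 := sum_geom hd hF χ hχ ((c : ZMod p) * (u : ZMod p) ^ r) (mul_ne_zero hc0 (pow_ne_zero _ u.ne_zero)) (u ^ g)
    rw [orderOf_pow_of_dvd hg0 (by rw [← hTd]; exact hg), ← hTd] at h1
    refine le_trans (le_of_eq ?_) h1
    congr 1
    apply sum_congr rfl
    intro j _
    rw [hw]
    congr 2
    rw [Units.val_pow_eq_pow_val, ← pow_mul, mul_assoc, ← pow_add]
  · intro K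
    have h1 : ((range K).filter (fun k => (p : ℤ) ∣ F.eval (c * a ^ k))).card ≤
        d * (((range K).filter (fun k => (p : ℤ) ∣ F.eval (c * a ^ k))).image (fun k => k / T)).card := by
      apply card_le_mul_card_image
      intro i hi
      have h2 := zeros_geom hF.1 hF.2.1 (c : ZMod p) hc0 u T (by rw [hTd]) (i * T)
      refine le_trans ?_ h2
      apply card_le_card_of_injOn (fun k => k % T)
      · intro k hk
        rw [mem_coe, mem_filter, mem_filter] at hk
        rw [mem_coe, mem_filter, mem_range]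
        refine ⟨Nat.mod_lt _ hT0, ?_⟩
        have e : i * T + k % T = k := by
          rw [← hk.2]
          exact Nat.div_add_mod' k T
        simp only
        rw [e, ← hw, ZMod.intCast_zmod_eq_zero_iff_dvd]
        exact hk.1.2
      · intro k hk l hl hkl
        rw [mem_coe, mem_filter] at hk hl
        simp only at hkl
        rw [← Nat.div_add_mod' k T, ← Nat.div_add_mod' l T, hk.2, hl.2, hkl]
    have h2 : (((range K).filter (fun k => (p : ℤ) ∣ F.eval (c * a ^ k))).image (fun k => k / T)).card ≤ K / T + 1 := by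
      rw [← card_range (K / T + 1)]
      apply card_le_card
      intro i hi
      rw [mem_image] at hi
      obtain ⟨k, hk, rfl⟩ := hi
      rw [mem_filter, mem_range] at hk
      rw [mem_range]
      exact Nat.lt_succ_of_le (Nat.div_le_div_right hk.1.le)
    have h3 := h1.trans (Nat.mul_le_mul_left d h2)
    calc (((range K).filter (fun k => (p : ℤ) ∣ F.eval (c * a ^ k))).card : ℝ) ≤ ((d * (K / T + 1) : ℕ) : ℝ) := by
          exact_mod_cast h3
      _ = d * (((K / T : ℕ) : ℝ) + 1) := by push_cast; ring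
      _ ≤ _ := by
          apply mul_le_mul_of_nonneg_left _ (Nat.cast_nonneg _)
          have := Nat.cast_div_le (α := ℝ) (m := K) (n := T)
          linarith

/-- the family of the values of `F` at the geometric progressions `c a ^ k`, the primes dividing `c` divide `Mc` -/
inductive EPF (F : Polynomial ℤ) (a : ℤ) (Mc : ℕ) : ℕ → (ι : Type) → Finset ι → (ι → ℤ) → Prop
  | mk (K : ℕ) (c : ℤ) (h : ∀ p : ℕ, p.Prime → (p : ℤ) ∣ c → p ∣ Mc) :
      EPF F a Mc K ℕ (range K) (fun k => F.eval (c * a ^ k))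

/-- one `x` for the values of a polynomial at a geometric progression -/
theorem oneX_EP (F : Polynomial ℤ) (z : ℂ) (h0 : Polynomial.aeval z F = 0)
    (h1 : Polynomial.aeval z (Polynomial.derivative F) ≠ 0) (hz : z ≠ 0) {a : ℤ} (ha : 2 ≤ |a|) (Mc : ℕ)
    (hMc : Mc ≠ 0) : ∃ M₀ : ℕ, M₀ ≠ 0 ∧ OneX M₀ (EPF F a Mc) := by
  classical
  obtain ⟨MF, hMF, hgood⟩ := gdF_of F z h0 h1 hz
  have hF0 : F ≠ 0 := by
    rintro rfl
    simp at h1
  have hd : 1 ≤ F.natDegree := by
    by_contra hcon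
    have h2 : F.natDegree = 0 := by omega
    rw [Polynomial.eq_C_of_natDegree_eq_zero h2] at h1
    simp at h1
  have hMda := Mda_ne ha (Δ := ∅) (by simp)
  refine ⟨Mda a ∅ * MF * Mc, mul_ne_zero (mul_ne_zero hMda hMF) hMc, ?_⟩
  intro M hM hM0 f c δ hf hδ B ε hε
  have hM1 : Mda a ∅ ∣ M := (Dvd.dvd.mul_right (dvd_mul_right _ _) _).trans hM
  have hM2 : MF ∣ M := (Dvd.dvd.mul_right (dvd_mul_left _ _) _).trans hM
  have hM3 : Mc ∣ M := (dvd_mul_left _ _).trans hM
  obtain ⟨X₁, hX₁, g1⟩ := second_g B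
  obtain ⟨X₂, g2⟩ := rank_md ha M hM1 (2 * B + 5) (ε / 8) (by positivity)
  obtain ⟨X₃, g3⟩ := hδ (ε / 4) (by positivity)
  have hdr : (1 : ℝ) ≤ F.natDegree := by exact_mod_cast hd
  refine ⟨9600 * (F.natDegree : ℝ) ^ 2 / ε ^ 2, X₁ + X₂ + X₃, by positivity, by omega, ?_⟩
  intro K ι W n hΦ x hx hxK E hE hbig
  obtain ⟨e, he⟩ := hΦ
  have hx4 : 4 ≤ x := by omega
  obtain ⟨hpi, _, _⟩ := pi_lower' x hx4
  have hL1 := log_one_le hx4
  have hcδ := g3 x (by omega)
  have hHc := g2 x (by omega)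
  obtain ⟨H, hH⟩ : ∃ H, H = (GP M x).filter (fun p => (rk (a + 1) a p : ℝ) <
      Real.sqrt x * Real.log x ^ (2 * B + 5)) := ⟨_, rfl⟩
  obtain ⟨G, hG⟩ : ∃ G, G = (GP M x).filter (fun p => ¬ (rk (a + 1) a p : ℝ) <
      Real.sqrt x * Real.log x ^ (2 * B + 5)) := ⟨_, rfl⟩
  rw [← hH] at hHc
  have hGM : ∀ p ∈ G, p ∈ GP M x := fun p hp => by rw [hG, mem_filter] at hp; exact hp.1
  have hHM : ∀ p ∈ H, p ∈ GP M x := fun p hp => by rw [hH, mem_filter] at hp; exact hp.1
  have hsec := g1 (fun k => F.eval (e * a ^ k)) F.natDegree hd (rk (a + 1) a) x K (by omega) hxK G (by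
    intro p hp
    have h3 := hGM p hp
    rw [mem_GP] at h3
    obtain ⟨h4, h5, h6⟩ := h3
    have hfact : Fact p.Prime := ⟨h5⟩
    have h7 : ¬ p ∣ Mda a ∅ := fun h => h6 (h.trans hM1)
    refine ⟨h4, ?_, ?_, ?_⟩
    · have h8 := h5.two_le
      have h9 : p ≠ 2 := by
        rintro rfl
        apply h7
        unfold Mda
        exact Dvd.dvd.mul_right (Dvd.dvd.mul_right (Dvd.dvd.mul_right dvd_rfl _) _) _
      omega
    · exact sq_of hd (hgood p (fun h => h6 (h.trans hM2))) h7 e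
        (fun h => h6 ((he p h5 h).trans hM3))
    · rw [hG, mem_filter] at hp
      exact not_lt.1 hp.2) f c (fun p hp => by
        have h3 := hGM p hp
        rw [mem_GP] at h3
        exact hf p h3.2.1 h3.2.2)
  have hS : ∀ k ∈ E, (ε / 2 * (Nat.primeCounting x : ℝ)) ^ 2 ≤
      (∑ p ∈ G, (f p (F.eval (e * a ^ k)) - c p)) ^ 2 := by
    intro k hk
    rw [← sq_abs (∑ p ∈ G, (f p (F.eval (e * a ^ k)) - c p))]
    apply pow_le_pow_left₀ (by positivity)
    have h4 := hbig k hk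
    have h5 : ∑ p ∈ GP M x, f p (F.eval (e * a ^ k)) - δ * Nat.primeCounting x =
        ∑ p ∈ G, (f p (F.eval (e * a ^ k)) - c p) + ∑ p ∈ H, (f p (F.eval (e * a ^ k)) - c p) +
          (∑ p ∈ GP M x, c p - δ * Nat.primeCounting x) := by
      have e1 := sum_filter_add_sum_filter_not (GP M x)
        (fun p => (rk (a + 1) a p : ℝ) < Real.sqrt x * Real.log x ^ (2 * B + 5))
        (fun p => f p (F.eval (e * a ^ k)) - c p)
      rw [← hG, ← hH] at e1
      have e2 : ∑ p ∈ GP M x, (f p (F.eval (e * a ^ k)) - c p) =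
          ∑ p ∈ GP M x, f p (F.eval (e * a ^ k)) - ∑ p ∈ GP M x, c p := sum_sub_distrib _ _
      linarith
    have h6 : |∑ p ∈ H, (f p (F.eval (e * a ^ k)) - c p)| ≤ ε / 4 * Nat.primeCounting x := by
      refine (abs_sum_le_sum_abs _ _).trans ?_
      calc ∑ p ∈ H, |f p (F.eval (e * a ^ k)) - c p| ≤ ∑ p ∈ H, (2 : ℝ) := by
            apply sum_le_sum
            intro p hp
            have h3 := hHM p hp
            rw [mem_GP] at h3
            obtain ⟨b1, b2, b3, _⟩ := hf p h3.2.1 h3.2.2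
            have := b1 (F.eval (e * a ^ k))
            rw [abs_le]
            constructor <;> linarith [this.1, this.2]
        _ = H.card * 2 := by rw [sum_const, nsmul_eq_mul]
        _ ≤ _ := by linarith
    rw [h5] at h4
    have h7 := abs_add_le (∑ p ∈ G, (f p (F.eval (e * a ^ k)) - c p) + ∑ p ∈ H, (f p (F.eval (e * a ^ k)) - c p))
      (∑ p ∈ GP M x, c p - δ * Nat.primeCounting x)
    have h8 := abs_add_le (∑ p ∈ G, (f p (F.eval (e * a ^ k)) - c p)) (∑ p ∈ H, (f p (F.eval (e * a ^ k)) - c p))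
    linarith
  have hcheb : (E.card : ℝ) * (ε / 2 * (Nat.primeCounting x : ℝ)) ^ 2 ≤
      2400 * (F.natDegree : ℝ) ^ 2 * K * ((Nat.primeCounting x : ℝ) ^ 2 / Real.log x ^ B) := by
    refine le_trans ?_ hsec
    rw [← nsmul_eq_mul, ← sum_const]
    refine (sum_le_sum hS).trans ?_
    apply sum_le_sum_of_subset_of_nonneg hE
    intro k _ _
    exact sq_nonneg _
  have hpos : 0 < (ε / 2 * (Nat.primeCounting x : ℝ)) ^ 2 := by positivity
  have hLB : 0 < Real.log x ^ B := by positivity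
  rw [card_range]
  calc (E.card : ℝ) ≤ 2400 * (F.natDegree : ℝ) ^ 2 * K * ((Nat.primeCounting x : ℝ) ^ 2 / Real.log x ^ B) /
        (ε / 2 * (Nat.primeCounting x : ℝ)) ^ 2 := (le_div_iff₀ hpos).2 hcheb
    _ = _ := by
        field_simp
        ring

end Run7.h293.EP
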