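import Pool.Agent.Run7.h293.AllX
import Pool.Agent.Run7.h293.Art

set_option autoImplicit false

/-! # Primitive roots in abstract families -/

namespace Run7.h293

open Finset Filter Pool.Agent.H730R2.AA Pool.Agent.R459.Eq Pool.Agent.R318.PR
open Pool.Agent.H730R2.AA.Grid
open Pool.Agent.H386R2.Artin (artinC)

/-- the second moment method applies to the family at each single `x` -/
def OneX (M₀ : ℕ) (Φ : ℕ → (ι : Type) → Finset ι → (ι → ℤ) → Prop) : Prop :=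
  ∀ (M : ℕ), M₀ ∣ M → M ≠ 0 → ∀ (f : ℕ → ℤ → ℝ) (c : ℕ → ℝ) (δ : ℝ),
    (∀ p : ℕ, p.Prime → ¬ p ∣ M → EX p (f p) (c p) ((p - 1).divisors.card : ℝ)) →
    (∀ ε : ℝ, 0 < ε → ∃ X : ℕ, ∀ x : ℕ, X ≤ x →
      |∑ p ∈ GP M x, c p - δ * Nat.primeCounting x| ≤ ε * Nat.primeCounting x) →
    ∀ (B : ℕ) (ε : ℝ), 0 < ε → ∃ (C : ℝ) (X₀ : ℕ), 0 < C ∧ 4 ≤ X₀ ∧
      ∀ (K : ℕ) (ι : Type) (W : Finset ι) (n : ι → ℤ), Φ K ι W n → ∀ x : ℕ, X₀ ≤ x → x ^ 5 ≤ 1024 * K →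
      ∀ E : Finset ι, E ⊆ W →
      (∀ i ∈ E, ε * (Nat.primeCounting x : ℝ) < |∑ p ∈ GP M x, f p (n i) - δ * Nat.primeCounting x|) →
      (E.card : ℝ) ≤ C * (W.card / Real.log x ^ B)

/-- the bad primes -/
def M2 (M₀ : ℕ) (D : ℤ) : ℕ := 2 * M₀ * D.natAbs

lemma M2_ne {M₀ : ℕ} (h : M₀ ≠ 0) {D : ℤ} (hD : D ≠ 0) : M2 M₀ D ≠ 0 :=
  mul_ne_zero (mul_ne_zero two_ne_zero h) (Int.natAbs_ne_zero.2 hD)

lemma M2_0 {M₀ : ℕ} {D : ℤ} : M₀ ∣ M2 M₀ D := Dvd.dvd.mul_right (dvd_mul_left _ _) _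

lemma M2_2 {M₀ : ℕ} {D : ℤ} : 2 ∣ M2 M₀ D := Dvd.dvd.mul_right (Dvd.dvd.mul_right dvd_rfl _) _

lemma M2_D' {M₀ : ℕ} {D : ℤ} : D.natAbs ∣ M2 M₀ D := dvd_mul_left _ _

lemma M2_D {M₀ : ℕ} {D : ℤ} {p : ℕ} (h : ¬ p ∣ M2 M₀ D) : ¬ (p : ℤ) ∣ D := by
  intro h1
  exact h (Dvd.dvd.mul_left (Int.natCast_dvd.1 h1) _)

variable {M₀ : ℕ} {Φ : ℕ → (ι : Type) → Finset ι → (ι → ℤ) → Prop}

/-- the bases `D n ^ 2` -/
theorem fam_sq (h : OneX M₀ Φ) (hM₀ : M₀ ≠ 0) (D : ℤ) (hD : Squarefree D)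
    (hD1 : D % 4 = 1) (hD2 : D ≠ 1) (B : ℕ) (ε : ℝ) (hε : 0 < ε) :
    ∃ (C : ℝ) (X₀ : ℕ), 0 < C ∧ 4 ≤ X₀ ∧ ∀ (K : ℕ) (ι : Type) (W : Finset ι) (n : ι → ℤ), Φ K ι W n →
      ∀ X : ℕ, X₀ ≤ X → ∀ E : Finset ι, E ⊆ W →
      (∀ i ∈ E, ∃ x : ℕ, X ≤ x ∧ x ^ 5 ≤ K ∧ ε * (Nat.primeCounting x : ℝ) <
        |(cnt (D * n i ^ 2) x : ℝ) - dens D * Nat.primeCounting x|) →
      (E.card : ℝ) ≤ C * (W.card / Real.log X ^ B) := by
  classical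
  have hD0 : D ≠ 0 := by rintro rfl; norm_num at hD1
  have hM0 := M2_ne hM₀ hD0
  obtain ⟨ε₀, hε₀, H⟩ := all_abs (M2 M₀ D) (fun p n => ind D p n) (dens D) (fun n x => cnt (D * n ^ 2) x)
    (fun n x y hxy => cnt_mono _ hxy) ((M2 M₀ D).primeFactors.card : ℝ) (by
      intro n x
      have := cnt_pri (M2 M₀ D) hM0 (D * n ^ 2) x
      simp only [ind_eq]
      exact this) B ε hε
  obtain ⟨C, X1, hC, _, h1⟩ := h (M2 M₀ D) M2_0 hM0 (fun p n => ind D p n) (cc D) (dens D) (by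
    intro p hp hpM
    apply EX_ind p hp _ D (M2_D hpM)
    rintro rfl
    exact hpM M2_2) (avg_cc D hD hD1 hD2 _ hM0 M2_2 M2_D') (B + 2) ε₀ hε₀
  obtain ⟨C', X₀, hC', hX₀, h2⟩ := H C X1 hC
  refine ⟨C', X₀, hC', hX₀, fun K ι W n hΦ X hX E hE hbad => ?_⟩
  exact h2 ι W n K (fun x hx hK E hE hb => h1 K ι W n hΦ x hx hK E hE hb) X hX E hE hbad

/-- the bases `n`, with Artin's constant -/
theorem fam_one (h : OneX M₀ Φ) (hM₀ : M₀ ≠ 0) (B : ℕ) (ε : ℝ) (hε : 0 < ε) :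
    ∃ (C : ℝ) (X₀ : ℕ), 0 < C ∧ 4 ≤ X₀ ∧ ∀ (K : ℕ) (ι : Type) (W : Finset ι) (n : ι → ℤ), Φ K ι W n →
      ∀ X : ℕ, X₀ ≤ X → ∀ E : Finset ι, E ⊆ W →
      (∀ i ∈ E, ∃ x : ℕ, X ≤ x ∧ x ^ 5 ≤ K ∧ ε * (Nat.primeCounting x : ℝ) <
        |(cnt (n i) x : ℝ) - artinC * Nat.primeCounting x|) →
      (E.card : ℝ) ≤ C * (W.card / Real.log X ^ B) := by
  classical
  have hM0 := M2_ne hM₀ (one_ne_zero (α := ℤ))
  obtain ⟨ε₀, hε₀, H⟩ := all_abs (M2 M₀ 1) (fun p n => pri p n) artinC (fun n x => cnt n x)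
    (fun n x y hxy => cnt_mono _ hxy) ((M2 M₀ 1).primeFactors.card : ℝ)
    (fun n x => cnt_pri _ hM0 n x) B ε hε
  obtain ⟨C, X1, hC, _, h1⟩ := h (M2 M₀ 1) M2_0 hM0 (fun p n => pri p n) rho artinC
    (fun p hp _ => EX_pri p hp) (avg_rho _ hM0) (B + 2) ε₀ hε₀
  obtain ⟨C', X₀, hC', hX₀, h2⟩ := H C X1 hC
  refine ⟨C', X₀, hC', hX₀, fun K ι W n hΦ X hX E hE hbad => ?_⟩
  exact h2 ι W n K (fun x hx hK E hE hb => h1 K ι W n hΦ x hx hK E hE hb) X hX E hE hbad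

/-- few members are squares up to the factor `D` -/
theorem fam_few (h : OneX M₀ Φ) (hM₀ : M₀ ≠ 0) (D : ℤ) (hD : D ≠ 0) (B : ℕ) :
    ∃ (C : ℝ) (X₀ : ℕ), 0 < C ∧ 4 ≤ X₀ ∧ ∀ (K : ℕ) (ι : Type) (W : Finset ι) (n : ι → ℤ), Φ K ι W n →
      ∀ X : ℕ, X₀ ≤ X → X ^ 5 ≤ 1024 * K → ∀ E : Finset ι,
      E ⊆ W → (∀ i ∈ E, IsSquare (D * n i)) → (E.card : ℝ) ≤ C * (W.card / Real.log X ^ B) := by
  have hM0 := M2_ne hM₀ hD
  obtain ⟨M, hM⟩ : ∃ M, M = M2 M₀ D := ⟨_, rfl⟩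
  obtain ⟨C, X₀, hC, hX₀, hmain⟩ := h M (by rw [hM]; exact M2_0) (by rw [hM]; exact hM0)
    (fun p n => qu D p n) (fun _ => 1 / 2) (1 / 2)
    (by
      intro p hp hpM
      rw [hM] at hpM
      apply EX_qu p hp _ D (M2_D hpM)
      rintro rfl
      exact hpM M2_2) (avg_half M (by rw [hM]; exact hM0)) B (1 / 4) (by norm_num)
  obtain ⟨X1, hX14, hX1⟩ := small_ev (M.primeFactors.card : ℝ) (1 / 8) (by norm_num)
  refine ⟨C, max X₀ X1, hC, hX₀.trans (le_max_left _ _), fun K ι W n hΦ X hX hXK E hE hsq => ?_⟩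
  refine hmain K ι W n hΦ X ((le_max_left _ _).trans hX) hXK E hE fun i hi => ?_
  have hX1' : X1 ≤ X := (le_max_right _ _).trans hX
  have hX4 : 4 ≤ X := by omega
  have hpos := (pi_lower' X hX4).1
  have h2 : ∑ p ∈ GP M X, qu D p (n i) = ((GP M X).card : ℝ) := by
    have e : ∀ p ∈ GP M X, qu D p (n i) = 1 := by
      intro p _
      unfold qu
      rw [if_pos]
      exact (hsq i hi).map (Int.castRingHom (ZMod p))
    rw [sum_congr rfl e, sum_const, nsmul_eq_mul, mul_one]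
  have h3 := hX1 X hX1'
  have h8 : 0 ≤ Real.log X := Real.log_nonneg (by exact_mod_cast (by omega : 1 ≤ X))
  have h4 := GP_card_ge M (by rw [hM]; exact hM0) X
  rw [h2]
  refine lt_of_lt_of_le ?_ (le_abs_self _)
  linarith

/-- the bases `n`, with the density that depends on the squarefree part -/
theorem fam_sf (h : OneX M₀ Φ) (hM₀ : M₀ ≠ 0) (B : ℕ) (ε : ℝ) (hε : 0 < ε) :
    ∃ (C : ℝ) (X₀ : ℕ), 0 < C ∧ 4 ≤ X₀ ∧ ∀ (K : ℕ) (ι : Type) (W : Finset ι) (n : ι → ℤ), Φ K ι W n →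
      ∀ X : ℕ, X₀ ≤ X → ∀ E : Finset ι, E ⊆ W →
      (∀ i ∈ E, ∃ x : ℕ, X ≤ x ∧ x ^ 5 ≤ K ∧ ∃ D s : ℤ, Squarefree D ∧ n i = D * s ^ 2 ∧
        ε * (Nat.primeCounting x : ℝ) < |(cnt (n i) x : ℝ) -
          (if D % 4 = 1 then dens D else artinC) * Nat.primeCounting x|) →
      (E.card : ℝ) ≤ C * (W.card / Real.log X ^ B) := by
  classical
  obtain ⟨C₁, X₁, hC₁, hX₁, J₁⟩ := fam_one h hM₀ B (ε / 2) (by positivity)
  obtain ⟨N, hN⟩ := exists_nat_ge (2 / ε : ℝ)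
  have h2 : ∀ D : ℤ, ∃ (C : ℝ) (X₀ : ℕ), 0 < C ∧ 4 ≤ X₀ ∧ (D ≠ 0 →
      ∀ (K : ℕ) (ι : Type) (W : Finset ι) (n : ι → ℤ), Φ K ι W n → ∀ X : ℕ, X₀ ≤ X → X ^ 5 ≤ 1024 * K →
      ∀ E : Finset ι, E ⊆ W → (∀ i ∈ E, IsSquare (D * n i)) →
      (E.card : ℝ) ≤ C * (W.card / Real.log X ^ B)) := by
    intro D
    by_cases hD : D = 0
    · exact ⟨1, 4, one_pos, le_rfl, fun h => absurd hD h⟩
    · obtain ⟨C, X₀, hC, hX₀, hJ⟩ := fam_few h hM₀ D hD B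
      exact ⟨C, X₀, hC, hX₀, fun _ => hJ⟩
  choose C₂ X₂ hC₂ hX₂ J₂ using h2
  obtain ⟨R, hR⟩ : ∃ R : Finset ℤ, R = (Icc (-(N : ℤ)) N).filter (fun D => D ≠ 0) := ⟨_, rfl⟩
  refine ⟨C₁ + ∑ D ∈ R, C₂ D, X₁ + ∑ D ∈ R, X₂ D, ?_, by omega, ?_⟩
  · have : 0 ≤ ∑ D ∈ R, C₂ D := sum_nonneg fun D _ => (hC₂ D).le
    linarith
  intro K ι W n hΦ X hX E hE hbad
  have hX4 : 4 ≤ X := by omega
  have hlog := log_one_le hX4
  have hKB : 0 ≤ (W.card : ℝ) / Real.log X ^ B := by positivity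
  rcases E.eq_empty_or_nonempty with hemp | ⟨i₀, hi₀⟩
  · rw [hemp, card_empty, Nat.cast_zero]
    have h3 : 0 ≤ ∑ D ∈ R, C₂ D := sum_nonneg fun D _ => (hC₂ D).le
    exact mul_nonneg (by linarith) hKB
  have hXK : X ^ 5 ≤ 1024 * K := by
    obtain ⟨x, hx1, hx2, _⟩ := hbad i₀ hi₀
    calc X ^ 5 ≤ x ^ 5 := Nat.pow_le_pow_left hx1 _
      _ ≤ K := hx2
      _ ≤ 1024 * K := by omega
  obtain ⟨EE, hEE⟩ : ∃ EE : ℤ → Finset ι, EE = fun D => E.filter (fun k => IsSquare (D * n k)) := ⟨_, rfl⟩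
  obtain ⟨E₁, hE₁⟩ : ∃ E₁ : Finset ι, E₁ = E.filter (fun k => ∃ x : ℕ, X ≤ x ∧ x ^ 5 ≤ K ∧
    ε / 2 * (Nat.primeCounting x : ℝ) < |(cnt (n k) x : ℝ) - artinC * (Nat.primeCounting x : ℝ)|) :=
    ⟨_, rfl⟩
  have hcover : E ⊆ E₁ ∪ R.biUnion EE := by
    intro i hi
    obtain ⟨x, hx1, hx2, D, s, hDsf, hDs, hx3⟩ := hbad i hi
    rw [mem_union]
    by_cases hsm : D.natAbs ≤ N
    · right
      rw [mem_biUnion]
      refine ⟨D, ?_, ?_⟩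
      · rw [hR, mem_filter, mem_Icc]
        exact ⟨by omega, hDsf.ne_zero⟩
      · rw [hEE, mem_filter]
        refine ⟨hi, D * s, ?_⟩
        rw [hDs]
        ring
    · left
      rw [hE₁, mem_filter]
      refine ⟨hi, x, hx1, hx2, ?_⟩
      have hclose : |(if D % 4 = 1 then dens D else artinC) - artinC| ≤ ε / 2 := by
        split_ifs with h4
        · refine (dens_close D hDsf h4).trans ?_
          have h5 : (2 / ε : ℝ) ≤ (D.natAbs : ℝ) := by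
            refine hN.trans ?_
            exact_mod_cast (by omega : N ≤ D.natAbs)
          have h6 : (0 : ℝ) < 2 / ε := by positivity
          calc 1 / (D.natAbs : ℝ) ≤ 1 / (2 / ε) := one_div_le_one_div_of_le h6 h5
            _ = ε / 2 := by field_simp
        · rw [sub_self, abs_zero]
          positivity
      have h7 := abs_sub_le (cnt (n i) x : ℝ) (artinC * (Nat.primeCounting x : ℝ))
        ((if D % 4 = 1 then dens D else artinC) * (Nat.primeCounting x : ℝ))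
      have h8 : |artinC * (Nat.primeCounting x : ℝ) -
          (if D % 4 = 1 then dens D else artinC) * (Nat.primeCounting x : ℝ)| ≤
          ε / 2 * (Nat.primeCounting x : ℝ) := by
        rw [abs_sub_comm, ← sub_mul, abs_mul, Nat.abs_cast]
        exact mul_le_mul_of_nonneg_right hclose (Nat.cast_nonneg _)
      linarith
  have h3 : (E.card : ℝ) ≤ (E₁.card : ℝ) + ∑ D ∈ R, ((EE D).card : ℝ) := by
    have h4 := (card_le_card hcover).trans ((card_union_le _ _).trans (Nat.add_le_add_left card_biUnion_le _))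
    exact_mod_cast h4
  have h4 : (E₁.card : ℝ) ≤ C₁ * (W.card / Real.log X ^ B) := by
    apply J₁ K ι W n hΦ X (by omega) E₁
    · rw [hE₁]
      exact (filter_subset _ _).trans hE
    · intro i hi
      rw [hE₁, mem_filter] at hi
      exact hi.2
  have h5 : ∑ D ∈ R, ((EE D).card : ℝ) ≤ ∑ D ∈ R, C₂ D * (W.card / Real.log X ^ B) := by
    apply sum_le_sum
    intro D hD
    have hD0 : D ≠ 0 := by
      rw [hR, mem_filter] at hD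
      exact hD.2
    have hXD : X₂ D ≤ X := by
      have := single_le_sum (f := X₂) (fun _ _ => Nat.zero_le _) hD
      omega
    apply J₂ D hD0 K ι W n hΦ X hXD hXK (EE D)
    · rw [hEE]
      exact (filter_subset _ _).trans hE
    · intro i hi
      rw [hEE, mem_filter] at hi
      exact hi.2
  rw [← sum_mul] at h5
  rw [add_mul]
  linarith

end Run7.h293
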