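import Pool.Agent.Run7.h293.SecMom

set_option autoImplicit false

/-! # Exceptional indices: one `x`, and all `x` -/

namespace Run7.h293

open Finset Filter Pool.Agent.H730R2.AA Pool.Agent.H730R2.AA.Grid Pool.Agent.R459.Eq Pool.Agent.R318.PR

lemma log_pow_le (n : ℕ) (ε : ℝ) (hε : 0 < ε) : ∃ X : ℕ, 4 ≤ X ∧ ∀ x : ℕ, X ≤ x →
    Real.log x ^ n ≤ ε * Real.sqrt x := by
  have h1 : Tendsto (fun x : ℝ => Real.log x ^ (n : ℝ) / x ^ (1 / 2 : ℝ)) atTop (nhds 0) :=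
    (isLittleO_log_rpow_rpow_atTop (n : ℝ) (by norm_num : (0 : ℝ) < 1 / 2)).tendsto_div_nhds_zero
  have h2 := (h1.comp tendsto_natCast_atTop_atTop).eventually (gt_mem_nhds hε)
  obtain ⟨X, hX⟩ := h2.exists_forall_of_atTop
  refine ⟨max X 4, le_max_right _ _, fun x hx => ?_⟩
  have h3 := hX x ((le_max_left _ _).trans hx)
  have hx4 : 4 ≤ x := (le_max_right _ _).trans hx
  have hx0 : (0 : ℝ) < x := by
    have : 0 < x := by omega
    exact_mod_cast this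
  simp only [Function.comp_apply] at h3
  rw [← Real.sqrt_eq_rpow, Real.rpow_natCast, div_lt_iff₀ (Real.sqrt_pos.2 hx0)] at h3
  exact h3.le

lemma log_one_le {x : ℕ} (hx : 4 ≤ x) : 1 ≤ Real.log x := by
  have hx4 : (4 : ℝ) ≤ x := by exact_mod_cast hx
  rw [Real.le_log_iff_exp_le (by linarith)]
  linarith [Real.exp_one_lt_d9]

/-- the second moment -/
theorem second (B : ℕ) : ∃ X₀ : ℕ, 4 ≤ X₀ ∧ ∀ (P Q : ℤ) (v : ℤ × ℤ) (x K : ℕ), X₀ ≤ x →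
    x ^ 5 ≤ 1024 * K → ∀ G : Finset ℕ,
    (∀ p ∈ G, p ≤ x ∧ Gd P Q v p ∧ Real.sqrt x * Real.log x ^ (B + 3) ≤ rk P Q p) →
    ∀ (f : ℕ → ℤ → ℝ) (c : ℕ → ℝ), (∀ p ∈ G, EX p (f p) (c p) ((p - 1).divisors.card : ℝ)) →
    ∑ k ∈ range K, (∑ p ∈ G, (f p (lv P Q v k) - c p)) ^ 2 ≤
      1600 * K * ((Nat.primeCounting x : ℝ) ^ 2 / Real.log x ^ B) := by
  obtain ⟨X₁, hX₁, h1⟩ := log_pow_le (B + 2) (1 / 12288) (by norm_num)
  refine ⟨X₁, hX₁, fun P Q v x K hx hK G hG f c hf => ?_⟩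
  have hx4 : 4 ≤ x := hX₁.trans hx
  have hL1 := log_one_le hx4
  obtain ⟨L, hL⟩ : ∃ L, L = Real.log x := ⟨_, rfl⟩
  have hx4' : (4 : ℝ) ≤ x := by exact_mod_cast hx4
  have hx0 : (0 : ℝ) < x := by linarith
  have h2 := h1 x hx
  rw [← hL] at hL1 h2 hG ⊢
  have hL0 : 0 < L := by linarith
  have hLB : 1 ≤ L ^ (B + 2) := one_le_pow₀ hL1
  have hLB0 : 0 < L ^ (B + 2) := by positivity
  obtain ⟨g, hg⟩ : ∃ g : ℕ, g = ⌈L ^ (B + 2)⌉₊ := ⟨_, rfl⟩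
  have hg1 : L ^ (B + 2) ≤ g := by rw [hg]; exact Nat.le_ceil _
  have hg2 : (g : ℝ) ≤ 2 * L ^ (B + 2) := by
    have : (g : ℝ) < L ^ (B + 2) + 1 := by rw [hg]; exact Nat.ceil_lt_add_one (by positivity)
    linarith
  have hg0 : (0 : ℝ) < g := by linarith
  have hgn : 1 ≤ g := by
    have : (1 : ℝ) ≤ g := by linarith
    exact_mod_cast this
  have hs0 : 0 < Real.sqrt x := Real.sqrt_pos.2 hx0
  have hss : Real.sqrt x * Real.sqrt x = x := Real.mul_self_sqrt hx0.le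
  have hs1 : 1 ≤ Real.sqrt x := by rw [Real.one_le_sqrt]; linarith
  have hY : 0 < Real.sqrt x * L ^ (B + 3) := by positivity
  have h3 := second0 P Q v x K g hgn hK _ hY G hG f c hf
  refine h3.trans ?_
  have hcheb := ox_cheb x hx4
  rw [← hL] at hcheb
  have hpi0 : (0 : ℝ) ≤ Nat.primeCounting x := Nat.cast_nonneg _
  -- the four terms
  have t1 : 16 * ((x : ℝ) + 1) ^ 2 / g ≤ 64 * (x ^ 2 / L ^ (B + 2)) := by
    rw [← mul_div_assoc, div_le_div_iff₀ hg0 hLB0]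
    have e1 : ((x : ℝ) + 1) ^ 2 ≤ 4 * x ^ 2 := by nlinarith
    calc 16 * ((x : ℝ) + 1) ^ 2 * L ^ (B + 2) ≤ 16 * (4 * x ^ 2) * g := by gcongr
      _ = _ := by ring
  have t2 : (x * (1 + L)) ^ 2 * (x * (g / (Real.sqrt x * L ^ (B + 3)) ^ 2)) ≤
      8 * (x ^ 2 / L ^ (B + 2)) := by
    have e1 : (Real.sqrt x * L ^ (B + 3)) ^ 2 = x * (L ^ (B + 2) * L ^ (B + 2) * L ^ 2) := by
      rw [mul_pow, sq (Real.sqrt x), hss]
      ring
    rw [e1]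
    have e2 : x * (g / (x * (L ^ (B + 2) * L ^ (B + 2) * L ^ 2))) =
        g / (L ^ (B + 2) * L ^ (B + 2) * L ^ 2) := by
      field_simp
    rw [e2]
    calc (x * (1 + L)) ^ 2 * (g / (L ^ (B + 2) * L ^ (B + 2) * L ^ 2)) ≤
          (x * (2 * L)) ^ 2 * ((2 * L ^ (B + 2)) / (L ^ (B + 2) * L ^ (B + 2) * L ^ 2)) := by
          gcongr
          linarith
      _ = _ := by
          field_simp
          ring
  have t3 : 8 * (x : ℝ) ^ 2 / (Real.sqrt x * L ^ (B + 3)) ≤ 8 * (x ^ 2 / L ^ (B + 2)) := by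
    rw [← mul_div_assoc]
    apply div_le_div_of_nonneg_left (by positivity) hLB0
    calc L ^ (B + 2) = 1 * L ^ (B + 2) := (one_mul _).symm
      _ ≤ Real.sqrt x * L ^ (B + 3) := by
          apply mul_le_mul hs1 _ (by positivity) (by positivity)
          exact pow_le_pow_right₀ hL1 (by omega)
  have t4 : 12288 * (x : ℝ) ≤ 1 * (x ^ 2 / L ^ (B + 2)) := by
    rw [one_mul, le_div_iff₀ hLB0]
    have e1 : L ^ (B + 2) ≤ 1 / 12288 * x := by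
      refine h2.trans ?_
      have : Real.sqrt x ≤ x := by nlinarith
      linarith
    nlinarith
  have hpi : (x : ℝ) ^ 2 ≤ 16 * ((Nat.primeCounting x : ℝ) ^ 2 * L ^ 2) := by
    have e1 : (x : ℝ) ≤ 4 * ((Nat.primeCounting x : ℝ) * L) := by linarith
    calc (x : ℝ) ^ 2 ≤ (4 * ((Nat.primeCounting x : ℝ) * L)) ^ 2 := pow_le_pow_left₀ hx0.le e1 2
      _ = _ := by ring
  have hfin : 81 * (x ^ 2 / L ^ (B + 2)) ≤ 1600 * ((Nat.primeCounting x : ℝ) ^ 2 / L ^ B) := by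
    have e1 : x ^ 2 / L ^ (B + 2) ≤ 16 * ((Nat.primeCounting x : ℝ) ^ 2 * L ^ 2) / L ^ (B + 2) :=
      div_le_div_of_nonneg_right hpi hLB0.le
    have e2 : 16 * ((Nat.primeCounting x : ℝ) ^ 2 * L ^ 2) / L ^ (B + 2) =
        16 * ((Nat.primeCounting x : ℝ) ^ 2 / L ^ B) := by
      field_simp
      ring
    rw [e2] at e1
    have e3 : 0 ≤ (Nat.primeCounting x : ℝ) ^ 2 / L ^ B := by positivity
    linarith
  have hKr : (0 : ℝ) ≤ K := Nat.cast_nonneg _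
  rw [mul_comm (1600 : ℝ) K, mul_assoc]
  apply mul_le_mul_of_nonneg_left _ hKr
  rw [← hL]
  linarith

/-- almost all primes have a large rank -/
def RankLarge (P Q : ℤ) (M : ℕ) : Prop := ∀ (A : ℕ) (ε : ℝ), 0 < ε → ∃ X : ℕ, ∀ x : ℕ, X ≤ x →
  (((GP M x).filter (fun p => (rk P Q p : ℝ) < Real.sqrt x * Real.log x ^ A)).card : ℝ) ≤
    ε * Nat.primeCounting x

/-- one `x` -/
theorem one_x (P Q : ℤ) (v : ℤ × ℤ) (M : ℕ) (hGd : ∀ p : ℕ, p.Prime → ¬ p ∣ M → Gd P Q v p)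
    (hR : RankLarge P Q M) (f : ℕ → ℤ → ℝ) (c : ℕ → ℝ)
    (hf : ∀ p : ℕ, p.Prime → ¬ p ∣ M → EX p (f p) (c p) ((p - 1).divisors.card : ℝ)) (δ : ℝ)
    (hδ : ∀ ε : ℝ, 0 < ε → ∃ X : ℕ, ∀ x : ℕ, X ≤ x →
      |∑ p ∈ GP M x, c p - δ * Nat.primeCounting x| ≤ ε * Nat.primeCounting x)
    (B : ℕ) (ε : ℝ) (hε : 0 < ε) : ∃ (C : ℝ) (X₀ : ℕ), 0 < C ∧ 4 ≤ X₀ ∧ ∀ x K : ℕ, X₀ ≤ x →
      x ^ 5 ≤ 1024 * K → ∀ E : Finset ℕ, E ⊆ range K →
      (∀ k ∈ E, ε * (Nat.primeCounting x : ℝ) <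
        |∑ p ∈ GP M x, f p (lv P Q v k) - δ * Nat.primeCounting x|) →
      (E.card : ℝ) ≤ C * (K / Real.log x ^ B) := by
  classical
  obtain ⟨X₁, hX₁, h1⟩ := second B
  obtain ⟨X₂, h2⟩ := hR (B + 3) (ε / 8) (by positivity)
  obtain ⟨X₃, h3⟩ := hδ (ε / 4) (by positivity)
  refine ⟨6400 / ε ^ 2, X₁ + X₂ + X₃, by positivity, by omega, fun x K hx hK E hE hbig => ?_⟩
  have hx4 : 4 ≤ x := by omega
  obtain ⟨hpi, _, _⟩ := pi_lower' x hx4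
  have hL1 := log_one_le hx4
  obtain ⟨G, hG⟩ : ∃ G, G = (GP M x).filter (fun p => ¬ (rk P Q p : ℝ) < Real.sqrt x * Real.log x ^ (B + 3)) :=
    ⟨_, rfl⟩
  obtain ⟨H, hH⟩ : ∃ H, H = (GP M x).filter (fun p => (rk P Q p : ℝ) < Real.sqrt x * Real.log x ^ (B + 3)) :=
    ⟨_, rfl⟩
  have hGM : ∀ p ∈ G, p ≤ x ∧ p.Prime ∧ ¬ p ∣ M := by
    intro p hp
    rw [hG, mem_filter, mem_GP] at hp
    exact hp.1
  have hHM : ∀ p ∈ H, p ≤ x ∧ p.Prime ∧ ¬ p ∣ M := by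
    intro p hp
    rw [hH, mem_filter, mem_GP] at hp
    exact hp.1
  have hsec := h1 P Q v x K (by omega) hK G (by
    intro p hp
    obtain ⟨a1, a2, a3⟩ := hGM p hp
    refine ⟨a1, hGd p a2 a3, ?_⟩
    rw [hG, mem_filter] at hp
    exact not_lt.1 hp.2) f c (by
    intro p hp
    obtain ⟨a1, a2, a3⟩ := hGM p hp
    exact hf p a2 a3)
  have hHc : (H.card : ℝ) ≤ ε / 8 * Nat.primeCounting x := by
    rw [hH]
    exact h2 x (by omega)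
  have hcδ := h3 x (by omega)
  have hS : ∀ k ∈ E, (ε / 2 * (Nat.primeCounting x : ℝ)) ^ 2 ≤
      (∑ p ∈ G, (f p (lv P Q v k) - c p)) ^ 2 := by
    intro k hk
    rw [← sq_abs (∑ p ∈ G, (f p (lv P Q v k) - c p))]
    apply pow_le_pow_left₀ (by positivity)
    have h4 := hbig k hk
    have h5 : ∑ p ∈ GP M x, f p (lv P Q v k) - δ * Nat.primeCounting x =
        ∑ p ∈ G, (f p (lv P Q v k) - c p) + ∑ p ∈ H, (f p (lv P Q v k) - c p) +
          (∑ p ∈ GP M x, c p - δ * Nat.primeCounting x) := by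
      have e1 := sum_filter_add_sum_filter_not (GP M x)
        (fun p => (rk P Q p : ℝ) < Real.sqrt x * Real.log x ^ (B + 3)) (fun p => f p (lv P Q v k) - c p)
      rw [← hG, ← hH] at e1
      have e2 : ∑ p ∈ GP M x, (f p (lv P Q v k) - c p) = ∑ p ∈ GP M x, f p (lv P Q v k) - ∑ p ∈ GP M x, c p :=
        sum_sub_distrib _ _
      linarith
    have h6 : |∑ p ∈ H, (f p (lv P Q v k) - c p)| ≤ ε / 4 * Nat.primeCounting x := by
      refine (abs_sum_le_sum_abs _ _).trans ?_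
      calc ∑ p ∈ H, |f p (lv P Q v k) - c p| ≤ ∑ p ∈ H, (2 : ℝ) := by
            apply sum_le_sum
            intro p hp
            obtain ⟨a1, a2, a3⟩ := hHM p hp
            obtain ⟨b1, b2, b3, _⟩ := hf p a2 a3
            have := b1 (lv P Q v k)
            rw [abs_le]
            constructor <;> linarith [this.1, this.2]
        _ = H.card * 2 := by rw [sum_const, nsmul_eq_mul]
        _ ≤ _ := by linarith
    rw [h5] at h4
    have h7 := abs_add_le (∑ p ∈ G, (f p (lv P Q v k) - c p) + ∑ p ∈ H, (f p (lv P Q v k) - c p))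
      (∑ p ∈ GP M x, c p - δ * Nat.primeCounting x)
    have h8 := abs_add_le (∑ p ∈ G, (f p (lv P Q v k) - c p)) (∑ p ∈ H, (f p (lv P Q v k) - c p))
    linarith
  have hcheb : (E.card : ℝ) * (ε / 2 * (Nat.primeCounting x : ℝ)) ^ 2 ≤
      1600 * K * ((Nat.primeCounting x : ℝ) ^ 2 / Real.log x ^ B) := by
    refine le_trans ?_ hsec
    rw [← nsmul_eq_mul, ← sum_const]
    refine (sum_le_sum hS).trans ?_
    apply sum_le_sum_of_subset_of_nonneg hE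
    intro k _ _
    exact sq_nonneg _
  have hpos : 0 < (ε / 2 * (Nat.primeCounting x : ℝ)) ^ 2 := by positivity
  have hLB : 0 < Real.log x ^ B := by positivity
  calc (E.card : ℝ) ≤ 1600 * K * ((Nat.primeCounting x : ℝ) ^ 2 / Real.log x ^ B) /
        (ε / 2 * (Nat.primeCounting x : ℝ)) ^ 2 := (le_div_iff₀ hpos).2 hcheb
    _ = _ := by
        field_simp
        ring

/-- the grid sum of powers of logarithms -/
lemma grid_log (ρ : ℝ) (hρ : 1 < ρ) (B : ℕ) : ∃ S : ℝ, 0 < S ∧ ∀ (J0 : ℕ), 1 ≤ J0 → ∀ I : Finset ℕ,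
    (∀ j ∈ I, J0 ≤ j) → ∑ j ∈ I, 1 / Real.log (g ρ j) ^ (B + 2) ≤ S * (1 / (J0 : ℝ) ^ B) := by
  have hlρ : 0 < Real.log ρ := Real.log_pos hρ
  have hsum : Summable (fun n : ℕ => 1 / (n : ℝ) ^ 2) := Real.summable_one_div_nat_pow.2 (by norm_num)
  obtain ⟨Z, hZ⟩ : ∃ Z, Z = ∑' n : ℕ, 1 / (n : ℝ) ^ 2 := ⟨_, rfl⟩
  have hZ0 : 0 ≤ Z := by
    rw [hZ]
    exact tsum_nonneg fun n => by positivity
  refine ⟨(Z + 1) / Real.log ρ ^ (B + 2), by positivity, fun J0 hJ0 I hI => ?_⟩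
  have hJr : (1 : ℝ) ≤ J0 := by exact_mod_cast hJ0
  have h1 : ∀ j ∈ I, 1 / Real.log (g ρ j) ^ (B + 2) ≤
      (1 / Real.log ρ ^ (B + 2) * (1 / (J0 : ℝ) ^ B)) * (1 / (j : ℝ) ^ 2) := by
    intro j hj
    have hj1 := hI j hj
    have hjr : (J0 : ℝ) ≤ j := by exact_mod_cast hj1
    have hj0 : (0 : ℝ) < j := by linarith
    have h2 : (j : ℝ) * Real.log ρ ≤ Real.log (g ρ j) := by
      rw [← Real.log_pow]
      exact Real.log_le_log (by positivity) (g_ge j)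
    have h3 : ((j : ℝ) * Real.log ρ) ^ (B + 2) ≤ Real.log (g ρ j) ^ (B + 2) :=
      pow_le_pow_left₀ (by positivity) h2 _
    have h4 : Real.log ρ ^ (B + 2) * (J0 : ℝ) ^ B * (j : ℝ) ^ 2 ≤ ((j : ℝ) * Real.log ρ) ^ (B + 2) := by
      rw [mul_pow, pow_add (j : ℝ)]
      have : (J0 : ℝ) ^ B ≤ (j : ℝ) ^ B := pow_le_pow_left₀ (by linarith) hjr _
      calc Real.log ρ ^ (B + 2) * (J0 : ℝ) ^ B * (j : ℝ) ^ 2 ≤
            Real.log ρ ^ (B + 2) * (j : ℝ) ^ B * (j : ℝ) ^ 2 := by gcongr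
        _ = _ := by ring
    calc 1 / Real.log (g ρ j) ^ (B + 2) ≤ 1 / (Real.log ρ ^ (B + 2) * (J0 : ℝ) ^ B * (j : ℝ) ^ 2) :=
          one_div_le_one_div_of_le (by positivity) (h4.trans h3)
      _ = _ := by
          field_simp
  refine (sum_le_sum h1).trans ?_
  rw [← mul_sum]
  have h5 : ∑ j ∈ I, 1 / (j : ℝ) ^ 2 ≤ Z := by
    rw [hZ]
    exact hsum.sum_le_tsum I (fun n _ => by positivity)
  calc (1 / Real.log ρ ^ (B + 2) * (1 / (J0 : ℝ) ^ B)) * ∑ j ∈ I, 1 / (j : ℝ) ^ 2 ≤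
        (1 / Real.log ρ ^ (B + 2) * (1 / (J0 : ℝ) ^ B)) * (Z + 1) := by
        apply mul_le_mul_of_nonneg_left _ (by positivity)
        linarith
    _ = _ := by ring

/-- all `x` -/
theorem all_x (P Q : ℤ) (v : ℤ × ℤ) (M : ℕ) (hGd : ∀ p : ℕ, p.Prime → ¬ p ∣ M → Gd P Q v p)
    (hR : RankLarge P Q M) (f : ℕ → ℤ → ℝ) (c : ℕ → ℝ)
    (hf : ∀ p : ℕ, p.Prime → ¬ p ∣ M → EX p (f p) (c p) ((p - 1).divisors.card : ℝ)) (δ : ℝ)
    (hδ : ∀ ε : ℝ, 0 < ε → ∃ X : ℕ, ∀ x : ℕ, X ≤ x →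
      |∑ p ∈ GP M x, c p - δ * Nat.primeCounting x| ≤ ε * Nat.primeCounting x)
    (N : ℤ → ℕ → ℕ) (hN : ∀ v, Monotone (N v)) (K₀ : ℝ)
    (hK₀ : ∀ n x, |(N n x : ℝ) - ∑ p ∈ GP M x, f p n| ≤ K₀)
    (B : ℕ) (ε : ℝ) (hε : 0 < ε) : ∃ (C : ℝ) (X₀ : ℕ), 0 < C ∧ 4 ≤ X₀ ∧ ∀ X K : ℕ, X₀ ≤ X →
      ∀ E : Finset ℕ, E ⊆ range K →
      (∀ k ∈ E, ∃ x : ℕ, X ≤ x ∧ x ^ 5 ≤ K ∧ ε * (Nat.primeCounting x : ℝ) <
        |(N (lv P Q v k) x : ℝ) - δ * Nat.primeCounting x|) →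
      (E.card : ℝ) ≤ C * (K / Real.log X ^ B) := by
  classical
  have hd := abs_nonneg δ
  obtain ⟨ε₁, hε₁def⟩ : ∃ ε₁ : ℝ, ε₁ = min 1 (ε / (|δ| + 3)) := ⟨_, rfl⟩
  have hε₁ : 0 < ε₁ := by rw [hε₁def]; exact lt_min one_pos (by positivity)
  have hε₁1 : ε₁ ≤ 1 := by rw [hε₁def]; exact min_le_left _ _
  have hεε : (|δ| + 3) * ε₁ ≤ ε := by
    have : ε₁ ≤ ε / (|δ| + 3) := by rw [hε₁def]; exact min_le_right _ _
    rw [le_div_iff₀ (by positivity)] at this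
    linarith
  obtain ⟨C, X1, hC, hX1, h1⟩ := one_x P Q v M hGd hR f c hf δ hδ (B + 2) (ε₁ / 2) (by positivity)
  obtain ⟨ρ, hρ, hρ2, X2, hX2, hpi⟩ := pi_ratio ε₁ hε₁
  obtain ⟨X3, hX34, hX3⟩ := small_ev K₀ (ε₁ / 2) (by positivity)
  have hρ0 : 0 < ρ := by linarith
  have hρρ : 0 < ρ ^ 2 - ρ := by nlinarith
  have hlρ : 0 < Real.log ρ := Real.log_pos hρ
  obtain ⟨X, hX⟩ : ∃ X, X = max (max X1 X2) X3 := ⟨_, rfl⟩
  have hXX1 : X1 ≤ X := by rw [hX]; exact (le_max_left _ _).trans (le_max_left _ _)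
  have hXX2 : X2 ≤ X := by rw [hX]; exact (le_max_right _ _).trans (le_max_left _ _)
  have hXX3 : X3 ≤ X := by rw [hX]; exact le_max_right _ _
  obtain ⟨S, hS, hgrid⟩ := grid_log ρ hρ B
  obtain ⟨R, hR'⟩ := exists_nat_ge (1 / (ρ ^ 2 - ρ))
  refine ⟨C * (S * (2 * Real.log ρ) ^ B), 2 * (X + R) + 4, by positivity, by omega, ?_⟩
  intro Y K hY E hE hbad
  have hY4 : 4 ≤ Y := by omega
  have hY1 : (1 : ℝ) ≤ Y := by exact_mod_cast (by omega : 1 ≤ Y)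
  have hY0 : (0 : ℝ) < Y := by linarith
  obtain ⟨J0, hJ1, hJ2⟩ := exists_nat_pow_near hY1 hρ
  have hlogY : 1 ≤ Real.log Y := log_one_le hY4
  have hJ01 : 1 ≤ J0 := by
    by_contra hcon
    have : J0 = 0 := by omega
    rw [this] at hJ2
    have h4 : (4 : ℝ) ≤ Y := by exact_mod_cast hY4
    simp only [zero_add, pow_one] at hJ2
    linarith
  have hhalf : (Y : ℝ) / 2 ≤ ρ ^ J0 := by
    rw [pow_succ] at hJ2
    have h2 : ρ ^ J0 * ρ ≤ ρ ^ J0 * 2 := mul_le_mul_of_nonneg_left hρ2 (by positivity)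
    linarith
  have hYr : 2 * ((X : ℝ) + R) + 4 ≤ Y := by exact_mod_cast hY
  have hXQ : (X : ℝ) + R ≤ g ρ J0 := by
    have := g_ge (ρ := ρ) J0
    linarith
  have hgJ0X : X ≤ g ρ J0 := by
    have h2 : (X : ℝ) ≤ g ρ J0 := by
      have : (0 : ℝ) ≤ R := Nat.cast_nonneg _
      linarith
    exact_mod_cast h2
  have hgJ01 : 1 ≤ (ρ ^ 2 - ρ) * g ρ J0 := by
    have h2 : 1 / (ρ ^ 2 - ρ) ≤ g ρ J0 := by
      have : (0 : ℝ) ≤ X := Nat.cast_nonneg _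
      linarith
    rw [div_le_iff₀ hρρ] at h2
    linarith
  have hgY : g ρ J0 ≤ Y := Nat.ceil_le.2 hJ1
  obtain ⟨L, hL⟩ := pow_unbounded_of_one_lt ((1024 * K : ℕ) : ℝ) hρ
  obtain ⟨I, hI⟩ : ∃ I : Finset ℕ, I = (range L).filter (fun j => J0 ≤ j ∧ (g ρ j) ^ 5 ≤ 1024 * K) := ⟨_, rfl⟩
  obtain ⟨EE, hEE⟩ : ∃ EE : ℕ → Finset ℕ, EE = fun j => E.filter (fun k =>
    ε₁ * (Nat.primeCounting (g ρ j) : ℝ) <
      |(N (lv P Q v k) (g ρ j) : ℝ) - δ * Nat.primeCounting (g ρ j)|) := ⟨_, rfl⟩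
  have hcover : E ⊆ I.biUnion EE := by
    intro i hi
    obtain ⟨x, hx1, hx2, hx3⟩ := hbad i hi
    obtain ⟨j, hj1, hj2, hj3⟩ := coreG (N (lv P Q v i)) (hN _) δ hε₁ hε₁1 hεε hρ hρ2
      (fun x y hx => hpi x y (hXX2.trans hx)) hgJ0X hgJ01 x (hgY.trans hx1) hx3
    rw [mem_biUnion]
    have hgW : (g ρ j) ^ 5 ≤ 1024 * K := by
      calc (g ρ j) ^ 5 ≤ (4 * x) ^ 5 := Nat.pow_le_pow_left hj2 _
        _ = 1024 * x ^ 5 := by rw [mul_pow]; norm_num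
        _ ≤ 1024 * K := Nat.mul_le_mul_left _ hx2
    refine ⟨j, ?_, ?_⟩
    · rw [hI, mem_filter, mem_range]
      refine ⟨?_, hj1, hgW⟩
      by_contra hcon
      push Not at hcon
      have h2 : ρ ^ L ≤ ρ ^ j := pow_le_pow_right₀ hρ.le hcon
      have h3 := g_ge (ρ := ρ) j
      have h4 : g ρ j ≤ (g ρ j) ^ 5 := Nat.le_self_pow (by omega) _
      have h5 : (g ρ j : ℝ) ≤ ((1024 * K : ℕ) : ℝ) := by exact_mod_cast h4.trans hgW
      linarith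
    · rw [hEE, mem_filter]
      exact ⟨hi, hj3⟩
  have h2 : (E.card : ℝ) ≤ ∑ j ∈ I, ((EE j).card : ℝ) := by
    exact_mod_cast (card_le_card hcover).trans card_biUnion_le
  have h3 : ∀ j ∈ I, ((EE j).card : ℝ) ≤ (C * K) * (1 / Real.log (g ρ j) ^ (B + 2)) := by
    intro j hj
    rw [hI, mem_filter] at hj
    have hgX : X ≤ g ρ j := hgJ0X.trans (g_mono hρ hj.2.1)
    have hgj : X1 ≤ g ρ j := hXX1.trans hgX
    have h4 := h1 (g ρ j) K hgj hj.2.2 (EE j) (by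
      rw [hEE]
      exact (filter_subset _ _).trans hE) (by
      intro i hi
      rw [hEE, mem_filter] at hi
      have h4 := hi.2
      have h5 := hK₀ (lv P Q v i) (g ρ j)
      have h6 := hX3 (g ρ j) (hXX3.trans hgX)
      have h7 : 0 ≤ Real.log (g ρ j) := Real.log_nonneg (g_one_le hρ j)
      have h8 := abs_sub_le (N (lv P Q v i) (g ρ j) : ℝ) (∑ p ∈ GP M (g ρ j), f p (lv P Q v i))
        (δ * Nat.primeCounting (g ρ j))
      linarith)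
    refine h4.trans (le_of_eq ?_)
    ring
  refine h2.trans ((sum_le_sum h3).trans ?_)
  rw [← mul_sum]
  have h4 := hgrid J0 hJ01 I (fun j hj => by rw [hI, mem_filter] at hj; exact hj.2.1)
  have hKr : (0 : ℝ) ≤ K := Nat.cast_nonneg _
  have hJ0r : (1 : ℝ) ≤ J0 := by exact_mod_cast hJ01
  have h5 : Real.log Y ≤ 2 * Real.log ρ * J0 := by
    have h6 : Real.log Y ≤ (J0 + 1 : ℕ) * Real.log ρ := by
      rw [← Real.log_pow]
      exact Real.log_le_log hY0 hJ2.le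
    push_cast at h6
    nlinarith
  have h6 : 1 / (J0 : ℝ) ^ B ≤ (2 * Real.log ρ) ^ B * (1 / Real.log Y ^ B) := by
    have h7 : Real.log Y ^ B ≤ (2 * Real.log ρ * J0) ^ B := pow_le_pow_left₀ (by linarith) h5 B
    rw [mul_pow] at h7
    rw [mul_one_div, div_le_div_iff₀ (by positivity) (by positivity)]
    linarith
  calc C * K * ∑ j ∈ I, 1 / Real.log (g ρ j) ^ (B + 2) ≤ C * K * (S * (1 / (J0 : ℝ) ^ B)) :=
        mul_le_mul_of_nonneg_left h4 (by positivity)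
    _ ≤ C * K * (S * ((2 * Real.log ρ) ^ B * (1 / Real.log Y ^ B))) := by gcongr
    _ = _ := by ring

end Run7.h293
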