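import Pool.Agent.Run7.h293.Rec

set_option autoImplicit false

/-! # Joint sums of characters over the terms of a binary recurrence modulo two primes -/

namespace Run7.h293

open Finset

/-- the multiples of a divisor -/
lemma card_mult (L m : ℕ) (hm : 0 < m) (hd : m ∣ L) :
    ((range L).filter (fun t => m ∣ t)).card * m = L := by
  obtain ⟨c, rfl⟩ := hd
  have : (range (m * c)).filter (fun t => m ∣ t) = (range c).image (fun i => m * i) := by
    ext t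
    rw [mem_filter, mem_range, mem_image]
    constructor
    · rintro ⟨h1, i, rfl⟩
      exact ⟨i, mem_range.2 (lt_of_mul_lt_mul_left h1 (Nat.zero_le _)), rfl⟩
    · rintro ⟨i, hi, rfl⟩
      exact ⟨Nat.mul_lt_mul_of_pos_left (mem_range.1 hi) hm, dvd_mul_right _ _⟩
  rw [this, card_image_of_injective _ (fun a b h => Nat.eq_of_mul_eq_mul_left hm h), card_range]
  ring

lemma sum_shift {M : Type*} [AddCommGroup M] (g : ℕ → M) (L : ℕ) (hg : ∀ k, g (k + L) = g k) (i : ℕ) :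
    ∑ k ∈ range L, g (k + i) = ∑ k ∈ range L, g k := by
  induction i with
  | zero => simp
  | succ i ih =>
    rw [← ih]
    have h1 := sum_range_succ (fun k => g (k + i)) L
    have h2 := sum_range_succ' (fun k => g (k + i)) L
    rw [h1] at h2
    have h3 : g (L + i) = g (0 + i) := by rw [add_comm L i, hg, zero_add]
    rw [h3] at h2
    have h4 := add_right_cancel h2
    rw [h4]
    apply sum_congr rfl
    intro k _
    congr 1
    ring

section One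

variable {p : ℕ} [Fact p.Prime]

lemma lv_affine (P Q : ZMod p) (t : ℕ) : ∃ a : ZMod p, ∀ v, lv P Q v t = a * v.1 + lv P Q (0, 1) t * v.2 := by
  rcases t with _ | t
  · refine ⟨1, fun v => ?_⟩
    rw [lv_zero, lv_zero]
    simp
  · refine ⟨-(Q * lv P Q (0, 1) t), fun v => ?_⟩
    rw [lv_lin]
    ring

/-- correlation of a character with its shift, over all initial vectors -/
lemma corr (P Q : ZMod p) (χ : DirichletCharacter ℂ p) (hχ : χ ≠ 1) (t : ℕ) :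
    ‖∑ v : ZMod p × ZMod p, χ v.1 * (starRingEnd ℂ) (χ (lv P Q v t))‖ ≤
      if lv P Q (0, 1) t = 0 then (p : ℝ) * ((p : ℝ) - 1) else 0 := by
  classical
  have hp := Fact.out (p := p.Prime)
  split_ifs with h0
  · refine (norm_sum_le _ _).trans ?_
    have h1 : ∀ v ∈ (univ : Finset (ZMod p × ZMod p)), ‖χ v.1 * (starRingEnd ℂ) (χ (lv P Q v t))‖ ≤
        if v.1 = 0 then 0 else 1 := by
      intro v _
      rw [norm_mul, RCLike.norm_conj]
      split_ifs with h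
      · rw [h, MulChar.map_zero, norm_zero, zero_mul]
      · have h2 := DirichletCharacter.norm_le_one χ v.1
        have h3 := DirichletCharacter.norm_le_one χ (lv P Q v t)
        exact mul_le_one₀ h2 (norm_nonneg _) h3
    refine (sum_le_sum h1).trans (le_of_eq ?_)
    have h5 : ∀ x : ZMod p, ∑ y : ZMod p, (if ((x, y) : ZMod p × ZMod p).1 = 0 then (0 : ℝ) else 1) =
        p * (if x = 0 then (0 : ℝ) else 1) := by
      intro x
      by_cases hx : x = 0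
      · simp [hx]
      · simp [hx]
    rw [Fintype.sum_prod_type, sum_congr rfl (fun x _ => h5 x), ← mul_sum,
      ← sum_erase_add univ _ (mem_univ (0 : ZMod p))]
    rw [if_pos rfl, add_zero]
    have h4 : ∀ x ∈ (univ : Finset (ZMod p)).erase 0, (if x = 0 then (0 : ℝ) else 1) = 1 := by
      intro x hx
      rw [if_neg (ne_of_mem_erase hx)]
    rw [sum_congr rfl h4, sum_const, card_erase_of_mem (mem_univ _), card_univ, ZMod.card,
      nsmul_eq_mul, mul_one, Nat.cast_sub hp.one_le, Nat.cast_one]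
  · obtain ⟨a, ha⟩ := lv_affine P Q t
    rw [Fintype.sum_prod_type]
    have h1 : ∀ x : ZMod p, ∑ y : ZMod p, χ x * (starRingEnd ℂ) (χ (lv P Q (x, y) t)) = 0 := by
      intro x
      rw [← mul_sum, ← map_sum]
      have h2 : ∑ y : ZMod p, χ (lv P Q (x, y) t) = ∑ z : ZMod p, χ z := by
        apply Fintype.sum_bijective (fun y => lv P Q (x, y) t)
        · rw [← Finite.injective_iff_bijective]
          intro y y' h
          have h' : a * x + lv P Q (0, 1) t * y = a * x + lv P Q (0, 1) t * y' :=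
            (ha (x, y)).symm.trans (h.trans (ha (x, y')))
          exact mul_left_cancel₀ h0 (add_left_cancel h')
        · intro y
          rfl
      rw [h2, MulChar.sum_eq_zero_of_ne_one hχ, map_zero, mul_zero]
    have h6 : ∑ x : ZMod p, ∑ y : ZMod p, χ (x, y).1 * (starRingEnd ℂ) (χ (lv P Q (x, y) t)) = 0 :=
      sum_eq_zero (fun x _ => h1 x)
    rw [h6, norm_zero]

end One

section Two

variable {p q : ℕ} [Fact p.Prime] [Fact q.Prime]

/-- the joint correlation -/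
lemma corr2 (P Q : ZMod p) (P' Q' : ZMod q) (χ : DirichletCharacter ℂ p) (hχ : χ ≠ 1)
    (ρ : DirichletCharacter ℂ q) (hρ : ρ ≠ 1) (t : ℕ) :
    ‖∑ w : (ZMod p × ZMod p) × (ZMod q × ZMod q), (χ w.1.1 * ρ w.2.1) *
      (starRingEnd ℂ) (χ (lv P Q w.1 t) * ρ (lv P' Q' w.2 t))‖ ≤
      if lv P Q (0, 1) t = 0 ∧ lv P' Q' (0, 1) t = 0 then
        ((p : ℝ) * ((p : ℝ) - 1)) * ((q : ℝ) * ((q : ℝ) - 1)) else 0 := by
  have e : ∑ w : (ZMod p × ZMod p) × (ZMod q × ZMod q), (χ w.1.1 * ρ w.2.1) *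
      (starRingEnd ℂ) (χ (lv P Q w.1 t) * ρ (lv P' Q' w.2 t)) =
      (∑ v : ZMod p × ZMod p, χ v.1 * (starRingEnd ℂ) (χ (lv P Q v t))) *
      ∑ v : ZMod q × ZMod q, ρ v.1 * (starRingEnd ℂ) (ρ (lv P' Q' v t)) := by
    rw [sum_mul_sum, ← Finset.univ_product_univ, sum_product]
    apply sum_congr rfl
    intro v _
    apply sum_congr rfl
    intro v' _
    rw [map_mul]
    ring
  rw [e, norm_mul]
  have h1 := corr P Q χ hχ t
  have h2 := corr P' Q' ρ hρ t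
  have hp1 : (1 : ℝ) ≤ p := by exact_mod_cast (Fact.out (p := p.Prime)).one_le
  have hq1 : (1 : ℝ) ≤ q := by exact_mod_cast (Fact.out (p := q.Prime)).one_le
  have hp0 : 0 ≤ (p : ℝ) * ((p : ℝ) - 1) := mul_nonneg (by linarith) (by linarith)
  have hq0 : 0 ≤ (q : ℝ) * ((q : ℝ) - 1) := mul_nonneg (by linarith) (by linarith)
  by_cases h3 : lv P Q (0, 1) t = 0
  · by_cases h4 : lv P' Q' (0, 1) t = 0
    · rw [if_pos ⟨h3, h4⟩]
      rw [if_pos h3] at h1
      rw [if_pos h4] at h2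
      exact mul_le_mul h1 h2 (norm_nonneg _) hp0
    · rw [if_neg (fun h => h4 h.2)]
      rw [if_neg h4] at h2
      have h5 := le_antisymm h2 (norm_nonneg _)
      rw [h5, mul_zero]
  · rw [if_neg (fun h => h3 h.1)]
    rw [if_neg h3] at h1
    have h5 := le_antisymm h1 (norm_nonneg _)
    rw [h5, zero_mul]

/-- the sum over a period as a function of the initial vectors -/
noncomputable def SS (P Q : ZMod p) (P' Q' : ZMod q) (χ : DirichletCharacter ℂ p)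
    (ρ : DirichletCharacter ℂ q) (L : ℕ) (w : (ZMod p × ZMod p) × (ZMod q × ZMod q)) : ℂ :=
  ∑ k ∈ range L, χ (lv P Q w.1 k) * ρ (lv P' Q' w.2 k)

lemma SS_shift (P Q : ZMod p) (P' Q' : ZMod q) (χ : DirichletCharacter ℂ p)
    (ρ : DirichletCharacter ℂ q) (L : ℕ) (h1 : ∀ w, (sg P Q)^[L] w = w)
    (h2 : ∀ w, (sg P' Q')^[L] w = w) (w : (ZMod p × ZMod p) × (ZMod q × ZMod q)) (i : ℕ) :
    SS P Q P' Q' χ ρ L ((sg P Q)^[i] w.1, (sg P' Q')^[i] w.2) = SS P Q P' Q' χ ρ L w := by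
  unfold SS
  rw [← sum_shift (fun k => χ (lv P Q w.1 k) * ρ (lv P' Q' w.2 k)) L ?_ i]
  · apply sum_congr rfl
    intro k _
    rw [add_comm k i, lv_add, lv_add]
  · intro k
    rw [add_comm k L, lv_add, lv_add, h1, h2]

lemma SS_scale (P Q : ZMod p) (P' Q' : ZMod q) (χ : DirichletCharacter ℂ p)
    (ρ : DirichletCharacter ℂ q) (L : ℕ) (w : (ZMod p × ZMod p) × (ZMod q × ZMod q))
    (s : (ZMod p)ˣ) (t : (ZMod q)ˣ) :
    ‖SS P Q P' Q' χ ρ L (((s : ZMod p) * w.1.1, (s : ZMod p) * w.1.2),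
      ((t : ZMod q) * w.2.1, (t : ZMod q) * w.2.2))‖ = ‖SS P Q P' Q' χ ρ L w‖ := by
  have h1 : SS P Q P' Q' χ ρ L (((s : ZMod p) * w.1.1, (s : ZMod p) * w.1.2),
      ((t : ZMod q) * w.2.1, (t : ZMod q) * w.2.2)) = (χ s * ρ t) * SS P Q P' Q' χ ρ L w := by
    unfold SS
    rw [mul_sum]
    apply sum_congr rfl
    intro k _
    have e1 : lv P Q ((s : ZMod p) * w.1.1, (s : ZMod p) * w.1.2) k = s * lv P Q w.1 k := by
      unfold lv
      rw [sg_smul]
    have e2 : lv P' Q' ((t : ZMod q) * w.2.1, (t : ZMod q) * w.2.2) k = t * lv P' Q' w.2 k := by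
      unfold lv
      rw [sg_smul]
    rw [e1, e2, map_mul, map_mul]
    ring
  rw [h1, norm_mul, norm_mul, DirichletCharacter.unit_norm_eq_one, DirichletCharacter.unit_norm_eq_one,
    one_mul, one_mul]

/-- the mean square over all initial vectors -/
lemma SS_sq (P Q : ZMod p) (P' Q' : ZMod q) (χ : DirichletCharacter ℂ p) (hχ : χ ≠ 1)
    (ρ : DirichletCharacter ℂ q) (hρ : ρ ≠ 1) (L : ℕ) (hL : 0 < L) (h1 : ∀ w, (sg P Q)^[L] w = w)
    (h2 : ∀ w, (sg P' Q')^[L] w = w) (T T' : ℕ) (hT0 : 0 < T) (hT0' : 0 < T')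
    (hT : ∀ t, lv P Q (0, 1) t = 0 ↔ T ∣ t)
    (hT' : ∀ t, lv P' Q' (0, 1) t = 0 ↔ T' ∣ t) :
    (∑ w, ‖SS P Q P' Q' χ ρ L w‖ ^ 2) * (Nat.lcm T T' : ℝ) ≤
      (L : ℝ) * L * (((p : ℝ) * ((p : ℝ) - 1)) * ((q : ℝ) * ((q : ℝ) - 1))) := by
  classical
  obtain ⟨G, hG⟩ : ∃ G : (ZMod p × ZMod p) × (ZMod q × ZMod q) → ℂ, G = fun w => χ w.1.1 * ρ w.2.1 :=
    ⟨_, rfl⟩
  obtain ⟨S, hS⟩ : ∃ S, S = SS P Q P' Q' χ ρ L := ⟨_, rfl⟩
  obtain ⟨τ, hτ⟩ : ∃ τ, τ = Prod.map (sg P Q) (sg P' Q') := ⟨_, rfl⟩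
  have hτk : ∀ k w, τ^[k] w = ((sg P Q)^[k] w.1, (sg P' Q')^[k] w.2) := by
    intro k w
    rw [hτ, Prod.map_iterate]
    rfl
  have hSG : ∀ w, S w = ∑ k ∈ range L, G (τ^[k] w) := by
    intro w
    rw [hS, hG]
    unfold SS
    apply sum_congr rfl
    intro k _
    rw [hτk]
    rfl
  have hinv : ∀ k w, S (τ^[k] w) = S w := by
    intro k w
    rw [hS, hτk]
    exact SS_shift P Q P' Q' χ ρ L h1 h2 w k
  have hbij : ∀ k, Function.Bijective (τ^[k]) := by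
    intro k
    rw [← Finite.injective_iff_bijective]
    apply Function.Injective.iterate
    have h3 : Function.Injective (τ^[L]) := by
      intro a b hab
      rw [hτk, hτk, h1, h2, h1, h2] at hab
      exact hab
    obtain ⟨l, hl⟩ : ∃ l, L = l + 1 := ⟨L - 1, by omega⟩
    rw [hl, Function.iterate_succ] at h3
    exact h3.of_comp
  have hmain : ((∑ w, ‖S w‖ ^ 2 : ℝ) : ℂ) = L * ∑ t ∈ range L, ∑ w, G w * (starRingEnd ℂ) (G (τ^[t] w)) := by
    push_cast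
    have h3 : ∀ w, ((‖S w‖ : ℂ) ^ 2) = ∑ k ∈ range L, G (τ^[k] w) * (starRingEnd ℂ) (S (τ^[k] w)) := by
      intro w
      rw [← Complex.mul_conj']
      conv_lhs => rw [hSG w, sum_mul, ← hSG w]
      apply sum_congr rfl
      intro k _
      rw [hinv]
    rw [sum_congr rfl (fun w _ => h3 w), sum_comm]
    have h4 : ∀ k ∈ range L, ∑ w, G (τ^[k] w) * (starRingEnd ℂ) (S (τ^[k] w)) =
        ∑ w, G w * (starRingEnd ℂ) (S w) := by
      intro k _
      exact (hbij k).sum_comp (fun w => G w * (starRingEnd ℂ) (S w))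
    rw [sum_congr rfl h4, sum_const, card_range, nsmul_eq_mul]
    congr 1
    rw [sum_comm]
    apply sum_congr rfl
    intro w _
    rw [hSG w, map_sum, mul_sum]
  have hbound : (∑ w, ‖S w‖ ^ 2 : ℝ) ≤ L * (((range L).filter (fun t => Nat.lcm T T' ∣ t)).card *
      (((p : ℝ) * ((p : ℝ) - 1)) * ((q : ℝ) * ((q : ℝ) - 1)))) := by
    have h5 : (∑ w, ‖S w‖ ^ 2 : ℝ) = ‖((∑ w, ‖S w‖ ^ 2 : ℝ) : ℂ)‖ := by
      rw [Complex.norm_real, Real.norm_eq_abs, abs_of_nonneg]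
      exact sum_nonneg fun w _ => sq_nonneg _
    rw [h5, hmain, norm_mul, Complex.norm_natCast]
    apply mul_le_mul_of_nonneg_left _ (Nat.cast_nonneg _)
    refine (norm_sum_le _ _).trans ?_
    rw [← nsmul_eq_mul, ← sum_const, sum_filter]
    apply sum_le_sum
    intro t _
    have h6 := corr2 P Q P' Q' χ hχ ρ hρ t
    have h7 : (lv P Q (0, 1) t = 0 ∧ lv P' Q' (0, 1) t = 0) ↔ Nat.lcm T T' ∣ t := by
      rw [hT, hT', Nat.lcm_dvd_iff]
    simp only [h7] at h6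
    refine le_trans (le_of_eq ?_) h6
    congr 1
    apply sum_congr rfl
    intro w _
    rw [hG, hτk]
    rfl
  have hΛ : 0 < Nat.lcm T T' := Nat.lcm_pos hT0 hT0'
  have hΛL : Nat.lcm T T' ∣ L := by
    rw [Nat.lcm_dvd_iff, ← hT, ← hT']
    constructor
    · unfold lv
      rw [h1]
    · unfold lv
      rw [h2]
  have hcm := card_mult L (Nat.lcm T T') hΛ hΛL
  have hcm' : (((range L).filter (fun t => Nat.lcm T T' ∣ t)).card : ℝ) * (Nat.lcm T T' : ℝ) = L := by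
    exact_mod_cast hcm
  rw [← hS]
  calc (∑ w, ‖S w‖ ^ 2) * (Nat.lcm T T' : ℝ) ≤
      (L * (((range L).filter (fun t => Nat.lcm T T' ∣ t)).card *
      (((p : ℝ) * ((p : ℝ) - 1)) * ((q : ℝ) * ((q : ℝ) - 1))))) * (Nat.lcm T T' : ℝ) :=
        mul_le_mul_of_nonneg_right hbound (Nat.cast_nonneg _)
    _ = (L : ℝ) * ((((range L).filter (fun t => Nat.lcm T T' ∣ t)).card : ℝ) * (Nat.lcm T T' : ℝ)) *
        (((p : ℝ) * ((p : ℝ) - 1)) * ((q : ℝ) * ((q : ℝ) - 1))) := by ring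
    _ = _ := by rw [hcm']

/-- projective injectivity on the orbit -/
lemma orbit_inj (P Q : ZMod p) (hQ : Q ≠ 0) (T : ℕ) (hT : ∀ t, lv P Q (0, 1) t = 0 ↔ T ∣ t)
    (v : ZMod p × ZMod p) (hv : nf P Q v ≠ 0) (s s' : (ZMod p)ˣ) (i t : ℕ)
    (h1 : (s : ZMod p) * lv P Q v i = s' * lv P Q v (i + t))
    (h2 : (s : ZMod p) * lv P Q v (i + 1) = s' * lv P Q v (i + t + 1)) : T ∣ t := by
  rw [← hT]
  have h := det1 P Q v i t
  have hs : (s' : ZMod p) ≠ 0 := s'.ne_zero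
  have h3 : (s' : ZMod p) * (Q ^ i * lv P Q (0, 1) t * nf P Q v) = 0 := by
    rw [← h]
    have e : (s' : ZMod p) * (lv P Q v (i + 1) * lv P Q v (i + t) - lv P Q v i * lv P Q v (i + t + 1)) =
      lv P Q v (i + 1) * (s' * lv P Q v (i + t)) - lv P Q v i * (s' * lv P Q v (i + t + 1)) := by ring
    rw [e, ← h1, ← h2]
    ring
  rcases mul_eq_zero.1 h3 with h4 | h4
  · exact absurd h4 hs
  · rcases mul_eq_zero.1 h4 with h5 | h5
    · rcases mul_eq_zero.1 h5 with h6 | h6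
      · exact absurd h6 (pow_ne_zero _ hQ)
      · exact h6
    · exact absurd h5 hv

lemma lv_ne (P Q : ZMod p) (hQ : Q ≠ 0) (v : ZMod p × ZMod p) (hv : nf P Q v ≠ 0) (i : ℕ) :
    lv P Q v i ≠ 0 ∨ lv P Q v (i + 1) ≠ 0 := by
  by_contra hcon
  push Not at hcon
  have h := det1 P Q v i 1
  rw [hcon.1, hcon.2, lv_one] at h
  simp only [mul_zero, sub_zero, mul_one, zero_mul] at h
  exact mul_ne_zero (pow_ne_zero _ hQ) hv h.symm

/-- the joint sum over a period is small -/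
theorem joint (P Q : ZMod p) (P' Q' : ZMod q) (hQ : Q ≠ 0) (hQ' : Q' ≠ 0)
    (χ : DirichletCharacter ℂ p) (hχ : χ ≠ 1)
    (ρ : DirichletCharacter ℂ q) (hρ : ρ ≠ 1) (L : ℕ) (hL : 0 < L) (h1 : ∀ w, (sg P Q)^[L] w = w)
    (h2 : ∀ w, (sg P' Q')^[L] w = w) (T T' : ℕ) (hT0 : 0 < T) (hT0' : 0 < T')
    (hT : ∀ t, lv P Q (0, 1) t = 0 ↔ T ∣ t)
    (hT' : ∀ t, lv P' Q' (0, 1) t = 0 ↔ T' ∣ t)
    (v : ZMod p × ZMod p) (hv : nf P Q v ≠ 0) (v' : ZMod q × ZMod q) (hv' : nf P' Q' v' ≠ 0) :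
    ‖∑ k ∈ range L, χ (lv P Q v k) * ρ (lv P' Q' v' k)‖ * (Nat.lcm T T' : ℝ) ≤
      (L : ℝ) * Real.sqrt ((p : ℝ) * q) := by
  classical
  have hp1 : (1 : ℝ) < p := by exact_mod_cast (Fact.out (p := p.Prime)).one_lt
  have hq1 : (1 : ℝ) < q := by exact_mod_cast (Fact.out (p := q.Prime)).one_lt
  have hΛ : 0 < Nat.lcm T T' := Nat.lcm_pos hT0 hT0'
  obtain ⟨Λ, hΛd⟩ : ∃ Λ, Λ = Nat.lcm T T' := ⟨_, rfl⟩
  obtain ⟨S, hS⟩ : ∃ S, S = SS P Q P' Q' χ ρ L := ⟨_, rfl⟩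
  obtain ⟨Φ, hΦ⟩ : ∃ Φ : (ZMod p)ˣ × (ZMod q)ˣ × Fin Λ → (ZMod p × ZMod p) × (ZMod q × ZMod q),
    Φ = fun x => (((x.1 : ZMod p) * lv P Q v x.2.2, (x.1 : ZMod p) * lv P Q v (x.2.2 + 1)),
      ((x.2.1 : ZMod q) * lv P' Q' v' x.2.2, (x.2.1 : ZMod q) * lv P' Q' v' (x.2.2 + 1))) := ⟨_, rfl⟩
  have hnorm : ∀ x, ‖S (Φ x)‖ = ‖S (v, v')‖ := by
    intro x
    have h3 := SS_scale P Q P' Q' χ ρ L ((sg P Q)^[(x.2.2 : ℕ)] v, (sg P' Q')^[(x.2.2 : ℕ)] v') x.1 x.2.1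
    rw [SS_shift P Q P' Q' χ ρ L h1 h2 (v, v') x.2.2] at h3
    rw [hS, hΦ, ← h3]
    simp only [sg_iter]
  have hinj : Function.Injective Φ := by
    have key : ∀ x y : (ZMod p)ˣ × (ZMod q)ˣ × Fin Λ, (x.2.2 : ℕ) ≤ (y.2.2 : ℕ) → Φ x = Φ y → x = y := by
      intro x y hxy h
      obtain ⟨t, ht⟩ := Nat.exists_eq_add_of_le hxy
      rw [hΦ] at h
      simp only [Prod.mk.injEq] at h
      obtain ⟨⟨e1, e2⟩, e3, e4⟩ := h
      have hdv : Λ ∣ t := by
        rw [hΛd, Nat.lcm_dvd_iff]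
        constructor
        · rw [ht] at e1 e2
          exact orbit_inj P Q hQ T hT v hv _ _ _ t e1 e2
        · rw [ht] at e3 e4
          exact orbit_inj P' Q' hQ' T' hT' v' hv' _ _ _ t e3 e4
      have ht0 : t = 0 := by
        by_contra hne
        have h5 := Nat.le_of_dvd (by omega) hdv
        have h6 := y.2.2.isLt
        omega
      have hij : x.2.2 = y.2.2 := by
        apply Fin.ext
        omega
      rw [hij] at e1 e2 e3 e4
      have h7 : x.1 = y.1 := by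
        rcases lv_ne P Q hQ v hv (y.2.2 : ℕ) with h8 | h8
        · exact Units.ext (mul_right_cancel₀ h8 e1)
        · exact Units.ext (mul_right_cancel₀ h8 e2)
      have h8 : x.2.1 = y.2.1 := by
        rcases lv_ne P' Q' hQ' v' hv' (y.2.2 : ℕ) with h8 | h8
        · exact Units.ext (mul_right_cancel₀ h8 e3)
        · exact Units.ext (mul_right_cancel₀ h8 e4)
      exact Prod.ext h7 (Prod.ext h8 hij)
    intro x y h
    rcases le_total (x.2.2 : ℕ) (y.2.2 : ℕ) with h3 | h3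
    · exact key x y h3 h
    · exact (key y x h3 h.symm).symm
  have hsum : ((p : ℝ) - 1) * (((q : ℝ) - 1) * Λ) * ‖S (v, v')‖ ^ 2 ≤ ∑ w, ‖S w‖ ^ 2 := by
    have h3 : ∑ x, ‖S (Φ x)‖ ^ 2 = ∑ w ∈ univ.image Φ, ‖S w‖ ^ 2 := by
      rw [sum_image (fun x _ y _ h => hinj h)]
    have h4 : ∑ x, ‖S (Φ x)‖ ^ 2 = ((p : ℝ) - 1) * (((q : ℝ) - 1) * Λ) * ‖S (v, v')‖ ^ 2 := by
      simp only [hnorm]
      rw [sum_const, card_univ, nsmul_eq_mul, Fintype.card_prod, Fintype.card_prod, Fintype.card_fin,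
        ZMod.card_units, ZMod.card_units]
      push_cast [Nat.cast_sub (Fact.out (p := p.Prime)).one_le, Nat.cast_sub (Fact.out (p := q.Prime)).one_le]
      ring
    rw [← h4, h3]
    apply sum_le_sum_of_subset_of_nonneg (subset_univ _)
    intro w _ _
    exact sq_nonneg _
  have hsq := SS_sq P Q P' Q' χ hχ ρ hρ L hL h1 h2 T T' hT0 hT0' hT hT'
  rw [← hS, ← hΛd] at hsq
  have hΛ0 : (0 : ℝ) < Λ := by
    rw [hΛd]
    exact_mod_cast hΛ
  have hfin : (‖S (v, v')‖ * Λ) ^ 2 ≤ (L * Real.sqrt ((p : ℝ) * q)) ^ 2 := by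
    rw [mul_pow (L : ℝ), Real.sq_sqrt (by positivity)]
    have h5 : ((p : ℝ) - 1) * (((q : ℝ) - 1) * Λ) * ‖S (v, v')‖ ^ 2 * Λ ≤
      (L : ℝ) * L * (((p : ℝ) * ((p : ℝ) - 1)) * ((q : ℝ) * ((q : ℝ) - 1))) :=
      (mul_le_mul_of_nonneg_right hsum hΛ0.le).trans hsq
    have h6 : 0 < ((p : ℝ) - 1) * ((q : ℝ) - 1) := mul_pos (by linarith) (by linarith)
    have h7 : (((p : ℝ) - 1) * ((q : ℝ) - 1)) * (‖S (v, v')‖ * Λ) ^ 2 ≤
      (((p : ℝ) - 1) * ((q : ℝ) - 1)) * ((L : ℝ) ^ 2 * ((p : ℝ) * q)) := by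
      calc _ = ((p : ℝ) - 1) * (((q : ℝ) - 1) * Λ) * ‖S (v, v')‖ ^ 2 * Λ := by ring
        _ ≤ _ := h5
        _ = _ := by ring
    exact le_of_mul_le_mul_left h7 h6
  have h8 := abs_le_of_sq_le_sq' hfin (by positivity)
  have h9 := h8.2
  rw [hS] at h9
  rw [← hΛd]
  exact h9

end Two

end Run7.h293
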