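import Pool.Agent.Run7.h293.Fin
import Pool.Agent.Run7.h293.Bad

set_option autoImplicit false

/-! # Almost all primes have a large rank of apparition -/

namespace Run7.h293

open Finset Filter Pool.Agent.H730R2.AA Pool.Agent.R459.Eq Pool.Agent.R318.PR
open Pool.Agent.Erdos456 (GG)

/-- the recurrence is nondegenerate -/
structure ND0 (P Q : ℤ) : Prop where
  q : Q ≠ 0
  h0 : P ≠ 0
  h1 : P ^ 2 ≠ Q
  h2 : P ^ 2 ≠ 2 * Q
  h3 : P ^ 2 ≠ 3 * Q
  h4 : P ^ 2 ≠ 4 * Q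

/-- the Lucas sequence of a nondegenerate recurrence has no zeros -/
lemma lucas_ne {P Q : ℤ} (h : ND0 P Q) (t : ℕ) (ht : 1 ≤ t) : lv P Q (0, 1) t ≠ 0 := by
  intro h0
  -- the roots
  obtain ⟨α, hα⟩ : ∃ α : ℂ, α ^ 2 - P * α + Q = 0 := by
    obtain ⟨s, hs⟩ := IsAlgClosed.exists_pow_nat_eq (((P : ℂ)) ^ 2 - 4 * Q) (n := 2) (by norm_num)
    refine ⟨(P + s) / 2, ?_⟩
    field_simp
    linear_combination hs
  obtain ⟨β, hβ⟩ : ∃ β : ℂ, β = P - α := ⟨_, rfl⟩
  have hsum : α + β = P := by rw [hβ]; ring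
  have hprod : α * β = Q := by rw [hβ]; linear_combination -hα
  have hQ : (Q : ℂ) ≠ 0 := by exact_mod_cast h.q
  have hβ0 : β ≠ 0 := by
    rintro hb
    rw [hb, mul_zero] at hprod
    exact hQ hprod.symm
  have hne : α ≠ β := by
    intro hab
    apply h.h4
    have : ((P ^ 2 : ℤ) : ℂ) = ((4 * Q : ℤ) : ℂ) := by
      push_cast
      rw [← hsum, ← hprod, hab]
      ring
    exact_mod_cast this
  have hU : ∀ k, ((lv P Q (0, 1) k : ℤ) : ℂ) * (α - β) = α ^ k - β ^ k := by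
    intro k
    induction k using Nat.twoStepInduction with
    | zero => simp [lv_zero]
    | one => simp [lv_one]
    | more k i1 i2 =>
      rw [lv_rec]
      push_cast
      have e1 : ((P : ℂ) * (lv P Q (0, 1) (k + 1) : ℤ) - Q * (lv P Q (0, 1) k : ℤ)) * (α - β) =
        P * (((lv P Q (0, 1) (k + 1) : ℤ) : ℂ) * (α - β)) - Q * (((lv P Q (0, 1) k : ℤ) : ℂ) * (α - β)) := by
        ring
      rw [e1, i1, i2, ← hsum, ← hprod]
      ring
  have hpow : α ^ t = β ^ t := by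
    have := hU t
    rw [h0] at this
    push_cast at this
    rw [zero_mul] at this
    exact (sub_eq_zero.1 this.symm)
  obtain ⟨ζ, hζ⟩ : ∃ ζ : ℂ, ζ = α / β := ⟨_, rfl⟩
  have hζt : ζ ^ t = 1 := by
    rw [hζ, div_pow, hpow, div_self (pow_ne_zero _ hβ0)]
  have hζn : ‖ζ‖ = 1 := by
    have h5 : ‖ζ‖ ^ t = 1 := by rw [← norm_pow, hζt, norm_one]
    exact (pow_eq_one_iff_of_nonneg (norm_nonneg _) (by omega)).1 h5
  have hint : IsIntegral ℤ ζ := by
    refine IsIntegral.of_pow (by omega : 0 < t) ?_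
    rw [hζt]
    exact isIntegral_one
  have hint' : IsIntegral ℤ ζ⁻¹ := by
    refine IsIntegral.of_pow (by omega : 0 < t) ?_
    rw [inv_pow, hζt, inv_one]
    exact isIntegral_one
  have hr : ζ + ζ⁻¹ = (((P ^ 2 - 2 * Q : ℤ) : ℚ) / (Q : ℚ) : ℚ) := by
    have hα0 : α ≠ 0 := by
      rintro hb
      rw [hb, zero_mul] at hprod
      exact hQ hprod.symm
    push_cast
    rw [hζ, ← hsum, ← hprod]
    field_simp
    ring
  have hint2 : IsIntegral ℤ (ζ + ζ⁻¹) := hint.add hint'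
  rw [hr] at hint2
  have hint3 : IsIntegral ℤ ((((P ^ 2 - 2 * Q : ℤ) : ℚ) / (Q : ℚ)) : ℚ) := by
    have h6 : ((((P ^ 2 - 2 * Q : ℤ) : ℚ) / (Q : ℚ) : ℚ) : ℂ) =
      algebraMap ℚ ℂ (((P ^ 2 - 2 * Q : ℤ) : ℚ) / (Q : ℚ)) := rfl
    rw [h6] at hint2
    exact (isIntegral_algebraMap_iff (algebraMap ℚ ℂ).injective).1 hint2
  obtain ⟨m, hm⟩ := IsIntegrallyClosed.isIntegral_iff.1 hint3
  have hQq : (Q : ℚ) ≠ 0 := by exact_mod_cast h.q
  have hmQ : P ^ 2 = (m + 2) * Q := by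
    have h7 : (m : ℚ) = ((P ^ 2 - 2 * Q : ℤ) : ℚ) / (Q : ℚ) := hm
    rw [eq_div_iff hQq] at h7
    have h8 : m * Q = P ^ 2 - 2 * Q := by exact_mod_cast h7
    linarith
  have hmabs : |m| ≤ 2 := by
    have h7 : ((m : ℤ) : ℂ) = ζ + ζ⁻¹ := by
      rw [hr, ← hm]
      simp
    have h8 : ‖((m : ℤ) : ℂ)‖ ≤ 2 := by
      rw [h7]
      refine (norm_add_le _ _).trans ?_
      rw [norm_inv, hζn]
      norm_num
    rw [Complex.norm_intCast] at h8
    exact_mod_cast h8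
  rw [abs_le] at hmabs
  have hm5 : m = -2 ∨ m = -1 ∨ m = 0 ∨ m = 1 ∨ m = 2 := by omega
  rcases hm5 with rfl | rfl | rfl | rfl | rfl
  · apply h.h0
    norm_num at hmQ
    exact hmQ
  · apply h.h1
    linarith
  · apply h.h2
    linarith
  · apply h.h3
    linarith
  · apply h.h4
    linarith

/-- the Lucas sequence grows at most exponentially -/
lemma lucas_le (P Q : ℤ) (t : ℕ) :
    (lv P Q (0, 1) t).natAbs ≤ (P.natAbs + Q.natAbs + 1) ^ t := by
  obtain ⟨c, hc⟩ : ∃ c, c = P.natAbs + Q.natAbs + 1 := ⟨_, rfl⟩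
  rw [← hc]
  induction t using Nat.twoStepInduction with
  | zero => simp [lv_zero]
  | one =>
    simp [lv_one]
    omega
  | more t h1 h2 =>
    rw [lv_rec]
    have h3 : (P * lv P Q (0, 1) (t + 1) - Q * lv P Q (0, 1) t).natAbs ≤
      P.natAbs * (lv P Q (0, 1) (t + 1)).natAbs + Q.natAbs * (lv P Q (0, 1) t).natAbs := by
      rw [← Int.natAbs_mul, ← Int.natAbs_mul]
      exact Int.natAbs_sub_le _ _
    refine h3.trans ?_
    have h4 : P.natAbs * (lv P Q (0, 1) (t + 1)).natAbs ≤ P.natAbs * c ^ (t + 1) :=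
      Nat.mul_le_mul_left _ h2
    have h5 : Q.natAbs * (lv P Q (0, 1) t).natAbs ≤ Q.natAbs * c ^ (t + 1) := by
      apply Nat.mul_le_mul_left
      exact h1.trans (Nat.pow_le_pow_right (by omega) (by omega))
    calc _ ≤ P.natAbs * c ^ (t + 1) + Q.natAbs * c ^ (t + 1) := add_le_add h4 h5
      _ = (P.natAbs + Q.natAbs) * c ^ (t + 1) := by ring
      _ ≤ c * c ^ (t + 1) := Nat.mul_le_mul_right _ (by omega)
      _ = c ^ (t + 2) := by ring

/-- few primes have a small rank -/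
lemma small_rank {P Q : ℤ} (h : ND0 P Q) (G : Finset ℕ) (N : ℕ)
    (hG : ∀ p ∈ G, p.Prime ∧ 1 ≤ rk P Q p ∧ rk P Q p < N) :
    G.card ≤ (P.natAbs + Q.natAbs + 1) * N ^ 2 := by
  classical
  obtain ⟨c, hc⟩ : ∃ c, c = P.natAbs + Q.natAbs + 1 := ⟨_, rfl⟩
  have h1 : G ⊆ (Ico 1 N).biUnion (fun t => (lv P Q (0, 1) t).natAbs.primeFactors) := by
    intro p hp
    obtain ⟨hpp, h1, h2⟩ := hG p hp
    rw [mem_biUnion]
    refine ⟨rk P Q p, mem_Ico.2 ⟨h1, h2⟩, ?_⟩
    have hne : {t | 1 ≤ t ∧ (p : ℤ) ∣ lv P Q (0, 1) t}.Nonempty := by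
      by_contra hcon
      rw [Set.not_nonempty_iff_eq_empty] at hcon
      unfold rk at h1
      rw [hcon, Nat.sInf_empty] at h1
      omega
    have h3 := (Nat.sInf_mem hne).2
    rw [Nat.mem_primeFactors]
    refine ⟨hpp, Int.natCast_dvd.1 h3, ?_⟩
    rw [Int.natAbs_ne_zero]
    exact lucas_ne h _ h1
  have h2 : ∀ t ∈ Ico 1 N, ((lv P Q (0, 1) t).natAbs.primeFactors).card ≤ c * N := by
    intro t ht
    rw [mem_Ico] at ht
    have h3 : 2 ^ ((lv P Q (0, 1) t).natAbs.primeFactors).card ≤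
        ∏ p ∈ (lv P Q (0, 1) t).natAbs.primeFactors, p := by
      apply Finset.pow_card_le_prod
      intro p hp
      exact (Nat.prime_of_mem_primeFactors hp).two_le
    have h4 : ∏ p ∈ (lv P Q (0, 1) t).natAbs.primeFactors, p ≤ (lv P Q (0, 1) t).natAbs :=
      Nat.le_of_dvd (Nat.pos_of_ne_zero (Int.natAbs_ne_zero.2 (lucas_ne h t ht.1)))
        (Nat.prod_primeFactors_dvd _)
    have h5 := lucas_le P Q t
    rw [← hc] at h5
    have h6 : c ^ t ≤ 2 ^ (c * t) := by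
      rw [pow_mul]
      exact Nat.pow_le_pow_left Nat.lt_two_pow_self.le _
    have h7 : 2 ^ ((lv P Q (0, 1) t).natAbs.primeFactors).card ≤ 2 ^ (c * t) :=
      h3.trans (h4.trans (h5.trans h6))
    have h8 := (Nat.pow_le_pow_iff_right (by norm_num : 1 < 2)).1 h7
    exact h8.trans (Nat.mul_le_mul_left _ ht.2.le)
  calc G.card ≤ _ := card_le_card h1
    _ ≤ ∑ t ∈ Ico 1 N, ((lv P Q (0, 1) t).natAbs.primeFactors).card := card_biUnion_le
    _ ≤ ∑ t ∈ Ico 1 N, c * N := sum_le_sum h2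
    _ = (N - 1) * (c * N) := by rw [sum_const, Nat.card_Ico, smul_eq_mul]
    _ ≤ N * (c * N) := Nat.mul_le_mul_right _ (Nat.sub_le _ _)
    _ = _ := by rw [← hc]; ring

/-- almost all primes have a large rank -/
theorem rankLarge {P Q : ℤ} (h : ND0 P Q) (v : ℤ × ℤ) (M : ℕ)
    (hGd : ∀ p : ℕ, p.Prime → ¬ p ∣ M → Gd P Q v p) : RankLarge P Q M := by
  classical
  intro A ε hε
  obtain ⟨C, hC, hsv⟩ := Pool.Agent.Erdos456.sieve_two'
  obtain ⟨X₁, h1⟩ := Bd.main_bad C hC A (ε / 4) (by positivity)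
  obtain ⟨c, hc⟩ : ∃ c, c = P.natAbs + Q.natAbs + 1 := ⟨_, rfl⟩
  obtain ⟨X₂, hX₂, h2⟩ := log_pow_le 1 1 (by norm_num)
  have hlt : Tendsto (fun x : ℕ => Real.log (x : ℝ)) atTop atTop :=
    Real.tendsto_log_atTop.comp tendsto_natCast_atTop_atTop
  obtain ⟨X₃, h3⟩ := eventually_atTop.1 (hlt.eventually_ge_atTop (64 * c / ε))
  refine ⟨X₁ + X₂ + X₃, fun x hx => ?_⟩
  have hx4 : 4 ≤ x := by omega
  have hxr : (4 : ℝ) ≤ x := by exact_mod_cast hx4
  have hx0 : (0 : ℝ) < x := by linarith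
  obtain ⟨L, hL⟩ : ∃ L, L = Real.log (x : ℝ) := ⟨_, rfl⟩
  have hL1 := log_one_le hx4
  have h2' := h2 x (by omega)
  have h3' := h3 x (by omega)
  have hpi := ox_cheb x hx4
  have h1' := h1 x (by omega)
  rw [← hL] at hL1 h2' h3' hpi h1' ⊢
  rw [pow_one, one_mul] at h2'
  have hL0 : 0 < L := by linarith
  have hs0 : 0 < Real.sqrt x := Real.sqrt_pos.2 hx0
  have hss : Real.sqrt x * Real.sqrt x = x := Real.mul_self_sqrt hx0.le
  obtain ⟨G, hG⟩ : ∃ G, G = (GP M x).filter (fun p => (rk P Q p : ℝ) < Real.sqrt x * L ^ A) := ⟨_, rfl⟩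
  rw [← hG]
  obtain ⟨G1, hG1⟩ : ∃ G1, G1 = G.filter (fun p => (rk P Q p : ℝ) < Real.sqrt x / L) := ⟨_, rfl⟩
  obtain ⟨G2, hG2⟩ : ∃ G2, G2 = G.filter (fun p => ¬ (rk P Q p : ℝ) < Real.sqrt x / L ∧ rk P Q p ∣ p - 1) :=
    ⟨_, rfl⟩
  obtain ⟨G3, hG3⟩ : ∃ G3, G3 = G.filter (fun p => ¬ (rk P Q p : ℝ) < Real.sqrt x / L ∧ rk P Q p ∣ p + 1) :=
    ⟨_, rfl⟩
  have hGp : ∀ p ∈ G, (p ≤ x ∧ p.Prime ∧ ¬ p ∣ M) ∧ (rk P Q p : ℝ) < Real.sqrt x * L ^ A := by
    intro p hp
    rw [hG, mem_filter, mem_GP] at hp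
    exact hp
  have hcov : G ⊆ G1 ∪ (G2 ∪ G3) := by
    intro p hp
    obtain ⟨⟨a1, a2, a3⟩, a4⟩ := hGp p hp
    obtain ⟨b1, b2, b3⟩ := rk_spec (hGd p a2 a3)
    rw [mem_union, mem_union, hG1, hG2, hG3, mem_filter, mem_filter, mem_filter]
    by_cases h5 : (rk P Q p : ℝ) < Real.sqrt x / L
    · exact Or.inl ⟨hp, h5⟩
    · rcases b3 with b3 | b3
      · exact Or.inr (Or.inl ⟨hp, h5, b3⟩)
      · exact Or.inr (Or.inr ⟨hp, h5, b3⟩)
  have hc1 : (G1.card : ℝ) ≤ ε / 4 * Nat.primeCounting x := by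
    obtain ⟨N, hN⟩ : ∃ N : ℕ, N = ⌈Real.sqrt x / L⌉₊ := ⟨_, rfl⟩
    have h5 := small_rank h G1 N (by
      intro p hp
      rw [hG1, mem_filter] at hp
      obtain ⟨⟨a1, a2, a3⟩, a4⟩ := hGp p hp.1
      obtain ⟨b1, b2, b3⟩ := rk_spec (hGd p a2 a3)
      refine ⟨a2, b1, ?_⟩
      rw [hN, Nat.lt_ceil]
      exact hp.2)
    have h6 : (N : ℝ) ≤ 2 * (Real.sqrt x / L) := by
      have h7 : (N : ℝ) < Real.sqrt x / L + 1 := by
        rw [hN]
        exact Nat.ceil_lt_add_one (by positivity)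
      have h8 : 1 ≤ Real.sqrt x / L := by
        rw [le_div_iff₀ hL0]
        linarith
      linarith
    rw [← hc] at h5
    have h7 : (G1.card : ℝ) ≤ c * (N : ℝ) ^ 2 := by exact_mod_cast h5
    have h8 : (N : ℝ) ^ 2 ≤ (2 * (Real.sqrt x / L)) ^ 2 := pow_le_pow_left₀ (Nat.cast_nonneg _) h6 2
    have h9 : (2 * (Real.sqrt x / L)) ^ 2 = 4 * (x / L) * (1 / L) := by
      have : (2 * (Real.sqrt x / L)) ^ 2 = 4 * ((Real.sqrt x * Real.sqrt x) / L) * (1 / L) := by
        field_simp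
        ring
      rw [this, hss]
    rw [h9] at h8
    have h10 : x / L ≤ 4 * (Nat.primeCounting x : ℝ) := by
      rw [div_le_iff₀ hL0]
      linarith
    have h11 : (c : ℝ) * (1 / L) ≤ ε / 64 := by
      rw [div_le_iff₀ hε] at h3'
      rw [mul_one_div, div_le_div_iff₀ hL0 (by norm_num)]
      linarith
    have hc0 : (0 : ℝ) ≤ c := Nat.cast_nonneg _
    calc (G1.card : ℝ) ≤ c * (N : ℝ) ^ 2 := h7
      _ ≤ c * (4 * (x / L) * (1 / L)) := mul_le_mul_of_nonneg_left h8 hc0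
      _ = (c * (1 / L)) * (4 * (x / L)) := by ring
      _ ≤ (ε / 64) * (4 * (4 * (Nat.primeCounting x : ℝ))) := by
          apply mul_le_mul h11 _ (by positivity) (by positivity)
          linarith
      _ = _ := by ring
  have hc2 : (G2.card : ℝ) ≤ ε / 4 * Nat.primeCounting x := by
    have h5 := h1' (fun n => (n + 1).Prime) (by
      intro m N hm hN S hS
      have h6 := hsv 1 0 m 1 N one_pos hm (Nat.coprime_one_left 0) (Nat.coprime_one_right m) (by omega) hN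
      have e1 : (1 * m * (((1 * 1 : ℕ) : ℤ) - ((m * 0 : ℕ) : ℤ)).natAbs) = m := by simp
      rw [e1] at h6
      refine le_trans ?_ h6
      have h7 : S ⊆ (Icc 1 N).filter (fun n => (1 * n + 0).Prime ∧ (m * n + 1).Prime) := by
        intro q hq
        obtain ⟨a1, a2, a3⟩ := hS q hq
        rw [mem_filter, mem_Icc]
        refine ⟨⟨a1.one_lt.le, a2⟩, ?_, a3⟩
        rw [one_mul, add_zero]
        exact a1
      exact_mod_cast card_le_card h7) (G2.image (fun p => p - 1)) (by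
      intro n hn
      rw [mem_image] at hn
      obtain ⟨p, hp, rfl⟩ := hn
      rw [hG2, mem_filter] at hp
      obtain ⟨⟨a1, a2, a3⟩, a4⟩ := hGp p hp.1
      have hp2 := a2.two_le
      refine ⟨⟨by omega, by omega⟩, ?_, rk P Q p, hp.2.2, not_lt.1 hp.2.1, a4.le⟩
      rw [Nat.sub_add_cancel (by omega)]
      exact a2)
    rwa [card_image_of_injOn] at h5
    intro p hp q hq hpq
    rw [mem_coe, hG2, mem_filter] at hp hq
    have hp2 := (hGp p hp.1).1.2.1.two_le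
    have hq2 := (hGp q hq.1).1.2.1.two_le
    simp only at hpq
    omega
  have hc3 : (G3.card : ℝ) ≤ ε / 4 * Nat.primeCounting x := by
    have h5 := h1' (fun n => (n - 1).Prime) (by
      intro m N hm hN S hS
      have hcop : Nat.Coprime m (m - 1) := by
        obtain ⟨k, rfl⟩ : ∃ k, m = k + 1 := ⟨m - 1, by omega⟩
        rw [Nat.add_sub_cancel]
        exact (Nat.coprime_self_add_left.2 (Nat.coprime_one_left k))
      have h6 := hsv 1 1 m (m - 1) N one_pos hm (Nat.coprime_one_left 1) hcop (by omega) hN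
      have e1 : (1 * m * (((1 * (m - 1) : ℕ) : ℤ) - ((m * 1 : ℕ) : ℤ)).natAbs) = m := by
        have : (((1 * (m - 1) : ℕ) : ℤ) - ((m * 1 : ℕ) : ℤ)).natAbs = 1 := by
          rw [one_mul, mul_one, Nat.cast_sub hm]
          push_cast
          have : (m : ℤ) - 1 - m = -1 := by ring
          rw [this]
          rfl
        rw [this]
        ring
      rw [e1] at h6
      refine le_trans ?_ h6
      have h7 : (S.image (fun q => q - 1)) ⊆ (Icc 1 N).filter (fun n => (1 * n + 1).Prime ∧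
          (m * n + (m - 1)).Prime) := by
        intro n hn
        rw [mem_image] at hn
        obtain ⟨q, hq, rfl⟩ := hn
        obtain ⟨a1, a2, a3⟩ := hS q hq
        have hq2 := a1.two_le
        rw [mem_filter, mem_Icc]
        refine ⟨⟨by omega, by omega⟩, ?_, ?_⟩
        · rw [one_mul, Nat.sub_add_cancel (by omega)]
          exact a1
        · have e2 : m * (q - 1) + (m - 1) = m * q - 1 := by
            obtain ⟨k, rfl⟩ : ∃ k, q = k + 1 := ⟨q - 1, by omega⟩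
            rw [Nat.add_sub_cancel, mul_add, mul_one]
            omega
          rw [e2]
          exact a3
      have h8 := card_le_card h7
      rw [card_image_of_injOn] at h8
      · exact_mod_cast h8
      · intro p hp q hq hpq
        have hp2 := (hS p hp).1.two_le
        have hq2 := (hS q hq).1.two_le
        simp only at hpq
        omega) (G3.image (fun p => p + 1)) (by
      intro n hn
      rw [mem_image] at hn
      obtain ⟨p, hp, rfl⟩ := hn
      rw [hG3, mem_filter] at hp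
      obtain ⟨⟨a1, a2, a3⟩, a4⟩ := hGp p hp.1
      have hp2 := a2.two_le
      refine ⟨⟨by omega, by omega⟩, ?_, rk P Q p, hp.2.2, not_lt.1 hp.2.1, a4.le⟩
      rw [Nat.add_sub_cancel]
      exact a2)
    rwa [card_image_of_injOn] at h5
    intro p hp q hq hpq
    simp only at hpq
    omega
  have h7 := (card_le_card hcov).trans ((card_union_le _ _).trans (Nat.add_le_add_left (card_union_le _ _) _))
  have h8 : (G.card : ℝ) ≤ (G1.card : ℝ) + ((G2.card : ℝ) + (G3.card : ℝ)) := by exact_mod_cast h7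
  have h9 : 0 ≤ ε * (Nat.primeCounting x : ℝ) := by positivity
  linarith

end Run7.h293
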