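import Mathlib

set_option autoImplicit false

/-! # Binary linear recurrences modulo primes -/

namespace Run7.h293

open Finset

section Ring

variable {R : Type*} [CommRing R]

/-- the shift of a binary recurrence -/
def sg (P Q : R) (v : R × R) : R × R := (v.2, P * v.2 - Q * v.1)

/-- the terms of the recurrence with given initial terms -/
def lv (P Q : R) (v : R × R) (k : ℕ) : R := ((sg P Q)^[k] v).1

/-- the norm form of the initial terms -/
def nf (P Q : R) (v : R × R) : R := v.2 ^ 2 - P * v.1 * v.2 + Q * v.1 ^ 2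

variable (P Q : R)

lemma lv_zero (v : R × R) : lv P Q v 0 = v.1 := rfl

lemma lv_one (v : R × R) : lv P Q v 1 = v.2 := rfl

lemma sg_iter (v : R × R) (k : ℕ) : (sg P Q)^[k] v = (lv P Q v k, lv P Q v (k + 1)) := by
  unfold lv
  rw [Function.iterate_succ_apply']
  rfl

lemma lv_rec (v : R × R) (k : ℕ) :
    lv P Q v (k + 2) = P * lv P Q v (k + 1) - Q * lv P Q v k := by
  have h : lv P Q v (k + 2) = ((sg P Q) ((sg P Q) ((sg P Q)^[k] v))).1 := by
    unfold lv
    rw [Function.iterate_succ_apply', Function.iterate_succ_apply']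
  rw [h, sg_iter]
  rfl

lemma lv_add (v : R × R) (i k : ℕ) : lv P Q v (i + k) = lv P Q ((sg P Q)^[i] v) k := by
  unfold lv
  rw [← Function.iterate_add_apply, add_comm]

lemma lv_lin (v : R × R) (k : ℕ) :
    lv P Q v (k + 1) = lv P Q (0, 1) (k + 1) * v.2 - Q * lv P Q (0, 1) k * v.1 := by
  induction k using Nat.twoStepInduction with
  | zero => simp [lv_zero, lv_one]
  | one =>
    rw [lv_rec, lv_rec]
    simp [lv_zero, lv_one]
  | more k h1 h2 =>
    have e1 : lv P Q v (k + 2 + 1) = P * lv P Q v (k + 1 + 1) - Q * lv P Q v (k + 1) := lv_rec P Q v (k + 1)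
    have e2 : lv P Q (0, 1) (k + 2 + 1) = P * lv P Q (0, 1) (k + 1 + 1) - Q * lv P Q (0, 1) (k + 1) :=
      lv_rec P Q (0, 1) (k + 1)
    have e3 : lv P Q (0, 1) (k + 1 + 1) = P * lv P Q (0, 1) (k + 1) - Q * lv P Q (0, 1) k :=
      lv_rec P Q (0, 1) k
    rw [e1, h2, h1, e2, lv_rec P Q (0, 1) k]
    ring

lemma lv_shift (v : R × R) (k t : ℕ) :
    lv P Q v (k + t + 1) = lv P Q (0, 1) (t + 1) * lv P Q v (k + 1) -
      Q * lv P Q (0, 1) t * lv P Q v k := by
  rw [add_assoc, lv_add, lv_lin, sg_iter]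

lemma nf_sg (v : R × R) : nf P Q (sg P Q v) = Q * nf P Q v := by
  unfold nf sg
  ring

lemma nf_iter (v : R × R) (k : ℕ) : nf P Q ((sg P Q)^[k] v) = Q ^ k * nf P Q v := by
  induction k with
  | zero => simp
  | succ k ih => rw [Function.iterate_succ_apply', nf_sg, ih]; ring

lemma det0 (v : R × R) (t : ℕ) :
    v.2 * lv P Q v t - v.1 * lv P Q v (t + 1) = lv P Q (0, 1) t * nf P Q v := by
  induction t using Nat.twoStepInduction with
  | zero => simp [lv_zero, lv_one]; ring
  | one =>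
    have e1 : lv P Q v (1 + 1) = P * lv P Q v 1 - Q * lv P Q v 0 := lv_rec P Q v 0
    rw [e1]
    simp only [lv_zero, lv_one, nf]
    ring
  | more t h1 h2 =>
    rw [lv_rec P Q v (t + 1), lv_rec P Q (0, 1) t]
    have e : v.2 * lv P Q v (t + 2) - v.1 * (P * lv P Q v (t + 2) - Q * lv P Q v (t + 1)) =
      P * (v.2 * lv P Q v (t + 1) - v.1 * lv P Q v (t + 2)) -
      Q * (v.2 * lv P Q v t - v.1 * lv P Q v (t + 1)) := by
      rw [lv_rec P Q v t]
      ring
    have e2 : lv P Q v (t + 1 + 1) = lv P Q v (t + 2) := rfl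
    rw [e2]
    rw [e, h1]
    have h3 : v.2 * lv P Q v (t + 1) - v.1 * lv P Q v (t + 2) =
      lv P Q (0, 1) (t + 1) * nf P Q v := h2
    rw [h3]
    ring

lemma det1 (v : R × R) (k t : ℕ) :
    lv P Q v (k + 1) * lv P Q v (k + t) - lv P Q v k * lv P Q v (k + t + 1) =
      Q ^ k * lv P Q (0, 1) t * nf P Q v := by
  have h := det0 P Q ((sg P Q)^[k] v) t
  rw [← lv_add, ← lv_add, nf_iter, sg_iter] at h
  simp only at h
  rw [add_assoc k t 1, h]
  ring

lemma lv_unique (u : ℕ → R) (hu : ∀ k, u (k + 2) = P * u (k + 1) - Q * u k) (k : ℕ) :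
    u k = lv P Q (u 0, u 1) k := by
  induction k using Nat.twoStepInduction with
  | zero => rfl
  | one => rfl
  | more k h1 h2 => rw [hu, lv_rec, h1, h2]

lemma lv_map {S : Type*} [CommRing S] (f : R →+* S) (v : R × R) (k : ℕ) :
    f (lv P Q v k) = lv (f P) (f Q) (f v.1, f v.2) k := by
  induction k using Nat.twoStepInduction with
  | zero => rfl
  | one => rfl
  | more k h1 h2 => rw [lv_rec, lv_rec, map_sub, map_mul, map_mul, h1, h2]

end Ring

/-! ### modulo a prime -/

section Field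

variable {F : Type*} [Field F]

/-- zeros of the Lucas sequence -/
lemma lucas_iff (P Q : F) (hQ : Q ≠ 0) (h : ∃ t, 1 ≤ t ∧ lv P Q (0, 1) t = 0) :
    ∃ T, 1 ≤ T ∧ ∀ t, lv P Q (0, 1) t = 0 ↔ T ∣ t := by
  classical
  obtain ⟨hT1, hT0⟩ := Nat.find_spec h
  set T := Nat.find h with hT
  refine ⟨T, hT1, ?_⟩
  have hn : nf P Q ((0, 1) : F × F) = 1 := by simp [nf]
  -- the step
  have hstep : ∀ k, lv P Q (0, 1) (k + T) = 0 ↔ lv P Q (0, 1) k = 0 := by
    intro k
    obtain ⟨s, hs⟩ : ∃ s, T = s + 1 := ⟨T - 1, by omega⟩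
    have h1 := lv_shift P Q ((0, 1) : F × F) k s
    have hs0 : lv P Q ((0, 1) : F × F) s ≠ 0 := by
      intro h0
      have h2 := det1 P Q ((0, 1) : F × F) s 1
      rw [hn, ← hs, hT0, h0, lv_one] at h2
      simp only [zero_mul, mul_zero, mul_one, sub_zero] at h2
      exact pow_ne_zero s hQ h2.symm
    rw [← hs, hT0] at h1
    rw [hs, ← add_assoc, h1]
    rw [zero_mul, zero_sub, neg_eq_zero]
    constructor
    · intro h2
      rcases mul_eq_zero.1 h2 with h3 | h3
      · rcases mul_eq_zero.1 h3 with h4 | h4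
        · exact absurd h4 hQ
        · exact absurd h4 hs0
      · exact h3
    · intro h2
      rw [h2, mul_zero]
  have hmul : ∀ m r, lv P Q (0, 1) (r + m * T) = 0 ↔ lv P Q (0, 1) r = 0 := by
    intro m
    induction m with
    | zero => intro r; simp
    | succ m ih =>
      intro r
      rw [Nat.succ_mul, ← add_assoc, hstep, ih]
  intro t
  have h2 := hmul (t / T) (t % T)
  rw [mul_comm, Nat.mod_add_div] at h2
  rw [h2]
  constructor
  · intro h3
    rw [Nat.dvd_iff_mod_eq_zero]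
    by_contra hcon
    exact Nat.find_min h (Nat.mod_lt t hT1) ⟨Nat.one_le_iff_ne_zero.2 hcon, h3⟩
  · intro h3
    rw [Nat.dvd_iff_mod_eq_zero] at h3
    rw [h3]
    rfl

/-- the zeros of a recurrence lie in one class -/
lemma zero_class (P Q : F) (hQ : Q ≠ 0) (T : ℕ) (hT : ∀ t, lv P Q (0, 1) t = 0 ↔ T ∣ t)
    (v : F × F) (hv : nf P Q v ≠ 0) (k t : ℕ) (h1 : lv P Q v k = 0) (h2 : lv P Q v (k + t) = 0) :
    T ∣ t := by
  rw [← hT]
  have h := det1 P Q v k t
  rw [h1, h2, mul_zero, zero_mul, sub_zero] at h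
  rcases mul_eq_zero.1 h.symm with h3 | h3
  · rcases mul_eq_zero.1 h3 with h4 | h4
    · exact absurd h4 (pow_ne_zero _ hQ)
    · exact h4
  · exact absurd h3 hv

end Field

/-- the shift as a linear map -/
def sgl {p : ℕ} (P Q : ZMod p) : Module.End (ZMod p) (ZMod p × ZMod p) where
  toFun := sg P Q
  map_add' v w := by
    unfold sg
    ext <;> simp <;> ring
  map_smul' c v := by
    unfold sg
    ext <;> simp <;> ring

lemma sgl_apply {p : ℕ} (P Q : ZMod p) (v : ZMod p × ZMod p) : sgl P Q v = sg P Q v := rfl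

lemma sgl_pow {p : ℕ} (P Q : ZMod p) (k : ℕ) (v : ZMod p × ZMod p) :
    (sgl P Q ^ k) v = (sg P Q)^[k] v := by
  rw [Module.End.pow_apply]
  rfl

/-- the order of the shift modulo a prime -/
lemma frob (p : ℕ) [Fact p.Prime] (hp2 : p ≠ 2) (P Q : ZMod p) (hQ : Q ≠ 0)
    (hD : P ^ 2 - 4 * Q ≠ 0) :
    ((∀ v, (sg P Q)^[p - 1] v = v) ∨ (∀ v, (sg P Q)^[p + 1] v = (Q * v.1, Q * v.2))) := by
  have hp := Fact.out (p := p.Prime)
  set f : Module.End (ZMod p) (ZMod p × ZMod p) := sgl P Q with hf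
  have hchar : CharP (Module.End (ZMod p) (ZMod p × ZMod p)) p :=
    charP_of_injective_algebraMap
      (algebraMap (ZMod p) (Module.End (ZMod p) (ZMod p × ZMod p))).injective p
  set c := algebraMap (ZMod p) (Module.End (ZMod p) (ZMod p × ZMod p)) with hc
  have hcomm : ∀ a g, c a * g = g * c a := fun a g => Algebra.commutes a g
  have h1 : f * f = c P * f - c Q := by
    ext <;> simp [hf, hc, sgl, sg] <;> ring
  have hc2 : (2 : Module.End (ZMod p) (ZMod p × ZMod p)) = c 2 := (map_ofNat c 2).symm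
  have h2 : (2 * f - c P) ^ p = 2 * f ^ p - c P := by
    rw [sub_pow_char_of_commute]
    · have hcm : Commute (2 : Module.End (ZMod p) (ZMod p × ZMod p)) f := by
        exact (Commute.ofNat_left 2 f)
      rw [hcm.mul_pow, ← map_pow, ZMod.pow_card]
      congr 2
      rw [hc2, ← map_pow, ZMod.pow_card]
    · exact (hcomm P _).symm
  have h3 : (2 * f - c P) ^ 2 = c (P ^ 2 - 4 * Q) := by
    obtain ⟨D, hDD⟩ : ∃ D, D = P ^ 2 - 4 * Q := ⟨_, rfl⟩
    rw [← hDD, pow_two]
    ext <;> simp [hf, hc, sgl, sg] <;> (try rw [hDD]) <;> ring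
  have hodd : p = 2 * (p / 2) + 1 := by
    have := hp.odd_of_ne_two hp2
    obtain ⟨m, hm⟩ := this
    omega
  have h20 : (2 : ZMod p) ≠ 0 := by
    intro h
    have h' : ((2 : ℕ) : ZMod p) = 0 := by exact_mod_cast h
    rw [ZMod.natCast_eq_zero_iff] at h'
    have := Nat.le_of_dvd (by norm_num) h'
    have := hp.two_le
    omega
  have h4 : (2 * f - c P) ^ p = c ((P ^ 2 - 4 * Q) ^ (p / 2)) * (2 * f - c P) := by
    have e : (2 * f - c P) ^ p = (2 * f - c P) ^ (2 * (p / 2) + 1) :=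
      congrArg (fun n => (2 * f - c P) ^ n) hodd
    rw [e, pow_succ, pow_mul, h3, map_pow]
  have hcan : ∀ g h : Module.End (ZMod p) (ZMod p × ZMod p), 2 * g = 2 * h → g = h := by
    intro g h hgh
    have : c 2⁻¹ * (c 2 * g) = c 2⁻¹ * (c 2 * h) := by rw [← hc2, hgh]
    rw [← mul_assoc, ← mul_assoc, ← map_mul, inv_mul_cancel₀ h20, map_one, one_mul, one_mul] at this
    exact this
  rcases ZMod.pow_div_two_eq_neg_one_or_one p hD with h5 | h5
  · left
    rw [h5, map_one, one_mul, h2] at h4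
    have h6 : f ^ p = f := hcan _ _ (sub_left_injective h4)
    have h7 : f ^ (p - 1) = 1 := by
      have h8 : f * (c P - f) = c Q := by
        rw [mul_sub, h1, ← hcomm]
        abel
      have h9 : f ^ (p - 1) * f = 1 * f := by
        rw [← pow_succ, one_mul, Nat.sub_add_cancel hp.one_le, h6]
      have h10 : f ^ (p - 1) * f * (c P - f) = 1 * f * (c P - f) := by rw [h9]
      rw [mul_assoc, mul_assoc, h8, one_mul] at h10
      have h11 : f ^ (p - 1) * c Q * c Q⁻¹ = c Q * c Q⁻¹ := by rw [h10]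
      rw [mul_assoc, ← map_mul, mul_inv_cancel₀ hQ, map_one, mul_one] at h11
      exact h11
    intro v
    rw [← sgl_pow, ← hf, h7]
    rfl
  · right
    rw [h5, map_neg, map_one, h2] at h4
    have h6 : f ^ p = c P - f := by
      apply hcan
      have h8 : 2 * f ^ p = -(2 * f - c P) + c P := by rw [← neg_one_mul (2 * f - c P), ← h4]; abel
      rw [h8, mul_sub, two_mul (c P)]
      abel
    have h7 : f ^ (p + 1) = c Q := by
      rw [pow_succ, h6, sub_mul, h1]
      abel
    intro v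
    rw [← sgl_pow, ← hf, h7]
    rfl

lemma sg_smul {p : ℕ} (P Q c : ZMod p) (v : ZMod p × ZMod p) (k : ℕ) :
    (sg P Q)^[k] (c * v.1, c * v.2) = (c * ((sg P Q)^[k] v).1, c * ((sg P Q)^[k] v).2) := by
  have h := (sgl P Q ^ k).map_smul c v
  rw [sgl_pow, sgl_pow] at h
  exact h

lemma lucas_pm (p : ℕ) [Fact p.Prime] (hp2 : p ≠ 2) (P Q : ZMod p) (hQ : Q ≠ 0)
    (hD : P ^ 2 - 4 * Q ≠ 0) : lv P Q (0, 1) (p - 1) = 0 ∨ lv P Q (0, 1) (p + 1) = 0 := by
  rcases frob p hp2 P Q hQ hD with h | h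
  · left
    unfold lv
    rw [h]
  · right
    unfold lv
    rw [h]
    simp

/-- the shift has period `p ^ 2 - 1` -/
lemma sg_period (p : ℕ) [Fact p.Prime] (hp2 : p ≠ 2) (P Q : ZMod p) (hQ : Q ≠ 0)
    (hD : P ^ 2 - 4 * Q ≠ 0) (v : ZMod p × ZMod p) : (sg P Q)^[p ^ 2 - 1] v = v := by
  have hp := Fact.out (p := p.Prime)
  have e : p ^ 2 - 1 = (p + 1) * (p - 1) := by
    have := Nat.sq_sub_sq p 1
    rw [one_pow] at this
    exact this
  rcases frob p hp2 P Q hQ hD with h | h
  · rw [e, mul_comm, Function.iterate_mul]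
    have h1 : (sg P Q)^[p - 1] = id := by funext w; exact h w
    rw [h1, Function.iterate_id]
    rfl
  · rw [e, Function.iterate_mul]
    have h1 : ∀ (m : ℕ) (w : ZMod p × ZMod p), ((sg P Q)^[p + 1])^[m] w = (Q ^ m * w.1, Q ^ m * w.2) := by
      intro m
      induction m with
      | zero => intro w; simp
      | succ m ih =>
        intro w
        rw [Function.iterate_succ_apply, h, ih]
        ext <;> simp <;> ring
    rw [h1, ZMod.pow_card_sub_one_eq_one hQ]
    simp

end Run7.h293
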