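import Pool.Agent.Run7.h293.Cov

set_option autoImplicit false

/-! # The second moment over the primes of large rank -/

namespace Run7.h293

open Finset Pool.Agent.H730R2.AA Pool.Agent.R459.Eq Pool.Agent.R318.PR

/-- integers `n` with `d ∣ n - 1` or `d ∣ n + 1` -/
def ND (x d : ℕ) : Finset ℕ := (Icc 2 x).filter (fun n => d ∣ n - 1 ∨ d ∣ n + 1)

lemma card_ND (x d : ℕ) (hd : 1 ≤ d) : ((ND x d).card : ℝ) ≤ 2 * ((x : ℝ) + 1) / d := by
  have h1 : ND x d ⊆ (Icc 2 x).filter (fun n => d ∣ n - 1) ∪ (Icc 2 x).filter (fun n => d ∣ n + 1) := by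
    intro n hn
    unfold ND at hn
    rw [mem_filter] at hn
    rw [mem_union, mem_filter, mem_filter]
    rcases hn.2 with h | h
    · exact Or.inl ⟨hn.1, h⟩
    · exact Or.inr ⟨hn.1, h⟩
  have h2 : ((Icc 2 x).filter (fun n => d ∣ n - 1)).card ≤ (x + 1) / d := by
    have : ((Icc 2 x).filter (fun n => d ∣ n - 1)).card ≤ (Icc 1 ((x + 1) / d)).card := by
      apply card_le_card_of_injOn (fun n => (n - 1) / d)
      · intro n hn
        rw [mem_coe, mem_filter, mem_Icc] at hn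
        rw [mem_coe, mem_Icc]
        constructor
        · exact (Nat.one_le_div_iff (by omega)).2 (Nat.le_of_dvd (by omega) hn.2)
        · exact Nat.div_le_div_right (by omega)
      · intro n hn m hm h
        rw [mem_coe, mem_filter, mem_Icc] at hn hm
        simp only at h
        have e1 := Nat.div_mul_cancel hn.2
        have e2 := Nat.div_mul_cancel hm.2
        rw [h] at e1
        omega
    rwa [Nat.card_Icc, Nat.add_sub_cancel] at this
  have h3 : ((Icc 2 x).filter (fun n => d ∣ n + 1)).card ≤ (x + 1) / d := by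
    have : ((Icc 2 x).filter (fun n => d ∣ n + 1)).card ≤ (Icc 1 ((x + 1) / d)).card := by
      apply card_le_card_of_injOn (fun n => (n + 1) / d)
      · intro n hn
        rw [mem_coe, mem_filter, mem_Icc] at hn
        rw [mem_coe, mem_Icc]
        constructor
        · exact (Nat.one_le_div_iff (by omega)).2 (Nat.le_of_dvd (by omega) hn.2)
        · exact Nat.div_le_div_right (by omega)
      · intro n hn m hm h
        rw [mem_coe, mem_filter, mem_Icc] at hn hm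
        simp only at h
        have e1 := Nat.div_mul_cancel hn.2
        have e2 := Nat.div_mul_cancel hm.2
        rw [h] at e1
        omega
    rwa [Nat.card_Icc, Nat.add_sub_cancel] at this
  have h4 := (card_le_card h1).trans (card_union_le _ _)
  have h5 : ((ND x d).card : ℝ) ≤ 2 * (((x + 1) / d : ℕ) : ℝ) := by
    have : (ND x d).card ≤ 2 * ((x + 1) / d) := by omega
    exact_mod_cast this
  have h6 : (((x + 1) / d : ℕ) : ℝ) ≤ ((x : ℝ) + 1) / d := by
    have := Nat.cast_div_le (α := ℝ) (m := x + 1) (n := d)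
    push_cast at this
    exact this
  calc _ ≤ 2 * (((x : ℝ) + 1) / d) := h5.trans (mul_le_mul_of_nonneg_left h6 (by norm_num))
    _ = _ := by ring

lemma sum_inv_sq_tail (g N : ℕ) (hg : 1 ≤ g) : ∑ d ∈ Ioc g N, 1 / ((d : ℝ) ^ 2) ≤ 1 / (g : ℝ) := by
  have hg0 : (0 : ℝ) < g := by exact_mod_cast hg
  rcases le_total g N with h | h
  · have key : ∀ m, g ≤ m → ∑ d ∈ Ioc g m, 1 / ((d : ℝ) ^ 2) ≤ 1 / (g : ℝ) - 1 / (m : ℝ) := by
      intro m hm
      induction m, hm using Nat.le_induction with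
      | base => simp
      | succ m hm ih =>
        rw [← Finset.insert_Ioc_right_eq_Ioc_add_one (by omega : g ≤ m), sum_insert (by simp)]
        have hm0 : (0 : ℝ) < m := by
          have : 0 < m := by omega
          exact_mod_cast this
        have h1 : 1 / (((m + 1 : ℕ) : ℝ) ^ 2) ≤ 1 / (m : ℝ) - 1 / ((m + 1 : ℕ) : ℝ) := by
          push_cast
          rw [div_sub_div _ _ hm0.ne' (by positivity), div_le_div_iff₀ (by positivity) (by positivity)]
          nlinarith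
        linarith
    have := key N h
    have h2 : (0 : ℝ) ≤ 1 / (N : ℝ) := by positivity
    linarith
  · rw [Ioc_eq_empty (by omega), sum_empty]
    positivity

/-- few pairs of primes have ranks with a large common divisor -/
lemma pairs_gcd (x g : ℕ) (hg : 1 ≤ g) (G : Finset ℕ) (r : ℕ → ℕ) (hG : ∀ p ∈ G, 3 ≤ p ∧ p ≤ x)
    (hr : ∀ p ∈ G, 1 ≤ r p ∧ (r p ∣ p - 1 ∨ r p ∣ p + 1)) :
    (((G ×ˢ G).filter (fun z => g < Nat.gcd (r z.1) (r z.2))).card : ℝ) ≤ 4 * ((x : ℝ) + 1) ^ 2 / g := by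
  classical
  have h1 : (G ×ˢ G).filter (fun z => g < Nat.gcd (r z.1) (r z.2)) ⊆
      (Ioc g (x + 1)).biUnion (fun d => ND x d ×ˢ ND x d) := by
    rintro ⟨p, q⟩ hz
    rw [mem_filter, mem_product] at hz
    obtain ⟨⟨hp, hq⟩, hgcd⟩ := hz
    simp only at hp hq hgcd
    have hp1 := hG p hp
    have hq1 := hG q hq
    have hp2 := hr p hp
    have hq2 := hr q hq
    rw [mem_biUnion]
    refine ⟨Nat.gcd (r p) (r q), ?_, ?_⟩
    · rw [mem_Ioc]
      refine ⟨hgcd, ?_⟩
      have h2 : Nat.gcd (r p) (r q) ≤ r p := Nat.le_of_dvd hp2.1 (Nat.gcd_dvd_left _ _)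
      rcases hp2.2 with h3 | h3
      · have := Nat.le_of_dvd (by omega) h3
        omega
      · have := Nat.le_of_dvd (by omega) h3
        omega
    · rw [mem_product]
      unfold ND
      rw [mem_filter, mem_filter, mem_Icc, mem_Icc]
      refine ⟨⟨by simp only; omega, ?_⟩, ⟨by simp only; omega, ?_⟩⟩
      · rcases hp2.2 with h3 | h3
        · exact Or.inl ((Nat.gcd_dvd_left _ _).trans h3)
        · exact Or.inr ((Nat.gcd_dvd_left _ _).trans h3)
      · rcases hq2.2 with h3 | h3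
        · exact Or.inl ((Nat.gcd_dvd_right _ _).trans h3)
        · exact Or.inr ((Nat.gcd_dvd_right _ _).trans h3)
  have h2 := (card_le_card h1).trans card_biUnion_le
  calc (((G ×ˢ G).filter (fun z => g < Nat.gcd (r z.1) (r z.2))).card : ℝ) ≤
        ∑ d ∈ Ioc g (x + 1), ((ND x d ×ˢ ND x d).card : ℝ) := by exact_mod_cast h2
    _ ≤ ∑ d ∈ Ioc g (x + 1), (4 * ((x : ℝ) + 1) ^ 2) * (1 / (d : ℝ) ^ 2) := by
        apply sum_le_sum
        intro d hd
        rw [mem_Ioc] at hd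
        have h3 := card_ND x d (by omega)
        have hd0 : (0 : ℝ) < d := by
          have : 0 < d := by omega
          exact_mod_cast this
        rw [card_product]
        push_cast
        calc ((ND x d).card : ℝ) * ((ND x d).card : ℝ) ≤ (2 * ((x : ℝ) + 1) / d) * (2 * ((x : ℝ) + 1) / d) :=
              mul_le_mul h3 h3 (Nat.cast_nonneg _) (by positivity)
          _ = _ := by
              field_simp
              ring
    _ = (4 * ((x : ℝ) + 1) ^ 2) * ∑ d ∈ Ioc g (x + 1), 1 / (d : ℝ) ^ 2 := by rw [mul_sum]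
    _ ≤ (4 * ((x : ℝ) + 1) ^ 2) * (1 / g) :=
        mul_le_mul_of_nonneg_left (sum_inv_sq_tail g (x + 1) hg) (by positivity)
    _ = _ := by ring

/-- the divisor sum -/
lemma sum_tau' (x : ℕ) (G : Finset ℕ) (hG : ∀ p ∈ G, 3 ≤ p ∧ p ≤ x) :
    ∑ p ∈ G, ((p - 1).divisors.card : ℝ) ≤ x * (1 + Real.log x) := by
  classical
  have h1 : ∑ p ∈ G, ((p - 1).divisors.card : ℝ) ≤ ∑ n ∈ Icc 1 x, (n.divisors.card : ℝ) := by
    calc ∑ p ∈ G, ((p - 1).divisors.card : ℝ) = ∑ n ∈ G.image (fun p : ℕ => p - 1), (n.divisors.card : ℝ) := by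
          rw [sum_image]
          intro p hp q hq h
          have h1 := hG p hp
          have h2 := hG q hq
          simp only at h
          omega
      _ ≤ _ := by
          apply sum_le_sum_of_subset_of_nonneg
          · intro n hn
            rw [mem_image] at hn
            obtain ⟨p, hp, rfl⟩ := hn
            have := hG p hp
            rw [mem_Icc]
            omega
          · intro n _ _
            positivity
  refine h1.trans ?_
  have h2 : ∑ n ∈ Icc 1 x, (n.divisors.card : ℝ) = ∑ a ∈ Icc 1 x, ((x / a : ℕ) : ℝ) := by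
    have h3 : ∑ n ∈ Icc 1 x, (n.divisors.card : ℝ) = ∑ n ∈ Icc 1 x, ∑ a ∈ n.divisors, (1 : ℝ) := by
      apply sum_congr rfl
      intro n _
      rw [sum_const, nsmul_eq_mul, mul_one]
    have h4 : ∑ n ∈ Icc 1 x, ∑ a ∈ n.divisors, (1 : ℝ) =
        ∑ a ∈ Icc 1 x, ∑ n ∈ (Icc 1 x).filter (fun n => a ∣ n), (1 : ℝ) := by
      apply sum_comm'
      intro n a
      rw [mem_Icc, Nat.mem_divisors, mem_filter, mem_Icc, mem_Icc]
      constructor
      · rintro ⟨⟨h3, h4⟩, h5, h6⟩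
        refine ⟨⟨⟨h3, h4⟩, h5⟩, ?_, ?_⟩
        · exact Nat.pos_of_dvd_of_pos h5 (by omega)
        · exact (Nat.le_of_dvd (by omega) h5).trans h4
      · rintro ⟨⟨⟨h3, h4⟩, h5⟩, _, _⟩
        exact ⟨⟨h3, h4⟩, h5, by omega⟩
    rw [h3, h4]
    apply sum_congr rfl
    intro a ha
    rw [mem_Icc] at ha
    rw [sum_const, nsmul_eq_mul, mul_one]
    have h5 : (Icc 1 x).filter (fun n => a ∣ n) = (Ioc 0 x).filter (fun n => a ∣ n) := by
      congr 1
    rw [h5, Nat.Ioc_filter_dvd_card_eq_div]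
  rw [h2]
  calc ∑ a ∈ Icc 1 x, ((x / a : ℕ) : ℝ) ≤ ∑ a ∈ Icc 1 x, (x : ℝ) * (1 / (a : ℝ)) := by
        apply sum_le_sum
        intro a _
        have := Nat.cast_div_le (α := ℝ) (m := x) (n := a)
        rw [mul_one_div]
        exact this
    _ = x * ∑ a ∈ Icc 1 x, 1 / (a : ℝ) := by rw [mul_sum]
    _ ≤ _ := by
        apply mul_le_mul_of_nonneg_left _ (Nat.cast_nonneg _)
        have h7 := harmonic_le_one_add_log x
        rw [harmonic_eq_sum_Icc] at h7
        push_cast at h7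
        simpa [one_div] using h7

/-- the second moment, before the choice of the parameters -/
theorem second0 (P Q : ℤ) (v : ℤ × ℤ) (x K g : ℕ) (hg : 1 ≤ g) (hK : x ^ 5 ≤ 1024 * K) (Y : ℝ) (hY : 0 < Y)
    (G : Finset ℕ) (hG : ∀ p ∈ G, p ≤ x ∧ Gd P Q v p ∧ Y ≤ rk P Q p)
    (f : ℕ → ℤ → ℝ) (c : ℕ → ℝ) (hf : ∀ p ∈ G, EX p (f p) (c p) ((p - 1).divisors.card : ℝ)) :
    ∑ k ∈ range K, (∑ p ∈ G, (f p (lv P Q v k) - c p)) ^ 2 ≤
      K * (16 * ((x : ℝ) + 1) ^ 2 / g + (x * (1 + Real.log x)) ^ 2 * (x * (g / Y ^ 2)) +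
        8 * (x : ℝ) ^ 2 / Y + 12288 * x) := by
  classical
  have hG3 : ∀ p ∈ G, 3 ≤ p ∧ p ≤ x := by
    intro p hp
    obtain ⟨h1, h2, _⟩ := hG p hp
    have h3 := h2.pr.two_le
    have h4 := h2.two
    omega
  have hr : ∀ p ∈ G, 1 ≤ rk P Q p ∧ (rk P Q p ∣ p - 1 ∨ rk P Q p ∣ p + 1) := by
    intro p hp
    obtain ⟨h1, _, h3⟩ := rk_spec (hG p hp).2.1
    exact ⟨h1, h3⟩
  have hfc : ∀ p ∈ G, ∀ n, |f p n - c p| ≤ 2 := by
    intro p hp n
    obtain ⟨h1, h2, h3, _⟩ := hf p hp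
    have := h1 n
    rw [abs_le]
    constructor <;> linarith [this.1, this.2]
  have hcard : (G.card : ℝ) ≤ x := by
    have : G ⊆ Icc 1 x := by
      intro p hp
      have := hG3 p hp
      rw [mem_Icc]
      omega
    have := card_le_card this
    rw [Nat.card_Icc, Nat.add_sub_cancel] at this
    exact_mod_cast this
  have h1 : ∑ k ∈ range K, (∑ p ∈ G, (f p (lv P Q v k) - c p)) ^ 2 =
      ∑ z ∈ G ×ˢ G, ∑ k ∈ range K, (f z.1 (lv P Q v k) - c z.1) * (f z.2 (lv P Q v k) - c z.2) := by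
    rw [sum_comm]
    apply sum_congr rfl
    intro k _
    rw [sq, sum_mul_sum, sum_product]
  rw [h1, ← sum_filter_add_sum_filter_not (G ×ˢ G) (fun z => g < Nat.gcd (rk P Q z.1) (rk P Q z.2))]
  have hKr : (0 : ℝ) ≤ K := Nat.cast_nonneg _
  have hA : ∑ z ∈ (G ×ˢ G).filter (fun z => g < Nat.gcd (rk P Q z.1) (rk P Q z.2)),
      ∑ k ∈ range K, (f z.1 (lv P Q v k) - c z.1) * (f z.2 (lv P Q v k) - c z.2) ≤
      K * (16 * ((x : ℝ) + 1) ^ 2 / g) := by
    have h2 : ∀ z ∈ (G ×ˢ G).filter (fun z => g < Nat.gcd (rk P Q z.1) (rk P Q z.2)),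
      ∑ k ∈ range K, (f z.1 (lv P Q v k) - c z.1) * (f z.2 (lv P Q v k) - c z.2) ≤ K * 4 := by
      intro z hz
      rw [mem_filter, mem_product] at hz
      calc _ ≤ ∑ k ∈ range K, (4 : ℝ) := by
            apply sum_le_sum
            intro k _
            refine (le_abs_self _).trans ?_
            rw [abs_mul]
            have := mul_le_mul (hfc z.1 hz.1.1 (lv P Q v k)) (hfc z.2 hz.1.2 (lv P Q v k)) (abs_nonneg _)
              (by norm_num)
            linarith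
        _ = _ := by rw [sum_const, card_range, nsmul_eq_mul]
    refine (sum_le_sum h2).trans ?_
    rw [sum_const, nsmul_eq_mul]
    have h3 := pairs_gcd x g hg G (rk P Q) hG3 hr
    calc _ ≤ (4 * ((x : ℝ) + 1) ^ 2 / g) * (K * 4) := mul_le_mul_of_nonneg_right h3 (by positivity)
      _ = _ := by ring
  have hB : ∑ z ∈ (G ×ˢ G).filter (fun z => ¬ g < Nat.gcd (rk P Q z.1) (rk P Q z.2)),
      ∑ k ∈ range K, (f z.1 (lv P Q v k) - c z.1) * (f z.2 (lv P Q v k) - c z.2) ≤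
      K * ((x * (1 + Real.log x)) ^ 2 * (x * (g / Y ^ 2)) + 8 * (x : ℝ) ^ 2 / Y + 12288 * x) := by
    have hxr : (0 : ℝ) ≤ x := Nat.cast_nonneg _
    have h2 : ∀ z ∈ (G ×ˢ G).filter (fun z => ¬ g < Nat.gcd (rk P Q z.1) (rk P Q z.2)),
      ∑ k ∈ range K, (f z.1 (lv P Q v k) - c z.1) * (f z.2 (lv P Q v k) - c z.2) ≤
      K * (((z.1 - 1).divisors.card : ℝ) * ((z.2 - 1).divisors.card : ℝ) * (x * (g / Y ^ 2))) +
        (8 * K / Y + 12 * (x : ℝ) ^ 4) := by
      intro z hz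
      rw [mem_filter, mem_product] at hz
      obtain ⟨⟨hz1, hz2⟩, hz3⟩ := hz
      push Not at hz3
      obtain ⟨a1, a2, a3⟩ := hG z.1 hz1
      obtain ⟨b1, b2, b3⟩ := hG z.2 hz2
      have h3 := cov_le a2 b2 (hf z.1 hz1) (hf z.2 hz2) (Nat.cast_nonneg _) K
      refine (le_abs_self _).trans (h3.trans ?_)
      have a1r : (z.1 : ℝ) ≤ x := by exact_mod_cast a1
      have b1r : (z.2 : ℝ) ≤ x := by exact_mod_cast b1
      have hsq : Real.sqrt ((z.1 : ℝ) * z.2) ≤ x := by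
        rw [Real.sqrt_le_left hxr, sq]
        exact mul_le_mul a1r b1r (Nat.cast_nonneg _) hxr
      have hrp := (hr z.1 hz1).1
      have hrq := (hr z.2 hz2).1
      have hlcm : Y ^ 2 / g ≤ (Nat.lcm (rk P Q z.1) (rk P Q z.2) : ℝ) := by
        have e1 := Nat.gcd_mul_lcm (rk P Q z.1) (rk P Q z.2)
        have e2 : (Nat.gcd (rk P Q z.1) (rk P Q z.2) : ℝ) * (Nat.lcm (rk P Q z.1) (rk P Q z.2) : ℝ) =
            (rk P Q z.1 : ℝ) * (rk P Q z.2 : ℝ) := by exact_mod_cast e1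
        have e3 : (Nat.gcd (rk P Q z.1) (rk P Q z.2) : ℝ) ≤ g := by exact_mod_cast hz3
        have hg0 : (0 : ℝ) < g := by exact_mod_cast hg
        rw [div_le_iff₀ hg0]
        calc Y ^ 2 = Y * Y := sq Y
          _ ≤ (rk P Q z.1 : ℝ) * (rk P Q z.2 : ℝ) := mul_le_mul a3 b3 hY.le (Nat.cast_nonneg _)
          _ = _ := e2.symm
          _ ≤ g * (Nat.lcm (rk P Q z.1) (rk P Q z.2) : ℝ) :=
              mul_le_mul_of_nonneg_right e3 (Nat.cast_nonneg _)
          _ = _ := mul_comm _ _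
      have hg0 : (0 : ℝ) < g := by exact_mod_cast hg
      have hl0 : (0 : ℝ) < (Nat.lcm (rk P Q z.1) (rk P Q z.2) : ℝ) := by
        exact_mod_cast Nat.lcm_pos hrp hrq
      have h4 : ((z.1 - 1).divisors.card : ℝ) * ((z.2 - 1).divisors.card : ℝ) *
          Real.sqrt ((z.1 : ℝ) * z.2) / (Nat.lcm (rk P Q z.1) (rk P Q z.2) : ℝ) ≤
          ((z.1 - 1).divisors.card : ℝ) * ((z.2 - 1).divisors.card : ℝ) * (x * (g / Y ^ 2)) := by
        rw [mul_div_assoc]
        apply mul_le_mul_of_nonneg_left _ (by positivity)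
        rw [div_le_iff₀ hl0]
        have h5 : (1 : ℝ) ≤ g / Y ^ 2 * (Nat.lcm (rk P Q z.1) (rk P Q z.2) : ℝ) := by
          have : g / Y ^ 2 * (Y ^ 2 / g) = (1 : ℝ) := by field_simp
          rw [← this]
          exact mul_le_mul_of_nonneg_left hlcm (by positivity)
        calc Real.sqrt ((z.1 : ℝ) * z.2) ≤ x * 1 := by rw [mul_one]; exact hsq
          _ ≤ x * (g / Y ^ 2 * (Nat.lcm (rk P Q z.1) (rk P Q z.2) : ℝ)) :=
              mul_le_mul_of_nonneg_left h5 hxr
          _ = _ := by ring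
      have h6 : (K : ℝ) / rk P Q z.1 ≤ K / Y := div_le_div_of_nonneg_left hKr hY a3
      have h7 : (K : ℝ) / rk P Q z.2 ≤ K / Y := div_le_div_of_nonneg_left hKr hY b3
      have hx1 : (1 : ℝ) ≤ x := by
        have := hG3 z.1 hz1
        exact_mod_cast (by omega : 1 ≤ x)
      have h8 : 8 + 4 * ((z.1 : ℝ) ^ 2 * (z.2 : ℝ) ^ 2) ≤ 12 * (x : ℝ) ^ 4 := by
        have e1 : (z.1 : ℝ) ^ 2 ≤ x ^ 2 := pow_le_pow_left₀ (Nat.cast_nonneg _) a1r 2
        have e2 : (z.2 : ℝ) ^ 2 ≤ x ^ 2 := pow_le_pow_left₀ (Nat.cast_nonneg _) b1r 2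
        have e3 : (z.1 : ℝ) ^ 2 * (z.2 : ℝ) ^ 2 ≤ x ^ 2 * x ^ 2 := mul_le_mul e1 e2 (by positivity) (by positivity)
        have e4 : (1 : ℝ) ≤ (x : ℝ) ^ 4 := one_le_pow₀ hx1
        have e5 : (x : ℝ) ^ 2 * x ^ 2 = x ^ 4 := by ring
        linarith
      have h9 : 4 * ((K : ℝ) / rk P Q z.1 + K / rk P Q z.2) ≤ 8 * K / Y := by
        have : 8 * (K : ℝ) / Y = 8 * (K / Y) := by ring
        rw [this]
        linarith
      have h10 := mul_le_mul_of_nonneg_left h4 hKr
      linarith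
    refine (sum_le_sum h2).trans ?_
    have hterm0 : ∀ z : ℕ × ℕ, 0 ≤ (K : ℝ) * (((z.1 - 1).divisors.card : ℝ) *
        ((z.2 - 1).divisors.card : ℝ) * (x * (g / Y ^ 2))) + (8 * K / Y + 12 * (x : ℝ) ^ 4) := by
      intro z
      positivity
    refine (sum_le_sum_of_subset_of_nonneg (filter_subset _ _) (fun z _ _ => hterm0 z)).trans ?_
    rw [sum_add_distrib, sum_const, card_product, nsmul_eq_mul, ← mul_sum, ← sum_mul, sum_product]
    have h3 : ∑ p ∈ G, ∑ q ∈ G, ((p - 1).divisors.card : ℝ) * ((q - 1).divisors.card : ℝ) =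
        (∑ p ∈ G, ((p - 1).divisors.card : ℝ)) ^ 2 := by
      rw [sq, sum_mul_sum]
    simp only
    rw [h3]
    have h4 := sum_tau' x G hG3
    have h5 : (∑ p ∈ G, ((p - 1).divisors.card : ℝ)) ^ 2 ≤ (x * (1 + Real.log x)) ^ 2 :=
      pow_le_pow_left₀ (sum_nonneg fun _ _ => Nat.cast_nonneg _) h4 2
    have h6 : (K : ℝ) * ((∑ p ∈ G, ((p - 1).divisors.card : ℝ)) ^ 2 * (x * (g / Y ^ 2))) ≤
        K * ((x * (1 + Real.log x)) ^ 2 * (x * (g / Y ^ 2))) := by
      apply mul_le_mul_of_nonneg_left _ hKr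
      exact mul_le_mul_of_nonneg_right h5 (by positivity)
    have h7 : ((G.card * G.card : ℕ) : ℝ) * (8 * K / Y + 12 * (x : ℝ) ^ 4) ≤
        K * (8 * (x : ℝ) ^ 2 / Y + 12288 * x) := by
      have h8 : ((G.card * G.card : ℕ) : ℝ) ≤ (x : ℝ) ^ 2 := by
        push_cast
        rw [sq]
        exact mul_le_mul hcard hcard (Nat.cast_nonneg _) hxr
      have h9 : (x : ℝ) ^ 5 ≤ 1024 * K := by exact_mod_cast hK
      calc ((G.card * G.card : ℕ) : ℝ) * (8 * K / Y + 12 * (x : ℝ) ^ 4) ≤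
            (x : ℝ) ^ 2 * (8 * K / Y + 12 * (x : ℝ) ^ 4) :=
            mul_le_mul_of_nonneg_right h8 (by positivity)
        _ = K * (8 * (x : ℝ) ^ 2 / Y) + 12 * x * (x : ℝ) ^ 5 := by ring
        _ ≤ K * (8 * (x : ℝ) ^ 2 / Y) + 12 * x * (1024 * K) := by
            have := mul_le_mul_of_nonneg_left h9 (by positivity : (0 : ℝ) ≤ 12 * x)
            linarith
        _ = _ := by ring
    linarith
  calc _ ≤ K * (16 * ((x : ℝ) + 1) ^ 2 / g) +
        K * ((x * (1 + Real.log x)) ^ 2 * (x * (g / Y ^ 2)) + 8 * (x : ℝ) ^ 2 / Y + 12288 * x) := add_le_add hA hB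
    _ = _ := by ring

end Run7.h293
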