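import Pool.Agent.N907.EG.Cof
import Pool.Agent.N907.EG.MV

set_option autoImplicit false

/-! # Smooth integers: Rankin's bound -/

namespace Run7.h293.Sm

open Finset

/-- powers as a homomorphism -/
noncomputable def powHom (σ : ℝ) : ℕ →* ℝ where
  toFun n := (n : ℝ) ^ (-σ)
  map_one' := by simp
  map_mul' a b := by
    push_cast
    exact Real.mul_rpow (Nat.cast_nonneg _) (Nat.cast_nonneg _)

lemma powHom_apply (σ : ℝ) (n : ℕ) : powHom σ n = (n : ℝ) ^ (-σ) := rfl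

lemma fac (x : ℝ) (h0 : 0 ≤ x) (h1 : x ≤ 3 / 5) : (1 - x)⁻¹ ≤ Real.exp (x + 5 / 2 * x ^ 2) := by
  have h2 : 0 < 1 - x := by linarith
  have h3 : (1 - x)⁻¹ = 1 + x / (1 - x) := by field_simp; ring
  have h4 : x / (1 - x) ≤ x + 5 / 2 * x ^ 2 := by
    rw [div_le_iff₀ h2]
    have : 0 ≤ x ^ 2 * (3 / 5 - x) := mul_nonneg (sq_nonneg _) (by linarith)
    nlinarith
  rw [h3]
  have h5 := Real.add_one_le_exp (x / (1 - x))
  calc 1 + x / (1 - x) ≤ Real.exp (x / (1 - x)) := by linarith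
    _ ≤ _ := Real.exp_le_exp.2 h4

lemma two_pow : (2 : ℝ) ^ (-(3 / 4) : ℝ) ≤ 3 / 5 := by
  rw [Real.rpow_neg (by norm_num)]
  have h1 : (5 / 3 : ℝ) ≤ 2 ^ (3 / 4 : ℝ) := by
    have h2 : ((2 : ℝ) ^ (3 / 4 : ℝ)) ^ 4 = 8 := by
      rw [← Real.rpow_natCast, ← Real.rpow_mul (by norm_num)]
      norm_num
    have h3 : (5 / 3 : ℝ) ^ 4 ≤ ((2 : ℝ) ^ (3 / 4 : ℝ)) ^ 4 := by
      rw [h2]
      norm_num
    exact le_of_pow_le_pow_left₀ (by norm_num) (by positivity) h3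
  calc ((2 : ℝ) ^ (3 / 4 : ℝ))⁻¹ ≤ (5 / 3 : ℝ)⁻¹ := inv_anti₀ (by norm_num) h1
    _ = 3 / 5 := by norm_num

/-- the number of smooth integers -/
theorem smooth : ∃ C : ℝ, 0 < C ∧ ∀ z N : ℕ, 4 ≤ Real.log z → 1 ≤ N → ∀ S : Finset ℕ,
    (∀ n ∈ S, (1 ≤ n ∧ n ≤ N) ∧ ∀ p : ℕ, p.Prime → p ∣ n → p ≤ z) → (S.card : ℝ) ≤
      C * N * Real.exp (-(Real.log N / Real.log z)) * Real.log z ^ 3 := by
  obtain ⟨C₁, hC₁⟩ := Pool.Agent.Erdos456.Mert.mertens_inv
  have hC0 : 0 ≤ C₁ := (abs_nonneg _).trans (hC₁ 3 le_rfl)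
  refine ⟨Real.exp (3 * C₁ + 45), Real.exp_pos _, fun z N hz hN S hS => ?_⟩
  have hz3 : 3 ≤ z := by
    by_contra hcon
    push Not at hcon
    have h1 : Real.log z ≤ 2 := by
      have h2 : (z : ℝ) ≤ 2 := by exact_mod_cast (by omega : z ≤ 2)
      rcases Nat.eq_zero_or_pos z with h | h
      · rw [h]; simp
      · have := Real.log_le_sub_one_of_pos (x := (z : ℝ)) (by exact_mod_cast h)
        linarith
    linarith
  have hz0 : (0 : ℝ) < z := by exact_mod_cast (by omega : 0 < z)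
  have hN0 : (0 : ℝ) < N := by exact_mod_cast hN
  have hlz : 0 < Real.log z := by linarith
  obtain ⟨σ, hσ⟩ : ∃ σ : ℝ, σ = 1 - 1 / Real.log z := ⟨_, rfl⟩
  have hσ1 : 3 / 4 ≤ σ := by
    rw [hσ]
    have : 1 / Real.log z ≤ 1 / 4 := one_div_le_one_div_of_le (by norm_num) hz
    linarith
  -- values at the primes
  have hval : ∀ p : ℕ, p.Prime → p ≤ z → powHom σ p ≤ 3 / p := by
    intro p hp hpz
    have hp0 : (0 : ℝ) < p := by exact_mod_cast hp.pos
    rw [powHom_apply, hσ]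
    have e1 : (p : ℝ) ^ (-(1 - 1 / Real.log z)) = (p : ℝ) ^ (-1 : ℝ) * (p : ℝ) ^ (1 / Real.log z) := by
      rw [← Real.rpow_add hp0]
      congr 1
      ring
    rw [e1, Real.rpow_neg_one]
    have e2 : (p : ℝ) ^ (1 / Real.log z) ≤ 3 := by
      rw [Real.rpow_def_of_pos hp0]
      have h1 : Real.log p * (1 / Real.log z) ≤ 1 := by
        rw [mul_one_div, div_le_one hlz]
        exact Real.log_le_log hp0 (by exact_mod_cast hpz)
      have h2 := Real.exp_le_exp.2 h1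
      linarith [Real.exp_one_lt_d9]
    calc (p : ℝ)⁻¹ * (p : ℝ) ^ (1 / Real.log z) ≤ (p : ℝ)⁻¹ * 3 :=
          mul_le_mul_of_nonneg_left e2 (by positivity)
      _ = _ := by rw [mul_comm, div_eq_mul_inv]
  have hval1 : ∀ p : ℕ, p.Prime → powHom σ p ≤ 3 / 5 := by
    intro p hp
    have hp2 : (2 : ℝ) ≤ p := by exact_mod_cast hp.two_le
    rw [powHom_apply]
    calc (p : ℝ) ^ (-σ) ≤ (p : ℝ) ^ (-(3 / 4) : ℝ) :=
          Real.rpow_le_rpow_of_exponent_le (by linarith) (by linarith)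
      _ ≤ (2 : ℝ) ^ (-(3 / 4) : ℝ) := Real.rpow_le_rpow_of_nonpos (by norm_num) hp2 (by norm_num)
      _ ≤ 3 / 5 := two_pow
  have hval0 : ∀ p : ℕ, 0 ≤ powHom σ p := by
    intro p
    rw [powHom_apply]
    positivity
  have hlt : ∀ {p : ℕ}, p.Prime → ‖powHom σ p‖ < 1 := by
    intro p hp
    rw [Real.norm_eq_abs, abs_of_nonneg (hval0 p)]
    have := hval1 p hp
    linarith
  have hE := (EulerProduct.summable_and_hasSum_factoredNumbers_prod_filter_prime_geometric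
    (f := powHom σ) hlt (Icc 1 z)).2
  have h1 : ∑ n ∈ S, powHom σ n ≤ ∏ p ∈ Icc 1 z with p.Prime, (1 - powHom σ p)⁻¹ := by
    have hmem : ∀ D ∈ S, D ∈ Nat.factoredNumbers (Icc 1 z) := by
      intro D hD
      have hD := hS D hD
      rw [Nat.mem_factoredNumbers_iff_forall_le]
      refine ⟨by omega, fun p hp1 hp2 hp3 => ?_⟩
      rw [mem_Icc]
      exact ⟨hp2.one_lt.le, hD.2 p hp2 hp3⟩
    have h2 := Finset.sum_subtype_of_mem (fun D : ℕ => powHom σ D) hmem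
    rw [← h2]
    exact sum_le_hasSum _ (fun j _ => hval0 _) hE
  have h2 : ∏ p ∈ Icc 1 z with p.Prime, (1 - powHom σ p)⁻¹ ≤
      Real.exp (∑ p ∈ Icc 1 z with p.Prime, (3 * (1 / (p : ℝ)) + 45 / 2 * ((p : ℝ)⁻¹) ^ 2)) := by
    rw [Real.exp_sum]
    apply Finset.prod_le_prod
    · intro p hp
      rw [mem_filter] at hp
      have := hval1 p hp.2
      exact inv_nonneg.2 (by linarith)
    · intro p hp
      rw [mem_filter, mem_Icc] at hp
      refine (fac _ (hval0 p) (hval1 p hp.2)).trans (Real.exp_le_exp.2 ?_)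
      have h3 := hval p hp.2 hp.1.2
      have h4 : powHom σ p ^ 2 ≤ (3 / (p : ℝ)) ^ 2 := pow_le_pow_left₀ (hval0 p) h3 2
      have h5 : (3 / (p : ℝ)) ^ 2 = 9 * ((p : ℝ)⁻¹) ^ 2 := by
        rw [div_eq_mul_inv]
        ring
      have h6 : 3 / (p : ℝ) = 3 * (1 / p) := by ring
      rw [h5] at h4
      rw [h6] at h3
      linarith
  have h3 : ∑ p ∈ Icc 1 z with p.Prime, (3 * (1 / (p : ℝ)) + 45 / 2 * ((p : ℝ)⁻¹) ^ 2) ≤
      3 * Real.log (Real.log z) + (3 * C₁ + 45) := by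
    rw [sum_add_distrib, ← mul_sum, ← mul_sum]
    have h4 := (abs_le.1 (hC₁ z hz3)).2
    have h5 : ∑ p ∈ Icc 1 z with p.Prime, ((p : ℝ)⁻¹) ^ 2 ≤ 2 := by
      apply Pool.Agent.Erdos456.sum_inv_sq_le
      intro p hp
      rw [mem_filter] at hp
      exact hp.2.one_lt.le
    linarith
  have h4 : (S.card : ℝ) ≤ (N : ℝ) ^ σ * ∑ n ∈ S, powHom σ n := by
    rw [mul_sum, ← nsmul_one, ← sum_const]
    apply sum_le_sum
    intro n hn
    have hn := hS n hn
    have hn0 : (0 : ℝ) < n := by exact_mod_cast hn.1.1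
    have hnN : (n : ℝ) ≤ N := by exact_mod_cast hn.1.2
    rw [powHom_apply, Real.rpow_neg hn0.le, ← div_eq_mul_inv, one_le_div (by positivity)]
    exact Real.rpow_le_rpow hn0.le hnN (by linarith)
  have h5 : (N : ℝ) ^ σ = N * Real.exp (-(Real.log N / Real.log z)) := by
    rw [hσ, Real.rpow_def_of_pos hN0]
    have : Real.log N * (1 - 1 / Real.log z) = Real.log N + -(Real.log N / Real.log z) := by ring
    rw [this, Real.exp_add, Real.exp_log hN0]
  have h6 : ∑ n ∈ S, powHom σ n ≤ Real.exp (3 * C₁ + 45) * Real.log z ^ 3 := by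
    refine (h1.trans h2).trans ((Real.exp_le_exp.2 h3).trans (le_of_eq ?_))
    have : Real.log z ^ 3 = Real.exp (3 * Real.log (Real.log z)) := by
      rw [mul_comm, Real.exp_mul, Real.exp_log hlz]
      norm_num
    rw [this, ← Real.exp_add]
    congr 1
    ring
  rw [h5] at h4
  refine h4.trans ?_
  calc N * Real.exp (-(Real.log N / Real.log z)) * ∑ n ∈ S, powHom σ n ≤
        N * Real.exp (-(Real.log N / Real.log z)) * (Real.exp (3 * C₁ + 45) * Real.log z ^ 3) :=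
        mul_le_mul_of_nonneg_left h6 (by positivity)
    _ = _ := by ring

end Run7.h293.Sm
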