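import Pool.Agent.Run7.h293.Smo

set_option autoImplicit false

/-! # Sums of multiplicative weights over integers with a divisor in a short interval -/

namespace Run7.h293.Wt

open Finset Pool.Agent.N907.EG.MV
open Pool.Agent.Erdos456 (GG GG_eq_prod)

/-- the local weight -/
noncomputable def ga (q : ℕ) : ℝ := ((1 - (q : ℝ)⁻¹)⁻¹) ^ 2

lemma ga_nonneg (q : ℕ) : 0 ≤ ga q := sq_nonneg _

lemma ga_le (q : ℕ) : ga q ≤ 4 := by
  unfold ga
  rcases Nat.lt_or_ge q 2 with h | h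
  · interval_cases q
    · norm_num
    · norm_num
  · have h2 : (2 : ℝ) ≤ q := by exact_mod_cast h
    have h3 : (q : ℝ)⁻¹ ≤ 2⁻¹ := inv_anti₀ (by norm_num) h2
    have h4 : (1 - (q : ℝ)⁻¹)⁻¹ ≤ 2 := by
      rw [inv_le_comm₀ (by linarith) (by norm_num)]
      linarith
    have h5 : 0 ≤ (1 - (q : ℝ)⁻¹)⁻¹ := inv_nonneg.2 (by linarith)
    nlinarith

lemma ga_prime {p : ℕ} (hp : p.Prime) : ga p ≤ 1 + 8 / p := by
  unfold ga
  have h2 : (2 : ℝ) ≤ p := by exact_mod_cast hp.two_le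
  have h0 : (0 : ℝ) < p := by linarith
  have h1 : (1 - (p : ℝ)⁻¹)⁻¹ = p / (p - 1) := by
    have : (p : ℝ) - 1 ≠ 0 := by linarith
    rw [inv_eq_one_div, div_eq_div_iff]
    · field_simp
    · have : (p : ℝ)⁻¹ ≤ 2⁻¹ := inv_anti₀ (by norm_num) h2
      linarith
    · exact this
  rw [h1, div_pow, div_le_iff₀ (by nlinarith)]
  have h3 : (1 + 8 / (p : ℝ)) * (p - 1) ^ 2 = (p - 1) ^ 2 + 8 * (p - 1) ^ 2 / p := by ring
  rw [h3]
  have h4 : 2 * (p : ℝ) - 1 ≤ 8 * (p - 1) ^ 2 / p := by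
    rw [le_div_iff₀ h0]
    nlinarith
  nlinarith

lemma GG_sq {m : ℕ} (hm : 0 < m) : GG m ^ 2 = ff ga m := by
  rw [GG_eq_prod hm, ← prod_pow]
  rfl

lemma ff_smul (c : ℝ) (m : ℕ) : ff (fun q => c * ga q) m = c ^ m.primeFactors.card * ff ga m := by
  unfold ff
  rw [prod_mul_distrib, prod_const]

/-- harmonic sums of the weights -/
theorem harm : ∃ C : ℝ, 0 < C ∧ ∀ (g : ℕ → ℝ) (c : ℝ) (E : ℝ), 0 ≤ c → c ≤ 2 → (∀ q, 0 ≤ g q) →
    (∀ q, g q ≤ 8) → ∀ Y : ℕ, 3 ≤ Y →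
    (∑ p ∈ (Icc 1 Y).filter Nat.Prime, g p / p ≤ ∑ p ∈ (Icc 1 Y).filter Nat.Prime, c * ga p / p + E) →
    ∑ m ∈ Icc 1 Y, ff g m / m ≤ C * Real.exp (c * Real.log (Real.log Y)) * Real.exp E := by
  obtain ⟨C₁, hC₁⟩ := Pool.Agent.Erdos456.Mert.mertens_inv
  have hC0 : 0 ≤ C₁ := (abs_nonneg _).trans (hC₁ 3 le_rfl)
  refine ⟨Real.exp (2 * C₁ + 40), Real.exp_pos _, fun g c E hc0 hc2 hg0 hg8 Y hY hgc => ?_⟩
  have h1 := (sum_div_le hg0 Y).trans (prod_le_exp (F0 := 8) (by norm_num) hg0 hg8 Y)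
  refine h1.trans ?_
  rw [← Real.exp_add, ← Real.exp_add]
  apply Real.exp_le_exp.2
  have h2 : ∑ p ∈ (Icc 1 Y).filter Nat.Prime, c * ga p / (p : ℝ) ≤
      c * ∑ p ∈ (Icc 1 Y).filter Nat.Prime, (1 : ℝ) / p +
      16 * ∑ p ∈ (Icc 1 Y).filter Nat.Prime, ((p : ℝ)⁻¹) ^ 2 := by
    rw [mul_sum, mul_sum, ← sum_add_distrib]
    apply sum_le_sum
    intro p hp
    rw [mem_filter] at hp
    have hp0 : (0 : ℝ) < p := by exact_mod_cast hp.2.pos
    have h3 := ga_prime hp.2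
    have h4 : c * ga p / p ≤ c * (1 + 8 / p) / p := by gcongr
    refine h4.trans ?_
    have h5 : c * (1 + 8 / (p : ℝ)) / p = c * (1 / p) + (8 * c) * ((p : ℝ)⁻¹) ^ 2 := by
      field_simp
    rw [h5]
    have : 0 ≤ ((p : ℝ)⁻¹) ^ 2 := sq_nonneg _
    nlinarith
  have h3 : ∑ p ∈ (Icc 1 Y).filter Nat.Prime, ((p : ℝ)⁻¹) ^ 2 ≤ 2 := by
    apply Pool.Agent.Erdos456.sum_inv_sq_le
    intro p hp
    rw [mem_filter] at hp
    exact hp.2.one_lt.le
  have h4 := (abs_le.1 (hC₁ Y hY)).2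
  have h5 : c * ∑ p ∈ (Icc 1 Y).filter Nat.Prime, (1 : ℝ) / p ≤ c * (Real.log (Real.log Y) + C₁) :=
    mul_le_mul_of_nonneg_left (by linarith) hc0
  nlinarith

/-- the weight with the primes of `d` made trivial -/
noncomputable def gd (d q : ℕ) : ℝ := if q ∣ d then 1 else 1 / 2 * ga q

/-- the third weight -/
noncomputable def g3 (q : ℕ) : ℝ := 1 / 2 * ga q * Real.exp (1 / q)

lemma gd_nonneg (d q : ℕ) : 0 ≤ gd d q := by
  unfold gd
  split_ifs
  · norm_num
  · have := ga_nonneg q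
    positivity

lemma gd_le (d q : ℕ) : gd d q ≤ 8 := by
  unfold gd
  split_ifs
  · norm_num
  · have := ga_le q
    linarith

lemma g3_nonneg (q : ℕ) : 0 ≤ g3 q := by
  unfold g3
  have := ga_nonneg q
  positivity

lemma exp_inv_le {q : ℕ} (hq : 1 ≤ q) : Real.exp (1 / (q : ℝ)) ≤ 1 + 2 / q := by
  have hq1 : (1 : ℝ) ≤ q := by exact_mod_cast hq
  have hq0 : (0 : ℝ) < q := by linarith
  obtain ⟨t, ht⟩ : ∃ t : ℝ, t = 1 / q := ⟨_, rfl⟩
  have ht0 : 0 ≤ t := by rw [ht]; positivity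
  have ht1 : t ≤ 1 := by rw [ht, div_le_one hq0]; exact hq1
  have h1 : 2 / (q : ℝ) = 2 * t := by rw [ht]; ring
  rw [h1, ← ht]
  have h2 := Real.abs_exp_sub_one_sub_id_le (x := t) (by rw [abs_of_nonneg ht0]; exact ht1)
  have h3 := (abs_le.1 h2).2
  nlinarith

lemma g3_le (q : ℕ) : g3 q ≤ 8 := by
  unfold g3
  have h1 := ga_le q
  have h0 := ga_nonneg q
  have h2 : Real.exp (1 / (q : ℝ)) ≤ 3 := by
    rcases Nat.eq_zero_or_pos q with h | h
    · rw [h]
      simp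
    · have h3 := exp_inv_le h
      have h4 : 2 / (q : ℝ) ≤ 2 := by
        rw [div_le_iff₀ (by exact_mod_cast h)]
        have : (1 : ℝ) ≤ q := by exact_mod_cast h
        linarith
      linarith
  have h5 : 0 ≤ Real.exp (1 / (q : ℝ)) := (Real.exp_pos _).le
  have h6 : 1 / 2 * ga q * Real.exp (1 / (q : ℝ)) ≤ 2 * 3 :=
    mul_le_mul (by linarith) h2 h5 (by norm_num)
  linarith

/-- the weight of a product -/
lemma ff_prod (d e : ℕ) (hd : d ≠ 0) (he : e ≠ 0) :
    ff (fun q => 1 / 2 * ga q) (d * e) = ff (fun q => 1 / 2 * ga q) d * ff (gd d) e := by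
  classical
  unfold ff
  rw [Nat.primeFactors_mul hd he]
  have h1 : d.primeFactors ∪ e.primeFactors = d.primeFactors ∪ (e.primeFactors \ d.primeFactors) := by
    rw [union_sdiff_self_eq_union]
  rw [h1, prod_union disjoint_sdiff]
  congr 1
  rw [← prod_sdiff (inter_subset_left : e.primeFactors ∩ d.primeFactors ⊆ e.primeFactors)]
  have h2 : ∏ x ∈ e.primeFactors ∩ d.primeFactors, gd d x = 1 := by
    apply prod_eq_one
    intro q hq
    rw [mem_inter] at hq
    unfold gd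
    rw [if_pos (Nat.dvd_of_mem_primeFactors hq.2)]
  rw [h2, mul_one, sdiff_inter_self_left]
  apply prod_congr rfl
  intro q hq
  rw [mem_sdiff] at hq
  unfold gd
  rw [if_neg]
  intro h3
  exact hq.2 (Nat.mem_primeFactors.2 ⟨Nat.prime_of_mem_primeFactors hq.1, h3, hd⟩)

/-- the sum over the multiples of `d` -/
theorem mult : ∃ C : ℝ, 0 < C ∧ ∀ d Y : ℕ, 1 ≤ d → 3 ≤ Y →
    ∑ e ∈ Icc 1 Y, ff (fun q => 1 / 2 * ga q) (d * e) / ((d * e : ℕ) : ℝ) ≤
      C * Real.exp (1 / 2 * Real.log (Real.log Y)) * (ff g3 d / d) := by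
  obtain ⟨C, hC, h⟩ := harm
  refine ⟨C, hC, fun d Y hd hY => ?_⟩
  have hd0 : (0 : ℝ) < d := by exact_mod_cast hd
  have h1 := h (gd d) (1 / 2) (∑ p ∈ d.primeFactors, (1 : ℝ) / p) (by norm_num) (by norm_num)
    (gd_nonneg d) (gd_le d) Y hY (by
      have h2 : ∀ p ∈ (Icc 1 Y).filter Nat.Prime, gd d p / (p : ℝ) ≤
          1 / 2 * ga p / p + (if p ∣ d then (1 : ℝ) / p else 0) := by
        intro p hp
        rw [mem_filter] at hp
        have hp0 : (0 : ℝ) < p := by exact_mod_cast hp.2.pos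
        have h3 := ga_nonneg p
        unfold gd
        split_ifs
        · have : 0 ≤ 1 / 2 * ga p / p := by positivity
          linarith
        · linarith
      refine (sum_le_sum h2).trans ?_
      rw [sum_add_distrib]
      apply add_le_add le_rfl
      rw [← sum_filter]
      apply sum_le_sum_of_subset_of_nonneg
      · intro p hp
        rw [mem_filter, mem_filter] at hp
        exact Nat.mem_primeFactors.2 ⟨hp.1.2, hp.2, by omega⟩
      · intro p _ _
        positivity)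
  have h2 : ∀ e ∈ Icc 1 Y, ff (fun q => 1 / 2 * ga q) (d * e) / ((d * e : ℕ) : ℝ) =
      (ff (fun q => 1 / 2 * ga q) d / d) * (ff (gd d) e / e) := by
    intro e he
    rw [mem_Icc] at he
    rw [ff_prod d e (by omega) (by omega)]
    push_cast
    rw [mul_div_mul_comm]
  rw [sum_congr rfl h2, ← mul_sum]
  have h3 : 0 ≤ ff (fun q => 1 / 2 * ga q) d / d :=
    div_nonneg (ff_nonneg (fun q => by have := ga_nonneg q; positivity) d) hd0.le
  refine (mul_le_mul_of_nonneg_left h1 h3).trans (le_of_eq ?_)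
  have h4 : ff g3 d = ff (fun q => 1 / 2 * ga q) d * Real.exp (∑ p ∈ d.primeFactors, (1 : ℝ) / p) := by
    unfold ff g3
    rw [prod_mul_distrib, Real.exp_sum]
  rw [h4]
  ring

/-- mean value of the third weight -/
theorem mean3 : ∃ C : ℝ, 0 < C ∧ ∀ Y : ℕ, 3 ≤ Y →
    ∑ m ∈ Icc 1 Y, ff g3 m ≤ C * Y * Real.exp (-(1 / 2 * Real.log (Real.log Y))) := by
  obtain ⟨C, hC, h⟩ := Pool.Agent.N907.EG.s_mv 8 (by norm_num)
  obtain ⟨C₁, hC₁⟩ := Pool.Agent.Erdos456.Mert.mertens_inv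
  have hC0 : 0 ≤ C₁ := (abs_nonneg _).trans (hC₁ 3 le_rfl)
  refine ⟨C * Real.exp (C₁ + 26), by positivity, fun Y hY => ?_⟩
  have h1 := h g3 g3_nonneg g3_le Y (by omega)
  refine h1.trans ?_
  have h2 : ∑ q ∈ (Icc 1 Y).filter Nat.Prime, (g3 q - 1) / (q : ℝ) ≤
      -(1 / 2) * ∑ p ∈ (Icc 1 Y).filter Nat.Prime, (1 : ℝ) / p +
      13 * ∑ p ∈ (Icc 1 Y).filter Nat.Prime, ((p : ℝ)⁻¹) ^ 2 := by
    rw [mul_sum, mul_sum, ← sum_add_distrib]
    apply sum_le_sum
    intro p hp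
    rw [mem_filter] at hp
    have hp1 : (1 : ℝ) ≤ p := by exact_mod_cast hp.2.one_lt.le
    have hp0 : (0 : ℝ) < p := by linarith
    have h3 := ga_prime hp.2
    have h4 := exp_inv_le hp.2.one_lt.le
    obtain ⟨t, ht⟩ : ∃ t : ℝ, t = (p : ℝ)⁻¹ := ⟨_, rfl⟩
    have ht0 : 0 < t := by rw [ht]; positivity
    have ht1 : t ≤ 1 := by rw [ht]; exact inv_le_one_of_one_le₀ hp1
    rw [div_eq_mul_inv, ← ht] at h3
    rw [div_eq_mul_inv (2 : ℝ), ← ht] at h4
    have h5 : g3 p ≤ 1 / 2 * (1 + 8 * t) * (1 + 2 * t) := by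
      unfold g3
      exact mul_le_mul (by linarith) h4 (Real.exp_pos _).le (by positivity)
    have h6 : 1 / 2 * (1 + 8 * t) * (1 + 2 * t) ≤ 1 / 2 + 13 * t := by nlinarith
    rw [div_eq_mul_inv, div_eq_mul_inv, ← ht]
    have h7 : (g3 p - 1) * t ≤ (1 / 2 + 13 * t - 1) * t :=
      mul_le_mul_of_nonneg_right (by linarith) ht0.le
    refine h7.trans (le_of_eq ?_)
    rw [one_div (p : ℝ), ← ht]
    ring
  have h3 : ∑ p ∈ (Icc 1 Y).filter Nat.Prime, ((p : ℝ)⁻¹) ^ 2 ≤ 2 := by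
    apply Pool.Agent.Erdos456.sum_inv_sq_le
    intro p hp
    rw [mem_filter] at hp
    exact hp.2.one_lt.le
  have h4 := (abs_le.1 (hC₁ Y hY)).1
  have h5 : ∑ q ∈ (Icc 1 Y).filter Nat.Prime, (g3 q - 1) / (q : ℝ) ≤
      (C₁ + 26) + -(1 / 2 * Real.log (Real.log Y)) := by linarith
  have h6 := Real.exp_le_exp.2 h5
  rw [Real.exp_add] at h6
  have hY0 : (0 : ℝ) ≤ Y := Nat.cast_nonneg _
  calc C * Y * Real.exp (∑ q ∈ (Icc 1 Y).filter Nat.Prime, (g3 q - 1) / (q : ℝ)) ≤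
        C * Y * (Real.exp (C₁ + 26) * Real.exp (-(1 / 2 * Real.log (Real.log Y)))) :=
        mul_le_mul_of_nonneg_left h6 (by positivity)
    _ = _ := by ring

/-- the weight of a short multiplicative interval -/
theorem narrow : ∃ C : ℝ, 0 < C ∧ ∀ a b : ℝ, 3 ≤ a → a ≤ b → ∀ S : Finset ℕ,
    (∀ d ∈ S, a ≤ (d : ℝ) ∧ (d : ℝ) ≤ b) →
    ∑ d ∈ S, ff g3 d / d ≤ C * (Real.log b - Real.log a + 1) *
      Real.exp (-(1 / 2 * Real.log (Real.log a))) := by
  classical
  obtain ⟨C, hC, h⟩ := mean3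
  refine ⟨4 * C, by positivity, fun a b ha hab S hS => ?_⟩
  have ha0 : 0 < a := by linarith
  have hb0 : 0 < b := by linarith
  have hl2 := Real.log_two_gt_d9
  have hl20 : 0 < Real.log 2 := by linarith
  have hla : 1 < Real.log a := by
    rw [Real.lt_log_iff_exp_lt ha0]
    linarith [Real.exp_one_lt_d9]
  obtain ⟨I, hI⟩ : ∃ I, I = S.image (fun d => Nat.log 2 d) := ⟨_, rfl⟩
  have hfib : ∑ d ∈ S, ff g3 d / (d : ℝ) = ∑ i ∈ I, ∑ d ∈ S.filter (fun d => Nat.log 2 d = i), ff g3 d / (d : ℝ) := by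
    rw [sum_fiberwise_of_maps_to]
    intro d hd
    rw [hI]
    exact mem_image_of_mem _ hd
  have hSd : ∀ d ∈ S, 1 ≤ d := by
    intro d hd
    have := (hS d hd).1
    have h1 : (1 : ℝ) ≤ d := by linarith
    exact_mod_cast h1
  have hterm : ∀ i ∈ I, ∑ d ∈ S.filter (fun d => Nat.log 2 d = i), ff g3 d / (d : ℝ) ≤
      2 * C * Real.exp (-(1 / 2 * Real.log (Real.log a))) := by
    intro i hi
    have h2i : (0 : ℝ) < 2 ^ i := by positivity
    rw [hI, mem_image] at hi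
    obtain ⟨d₀, hd₀, hi₀⟩ := hi
    have hlt : d₀ < 2 ^ (i + 1) := by
      rw [← hi₀]
      exact Nat.lt_pow_succ_log_self (by norm_num) d₀
    have haY : a ≤ ((2 ^ (i + 1) : ℕ) : ℝ) := by
      have h1 : (d₀ : ℝ) ≤ ((2 ^ (i + 1) : ℕ) : ℝ) := by exact_mod_cast hlt.le
      exact (hS d₀ hd₀).1.trans h1
    have hY3 : 3 ≤ 2 ^ (i + 1) := by
      have : (3 : ℝ) ≤ ((2 ^ (i + 1) : ℕ) : ℝ) := ha.trans haY
      exact_mod_cast this
    have h1 := h (2 ^ (i + 1)) hY3
    have h2 : ∑ d ∈ S.filter (fun d => Nat.log 2 d = i), ff g3 d / (d : ℝ) ≤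
        (1 / 2 ^ i) * ∑ m ∈ Icc 1 (2 ^ (i + 1)), ff g3 m := by
      rw [mul_sum]
      calc _ ≤ ∑ d ∈ S.filter (fun d => Nat.log 2 d = i), 1 / 2 ^ i * ff g3 d := by
            apply sum_le_sum
            intro d hd
            rw [mem_filter] at hd
            have h3 : 2 ^ i ≤ d := by
              rw [← hd.2]
              exact Nat.pow_log_le_self 2 (by have := hSd d hd.1; omega)
            have h4 : (2 : ℝ) ^ i ≤ d := by exact_mod_cast h3
            rw [div_eq_mul_one_div, mul_comm]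
            apply mul_le_mul_of_nonneg_right _ (ff_nonneg g3_nonneg d)
            exact one_div_le_one_div_of_le h2i h4
        _ ≤ _ := by
            apply sum_le_sum_of_subset_of_nonneg
            · intro d hd
              rw [mem_filter] at hd
              rw [mem_Icc]
              refine ⟨hSd d hd.1, ?_⟩
              have := Nat.lt_pow_succ_log_self (b := 2) (by norm_num) d
              rw [hd.2] at this
              exact this.le
            · intro d _ _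
              exact mul_nonneg (by positivity) (ff_nonneg g3_nonneg d)
    refine h2.trans ((mul_le_mul_of_nonneg_left h1 (by positivity)).trans ?_)
    have h3 : Real.exp (-(1 / 2 * Real.log (Real.log ((2 ^ (i + 1) : ℕ) : ℝ)))) ≤
        Real.exp (-(1 / 2 * Real.log (Real.log a))) := by
      apply Real.exp_le_exp.2
      have h4 : Real.log (Real.log a) ≤ Real.log (Real.log ((2 ^ (i + 1) : ℕ) : ℝ)) := by
        apply Real.log_le_log (by linarith)
        exact Real.log_le_log ha0 haY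
      linarith
    have h4 : (1 : ℝ) / 2 ^ i * (C * ((2 ^ (i + 1) : ℕ) : ℝ) *
        Real.exp (-(1 / 2 * Real.log (Real.log ((2 ^ (i + 1) : ℕ) : ℝ))))) =
        2 * C * Real.exp (-(1 / 2 * Real.log (Real.log ((2 ^ (i + 1) : ℕ) : ℝ)))) := by
      push_cast
      rw [pow_succ]
      field_simp
    rw [h4]
    exact mul_le_mul_of_nonneg_left h3 (by positivity)
  rw [hfib]
  refine (sum_le_sum hterm).trans ?_
  rw [sum_const, nsmul_eq_mul]
  have hlab : Real.log a ≤ Real.log b := Real.log_le_log ha0 hab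
  have hcard : (I.card : ℝ) ≤ 2 * (Real.log b - Real.log a + 1) := by
    have h1 : I ⊆ Icc ⌊Real.log a / Real.log 2⌋₊ ⌊Real.log b / Real.log 2⌋₊ := by
      intro i hi
      rw [hI, mem_image] at hi
      obtain ⟨d, hd, rfl⟩ := hi
      have hd1 := hSd d hd
      have hd0 : (0 : ℝ) < d := by exact_mod_cast hd1
      obtain ⟨e1, e2⟩ := hS d hd
      rw [mem_Icc]
      constructor
      · have h2 : Real.log a / Real.log 2 < ((Nat.log 2 d + 1 : ℕ) : ℝ) := by
          rw [div_lt_iff₀ hl20, ← Real.log_pow]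
          apply Real.log_lt_log ha0
          refine lt_of_le_of_lt e1 ?_
          exact_mod_cast Nat.lt_pow_succ_log_self (b := 2) (by norm_num) d
        have h3 : ⌊Real.log a / Real.log 2⌋₊ < Nat.log 2 d + 1 := by
          rw [Nat.floor_lt (by positivity)]
          exact h2
        omega
      · apply Nat.le_floor
        rw [le_div_iff₀ hl20, ← Real.log_pow]
        apply Real.log_le_log (by positivity)
        refine le_trans ?_ e2
        exact_mod_cast Nat.pow_log_le_self 2 (by omega)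
    have h2 := card_le_card h1
    rw [Nat.card_Icc] at h2
    have h3 : (⌊Real.log b / Real.log 2⌋₊ : ℝ) ≤ Real.log b / Real.log 2 :=
      Nat.floor_le (div_nonneg (by linarith) hl20.le)
    have h4 : Real.log a / Real.log 2 < (⌊Real.log a / Real.log 2⌋₊ : ℝ) + 1 := Nat.lt_floor_add_one _
    have h5 : (I.card : ℝ) ≤ (⌊Real.log b / Real.log 2⌋₊ : ℝ) + 1 - (⌊Real.log a / Real.log 2⌋₊ : ℝ) := by
      have h6 : ⌊Real.log a / Real.log 2⌋₊ ≤ ⌊Real.log b / Real.log 2⌋₊ :=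
        Nat.floor_le_floor (div_le_div_of_nonneg_right hlab hl20.le)
      have h7 : ((I.card : ℕ) : ℝ) ≤ ((⌊Real.log b / Real.log 2⌋₊ + 1 - ⌊Real.log a / Real.log 2⌋₊ : ℕ) : ℝ) := by
        exact_mod_cast h2
      rw [Nat.cast_sub (by omega)] at h7
      push_cast at h7
      exact h7
    have h8 : (Real.log b - Real.log a) / Real.log 2 ≤ 2 * (Real.log b - Real.log a) := by
      rw [div_le_iff₀ hl20]
      nlinarith
    rw [sub_div] at h8
    linarith
  calc (I.card : ℝ) * (2 * C * Real.exp (-(1 / 2 * Real.log (Real.log a)))) ≤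
        2 * (Real.log b - Real.log a + 1) * (2 * C * Real.exp (-(1 / 2 * Real.log (Real.log a)))) :=
        mul_le_mul_of_nonneg_right hcard (by positivity)
    _ = _ := by ring

/-- the two weights dominate the constant function -/
lemma dom (w : ℕ) (t : ℝ) : 1 ≤ Real.exp (-(4 / 3 * Real.log (4 / 3) * t)) * (4 / 3 : ℝ) ^ w +
    Real.exp (4 / 3 * Real.log 2 * t) * (1 / 2 : ℝ) ^ w := by
  have h1 : (4 / 3 : ℝ) ^ w = Real.exp (w * Real.log (4 / 3)) := by
    rw [← Real.log_pow, Real.exp_log (by positivity)]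
  have h2 : (1 / 2 : ℝ) ^ w = Real.exp (-(w * Real.log 2)) := by
    rw [← Real.log_pow, Real.exp_neg, Real.exp_log (by positivity), one_div, inv_pow]
  rw [h1, h2, ← Real.exp_add, ← Real.exp_add]
  have hl1 : 0 < Real.log (4 / 3) := Real.log_pos (by norm_num)
  have hl2 : 0 < Real.log 2 := Real.log_pos (by norm_num)
  rcases le_total (4 / 3 * t) w with h | h
  · have h3 : 0 ≤ -(4 / 3 * Real.log (4 / 3) * t) + w * Real.log (4 / 3) := by nlinarith
    have h4 := Real.one_le_exp h3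
    have h5 := Real.exp_pos (4 / 3 * Real.log 2 * t + -(w * Real.log 2))
    linarith
  · have h3 : 0 ≤ 4 / 3 * Real.log 2 * t + -(w * Real.log 2) := by nlinarith
    have h4 := Real.one_le_exp h3
    have h5 := Real.exp_pos (-(4 / 3 * Real.log (4 / 3) * t) + w * Real.log (4 / 3))
    linarith

/-- the harmonic sum over the integers with a divisor in a short interval -/
theorem total : ∃ C : ℝ, 0 < C ∧ ∀ (Y : ℕ) (a b : ℝ), 3 ≤ Y → 3 ≤ a → a ≤ b → ∀ M : Finset ℕ,
    (∀ m ∈ M, (1 ≤ m ∧ m ≤ Y) ∧ ∃ d, d ∣ m ∧ a ≤ (d : ℝ) ∧ (d : ℝ) ≤ b) → ∀ t : ℝ,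
    ∑ m ∈ M, GG m ^ 2 / m ≤
      C * (Real.exp (4 / 3 * Real.log (Real.log Y) - 4 / 3 * Real.log (4 / 3) * t) +
        Real.exp (4 / 3 * Real.log 2 * t + 1 / 2 * Real.log (Real.log Y) -
          1 / 2 * Real.log (Real.log a)) * (Real.log b - Real.log a + 1)) := by
  classical
  obtain ⟨C₁, hC₁, h1⟩ := harm
  obtain ⟨C₂, hC₂, h2⟩ := mult
  obtain ⟨C₃, hC₃, h3⟩ := narrow
  refine ⟨C₁ + C₂ * C₃, by positivity, fun Y a b hY ha hab M hM t => ?_⟩
  have ha0 : 0 < a := by linarith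
  have hlab : Real.log a ≤ Real.log b := Real.log_le_log ha0 hab
  obtain ⟨A, hA⟩ : ∃ A, A = Real.exp (-(4 / 3 * Real.log (4 / 3) * t)) := ⟨_, rfl⟩
  obtain ⟨B, hB⟩ : ∃ B, B = Real.exp (4 / 3 * Real.log 2 * t) := ⟨_, rfl⟩
  have hA0 : 0 ≤ A := by rw [hA]; positivity
  have hB0 : 0 ≤ B := by rw [hB]; positivity
  have hG0 : ∀ q, 0 ≤ (fun q => 4 / 3 * ga q) q := fun q => by
    have := ga_nonneg q
    positivity
  have hH0 : ∀ q, 0 ≤ (fun q => 1 / 2 * ga q) q := fun q => by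
    have := ga_nonneg q
    positivity
  have hterm : ∀ m ∈ M, GG m ^ 2 / (m : ℝ) ≤ A * (ff (fun q => 4 / 3 * ga q) m / m) +
      B * (ff (fun q => 1 / 2 * ga q) m / m) := by
    intro m hm
    obtain ⟨⟨hm1, _⟩, _⟩ := hM m hm
    have hm0 : (0 : ℝ) < m := by exact_mod_cast hm1
    rw [ff_smul, ff_smul, ← GG_sq hm1]
    have hd := dom m.primeFactors.card t
    rw [← hA, ← hB] at hd
    have h4 : 0 ≤ GG m ^ 2 / (m : ℝ) := by positivity
    calc GG m ^ 2 / (m : ℝ) = 1 * (GG m ^ 2 / m) := (one_mul _).symm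
      _ ≤ (A * (4 / 3) ^ m.primeFactors.card + B * (1 / 2) ^ m.primeFactors.card) * (GG m ^ 2 / m) :=
          mul_le_mul_of_nonneg_right hd h4
      _ = _ := by ring
  refine (sum_le_sum hterm).trans ?_
  rw [sum_add_distrib, ← mul_sum, ← mul_sum]
  have hfirst : ∑ m ∈ M, ff (fun q => 4 / 3 * ga q) m / (m : ℝ) ≤
      C₁ * Real.exp (4 / 3 * Real.log (Real.log Y)) := by
    have h4 := h1 (fun q => 4 / 3 * ga q) (4 / 3) 0 (by norm_num) (by norm_num) hG0
      (fun q => by have := ga_le q; show 4 / 3 * ga q ≤ 8; linarith) Y hY (by rw [add_zero])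
    rw [Real.exp_zero, mul_one] at h4
    refine le_trans ?_ h4
    apply sum_le_sum_of_subset_of_nonneg
    · intro m hm
      rw [mem_Icc]
      exact (hM m hm).1
    · intro m _ _
      exact div_nonneg (ff_nonneg hG0 m) (Nat.cast_nonneg _)
  have hsecond : ∑ m ∈ M, ff (fun q => 1 / 2 * ga q) m / (m : ℝ) ≤
      C₂ * Real.exp (1 / 2 * Real.log (Real.log Y)) *
        (C₃ * (Real.log b - Real.log a + 1) * Real.exp (-(1 / 2 * Real.log (Real.log a)))) := by
    obtain ⟨S, hS⟩ : ∃ S : Finset ℕ, S = (Icc (1 : ℕ) Y).filter (fun d : ℕ => a ≤ (d : ℝ) ∧ (d : ℝ) ≤ b) := ⟨_, rfl⟩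
    have h4 : M ⊆ (S ×ˢ Icc 1 Y).image (fun z => z.1 * z.2) := by
      intro m hm
      obtain ⟨⟨hm1, hm2⟩, d, ⟨e, he⟩, hd1, hd2⟩ := hM m hm
      have hd0 : d ≠ 0 := by
        rintro rfl
        rw [zero_mul] at he
        omega
      have he0 : e ≠ 0 := by
        rintro rfl
        rw [mul_zero] at he
        omega
      have hdm : d ≤ m := by
        rw [he]
        exact Nat.le_mul_of_pos_right _ (by omega)
      have hem : e ≤ m := by
        rw [he]
        exact Nat.le_mul_of_pos_left _ (by omega)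
      rw [mem_image]
      refine ⟨(d, e), ?_, he.symm⟩
      rw [mem_product, hS, mem_filter, mem_Icc, mem_Icc]
      exact ⟨⟨⟨by simp only; omega, by simp only; omega⟩, hd1, hd2⟩, by simp only; omega, by simp only; omega⟩
    have hnn : ∀ m : ℕ, 0 ≤ ff (fun q => 1 / 2 * ga q) m / (m : ℝ) := fun m =>
      div_nonneg (ff_nonneg hH0 m) (Nat.cast_nonneg _)
    calc ∑ m ∈ M, ff (fun q => 1 / 2 * ga q) m / (m : ℝ) ≤
          ∑ m ∈ (S ×ˢ Icc 1 Y).image (fun z => z.1 * z.2), ff (fun q => 1 / 2 * ga q) m / (m : ℝ) :=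
          sum_le_sum_of_subset_of_nonneg h4 fun m _ _ => hnn m
      _ ≤ ∑ z ∈ S ×ˢ Icc 1 Y, ff (fun q => 1 / 2 * ga q) (z.1 * z.2) / ((z.1 * z.2 : ℕ) : ℝ) := by
          apply sum_image_le_of_nonneg
          intro z _
          exact hnn _
      _ = ∑ d ∈ S, ∑ e ∈ Icc 1 Y, ff (fun q => 1 / 2 * ga q) (d * e) / ((d * e : ℕ) : ℝ) := by
          rw [sum_product]
      _ ≤ ∑ d ∈ S, C₂ * Real.exp (1 / 2 * Real.log (Real.log Y)) * (ff g3 d / d) := by
          apply sum_le_sum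
          intro d hd
          rw [hS, mem_filter, mem_Icc] at hd
          exact h2 d Y hd.1.1 hY
      _ = C₂ * Real.exp (1 / 2 * Real.log (Real.log Y)) * ∑ d ∈ S, ff g3 d / d := by rw [mul_sum]
      _ ≤ _ := by
          apply mul_le_mul_of_nonneg_left _ (by positivity)
          apply h3 a b ha hab S
          intro d hd
          rw [hS, mem_filter] at hd
          exact hd.2
  have e1 : Real.exp (4 / 3 * Real.log (Real.log Y) - 4 / 3 * Real.log (4 / 3) * t) =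
      A * Real.exp (4 / 3 * Real.log (Real.log Y)) := by
    rw [hA, ← Real.exp_add]
    congr 1
    ring
  have e2 : Real.exp (4 / 3 * Real.log 2 * t + 1 / 2 * Real.log (Real.log Y) -
          1 / 2 * Real.log (Real.log a)) = B * Real.exp (1 / 2 * Real.log (Real.log Y)) *
          Real.exp (-(1 / 2 * Real.log (Real.log a))) := by
    rw [hB, ← Real.exp_add, ← Real.exp_add]
    congr 1
  rw [e1, e2]
  have f1 := mul_le_mul_of_nonneg_left hfirst hA0
  have f2 := mul_le_mul_of_nonneg_left hsecond hB0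
  have p1 : 0 ≤ C₂ * C₃ * (A * Real.exp (4 / 3 * Real.log (Real.log Y))) := by positivity
  have p2 : 0 ≤ C₁ * (B * Real.exp (1 / 2 * Real.log (Real.log Y)) *
    Real.exp (-(1 / 2 * Real.log (Real.log a))) * (Real.log b - Real.log a + 1)) := by
    apply mul_nonneg hC₁.le
    apply mul_nonneg (by positivity)
    linarith
  nlinarith

end Run7.h293.Wt
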